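import Mathlib

-- part Pool.Agent.Lib.MP_12eca1_ag.Deriv
section

/-!
Extension of derivations to fields of characteristic zero, and derivations on algebraic elements.
-/

namespace Pool.Agent.Lib.MP_12eca1_ag

open TrivSqZeroExt

section ext

variable {k K : Type*} [Field k] [Field K] [Algebra k K]

lemma formallySmooth_of_charZero [CharZero k] : Algebra.FormallySmooth k K := by
  obtain ⟨s, hs⟩ := exists_isTranscendenceBasis k K
  have h1 : Algebra.IsAlgebraic (IntermediateField.adjoin k (Set.range ((↑) : s → K))) K :=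
    hs.isAlgebraic_field
  have : CharZero (IntermediateField.adjoin k (Set.range ((↑) : s → K))) :=
    algebraRat.charZero _
  exact .of_algebraicIndependent_of_isSeparable hs.1

/-- the dual number `v + a ε` -/
noncomputable abbrev dual (v a : K) : TrivSqZeroExt K K := inl v + inr a

lemma fst_aeval_dual {σ : Type*} (v a : σ → K) (P : MvPolynomial σ k) :
    (MvPolynomial.aeval (fun i => dual (v i) (a i)) P).fst = MvPolynomial.aeval v P := by
  have : (fstHom k K K).comp (MvPolynomial.aeval (fun i => dual (v i) (a i))) =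
      MvPolynomial.aeval v := by
    apply MvPolynomial.algHom_ext
    intro i
    simp [dual]
  exact DFunLike.congr_fun this P

lemma exists_lift_of_field {F : Type*} [Field F] [CharZero F] [Algebra F K]
    (χ : F →+* TrivSqZeroExt K K) (hχ : ∀ x, (χ x).fst = algebraMap F K x) :
    ∃ Φ : K →+* TrivSqZeroExt K K, (∀ x, (Φ x).fst = x) ∧ ∀ x, Φ (algebraMap F K x) = χ x := by
  have hsm : Algebra.FormallySmooth F K := formallySmooth_of_charZero
  let inst : Algebra F (TrivSqZeroExt K K) := χ.toAlgebra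
  let g : TrivSqZeroExt K K →ₐ[F] K :=
    { (fstHom K K K).toRingHom with commutes' := fun x => hχ x }
  have hg : Function.Surjective g := fun x => ⟨inl x, rfl⟩
  have hg' : IsNilpotent (RingHom.ker (g : TrivSqZeroExt K K →+* K)) := by
    refine ⟨2, ?_⟩
    rw [Ideal.zero_eq_bot, eq_bot_iff, Submodule.pow_succ, Submodule.pow_one, Ideal.mul_le]
    intro r hr s hs
    have hr' : r.fst = 0 := hr
    have hs' : s.fst = 0 := hs
    rw [Ideal.mem_bot]
    ext <;> simp [hr', hs']
  let Φ := Algebra.FormallySmooth.liftOfSurjective (AlgHom.id F K) g hg hg'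
  refine ⟨Φ.toRingHom, fun x => ?_, fun x => Φ.commutes x⟩
  exact Algebra.FormallySmooth.liftOfSurjective_apply (AlgHom.id F K) g hg hg' x

open scoped IntermediateField.algebraAdjoinAdjoin in
theorem exists_derivation [CharZero k] {σ : Type*} (v a : σ → K)
    (h : ∀ P : MvPolynomial σ k, MvPolynomial.aeval v P = 0 →
      (MvPolynomial.aeval (fun i => dual (v i) (a i)) P).snd = 0) :
    ∃ D : Derivation k K K, ∀ i, D (v i) = a i := by
  classical
  set A := Algebra.adjoin k (Set.range v) with hA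
  set F := IntermediateField.adjoin k (Set.range v) with hF
  let ψ : MvPolynomial σ k →ₐ[k] TrivSqZeroExt K K :=
    MvPolynomial.aeval (fun i => dual (v i) (a i))
  have hmem : ∀ P : MvPolynomial σ k, MvPolynomial.aeval v P ∈ A := by
    intro P
    rw [hA, Algebra.adjoin_range_eq_range_aeval]
    exact ⟨P, rfl⟩
  let π : MvPolynomial σ k →ₐ[k] A := (MvPolynomial.aeval v).codRestrict A hmem
  have hπ : Function.Surjective π := by
    rintro ⟨x, hx⟩
    rw [hA, Algebra.adjoin_range_eq_range_aeval] at hx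
    obtain ⟨P, rfl⟩ := hx
    exact ⟨P, rfl⟩
  have hker : RingHom.ker π ≤ RingHom.ker ψ := by
    intro P hP
    have h0 : MvPolynomial.aeval v P = 0 := congrArg Subtype.val hP
    rw [RingHom.mem_ker]
    ext
    · simpa [ψ, fst_aeval_dual] using h0
    · simpa [ψ] using h P h0
  let ψ' : A →ₐ[k] TrivSqZeroExt K K := AlgHom.liftOfSurjective π hπ ψ hker
  have hψπ : ∀ P, ψ' (π P) = ψ P := fun P => AlgHom.liftOfSurjective_apply π hπ ψ hker P
  have hψ' : ∀ x : A, (ψ' x).fst = x := by
    intro x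
    obtain ⟨P, rfl⟩ := hπ x
    rw [hψπ]
    exact fst_aeval_dual v a P
  have hunit : ∀ y : nonZeroDivisors A, IsUnit (ψ' y) := by
    intro y
    rw [isUnit_iff_isUnit_fst, hψ', isUnit_iff_ne_zero]
    exact fun h0 => nonZeroDivisors.coe_ne_zero y (Subtype.ext h0)
  let χ : F →ₐ[k] TrivSqZeroExt K K := IsLocalization.liftAlgHom (M := nonZeroDivisors A) hunit
  have hχA : ∀ x : A, χ (algebraMap A F x) = ψ' x := fun x => IsLocalization.lift_eq hunit x
  have hχ : ∀ x : F, (χ x).fst = algebraMap F K x := by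
    have : ((fstHom k K K).toRingHom.comp χ.toRingHom) = algebraMap F K := by
      apply IsLocalization.ringHom_ext (nonZeroDivisors A)
      ext x
      simp only [RingHom.coe_comp, Function.comp_apply, AlgHom.toRingHom_eq_coe, RingHom.coe_coe]
      rw [hχA]
      exact hψ' x
    exact fun x => DFunLike.congr_fun this x
  have : CharZero F := algebraRat.charZero _
  obtain ⟨Φ, hΦ1, hΦ2⟩ := exists_lift_of_field χ.toRingHom hχ
  have hΦk : ∀ c : k, Φ (algebraMap k K c) = inl (algebraMap k K c) := by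
    intro c
    rw [IsScalarTower.algebraMap_apply k F K, hΦ2]
    exact χ.commutes c
  let D : K →ₗ[k] K :=
    { toFun := fun x => (Φ x).snd
      map_add' := fun x y => by simp
      map_smul' := fun c x => by
        simp [Algebra.smul_def, hΦk] }
  refine ⟨Derivation.mk' D fun x y => ?_, fun i => ?_⟩
  · simp [D, hΦ1, mul_comm]
  · have h1 : v i = algebraMap F K (algebraMap A F (π (MvPolynomial.X i))) := by
      change v i = MvPolynomial.aeval v (MvPolynomial.X i : MvPolynomial σ k)
      simp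
    change (Φ (v i)).snd = a i
    rw [h1, hΦ2]
    change (χ _).snd = _
    rw [hχA, hψπ]
    simp [ψ, dual]

end ext

section ker

variable {k K : Type*} [Field k] [Field K] [Algebra k K]

/-- the field of constants of a derivation -/
def kerField (D : Derivation k K K) : IntermediateField k K where
  carrier := {x | D x = 0}
  mul_mem' := fun {a b} ha hb => by
    simp only [Set.mem_ofPred_eq] at *
    simp [ha, hb]
  add_mem' := fun {a b} ha hb => by
    simp only [Set.mem_ofPred_eq] at *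
    simp [ha, hb]
  algebraMap_mem' := fun r => D.map_algebraMap r
  inv_mem' := fun x hx => by
    simp only [Set.mem_ofPred_eq] at *
    simp [D.leibniz_inv, hx]

lemma mem_kerField (D : Derivation k K K) (x : K) : x ∈ kerField D ↔ D x = 0 := Iff.rfl

/-- a derivation killing the image of `E` is a derivation over `E` -/
def overField (D : Derivation k K K) (E : Type*) [Field E] [Algebra E K]
    (h : ∀ c : E, D (algebraMap E K c) = 0) : Derivation E K K :=
  Derivation.mk'
    { toFun := D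
      map_add' := D.map_add
      map_smul' := fun c x => by simp [Algebra.smul_def, h] }
    (fun a b => D.leibniz a b)

@[simp] lemma overField_apply (D : Derivation k K K) (E : Type*) [Field E] [Algebra E K]
    (h : ∀ c : E, D (algebraMap E K c) = 0) (x : K) : overField D E h x = D x := rfl

lemma eq_zero_of_isAlgebraic [CharZero k] (D : Derivation k K K) {x : K}
    (hx : IsAlgebraic k x) : D x = 0 := by
  have hi := hx.isIntegral
  have h1 := D.map_aeval (minpoly k x) x
  rw [minpoly.aeval, map_zero] at h1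
  have h2 := (minpoly.irreducible hi).separable.aeval_derivative_ne_zero (minpoly.aeval k x)
  rw [smul_eq_mul] at h1
  exact (mul_eq_zero.mp h1.symm).resolve_left h2

lemma eq_zero_of_isAlgebraic_adjoin [CharZero k] (D : Derivation k K K) {B : Set K}
    (hB : ∀ b ∈ B, D b = 0) {x : K} (hx : IsAlgebraic (Algebra.adjoin k B) x) : D x = 0 := by
  have hle : Algebra.adjoin k B ≤ (kerField D).toSubalgebra := Algebra.adjoin_le hB
  have hx' : IsAlgebraic (kerField D) x := hx.tower_top_of_subalgebra_le hle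
  have : CharZero (kerField D) := algebraRat.charZero _
  exact eq_zero_of_isAlgebraic (overField D (kerField D) fun c => c.2) hx'

end ker

end Pool.Agent.Lib.MP_12eca1_ag
end

-- part Pool.Agent.Lib.MP_12eca1_ag.Residue
section

/-!
A sum of logarithmic derivatives with rationally independent constant coefficients is a
derivative only in the trivial way (residue argument).
-/

namespace Pool.Agent.Lib.MP_12eca1_ag

open Polynomial IntermediateField

section res

variable {C K : Type*} [Field C] [Field K] [Algebra C K]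

/-- rational functions of `t` which are regular at `t = 0` -/
def reg (C : Type*) {K : Type*} [Field C] [Field K] [Algebra C K] (t : K) : Subalgebra C K where
  carrier := {f | ∃ a b : C[X], b.coeff 0 ≠ 0 ∧ f * aeval t b = aeval t a}
  mul_mem' := by
    rintro f g ⟨a, b, hb, h⟩ ⟨c, d, hd, h'⟩
    refine ⟨a * c, b * d, by simp [hb, hd], ?_⟩
    rw [map_mul, map_mul, ← h, ← h']; ring
  add_mem' := by
    rintro f g ⟨a, b, hb, h⟩ ⟨c, d, hd, h'⟩
    refine ⟨a * d + c * b, b * d, by simp [hb, hd], ?_⟩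
    rw [map_add, map_mul, map_mul, map_mul, ← h, ← h']; ring
  algebraMap_mem' := fun r => ⟨Polynomial.C r, 1, by simp, by simp⟩

lemma aeval_mem_reg (t : K) (a : C[X]) : aeval t a ∈ reg C t := ⟨a, 1, by simp, by simp⟩

lemma self_mem_reg (t : K) : t ∈ reg C t := by simpa using aeval_mem_reg t (X : C[X])

lemma aeval_ne_zero_of_transc {t : K} (ht : Transcendental C t) {a : C[X]} (ha : a ≠ 0) :
    aeval t a ≠ 0 := fun h => ht ⟨a, ha, h⟩

lemma inv_aeval_mem_reg {t : K} (ht : Transcendental C t) {a : C[X]} (ha : a.coeff 0 ≠ 0) :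
    (aeval t a)⁻¹ ∈ reg C t := by
  have h0 : a ≠ 0 := by rintro rfl; simp at ha
  exact ⟨1, a, ha, by simp [aeval_ne_zero_of_transc ht h0]⟩

lemma const_eq_zero {t : K} (ht : Transcendental C t) {c : C} {r : K} (hr : r ∈ reg C t)
    (h : algebraMap C K c = t * r) : c = 0 := by
  obtain ⟨a, b, hb, hab⟩ := hr
  have h1 : aeval t (Polynomial.C c * b - X * a) = 0 := by
    rw [map_sub, map_mul, map_mul, aeval_C, aeval_X, h, ← hab]; ring
  have h2 : Polynomial.C c * b - X * a = 0 := by
    by_contra h2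
    exact aeval_ne_zero_of_transc ht h2 h1
  have h3 := congrArg (fun p => p.coeff 0) h2
  simp only [coeff_sub, mul_coeff_zero, coeff_C_zero, coeff_X_zero, zero_mul, sub_zero,
    coeff_zero, mul_eq_zero] at h3
  exact h3.resolve_right hb

lemma decomp_poly {t : K} (ht : Transcendental C t) (δ : Derivation C K K) (hδ : δ t = 1)
    {a : C[X]} (ha : a ≠ 0) :
    ∃ (e : ℕ) (w r : K), w ∈ reg C t ∧ w⁻¹ ∈ reg C t ∧ w ≠ 0 ∧ r ∈ reg C t ∧
      aeval t a = t ^ e * w ∧ δ w = w * r := by
  obtain ⟨q, hq, hnd⟩ := a.exists_eq_pow_rootMultiplicity_mul_and_not_dvd ha 0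
  simp only [map_zero, sub_zero] at hq hnd
  rw [X_dvd_iff] at hnd
  have hq0 : q ≠ 0 := by rintro rfl; simp at hnd
  have hw := aeval_ne_zero_of_transc ht hq0
  refine ⟨rootMultiplicity 0 a, aeval t q, aeval t (derivative q) * (aeval t q)⁻¹,
    aeval_mem_reg _ _, inv_aeval_mem_reg ht hnd, hw,
    mul_mem (aeval_mem_reg _ _) (inv_aeval_mem_reg ht hnd), ?_, ?_⟩
  · conv_lhs => rw [hq]
    simp
  · rw [δ.map_aeval, hδ]
    field_simp
    simp

lemma decomp {t : K} (ht : Transcendental C t) (δ : Derivation C K K) (hδ : δ t = 1)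
    {f : K} (hf : f ∈ C⟮t⟯) (hf0 : f ≠ 0) :
    ∃ (e : ℤ) (w r : K), w ∈ reg C t ∧ w⁻¹ ∈ reg C t ∧ w ≠ 0 ∧ r ∈ reg C t ∧
      f = t ^ e * w ∧ t * δ f = f * (e + t * r) := by
  obtain ⟨a, b, rfl⟩ := (mem_adjoin_simple_iff C f).1 hf
  have ha : a ≠ 0 := by rintro rfl; simp at hf0
  have hb : b ≠ 0 := by rintro rfl; simp at hf0
  have ht0 : t ≠ 0 := by simpa using aeval_ne_zero_of_transc ht (X_ne_zero (R := C))
  obtain ⟨e1, w1, r1, h11, h12, h13, h14, h15, h16⟩ := decomp_poly ht δ hδ ha
  obtain ⟨e2, w2, r2, h21, h22, h23, h24, h25, h26⟩ := decomp_poly ht δ hδ hb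
  have key : aeval t a / aeval t b = t ^ ((e1 : ℤ) - e2) * (w1 * w2⁻¹) := by
    rw [h15, h25, zpow_sub₀ ht0, zpow_natCast, zpow_natCast]
    field_simp
  refine ⟨(e1 : ℤ) - e2, w1 * w2⁻¹, r1 - r2, mul_mem h11 h22, ?_, by simp [h13, h23],
    sub_mem h14 h24, key, ?_⟩
  · rw [mul_inv, inv_inv]; exact mul_mem h12 h21
  · rw [key, δ.leibniz, δ.leibniz, δ.leibniz_inv, δ.leibniz_zpow, h16, h26, hδ,
      zpow_sub_one₀ ht0]
    simp only [smul_eq_mul, zsmul_eq_mul]
    field_simp
    ring

lemma deriv_no_residue [CharZero C] {t : K} (ht : Transcendental C t) (δ : Derivation C K K)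
    (hδ : δ t = 1) {g : K} (hg : g ∈ C⟮t⟯) {c : C} {r : K} (hr : r ∈ reg C t)
    (h : t * δ g = algebraMap C K c + t * r) : c = 0 := by
  have ht0 : t ≠ 0 := by simpa using aeval_ne_zero_of_transc ht (X_ne_zero (R := C))
  have htr := self_mem_reg (C := C) t
  by_cases hg0 : g = 0
  · refine const_eq_zero ht (neg_mem hr) ?_
    rw [hg0, map_zero] at h
    linear_combination -h
  obtain ⟨e, w, r', hw, hw', hw0, hr', hge, hδg⟩ := decomp ht δ hδ hg hg0
  rw [h, hge] at hδg
  have hint : ∀ n : ℤ, (n : K) ∈ reg C t := fun n => intCast_mem _ n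
  rcases lt_trichotomy e 0 with he | he | he
  · exfalso
    obtain ⟨m, hm⟩ : ∃ m : ℕ, e = -((m : ℤ) + 1) := ⟨(-e - 1).toNat, by omega⟩
    have h1 : algebraMap C K (e : C) =
        t * (t ^ m * (algebraMap C K c + t * r) * w⁻¹ - r') := by
      rw [hδg, map_intCast, hm, zpow_neg, zpow_add_one₀ ht0, zpow_natCast]
      field_simp
      ring
    have h2 := const_eq_zero ht (sub_mem (mul_mem (mul_mem (pow_mem htr m)
      (add_mem (Subalgebra.algebraMap_mem _ c) (mul_mem htr hr))) hw') hr') h1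
    have : e = 0 := by exact_mod_cast h2
    omega
  · refine const_eq_zero ht (sub_mem (mul_mem hw hr') hr) ?_
    rw [he] at hδg
    simp only [zpow_zero, one_mul, Int.cast_zero, zero_add] at hδg
    linear_combination hδg
  · obtain ⟨m, hm⟩ : ∃ m : ℕ, e = (m : ℤ) + 1 := ⟨(e - 1).toNat, by omega⟩
    refine const_eq_zero ht (sub_mem (mul_mem (mul_mem (pow_mem htr m) hw)
      (add_mem (hint e) (mul_mem htr hr'))) hr) ?_
    rw [hm, zpow_add_one₀ ht0, zpow_natCast] at hδg
    rw [hm]
    linear_combination hδg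

lemma logDeriv_prod (δ : Derivation C K K) {ι : Type*} (s : Finset ι) (f : ι → K)
    (hf : ∀ i ∈ s, f i ≠ 0) :
    δ (∏ i ∈ s, f i) / ∏ i ∈ s, f i = ∑ i ∈ s, δ (f i) / f i := by
  classical
  induction s using Finset.induction_on with
  | empty => simp
  | insert a s ha ih =>
    have h1 : f a ≠ 0 := hf a (Finset.mem_insert_self _ _)
    have h2 : ∀ i ∈ s, f i ≠ 0 := fun i hi => hf i (Finset.mem_insert_of_mem hi)
    have h3 : ∏ i ∈ s, f i ≠ 0 := Finset.prod_ne_zero_iff.mpr h2
    rw [Finset.prod_insert ha, Finset.sum_insert ha, ← ih h2, δ.leibniz]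
    simp only [smul_eq_mul]
    field_simp
    ring

lemma comm_aut [CharZero C] {t : K} (δ : Derivation C K K) (hδ : δ t = 1)
    [Algebra.IsAlgebraic C⟮t⟯ K] (σ : K ≃ₐ[C⟮t⟯] K) (x : K) : δ (σ x) = σ (δ x) := by
  let τ : K ≃ₐ[C] K := σ.restrictScalars C
  let D : Derivation C K K := Derivation.mk'
    { toFun := fun y => τ.symm (δ (τ y)) - δ y
      map_add' := fun a b => by simp only [map_add]; ring
      map_smul' := fun c a => by simp only [map_smul, Derivation.map_smul, RingHom.id_apply, smul_sub] }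
    (fun a b => by
      simp only [map_mul, Derivation.leibniz, smul_eq_mul, map_add, AlgEquiv.symm_apply_apply,
        LinearMap.coe_mk, AddHom.coe_mk]
      ring)
  have ht : τ t = t := σ.commutes (⟨t, mem_adjoin_simple_self C t⟩ : C⟮t⟯)
  have hD : D x = 0 := by
    apply eq_zero_of_isAlgebraic_adjoin D (B := {t})
    · intro b hb
      rw [Set.mem_singleton_iff.mp hb]
      change τ.symm (δ (τ t)) - δ t = 0
      rw [ht, hδ, map_one, sub_self]
    · exact (IntermediateField.isAlgebraic_adjoin_iff).mp (Algebra.IsAlgebraic.isAlgebraic x)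
  have h1 : τ.symm (δ (τ x)) = δ x := sub_eq_zero.mp hD
  have h2 := congrArg τ h1
  rw [AlgEquiv.apply_symm_apply] at h2
  exact h2

theorem residue_core [CharZero C] [IsAlgClosed K] {t : K} (ht : Transcendental C t)
    [Algebra.IsAlgebraic C⟮t⟯ K] (δ : Derivation C K K) (hδ : δ t = 1) {ι : Type*} [Fintype ι]
    (γ : ι → C) (hγ : LinearIndependent ℚ γ) (v : ι → K) (hv : ∀ j, v j ≠ 0) (u : K)
    (h : ∑ j, algebraMap C K (γ j) * (δ (v j) / v j) = δ u) (j0 : ι) (hj0 : v j0 = t) :
    False := by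
  classical
  have ht0 : t ≠ 0 := by simpa using aeval_ne_zero_of_transc ht (X_ne_zero (R := C))
  have : CharZero C⟮t⟯ := algebraRat.charZero _
  have : CharZero K := charZero_of_injective_algebraMap (algebraMap C K).injective
  set E := IntermediateField.adjoin C⟮t⟯ (insert u (Set.range v)) with hE
  have hfin : FiniteDimensional C⟮t⟯ E :=
    finiteDimensional_adjoin fun x _ => (Algebra.IsAlgebraic.isAlgebraic x).isIntegral
  have hnormal : Normal C⟮t⟯ K := by
    have : IsAlgClosure C⟮t⟯ K := ⟨inferInstance, inferInstance⟩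
    infer_instance
  let uE : E := ⟨u, subset_adjoin _ _ (Set.mem_insert _ _)⟩
  let vE : ι → E := fun j => ⟨v j, subset_adjoin _ _ (Set.mem_insert_of_mem _ ⟨j, rfl⟩)⟩
  have hσ : ∀ σ : E →ₐ[C⟮t⟯] K,
      ∑ j, algebraMap C K (γ j) * (δ (σ (vE j)) / σ (vE j)) = δ (σ uE) := by
    intro σ
    let τ : K ≃ₐ[C⟮t⟯] K := AlgEquiv.ofBijective (σ.liftNormal K)
      (Algebra.IsAlgebraic.algHom_bijective _)
    have hτ : ∀ x : E, τ (x : K) = σ x := fun x => σ.liftNormal_commutes K x
    have h1 := congrArg τ h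
    rw [map_sum, ← comm_aut δ hδ] at h1
    rw [← hτ uE, ← h1]
    refine Finset.sum_congr rfl fun j _ => ?_
    rw [map_mul, map_div₀, ← comm_aut δ hδ, ← hτ (vE j), IsScalarTower.algebraMap_apply C C⟮t⟯ K,
      AlgEquiv.commutes]
  let V : ι → K := fun j => algebraMap C⟮t⟯ K (Algebra.norm C⟮t⟯ (vE j))
  let U : K := algebraMap C⟮t⟯ K (Algebra.trace C⟮t⟯ E uE)
  have hV : ∀ j, V j = ∏ σ : E →ₐ[C⟮t⟯] K, σ (vE j) := fun j =>
    Algebra.norm_eq_prod_embeddings _ _ _
  have hU : U = ∑ σ : E →ₐ[C⟮t⟯] K, σ uE := trace_eq_sum_embeddings _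
  have hvσ : ∀ j (σ : E →ₐ[C⟮t⟯] K), σ (vE j) ≠ 0 := fun j σ => by
    rw [_root_.map_ne_zero]
    exact fun h0 => hv j (congrArg Subtype.val h0)
  have hV0 : ∀ j, V j ≠ 0 := fun j => by
    rw [hV]; exact Finset.prod_ne_zero_iff.mpr fun σ _ => hvσ j σ
  have hsum : ∑ j, algebraMap C K (γ j) * (δ (V j) / V j) = δ U := by
    rw [hU, map_sum, ← Finset.sum_congr rfl fun σ _ => hσ σ, Finset.sum_comm]
    refine Finset.sum_congr rfl fun j _ => ?_
    rw [hV, logDeriv_prod δ _ _ fun σ _ => hvσ j σ, Finset.mul_sum]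
  have hdec : ∀ j, ∃ (e : ℤ) (r : K), r ∈ reg C t ∧ t * δ (V j) = V j * (e + t * r) ∧
      (j = j0 → e ≠ 0) := by
    intro j
    by_cases hj : j = j0
    · subst hj
      have h1 : vE j = algebraMap C⟮t⟯ E ⟨t, mem_adjoin_simple_self C t⟩ := Subtype.ext hj0
      have h2 : V j = t ^ Module.finrank C⟮t⟯ E := by
        simp only [V, h1, Algebra.norm_algebraMap, map_pow]
        rfl
      have hpos : 0 < Module.finrank C⟮t⟯ E := Module.finrank_pos
      refine ⟨Module.finrank C⟮t⟯ E, 0, zero_mem _, ?_, fun _ => by omega⟩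
      obtain ⟨m, hm⟩ : ∃ m, Module.finrank C⟮t⟯ E = m + 1 := ⟨_, (Nat.succ_pred_eq_of_pos hpos).symm⟩
      rw [h2, δ.leibniz_pow, hδ, hm]
      simp
      ring
    · obtain ⟨e, w, r, -, -, -, hr, -, h2⟩ := decomp ht δ hδ
        (f := V j) (Algebra.norm C⟮t⟯ (vE j)).2 (hV0 j)
      exact ⟨e, r, hr, h2, fun h => absurd h hj⟩
  choose e r hr he he0 using hdec
  have hc : ∑ j, (e j : ℚ) • γ j = 0 := by
    refine deriv_no_residue ht δ hδ (g := U) (Algebra.trace C⟮t⟯ E uE).2
      (r := ∑ j, algebraMap C K (γ j) * r j)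
      (Subalgebra.sum_mem _ fun j _ => mul_mem (Subalgebra.algebraMap_mem _ _) (hr j)) ?_
    rw [← hsum, Finset.mul_sum, Finset.mul_sum, map_sum, ← Finset.sum_add_distrib]
    refine Finset.sum_congr rfl fun j _ => ?_
    have h1 := he j
    have h2 := hV0 j
    rw [Rat.smul_def, map_mul, map_ratCast, Rat.cast_intCast]
    field_simp
    linear_combination (algebraMap C K (γ j)) * h1
  have := Fintype.linearIndependent_iff.mp hγ (fun j => (e j : ℚ)) hc j0
  exact he0 j0 rfl (by exact_mod_cast this)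

/-- Rosenlicht type lemma. -/
theorem isAlgebraic_of_logDeriv [CharZero C] [IsAlgClosed K] {ι : Type*} [Fintype ι]
    (γ : ι → C) (hγ : LinearIndependent ℚ γ) (v : ι → K) (hv : ∀ j, v j ≠ 0) (u : K)
    (h : ∀ δ : Derivation C K K, ∑ j, algebraMap C K (γ j) * (δ (v j) / v j) = δ u) (j0 : ι) :
    IsAlgebraic C (v j0) := by
  classical
  by_contra ht
  set t := v j0 with htdef
  have h1 : AlgebraicIndepOn C _root_.id ({t} : Set K) := by
    exact (algebraicIndependent_singleton_iff (⟨t, rfl⟩ : ({t} : Set K))).mpr ht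
  obtain ⟨B, hB1, hB⟩ := exists_isTranscendenceBasis_superset h1
  have htB : t ∈ B := hB1 rfl
  obtain ⟨δ, hδ⟩ := exists_derivation (k := C) ((↑) : B → K)
    (fun b => if (b : K) = t then 1 else 0) (fun P hP => by
      have : P = 0 := hB.1 (by simpa using hP)
      simp [this])
  have hδt : δ t = 1 := by simpa using hδ ⟨t, htB⟩
  set C' := IntermediateField.adjoin C (B \ {t}) with hC'
  have hδC' : ∀ c : C', δ (algebraMap C' K c) = 0 := by
    intro c
    have : C' ≤ kerField δ := by
      rw [hC', adjoin_le_iff]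
      rintro b ⟨hb, hbt⟩
      have := hδ ⟨b, hb⟩
      rw [if_neg (show ¬ (b = t) from hbt)] at this
      exact this
    exact this c.2
  have : CharZero C' := algebraRat.charZero _
  have htr : Transcendental C' t := by
    rw [hC', IntermediateField.transcendental_adjoin_iff]
    have h2 := hB.1.transcendental_adjoin (s := {b : B | (b : K) ≠ t}) (i := ⟨t, htB⟩) (by simp)
    have h3 : B \ {t} = Subtype.val '' {b : B | (b : K) ≠ t} := by
      ext x
      simp only [Set.mem_sdiff, Set.mem_singleton_iff, Set.mem_image, Set.mem_ofPred_eq,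
        Subtype.exists, exists_and_right, exists_eq_right]
      constructor
      · rintro ⟨a, b⟩; exact ⟨a, b⟩
      · rintro ⟨a, b⟩; exact ⟨a, b⟩
    rw [h3]
    exact h2
  have halg : Algebra.IsAlgebraic C'⟮t⟯ K := by
    constructor
    intro x
    have h2 : IsAlgebraic (IntermediateField.adjoin C (Set.range ((↑) : B → K))) x :=
      hB.isAlgebraic_field.isAlgebraic x
    have hle : (IntermediateField.adjoin C (Set.range ((↑) : B → K))).toSubalgebra ≤
        (C'⟮t⟯.restrictScalars C).toSubalgebra := by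
      change IntermediateField.adjoin C (Set.range ((↑) : B → K)) ≤ C'⟮t⟯.restrictScalars C
      rw [adjoin_le_iff]
      rintro _ ⟨b, rfl⟩
      by_cases hb : (b : K) = t
      · rw [hb]; exact mem_adjoin_simple_self C' t
      · exact C'⟮t⟯.algebraMap_mem (⟨b, subset_adjoin _ _ ⟨b.2, hb⟩⟩ : C')
    exact h2.tower_top_of_subalgebra_le hle
  refine residue_core htr (overField δ C' hδC') hδt (fun j => algebraMap C C' (γ j)) ?_ v hv u
    ?_ j0 rfl
  · exact hγ.map' ((algebraMap C C').toRatAlgHom.toLinearMap)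
      (LinearMap.ker_eq_bot.mpr (algebraMap C C').injective)
  · exact h δ

end res

end Pool.Agent.Lib.MP_12eca1_ag
end

-- part Pool.Agent.Lib.MP_12eca1_ag.Ax
section

/-!
The theorem of Ax for one derivation.
-/

namespace Pool.Agent.Lib.MP_12eca1_ag

lemma exists_relation_aux {K V : Type*} [Field K] [AddCommGroup V] [Module K V]
    {ι β : Type*} [Fintype ι] [Fintype β] (hc : Fintype.card β ≤ Fintype.card ι)
    (L : β → V →ₗ[K] K) (θ : V →ₗ[K] K) (ω : ι → V →ₗ[K] K)
    (hθ : ∀ v, (∀ b, L b v = 0) → θ v = 0) (hω : ∀ i v, (∀ b, L b v = 0) → ω i v = 0)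
    (D : V) (hD : θ D ≠ 0) (hD' : ∀ i, ω i D = 0) :
    ∃ c : ι → K, c ≠ 0 ∧ ∀ v, ∑ i, c i * ω i v = 0 := by
  classical
  have hW : ∀ φ : V →ₗ[K] K, (∀ v, (∀ b, L b v = 0) → φ v = 0) →
      φ ∈ Submodule.span K (Set.range L) := by
    intro φ hφ
    apply mem_span_of_iInf_ker_le_ker
    intro δ hδ
    simp only [Submodule.mem_iInf, LinearMap.mem_ker] at hδ ⊢
    exact hφ δ hδ
  let f : Option ι → (V →ₗ[K] K) := fun o => o.elim θ ω
  have hdep : ¬ LinearIndependent K f := by
    intro hli
    have h1 := linearIndependent_le_span_aux' f hli (Set.range L) (by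
      rintro _ ⟨o, rfl⟩
      cases o with
      | none => exact hW _ hθ
      | some i => exact hW _ (hω i))
    have h2 : Fintype.card (Set.range L) ≤ Fintype.card β := Fintype.card_range_le L
    simp only [Fintype.card_option] at h1
    omega
  obtain ⟨g, hg, j, hj⟩ := Fintype.not_linearIndependent_iff.mp hdep
  have hg' : ∀ v, g none * θ v + ∑ i, g (some i) * ω i v = 0 := by
    intro v
    have h1 := congrArg (fun w : V →ₗ[K] K => w v) hg
    simpa [Fintype.sum_option, f] using h1
  have h0 : g none = 0 := by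
    have h1 := hg' D
    simp only [hD', mul_zero, Finset.sum_const_zero, add_zero] at h1
    exact (mul_eq_zero.mp h1).resolve_right hD
  refine ⟨fun i => g (some i), fun h => hj ?_, fun δ => ?_⟩
  · cases j with
    | none => exact h0
    | some i => exact congrFun h i
  · have := hg' δ
    rwa [h0, zero_mul, zero_add] at this

variable {C K : Type*} [Field C] [Field K] [Algebra C K]

/-- evaluation of a derivation at an element -/
def evD (C : Type*) {K : Type*} [Field C] [Field K] [Algebra C K] (z : K) :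
    Derivation C K K →ₗ[K] K where
  toFun δ := δ z
  map_add' _ _ := rfl
  map_smul' _ _ := rfl

@[simp] lemma evD_apply (z : K) (δ : Derivation C K K) : evD C z δ = δ z := rfl

lemma exists_relation [CharZero C] (D : Derivation C K K) {ι : Type*} [Fintype ι]
    (x y : ι → K) (hy : ∀ i, y i ≠ 0) (hD : ∀ i, D (y i) = y i * D (x i)) (i0 : ι)
    (hi0 : D (x i0) ≠ 0) (B : Finset K) (hB : B.card ≤ Fintype.card ι)
    (halg : ∀ z ∈ Set.range x ∪ Set.range y, IsAlgebraic (Algebra.adjoin C (B : Set K)) z) :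
    ∃ c : ι → K, c ≠ 0 ∧ ∀ δ : Derivation C K K, ∑ i, c i * (δ (y i) / y i - δ (x i)) = 0 := by
  have hz : ∀ z ∈ Set.range x ∪ Set.range y, ∀ δ : Derivation C K K,
      (∀ b : B, evD C (b : K) δ = 0) → δ z = 0 := fun z hz δ hδ =>
    eq_zero_of_isAlgebraic_adjoin δ (fun b hb => hδ ⟨b, hb⟩) (halg z hz)
  obtain ⟨c, hc0, hc⟩ := exists_relation_aux (ι := ι) (β := B) (by simpa using hB)
    (fun b : B => evD C (b : K)) (evD C (x i0))
    (fun i => (y i)⁻¹ • evD C (y i) - evD C (x i))
    (fun δ hδ => hz _ (Or.inl ⟨i0, rfl⟩) δ hδ)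
    (fun i δ hδ => by
      simp [hz _ (Or.inl ⟨i, rfl⟩) δ hδ, hz _ (Or.inr ⟨i, rfl⟩) δ hδ])
    D hi0 (fun i => by simp [hD, hy i])
  refine ⟨c, hc0, fun δ => ?_⟩
  rw [← hc δ]
  refine Finset.sum_congr rfl fun i _ => ?_
  simp [div_eq_inv_mul]

lemma exists_const_relation (D : Derivation C K K) {ι : Type*} [Fintype ι]
    (x y : ι → K) (hy : ∀ i, y i ≠ 0) (hD : ∀ i, D (y i) = y i * D (x i))
    (h : ∃ c : ι → K, c ≠ 0 ∧
      ∀ δ : Derivation C K K, ∑ i, c i * (δ (y i) / y i - δ (x i)) = 0) :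
    ∃ c : ι → K, c ≠ 0 ∧ (∀ i, D (c i) = 0) ∧
      ∀ δ : Derivation C K K, ∑ i, c i * (δ (y i) / y i - δ (x i)) = 0 := by
  classical
  let S : Set (ι → K) := {c | c ≠ 0 ∧
      ∀ δ : Derivation C K K, ∑ i, c i * (δ (y i) / y i - δ (x i)) = 0}
  let f : (ι → K) → ℕ := fun c => (Finset.univ.filter fun i => c i ≠ 0).card
  have hS : S.Nonempty := h
  obtain ⟨hc0, hc⟩ := Function.argminOn_mem f S hS
  have hmin : ∀ a ∈ S, f (Function.argminOn f S hS) ≤ f a := fun a ha =>
    Function.argminOn_le f S ha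
  set c := Function.argminOn f S hS
  obtain ⟨i0, hi0⟩ := Function.ne_iff.mp hc0
  have hi0' : c i0 ≠ 0 := hi0
  let c' : ι → K := fun i => c i / c i0
  have hc' : ∀ δ : Derivation C K K, ∑ i, c' i * (δ (y i) / y i - δ (x i)) = 0 := by
    intro δ
    have := congrArg (· / c i0) (hc δ)
    simp only [zero_div, Finset.sum_div] at this
    rw [← this]
    exact Finset.sum_congr rfl fun i _ => by simp only [c']; ring
  have hc'1 : c' i0 = 1 := div_self hi0'
  refine ⟨c', fun h0 => by simpa [hc'1] using congrFun h0 i0, ?_, hc'⟩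
  by_contra hne
  have hmem : (fun i => D (c' i)) ∈ S := by
    refine ⟨fun h0 => hne fun i => congrFun h0 i, fun δ => ?_⟩
    have h1 := congrArg D (hc' δ)
    have h2 := hc' ⁅D, δ⁆
    rw [map_sum, map_zero] at h1
    have h3 : ∀ i, D (c' i) * (δ (y i) / y i - δ (x i)) =
        D (c' i * (δ (y i) / y i - δ (x i))) - c' i * (⁅D, δ⁆ (y i) / y i - ⁅D, δ⁆ (x i)) := by
      intro i
      have := hy i
      rw [Derivation.commutator_apply, Derivation.commutator_apply, D.leibniz, D.map_sub,
        D.leibniz_div (δ (y i)) (y i), hD, δ.leibniz]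
      simp only [smul_eq_mul]
      field_simp
      ring
    rw [Finset.sum_congr rfl fun i _ => h3 i, Finset.sum_sub_distrib, h1, h2, sub_zero]
  have hlt : f (fun i => D (c' i)) < f c := by
    apply Finset.card_lt_card
    constructor
    · intro i hi
      simp only [Finset.mem_filter, Finset.mem_univ, true_and] at hi ⊢
      intro h0
      apply hi
      simp [c', h0]
    · intro hsub
      have : i0 ∈ Finset.univ.filter fun i => D (c' i) ≠ 0 := hsub (by simpa using hi0')
      simp [hc'1] at this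
  exact absurd (hmin _ hmem) (not_le.mpr hlt)

lemma logDeriv_prod_zpow (δ : Derivation C K K) {ι : Type*} [Fintype ι] (y : ι → K)
    (hy : ∀ i, y i ≠ 0) (n : ι → ℤ) :
    δ (∏ i, y i ^ n i) / ∏ i, y i ^ n i = ∑ i, (n i : K) * (δ (y i) / y i) := by
  rw [logDeriv_prod δ _ _ fun i _ => zpow_ne_zero _ (hy i)]
  refine Finset.sum_congr rfl fun i _ => ?_
  have := hy i
  have h2 : y i ^ n i ≠ 0 := zpow_ne_zero _ (hy i)
  rw [δ.leibniz_zpow, zpow_sub_one₀ this]
  simp only [smul_eq_mul, zsmul_eq_mul]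
  field_simp

theorem ax [CharZero C] [CharZero K] [IsAlgClosed K] (D : Derivation C K K)
    (hC : ∀ z, D z = 0 → z ∈ Set.range (algebraMap C K)) {ι : Type*} [Fintype ι] [Nonempty ι]
    (x y : ι → K) (hy : ∀ i, y i ≠ 0) (hD : ∀ i, D (y i) = y i * D (x i))
    (hli : LinearIndependent ℚ fun i => D (x i)) :
    ∃ B : Finset K, (B : Set K) ⊆ Set.range x ∪ Set.range y ∧
      AlgebraicIndependent C ((↑) : B → K) ∧ Fintype.card ι + 1 ≤ B.card := by
  classical
  obtain ⟨B0, hB0⟩ := (AlgebraicIndependent.matroid C K).exists_isBasis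
    (Set.range x ∪ Set.range y) (by simp)
  obtain ⟨hB1, hB2, hB3⟩ := AlgebraicIndependent.matroid_isBasis_iff.mp hB0
  have hfin : B0.Finite := ((Set.finite_range x).union (Set.finite_range y)).subset hB2
  obtain ⟨B, rfl⟩ := hfin.exists_finset_coe
  refine ⟨B, hB2, hB1, ?_⟩
  by_contra hcard
  obtain ⟨i0⟩ := ‹Nonempty ι›
  obtain ⟨c, hc0, hcD, hc⟩ := exists_const_relation D x y hy hD
    (exists_relation D x y hy hD i0 (hli.ne_zero i0) B (by omega) hB3)
  choose γ hγ using fun i => hC _ (hcD i)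
  let W : Submodule ℚ C := Submodule.span ℚ (Set.range γ)
  have hWfin : Module.Finite ℚ W := Module.Finite.span_of_finite ℚ (Set.finite_range _)
  let b := Module.finBasis ℚ W
  let g : ι → W := fun i => ⟨γ i, Submodule.subset_span ⟨i, rfl⟩⟩
  obtain ⟨N, hN⟩ := IsLocalization.exist_integer_multiples_of_finite (nonZeroDivisors ℤ)
    (fun p : ι × Fin (Module.finrank ℚ W) => b.repr (g p.1) p.2)
  choose n hn using hN
  have hN0 : ((N : ℤ) : ℚ) ≠ 0 := by exact_mod_cast nonZeroDivisors.coe_ne_zero N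
  have hγn : ∀ i, ((N : ℤ) : C) * γ i = ∑ j, (n (i, j) : C) * (b j : C) := by
    intro i
    have h1 := congrArg (fun w : W => (w : C)) (b.sum_repr (g i))
    simp only [Submodule.coe_sum, Submodule.coe_smul, g] at h1
    rw [← h1, Finset.mul_sum]
    refine Finset.sum_congr rfl fun j _ => ?_
    have h2 : ((n (i, j) : ℤ) : ℚ) = ((N : ℤ) : ℚ) * b.repr (g i) j := by
      simpa using hn (i, j)
    have h3 : ((n (i, j) : ℤ) : C) = ((N : ℤ) : C) * ((b.repr (g i) j : ℚ) : C) := by
      exact_mod_cast congrArg (fun q : ℚ => (q : C)) h2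
    rw [h3, Rat.smul_def, mul_assoc]
  have hbli : LinearIndependent ℚ fun j => (b j : C) :=
    b.linearIndependent.map' W.subtype (Submodule.ker_subtype W)
  have hv : ∀ j, ∏ i, y i ^ n (i, j) ≠ 0 := fun j =>
    Finset.prod_ne_zero_iff.mpr fun i _ => zpow_ne_zero _ (hy i)
  have halg := isAlgebraic_of_logDeriv (fun j => (b j : C)) hbli
    (fun j => ∏ i, y i ^ n (i, j)) hv (∑ i, ((N : ℤ) : K) * (c i * x i)) (fun δ => by
      have h1 := hc δ
      simp only [logDeriv_prod_zpow δ y hy, Finset.mul_sum]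
      rw [Finset.sum_comm, map_sum]
      have h2 : ∀ i, ∑ j, algebraMap C K (b j : C) * ((n (i, j) : K) * (δ (y i) / y i)) =
          δ (((N : ℤ) : K) * (c i * x i)) +
            ((N : ℤ) : K) * (c i * (δ (y i) / y i - δ (x i))) := by
        intro i
        have h3 := congrArg (algebraMap C K) (hγn i)
        rw [map_mul, map_sum, map_intCast, hγ] at h3
        have h4 : δ (c i) = 0 := by rw [← hγ]; exact δ.map_algebraMap _
        rw [δ.leibniz, δ.leibniz, h4, δ.map_intCast]
        simp only [smul_eq_mul, map_mul, map_intCast] at h3 ⊢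
        calc _ = (∑ j, (n (i, j) : K) * algebraMap C K (b j : C)) * (δ (y i) / y i) := by
              rw [Finset.sum_mul]; exact Finset.sum_congr rfl fun j _ => by ring
          _ = _ := by rw [← h3]; ring
      rw [Finset.sum_congr rfl fun i _ => h2 i, Finset.sum_add_distrib, ← Finset.mul_sum, h1]
      simp)
  have hn0 : ∀ i j, n (i, j) = 0 := by
    intro i j
    have h1 := logDeriv_prod_zpow D y hy fun i => n (i, j)
    rw [eq_zero_of_isAlgebraic D (halg j), zero_div] at h1
    have h2 : ∑ i, ((n (i, j) : ℤ) : ℚ) • D (x i) = 0 := by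
      rw [h1]
      refine Finset.sum_congr rfl fun i _ => ?_
      have := hy i
      rw [hD, Rat.smul_def, Rat.cast_intCast]
      field_simp
    exact_mod_cast Fintype.linearIndependent_iff.mp hli _ h2 i
  apply hc0
  funext i
  have h1 := hγn i
  simp only [hn0, Int.cast_zero, zero_mul, Finset.sum_const_zero, mul_eq_zero] at h1
  have h2 : ((N : ℤ) : C) ≠ 0 := by exact_mod_cast nonZeroDivisors.coe_ne_zero N
  rw [← hγ, h1.resolve_left h2]
  simp

end Pool.Agent.Lib.MP_12eca1_ag
end

-- part Pool.Agent.Lib.MP_12eca1_ag.Acc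
section

/-!
Points of the graph of the exponential accumulating on the locus of `(x, exp x)`.
-/

namespace Pool.Agent.Lib.MP_12eca1_ag

open Filter Topology TrivSqZeroExt

lemma fst_aeval_dual' {R σ : Type*} [CommRing R] [Algebra R ℂ] (v a : σ → ℂ)
    (P : MvPolynomial σ R) :
    (MvPolynomial.aeval (fun i => dual (v i) (a i)) P).fst = MvPolynomial.aeval v P := by
  have : (fstHom R ℂ ℂ).comp (MvPolynomial.aeval (fun i => dual (v i) (a i))) =
      MvPolynomial.aeval v := by
    apply MvPolynomial.algHom_ext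
    intro i
    simp [dual]
  exact DFunLike.congr_fun this P

lemma hasFDerivAt_aeval {R σ E : Type*} [CommRing R] [Algebra R ℂ] [NormedAddCommGroup E]
    [NormedSpace ℂ E] (g : σ → E → ℂ) (g' : σ → E →L[ℂ] ℂ) (e0 : E)
    (hg : ∀ i, HasFDerivAt (g i) (g' i) e0) (P : MvPolynomial σ R) :
    ∃ L : E →L[ℂ] ℂ, HasFDerivAt (fun e => MvPolynomial.aeval (fun i => g i e) P) L e0 ∧
      ∀ a, L a = (MvPolynomial.aeval (fun i => dual (g i e0) (g' i a)) P).snd := by
  induction P using MvPolynomial.induction_on with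
  | C c =>
    refine ⟨0, ?_, fun a => ?_⟩
    · simpa using hasFDerivAt_const (algebraMap R ℂ c) e0
    · simp [TrivSqZeroExt.algebraMap_eq_inl']
  | add p q hp hq =>
    obtain ⟨L1, h1, h1'⟩ := hp
    obtain ⟨L2, h2, h2'⟩ := hq
    refine ⟨L1 + L2, ?_, fun a => ?_⟩
    · simp only [map_add]; exact h1.add h2
    · simp [h1', h2']
  | mul_X p i hp =>
    obtain ⟨L1, h1, h1'⟩ := hp
    refine ⟨_, by simp only [map_mul, MvPolynomial.aeval_X]; exact h1.mul (hg i), fun a => ?_⟩
    rw [map_mul, MvPolynomial.aeval_X, snd_mul, fst_aeval_dual', ← h1']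
    simp [mul_comm]

/-- value of a polynomial at `(x, exp x)` -/
noncomputable def evE {R ι : Type*} [CommRing R] [Algebra R ℂ] (x : ι → ℂ)
    (P : MvPolynomial (ι ⊕ ι) R) : ℂ :=
  MvPolynomial.aeval (Sum.elim x fun i => Complex.exp (x i)) P

lemma exists_direction {E : Type*} [NormedAddCommGroup E] [NormedSpace ℂ E] [ProperSpace E]
    (x : E) (w : ℕ → E) (hw : Tendsto w atTop (𝓝 x)) (hne : ∀ k, w k ≠ x) :
    ∃ a : E, a ≠ 0 ∧ ∀ (f : E → ℂ) (L : E →L[ℂ] ℂ), HasFDerivAt f L x →
      (∀ᶠ k in atTop, f (w k) = f x) → L a = 0 := by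
  let d : ℕ → E := fun k => ((‖w k - x‖⁻¹ : ℝ) : ℂ) • (w k - x)
  have hn : ∀ k, ‖w k - x‖ ≠ 0 := fun k => norm_ne_zero_iff.mpr (sub_ne_zero.mpr (hne k))
  have hd : ∀ k, d k ∈ Metric.sphere (0 : E) 1 := by
    intro k
    simp [d, norm_smul, hn k]
  obtain ⟨a, ha, φ, hφ, hlim⟩ := (isCompact_sphere (0 : E) 1).tendsto_subseq hd
  refine ⟨a, by rintro rfl; simp at ha, fun f L hf hev => ?_⟩
  have h1 : Tendsto (fun k => L (d (φ k))) atTop (𝓝 (L a)) := (L.continuous.tendsto a).comp hlim
  have h2 : Tendsto (fun k => L (d k)) atTop (𝓝 0) := by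
    have h3 := (hf.isLittleO.comp_tendsto hw).norm_right.norm_left.tendsto_div_nhds_zero
    rw [tendsto_zero_iff_norm_tendsto_zero]
    refine h3.congr' ?_
    filter_upwards [hev] with k hk
    simp [d, hk, div_eq_inv_mul, norm_sub_rev (L x)]
  exact tendsto_nhds_unique h1 (h2.comp hφ.tendsto_atTop)

lemma exists_exp_derivation {ι : Type*} [Fintype ι] (x : ι → ℂ) (w : ℕ → ι → ℂ)
    (hw : Tendsto w atTop (𝓝 x)) (hne : ∀ k, w k ≠ x)
    (hacc : ∀ P : MvPolynomial (ι ⊕ ι) ℚ, evE x P = 0 → ∀ᶠ k in atTop, evE (w k) P = 0) :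
    ∃ D : Derivation ℚ ℂ ℂ, (∃ i, D (x i) ≠ 0) ∧
      ∀ i, D (Complex.exp (x i)) = Complex.exp (x i) * D (x i) := by
  obtain ⟨a, ha0, ha⟩ := exists_direction x w hw hne
  obtain ⟨D, hD⟩ := exists_derivation (k := ℚ) (Sum.elim x fun i => Complex.exp (x i))
    (Sum.elim a fun i => Complex.exp (x i) * a i) (fun P hP => by
      obtain ⟨L, hL, hL'⟩ := hasFDerivAt_aeval (R := ℚ) (E := ι → ℂ)
        (Sum.elim (fun i e => e i) fun i e => Complex.exp (e i))
        (Sum.elim (fun i => ContinuousLinearMap.proj i)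
          fun i => Complex.exp (x i) • ContinuousLinearMap.proj i) x (by
            rintro (i | i)
            · exact hasFDerivAt_apply i x
            · exact (hasFDerivAt_apply i x).cexp) P
      have key : ∀ e : ι → ℂ, (fun i => Sum.elim (fun i e => e i)
          (fun i (e : ι → ℂ) => Complex.exp (e i)) i e) =
          Sum.elim e fun i => Complex.exp (e i) := by
        intro e; funext i; cases i <;> rfl
      have h1 := ha _ L hL (by
        filter_upwards [hacc P hP] with k hk
        rw [key, key, hP]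
        exact hk)
      rw [hL'] at h1
      rw [← h1]
      congr 3
      funext i
      cases i <;> simp)
  refine ⟨D, ?_, fun i => ?_⟩
  · obtain ⟨i, hi⟩ := Function.ne_iff.mp ha0
    exact ⟨i, by rw [show D (x i) = a i from hD (Sum.inl i)]; exact hi⟩
  · rw [show D (x i) = a i from hD (Sum.inl i)]
    exact hD (Sum.inr i)

/-- the field generated by `x` and `exp x` -/
noncomputable def expField {ι : Type*} (x : ι → ℂ) : IntermediateField ℚ ℂ :=
  IntermediateField.adjoin ℚ (Set.range x ∪ Set.range fun i => Complex.exp (x i))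

/-- integral linear combinations -/
noncomputable def lin {κ ι : Type*} [Fintype ι] (A : κ → ι → ℤ) (w : ι → ℂ) : κ → ℂ :=
  fun j => ∑ i, (A j i : ℂ) * w i

/-- `F` contains `r` algebraically independent numbers -/
def TD (F : IntermediateField ℚ ℂ) (r : ℕ) : Prop :=
  ∃ (κ : Type) (_ : Fintype κ) (v : κ → ℂ), (∀ j, v j ∈ F) ∧ AlgebraicIndependent ℚ v ∧
    r ≤ Fintype.card κ

lemma mem_expField {ι : Type*} (x : ι → ℂ) (i : ι) : x i ∈ expField x :=
  IntermediateField.subset_adjoin _ _ (Or.inl ⟨i, rfl⟩)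

lemma exp_mem_expField {ι : Type*} (x : ι → ℂ) (i : ι) : Complex.exp (x i) ∈ expField x :=
  IntermediateField.subset_adjoin _ _ (Or.inr ⟨i, rfl⟩)

lemma exp_lin {κ ι : Type*} [Fintype ι] (A : κ → ι → ℤ) (w : ι → ℂ) (j : κ) :
    Complex.exp (lin A w j) = ∏ i, Complex.exp (w i) ^ A j i := by
  rw [lin, Complex.exp_sum]
  exact Finset.prod_congr rfl fun i _ => Complex.exp_int_mul _ _

lemma expField_lin_le {κ ι : Type*} [Fintype ι] (A : κ → ι → ℤ) (x : ι → ℂ) :
    expField (lin A x) ≤ expField x := by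
  rw [expField, IntermediateField.adjoin_le_iff]
  rintro _ (⟨j, rfl⟩ | ⟨j, rfl⟩)
  · exact sum_mem fun i _ => mul_mem (intCast_mem _ _) (mem_expField x i)
  · change Complex.exp (lin A x j) ∈ expField x
    rw [exp_lin]
    exact prod_mem fun i _ => zpow_mem (exp_mem_expField x i) _

lemma lin_lin {μ κ ι : Type*} [Fintype ι] [Fintype κ] (B : μ → κ → ℤ) (A : κ → ι → ℤ)
    (w : ι → ℂ) : lin B (lin A w) = lin (fun l i => ∑ j, B l j * A j i) w := by
  funext l
  simp only [lin, Finset.mul_sum, Int.cast_sum, Int.cast_mul, Finset.sum_mul]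
  rw [Finset.sum_comm]
  simp only [mul_assoc]

lemma exists_int_basis {s : ℕ} (N : Submodule ℚ (Fin s → ℚ)) :
    ∃ A : Fin (Module.finrank ℚ N) → Fin s → ℤ,
      LinearIndependent ℚ (fun j i => (A j i : ℚ)) ∧ ∀ j, (fun i => (A j i : ℚ)) ∈ N := by
  let b := Module.finBasis ℚ N
  obtain ⟨M, hM⟩ := IsLocalization.exist_integer_multiples_of_finite (nonZeroDivisors ℤ)
    (fun p : Fin (Module.finrank ℚ N) × Fin s => (b p.1 : Fin s → ℚ) p.2)
  choose n hn using hM
  have hM0 : ((M : ℤ) : ℚ) ≠ 0 := by exact_mod_cast nonZeroDivisors.coe_ne_zero M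
  have h1 : (fun j i => ((n (j, i) : ℤ) : ℚ)) = fun j => ((M : ℤ) : ℚ) • (b j : Fin s → ℚ) := by
    funext j i
    simpa using hn (j, i)
  refine ⟨fun j i => n (j, i), ?_, fun j => ?_⟩
  · rw [h1]
    have h2 : LinearIndependent ℚ fun j => (b j : Fin s → ℚ) :=
      b.linearIndependent.map' N.subtype (Submodule.ker_subtype N)
    exact h2.units_smul fun _ => Units.mk0 _ hM0
  · rw [congrFun h1 j]
    exact N.smul_mem _ (b j).2

lemma lin_eq_comb {s : ℕ} {κ : Type*} (A : κ → Fin s → ℤ) (x : Fin s → ℂ) (j : κ) :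
    lin A x j = Fintype.linearCombination ℚ x fun i => (A j i : ℚ) := by
  simp [lin, Fintype.linearCombination_apply, Rat.smul_def]

lemma linearIndependent_lin {s : ℕ} {κ : Type*} (A : κ → Fin s → ℤ) (x : Fin s → ℂ)
    (N : Submodule ℚ (Fin s → ℚ)) (hA : LinearIndependent ℚ (fun j i => (A j i : ℚ)))
    (hAN : ∀ j, (fun i => (A j i : ℚ)) ∈ N)
    (hN : Disjoint N (LinearMap.ker (Fintype.linearCombination ℚ x))) :
    LinearIndependent ℚ (lin A x) := by
  have h1 : lin A x = Fintype.linearCombination ℚ x ∘ fun j i => (A j i : ℚ) :=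
    funext fun j => lin_eq_comb A x j
  rw [h1]
  refine hA.map (hN.mono_left ?_)
  rw [Submodule.span_le]
  rintro _ ⟨j, rfl⟩
  exact hAN j

/-- the approximation property, stable under integral linear maps -/
structure Good {ι : Type*} [Fintype ι] (x : ι → ℂ) (w : ℕ → ι → ℂ) : Prop where
  lim : Tendsto w atTop (𝓝 x)
  line : ∀ k, ∃ (u : ℂ) (p : ι → ℤ), w k = fun i => u * p i
  acc : ∀ (s : ℕ) (A : Fin s → ι → ℤ) (P : MvPolynomial (Fin s ⊕ Fin s) ℚ),
    evE (lin A x) P = 0 → ∀ᶠ k in atTop, evE (lin A (w k)) P = 0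

lemma Good.lin {ι κ : Type*} [Fintype ι] [Fintype κ] {x : ι → ℂ} {w : ℕ → ι → ℂ} (h : Good x w)
    (A : κ → ι → ℤ) : Good (lin A x) fun k => lin A (w k) where
  lim := by
    have : Continuous (MP_12eca1_ag.lin A : (ι → ℂ) → κ → ℂ) := by
      unfold MP_12eca1_ag.lin
      fun_prop
    exact (this.tendsto x).comp h.lim
  line := fun k => by
    obtain ⟨u, p, hk⟩ := h.line k
    refine ⟨u, fun j => ∑ i, A j i * p i, ?_⟩
    funext j
    simp only [MP_12eca1_ag.lin, hk, Int.cast_sum, Int.cast_mul, Finset.mul_sum]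
    exact Finset.sum_congr rfl fun i _ => by ring
  acc := fun s B P hP => by
    simp only [lin_lin] at hP ⊢
    exact h.acc s _ P hP

lemma ne_line {s : ℕ} (hs : 2 ≤ s) {x : Fin s → ℂ} (hx : LinearIndependent ℚ x) (u : ℂ)
    (p : Fin s → ℤ) : (fun i => u * p i) ≠ x := by
  intro h
  let i0 : Fin s := ⟨0, by omega⟩
  let i1 : Fin s := ⟨1, by omega⟩
  have h01 : Function.Injective ![i0, i1] := by
    intro a b
    fin_cases a <;> fin_cases b <;> simp [i0, i1]
  have h2 := hx.comp _ h01
  have h3 : (x ∘ ![i0, i1]) = ![x i0, x i1] := by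
    funext a; fin_cases a <;> rfl
  rw [h3, LinearIndependent.pair_iff] at h2
  have h4 := h2 (p i1) (-p i0) (by
    rw [← h]; simp only [Rat.smul_def]; push_cast; ring)
  have h5 : p i0 = 0 := by
    have := h4.2
    exact_mod_cast neg_eq_zero.mp this
  apply hx.ne_zero i0
  rw [← h]
  simp [h5]

theorem td_of_good (hHL : ∀ u : ℂ, u ≠ 0 → Transcendental ℚ u ∨ Transcendental ℚ (Complex.exp u))
    (s : ℕ) : ∀ (x : Fin s → ℂ) (w : ℕ → Fin s → ℂ), LinearIndependent ℚ x → Good x w →
      TD (expField x) s ∧ (2 ≤ s → TD (expField x) (s + 1)) := by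
  induction s using Nat.strong_induction_on with
  | _ s ih =>
  intro x w hx hgood
  have main : 2 ≤ s → TD (expField x) (s + 1) := by
    intro hs
    obtain ⟨D, ⟨i0, hi0⟩, hD⟩ := exists_exp_derivation x w hgood.lim (fun k => by
      obtain ⟨u, p, hk⟩ := hgood.line k
      rw [hk]; exact ne_line hs hx u p) (fun P hP => by
      have h1 : ∀ y : Fin s → ℂ, lin (fun j i => if j = i then (1 : ℤ) else 0) y = y := by
        intro y; funext j; simp [lin]
      have := hgood.acc s (fun j i => if j = i then (1 : ℤ) else 0) P (by rwa [h1])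
      simpa only [h1] using this)
    let φ := Fintype.linearCombination ℚ fun i => D (x i)
    obtain ⟨N', hN'⟩ := Submodule.exists_isCompl (LinearMap.ker φ)
    obtain ⟨A1, hA1, hA1'⟩ := exists_int_basis (LinearMap.ker φ)
    obtain ⟨A2, hA2, hA2'⟩ := exists_int_basis N'
    have hrank := Submodule.finrank_add_eq_of_isCompl hN'
    rw [Module.finrank_fin_fun] at hrank
    have hDlin : ∀ {κ : Type} (A : κ → Fin s → ℤ) (j : κ),
        D (lin A x j) = lin A (fun i => D (x i)) j := by
      intro κ A j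
      simp [lin]
    have hDexp : ∀ {κ : Type} (A : κ → Fin s → ℤ) (j : κ),
        D (Complex.exp (lin A x j)) = Complex.exp (lin A x j) * D (lin A x j) := by
      intro κ A j
      have h1 := logDeriv_prod_zpow D (fun i => Complex.exp (x i))
        (fun i => Complex.exp_ne_zero _) (A j)
      rw [← exp_lin, div_eq_iff (Complex.exp_ne_zero _)] at h1
      rw [h1, hDlin, mul_comm]
      congr 1
      refine Finset.sum_congr rfl fun i _ => ?_
      rw [hD, mul_div_cancel_left₀ _ (Complex.exp_ne_zero _)]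
    have hpos : 0 < Module.finrank ℚ N' := by
      by_contra h0
      have h1 : Module.finrank ℚ (LinearMap.ker φ) = Module.finrank ℚ (Fin s → ℚ) := by
        rw [Module.finrank_fin_fun]; omega
      have h2 := Submodule.eq_top_of_finrank_eq h1
      have h3 : Pi.single i0 (1 : ℚ) ∈ LinearMap.ker φ := by rw [h2]; trivial
      rw [LinearMap.mem_ker] at h3
      apply hi0
      simpa [φ] using h3
    have hx1 : LinearIndependent ℚ (lin A1 x) :=
      linearIndependent_lin A1 x _ hA1 hA1' (by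
        rw [LinearMap.ker_eq_bot.mpr (linearIndependent_iff_injective_fintypeLinearCombination.mp hx)]
        exact disjoint_bot_right)
    obtain ⟨κ, _, v, hv, hvind, hcard⟩ :=
      (ih _ (by omega) (lin A1 x) _ hx1 (hgood.lin A1)).1
    have hker : expField (lin A1 x) ≤ kerField D := by
      have h0 : ∀ j, D (lin A1 x j) = 0 := fun j => by
        rw [hDlin, lin_eq_comb]; exact hA1' j
      rw [expField, IntermediateField.adjoin_le_iff]
      rintro _ (⟨j, rfl⟩ | ⟨j, rfl⟩)
      · exact h0 j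
      · change D _ = 0
        rw [hDexp, h0, mul_zero]
    have : CharZero (kerField D) := algebraRat.charZero _
    have : Nonempty (Fin (Module.finrank ℚ N')) := ⟨⟨0, hpos⟩⟩
    obtain ⟨B, hB1, hB2, hB3⟩ := ax (overField D (kerField D) fun c => c.2)
      (fun z hz => ⟨⟨z, hz⟩, rfl⟩) (lin A2 x) (fun j => Complex.exp (lin A2 x j))
      (fun j => Complex.exp_ne_zero _) (fun j => hDexp A2 j) (by
        have : (fun j => overField D (kerField D) (fun c => c.2) (lin A2 x j)) =
            lin A2 fun i => D (x i) := funext fun j => hDlin A2 j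
        rw [this]
        exact linearIndependent_lin A2 _ _ hA2 hA2' hN'.disjoint.symm)
    refine ⟨B ⊕ κ, inferInstance, Sum.elim (↑) v, ?_, ?_, ?_⟩
    · rintro (b | j)
      · exact expField_lin_le A2 x (IntermediateField.subset_adjoin _ _ (hB1 b.2))
      · exact expField_lin_le A1 x (hv j)
    · refine hvind.sumElim_of_tower (S := kerField D) ?_ hB2
      rintro _ ⟨j, rfl⟩
      exact ⟨⟨v j, hker (hv j)⟩, rfl⟩
    · simp only [Fintype.card_sum, Fintype.card_coe, Fintype.card_fin] at hB3 ⊢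
      omega
  refine ⟨?_, main⟩
  rcases Nat.lt_or_ge s 2 with hs | hs
  · interval_cases s
    · exact ⟨Empty, inferInstance, Empty.elim, fun j => j.elim,
        algebraicIndependent_empty_type_iff.mpr (algebraMap ℚ ℂ).injective, by simp⟩
    · rcases hHL (x 0) (hx.ne_zero 0) with h | h
      · exact ⟨Unit, inferInstance, fun _ => x 0, fun _ => mem_expField x 0,
          algebraicIndependent_unique_type_iff.mpr h, by simp⟩
      · exact ⟨Unit, inferInstance, fun _ => Complex.exp (x 0), fun _ => exp_mem_expField x 0,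
          algebraicIndependent_unique_type_iff.mpr h, by simp⟩
  · obtain ⟨κ, _, v, h1, h2, h3⟩ := main hs
    exact ⟨κ, inferInstance, v, h1, h2, by omega⟩

end Pool.Agent.Lib.MP_12eca1_ag
end
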