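import Pool.Agent.Lib.MP_12eca1_ag.Small

-- part Pool.Agent.Lib.MP_12eca1_ag.LSize
section

/-!
Sizes of integral elements over a polynomial ring in several variables.
-/

namespace Pool.Agent.Lib.MP_12eca1_ag

open Polynomial Filter

/-- integral polynomials in `s` variables -/
abbrev Rs (s : ℕ) := MvPolynomial (Fin s) ℤ

variable {s : ℕ}

/-- evaluation at a complex point -/
noncomputable def ev (x : Fin s → ℂ) : Rs s →+* ℂ :=
  MvPolynomial.eval₂Hom (Int.castRingHom ℂ) x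

lemma ev_X (x : Fin s → ℂ) (j : Fin s) : ev x (MvPolynomial.X j) = x j := by simp [ev]

lemma ev_C (x : Fin s → ℂ) (a : ℤ) : ev x (MvPolynomial.C a) = a := by simp [ev]

/-- the algebra structure given by evaluation -/
@[reducible] noncomputable def alg (θ : Fin s → ℂ) : Algebra (Rs s) ℂ := (ev θ).toAlgebra

/-- the numbers integral over the ring generated by the point -/
noncomputable def Oc (θ : Fin s → ℂ) : Subring ℂ :=
  letI := alg θ; (integralClosure (Rs s) ℂ).toSubring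

lemma mem_Oc {θ : Fin s → ℂ} {g : ℂ} :
    g ∈ Oc θ ↔ ∃ P : (Rs s)[X], P.Monic ∧ eval₂ (ev θ) g P = 0 := Iff.rfl

/-- the minimal polynomial -/
noncomputable def mp (θ : Fin s → ℂ) (g : ℂ) : (Rs s)[X] := @minpoly _ _ _ _ (alg θ) g

lemma ev_mem (θ : Fin s → ℂ) (p : Rs s) : ev θ p ∈ Oc θ :=
  mem_Oc.mpr ⟨X - C p, monic_X_sub_C p, by simp⟩

/-- polynomials as integral elements -/
noncomputable def inc (θ : Fin s → ℂ) : Rs s →+* Oc θ := (ev θ).codRestrict _ (ev_mem θ)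

variable {θ : Fin s → ℂ}

lemma coe_inc (p : Rs s) : (inc θ p : ℂ) = ev θ p := rfl

/-- the homomorphism lies over the point `x` -/
def Ov (φ : Oc θ →+* ℂ) (x : Fin s → ℂ) : Prop := ∀ p, φ (inc θ p) = ev x p

lemma ov_subtype (θ : Fin s → ℂ) : Ov (Oc θ).subtype θ := fun _ => rfl

lemma mp_monic (g : Oc θ) : (mp θ g).Monic := by
  let _ := alg θ
  exact minpoly.monic g.2

lemma mp_root (g : Oc θ) {φ : Oc θ →+* ℂ} {x : Fin s → ℂ} (h : Ov φ x) :
    ((mp θ g).map (ev x)).eval (φ g) = 0 := by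
  let _ := alg θ
  have h1 : eval₂ (inc θ) g (mp θ g) = 0 := by
    apply Subtype.ext
    exact (hom_eval₂ _ _ (Oc θ).subtype _).trans (minpoly.aeval (Rs s) (g : ℂ))
  have h2 := congrArg φ h1
  rw [hom_eval₂, map_zero] at h2
  rw [eval_map, ← h2]
  congr 1
  exact RingHom.ext fun p => (h p).symm

lemma exists_ov_root (hθ : Function.Injective (ev θ)) (g : Oc θ) (x : Fin s → ℂ) {r : ℂ}
    (hr : ((mp θ g).map (ev x)).eval r = 0) : ∃ φ : Oc θ →+* ℂ, Ov φ x ∧ φ g = r := by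
  let _ := alg θ
  have h1 : minpoly (Rs s) (g : ℂ) = minpoly (Rs s) (show integralClosure (Rs s) ℂ from g) :=
    minpoly.algebraMap_eq (B := integralClosure (Rs s) ℂ) (B' := ℂ) Subtype.val_injective g
  rw [mp, h1] at hr
  exact exists_hom_root' (S := integralClosure (Rs s) ℂ)
    (fun _ _ h => hθ (congrArg Subtype.val h)) g (ev x) hr

lemma exists_ov (hθ : Function.Injective (ev θ)) (x : Fin s → ℂ) : ∃ φ : Oc θ →+* ℂ, Ov φ x := by
  let _ := alg θ
  exact exists_hom_extend (S := integralClosure (Rs s) ℂ)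
    (fun _ _ h => hθ (congrArg Subtype.val h)) (ev x)

lemma mp_le (hθ : Function.Injective (ev θ)) (g : Oc θ) {Q : (Rs s)[X]} (hQ : Q ≠ 0)
    (h : eval₂ (ev θ) (g : ℂ) Q = 0) : (mp θ g).natDegree ≤ Q.natDegree := by
  let _ := alg θ
  have : Module.IsTorsionFree (Rs s) ℂ := Module.isTorsionFree_iff_algebraMap_injective.mpr hθ
  exact natDegree_le_of_dvd (minpoly.isIntegrallyClosed_dvd g.2 h) hQ

/-- all conjugates over all points are bounded -/
def Sw (g : Oc θ) (lam : ℝ) (d : ℕ) : Prop :=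
  ∀ (φ : Oc θ →+* ℂ) (x : Fin s → ℂ), Ov φ x → ‖φ g‖ ≤ Real.exp lam * max 1 ‖x‖ ^ d

section

variable {g h : Oc θ} {lam mu : ℝ} {d e : ℕ}

lemma Sw.mono (h : Sw g lam d) (h1 : lam ≤ mu) (h2 : d ≤ e) : Sw g mu e := fun φ x hx =>
  (h φ x hx).trans (mul_le_mul (Real.exp_le_exp.mpr h1) (pow_le_pow_right₀ (le_max_left _ _) h2)
    (by positivity) (by positivity))

lemma Sw.mul (h1 : Sw g lam d) (h2 : Sw h mu e) : Sw (g * h) (lam + mu) (d + e) := fun φ x hx => by
  rw [map_mul, norm_mul, Real.exp_add, pow_add]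
  exact (mul_le_mul (h1 φ x hx) (h2 φ x hx) (norm_nonneg _) (by positivity)).trans
    (le_of_eq (by ring))

lemma Sw.intCast (n : ℤ) (h : |(n : ℝ)| ≤ Real.exp lam) : Sw (n : Oc θ) lam 0 := fun φ x _ => by
  rw [map_intCast, Complex.norm_intCast]; simpa using h

lemma Sw.one : Sw (1 : Oc θ) 0 0 := by simpa using Sw.intCast (θ := θ) 1 (lam := 0) (by simp)

lemma Sw.pow (h : Sw g lam d) (n : ℕ) : Sw (g ^ n) (n * lam) (n * d) := by
  induction n with
  | zero => simpa using Sw.one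
  | succ n ih =>
    rw [pow_succ]
    exact (ih.mul h).mono (le_of_eq (by push_cast; ring)) (le_of_eq (by ring))

lemma Sw.sum {ι : Type*} (t : Finset ι) (f : ι → Oc θ) (h : ∀ i ∈ t, Sw (f i) lam d)
    (ht : (t.card : ℝ) ≤ Real.exp mu) : Sw (∑ i ∈ t, f i) (mu + lam) d := fun φ x hx => by
  rw [map_sum]
  refine (norm_sum_le _ _).trans ?_
  have := Finset.sum_le_card_nsmul t (fun i => ‖φ (f i)‖) _ fun i hi => h i hi φ x hx
  rw [nsmul_eq_mul] at this
  rw [Real.exp_add, mul_assoc]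
  exact this.trans (mul_le_mul_of_nonneg_right ht (by positivity))

lemma Sw.prod {ι : Type*} (t : Finset ι) (f : ι → Oc θ) (h : ∀ i ∈ t, Sw (f i) lam d) :
    Sw (∏ i ∈ t, f i) (t.card * lam) (t.card * d) := by
  classical
  induction t using Finset.induction_on with
  | empty => simpa using Sw.one
  | insert a t ha ih =>
    rw [Finset.prod_insert ha, Finset.card_insert_of_notMem ha]
    exact ((h a (Finset.mem_insert_self _ _)).mul
      (ih fun i hi => h i (Finset.mem_insert_of_mem hi))).mono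
        (le_of_eq (by push_cast; ring)) (le_of_eq (by ring))

lemma Sw.neg (h : Sw g lam d) : Sw (-g) lam d := fun φ x hx => by
  rw [map_neg, norm_neg]; exact h φ x hx

lemma Sw.add (h1 : Sw g lam d) (h2 : Sw h lam d) : Sw (g + h) (lam + 1) d := fun φ x hx => by
  rw [map_add]
  refine (norm_add_le _ _).trans ?_
  have h3 := Real.add_one_le_exp 1
  have h4 : 0 ≤ Real.exp lam * max 1 ‖x‖ ^ d := by positivity
  have h5 := h1 φ x hx
  have h6 := h2 φ x hx
  rw [Real.exp_add]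
  nlinarith

lemma Sw.sub (h1 : Sw g lam d) (h2 : Sw h lam d) : Sw (g - h) (lam + 1) d := by
  rw [sub_eq_add_neg]; exact h1.add h2.neg

lemma sw_Um {ι : Type*} [Fintype ι] {η β : ι → Oc θ} {q : ℕ}
    (hη : ∀ i, Sw (η i) lam d) (hβ : ∀ i, Sw (β i) lam d) (hlam : 0 ≤ lam) {m : ι → ℤ}
    (hm : ∀ i, |m i| ≤ q) :
    Sw (Um η β m) (Fintype.card ι * (q * lam)) (Fintype.card ι * (q * d)) := by
  refine Sw.prod _ _ fun i _ => ?_
  have h1 : (m i).toNat + (-m i).toNat ≤ q := by have := abs_le.mp (hm i); omega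
  refine (((hη i).pow _).mul ((hβ i).pow _)).mono ?_ ?_
  · rw [← add_mul]; gcongr; exact_mod_cast h1
  · rw [← add_mul]; gcongr

end

lemma exists_sw_inc (p : Rs s) : ∃ c : ℕ, Sw (inc θ p) c c := by
  induction p using MvPolynomial.induction_on with
  | C a =>
    refine ⟨a.natAbs, ?_⟩
    rw [eq_intCast MvPolynomial.C, map_intCast]
    refine (Sw.intCast a ?_).mono le_rfl (Nat.zero_le _)
    have := Real.add_one_le_exp (a.natAbs : ℝ)
    rw [Nat.cast_natAbs, Int.cast_abs] at this ⊢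
    linarith
  | add p q hp hq =>
    obtain ⟨c, hc⟩ := hp
    obtain ⟨c', hc'⟩ := hq
    refine ⟨c + c' + 1, ?_⟩
    rw [map_add]
    exact ((hc.mono (mu := c + c') (by simp) (Nat.le_add_right c c')).add
      (hc'.mono (by simp) (Nat.le_add_left c' c))).mono (by simp) (by omega)
  | mul_X p j hp =>
    obtain ⟨c, hc⟩ := hp
    refine ⟨c + 1, ?_⟩
    rw [map_mul]
    have : Sw (inc θ (MvPolynomial.X j)) 0 1 := fun φ x hx => by
      rw [hx, ev_X]; simpa using Or.inr (norm_le_pi_norm x j)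
    exact (hc.mul this).mono (by simp) le_rfl

lemma eventually_sw (g : Oc θ) : ∀ᶠ c : ℕ in atTop, Sw g c c := by
  choose c hc using fun i => exists_sw_inc (θ := θ) ((mp θ g).coeff i)
  set N := (mp θ g).natDegree
  set c0 := (Finset.range (N + 1)).sup c
  have h1 : Sw g (N + c0 : ℕ) c0 := fun φ x hx => by
    have h2 := norm_lead_mul_root_le _ (mp_root g hx) (B := Real.exp c0 * max 1 ‖x‖ ^ c0) fun i => by
      rw [coeff_map]
      rcases le_or_gt i N with hi | hi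
      · have h3 : c i ≤ c0 := Finset.le_sup (f := c) (by simpa using Nat.lt_succ_of_le hi)
        rw [← hx]
        exact (hc i).mono (by exact_mod_cast h3) h3 φ x hx
      · rw [coeff_eq_zero_of_natDegree_lt hi, map_zero, norm_zero]; positivity
    rw [((mp_monic g).map _).leadingCoeff, one_mul, (mp_monic g).natDegree_map] at h2
    refine h2.trans ?_
    rw [Nat.cast_add, Real.exp_add, mul_assoc]
    exact mul_le_mul_of_nonneg_right (Real.add_one_le_exp _) (by positivity)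
  filter_upwards [eventually_ge_atTop (N + c0)] with c hc
  exact h1.mono (by exact_mod_cast hc) (by omega)

lemma norm_eval_le_of_roots {P : ℂ[X]} (hP : P.Monic) {ν : ℕ} (hν : P.natDegree ≤ ν) {B : ℝ}
    (hB : 1 ≤ B) (h : ∀ r, P.eval r = 0 → ‖r‖ ≤ B) (w : ℂ) : ‖P.eval w‖ ≤ (‖w‖ + B) ^ ν := by
  rw [(IsAlgClosed.splits P).eval_eq_prod_roots, hP.leadingCoeff, one_mul]
  refine (norm_prod_le (M := ‖w‖ + B) fun r hr => ?_).trans (pow_le_pow_right₀
    (by linarith [norm_nonneg w]) (by rw [Multiset.card_map]; exact (card_roots' _).trans hν))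
  obtain ⟨a, ha, rfl⟩ := Multiset.mem_map.mp hr
  exact (norm_sub_le _ _).trans (by linarith [h a (isRoot_of_mem_roots ha)])

lemma one_le_bd {lam : ℝ} (hlam : 0 ≤ lam) (x : Fin s → ℂ) (d : ℕ) :
    1 ≤ Real.exp lam * max 1 ‖x‖ ^ d :=
  one_le_mul_of_one_le_of_one_le (Real.one_le_exp hlam) (one_le_pow₀ (le_max_left _ _))

lemma Sw.root (hθ : Function.Injective (ev θ)) {g : Oc θ} {lam : ℝ} {d : ℕ} (h : Sw g lam d)
    (x : Fin s → ℂ) (r : ℂ) (hr : ((mp θ g).map (ev x)).eval r = 0) :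
    ‖r‖ ≤ Real.exp lam * max 1 ‖x‖ ^ d := by
  obtain ⟨φ, h1, rfl⟩ := exists_ov_root hθ g x hr
  exact h φ x h1

lemma Sw.eval_le (hθ : Function.Injective (ev θ)) {g : Oc θ} {lam : ℝ} {d ν : ℕ} (h : Sw g lam d)
    (hlam : 0 ≤ lam) (hν : (mp θ g).natDegree ≤ ν) (x : Fin s → ℂ) (w : ℂ) :
    ‖((mp θ g).map (ev x)).eval w‖ ≤ (‖w‖ + Real.exp lam * max 1 ‖x‖ ^ d) ^ ν :=
  norm_eval_le_of_roots ((mp_monic g).map _) (natDegree_map_le.trans hν) (one_le_bd hlam x d)
    (h.root hθ x) w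

lemma Sw.coeff_le (hθ : Function.Injective (ev θ)) {g : Oc θ} {lam : ℝ} {d ν : ℕ} (h : Sw g lam d)
    (hlam : 0 ≤ lam) (hν : (mp θ g).natDegree ≤ ν) (x : Fin s → ℂ) (i : ℕ) :
    ‖ev x ((mp θ g).coeff i)‖ ≤ (2 * Real.exp lam) ^ ν * max 1 ‖x‖ ^ (ν * d) := by
  rw [← coeff_map]
  refine norm_coeff_le_of_circle _ (fun w hw => (h.eval_le hθ hlam hν x w).trans ?_) i
  rw [hw, mul_comm ν d, pow_mul, ← mul_pow]
  have := one_le_bd hlam x d
  exact pow_le_pow_left₀ (by positivity) (by linarith) _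

lemma norm_mv (hθ : Function.Injective (ev θ)) {f : Oc θ} (hf : f ≠ 0) {ν d : ℕ} {lam : ℝ}
    (hν : (mp θ f).natDegree ≤ ν) (hS : Sw f lam d) (hlam : 0 ≤ lam) :
    ∃ b : Rs s, b ≠ 0 ∧ (∀ x, ‖ev x b‖ ≤ Real.exp (ν * lam) * max 1 ‖x‖ ^ (ν * d)) ∧
      ‖ev θ b‖ ≤ ‖(f : ℂ)‖ * (Real.exp lam * max 1 ‖θ‖ ^ d) ^ ν ∧
      ∀ φ x, Ov φ x → φ f = 0 → ev x b = 0 := by
  have hmon := mp_monic f
  refine ⟨(mp θ f).coeff 0, fun h0 => ?_, fun x => ?_, ?_, fun φ x hx hφ => ?_⟩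
  · obtain ⟨Q, hQ⟩ := X_dvd_iff.mpr h0
    have hQ0 : Q ≠ 0 := by rintro rfl; exact hmon.ne_zero (by simpa using hQ)
    have h1 := mp_root f (ov_subtype θ)
    rw [hQ, eval_map, eval₂_mul, eval₂_X] at h1
    have h3 := mp_le hθ f hQ0 ((mul_eq_zero.mp h1).resolve_left fun h => hf (Subtype.ext h))
    rw [hQ, natDegree_X_mul hQ0] at h3
    omega
  · have := hS.eval_le hθ hlam hν x 0
    rw [← coeff_zero_eq_eval_zero, coeff_map, norm_zero, zero_add] at this
    rwa [Real.exp_nat_mul, mul_comm ν d, pow_mul, ← mul_pow]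
  · classical
    have h1 : (f : ℂ) ∈ ((mp θ f).map (ev θ)).roots :=
      (mem_roots (hmon.map _).ne_zero).mpr (mp_root f (ov_subtype θ))
    rw [← coeff_map, norm_coeff_zero_monic (hmon.map _), ← Multiset.prod_erase h1, norm_mul]
    refine mul_le_mul_of_nonneg_left ((norm_prod_le fun r hr => hS.root hθ θ r
      (isRoot_of_mem_roots (Multiset.mem_of_mem_erase hr))).trans
        (pow_le_pow_right₀ (one_le_bd hlam θ d) ?_)) (norm_nonneg _)
    exact (Multiset.card_erase_le).trans ((card_roots' _).trans (natDegree_map_le.trans hν))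
  · have := mp_root f hx
    rwa [hφ, ← coeff_zero_eq_eval_zero, coeff_map] at this

lemma mem_Oc_of_monic {P : ℂ[X]} (hP : P.Monic) (hc : ∀ i, P.coeff i ∈ Oc θ) {w : ℂ}
    (hw : P.eval w = 0) : w ∈ Oc θ := by
  let _ := alg θ
  obtain ⟨Q, hQ, -, hQm⟩ := lifts_and_natDegree_eq_and_monic
    ((lifts_iff_coeff_lifts (f := algebraMap (integralClosure (Rs s) ℂ) ℂ) P).mpr
      fun j => ⟨⟨_, hc j⟩, rfl⟩) hP
  exact isIntegral_trans (A := integralClosure (Rs s) ℂ) w
    ⟨Q, hQm, by rw [← eval_map, hQ, hw]⟩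

lemma exists_field (hθ : Function.Injective (ev θ)) : ∃ (F : Type) (_ : Field F) (_ : Algebra F ℂ),
    (∀ p, ev θ p ∈ (⊥ : IntermediateField F ℂ)) ∧ ∀ E : IntermediateField F ℂ,
      FiniteDimensional F E → ∀ g : Oc θ, (g : ℂ) ∈ E →
        (mp θ g).natDegree ≤ Module.finrank F E := by
  let _ := alg θ
  have : FaithfulSMul (Rs s) ℂ := (faithfulSMul_iff_algebraMap_injective _ _).mpr hθ
  let _ := FractionRing.liftAlgebra (Rs s) ℂ
  have := FractionRing.isScalarTower_liftAlgebra (Rs s) ℂ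
  refine ⟨FractionRing (Rs s), inferInstance, inferInstance, fun p => ?_, fun E hE g hg => ?_⟩
  · have := (⊥ : IntermediateField (FractionRing (Rs s)) ℂ).algebraMap_mem (algebraMap (Rs s) _ p)
    rwa [← IsScalarTower.algebraMap_apply] at this
  · have hfi : IsIntegral (Rs s) (g : ℂ) := g.2
    rw [mp, ← (minpoly.monic hfi).natDegree_map (algebraMap _ (FractionRing (Rs s))),
      ← minpoly.isIntegrallyClosed_eq_field_fractions' _ hfi]
    have h9 := minpoly.natDegree_le (A := FractionRing (Rs s)) (⟨g, hg⟩ : E)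
    rwa [← minpoly.algebraMap_eq (B' := ℂ) Subtype.val_injective] at h9

end Pool.Agent.Lib.MP_12eca1_ag
end

-- part Pool.Agent.Lib.MP_12eca1_ag.LPoly
section

/-!
A linear change of variables making a polynomial almost monic in the first variable.
-/

namespace Pool.Agent.Lib.MP_12eca1_ag

open Polynomial

variable {s : ℕ}

lemma ev_intCast (c : Fin s → ℤ) (p : Rs s) :
    ev (fun j => (c j : ℂ)) p = (MvPolynomial.eval c p : ℤ) := by
  have : ev (fun j => (c j : ℂ)) = (Int.castRingHom ℂ).comp (MvPolynomial.eval c) :=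
    MvPolynomial.ringHom_ext (fun a => by simp) fun j => by simp [ev_X]
  rw [this]; rfl

lemma exists_grid {G : Rs s} (hG : G ≠ 0) {D : ℕ} (h : ∀ i, G.degreeOf i ≤ D) :
    ∃ c : Fin s → ℤ, (∀ j, |c j| ≤ D) ∧ MvPolynomial.eval c G ≠ 0 := by
  by_contra hcon
  push Not at hcon
  refine hG (MvPolynomial.eq_zero_of_eval_zero_at_prod_finset G (fun _ => Finset.Icc (0 : ℤ) D)
    (fun i => by simpa using Nat.lt_succ_of_le (h i)) fun x hx => hcon x fun j => ?_)
  have := Finset.mem_Icc.mp (hx j)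
  rw [abs_of_nonneg this.1]; exact this.2

/-- the linear forms of the substitution -/
noncomputable def lf (c : Fin s → ℤ) : Fin (s + 1) → (Rs s)[X] :=
  Fin.cons X fun j => C (MvPolynomial.X j) + C (c j : Rs s) * X

/-- the substitution -/
noncomputable def Phi (c : Fin s → ℤ) : Rs (s + 1) →+* (Rs s)[X] :=
  MvPolynomial.eval₂Hom (Int.castRingHom _) (lf c)

/-- a point on a line -/
def pt (c : Fin s → ℤ) (x : Fin s → ℂ) (u : ℂ) : Fin (s + 1) → ℂ :=
  Fin.cons u fun j => x j + c j * u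

lemma eval_Phi (c : Fin s → ℤ) (x : Fin s → ℂ) (u : ℂ) (p : Rs (s + 1)) :
    ((Phi c p).map (ev x)).eval u = ev (pt c x u) p := by
  have : (evalRingHom u).comp ((mapRingHom (ev x)).comp (Phi c)) = ev (pt c x u) := by
    refine MvPolynomial.ringHom_ext (fun a => by simp) fun j => ?_
    rw [ev_X]
    refine Fin.cases ?_ (fun j => ?_) j <;> simp [Phi, lf, pt, ev_X]
  rw [← this]; rfl

lemma norm_pt_le {c : Fin s → ℤ} {D : ℝ} (hc : ∀ j, |(c j : ℝ)| ≤ D) (hD : 1 ≤ D) (x : Fin s → ℂ)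
    (u : ℂ) : ‖pt c x u‖ ≤ ‖x‖ + D * ‖u‖ := by
  refine (pi_norm_le_iff_of_nonneg (by positivity)).mpr fun j => ?_
  refine Fin.cases ?_ (fun j => ?_) j
  · simp only [pt, Fin.cons_zero]; nlinarith [norm_nonneg x, norm_nonneg u]
  · simp only [pt, Fin.cons_succ]
    refine (norm_add_le _ _).trans (add_le_add (norm_le_pi_norm x j) ?_)
    rw [norm_mul, Complex.norm_intCast]
    exact mul_le_mul_of_nonneg_right (hc j) (norm_nonneg _)

lemma pt_sub (c : Fin s → ℤ) (x : Fin s → ℂ) (u v : ℂ) : pt c x u - pt c x v = pt c 0 (u - v) := by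
  ext j
  refine Fin.cases ?_ (fun j => ?_) j
  · simp [pt]
  · simp only [pt, Fin.cons_succ, Pi.sub_apply, Pi.zero_apply]; ring

lemma Phi_monomial (c : Fin s → ℤ) (α : Fin (s + 1) →₀ ℕ) (r : ℤ) :
    (Phi c (MvPolynomial.monomial α r)).natDegree ≤ ∑ i, α i ∧
      (Phi c (MvPolynomial.monomial α r)).coeff (∑ i, α i) =
        ((r * ∏ j, c j ^ α j.succ : ℤ) : Rs s) := by
  have h1 : ∀ i, (lf c i).natDegree ≤ 1 := fun i => by
    refine Fin.cases ?_ (fun j => ?_) i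
    · simp [lf]
    · simp only [lf, Fin.cons_succ]; compute_degree
  have h2 : ∀ i, (lf c i ^ α i).natDegree ≤ α i := fun i =>
    natDegree_pow_le.trans (by simpa using Nat.mul_le_mul_left (α i) (h1 i))
  rw [Phi, MvPolynomial.eval₂Hom_monomial, Finsupp.prod_fintype _ _ (by simp), eq_intCast,
    ← C_eq_intCast]
  refine ⟨(natDegree_C_mul_le _ _).trans ((natDegree_prod_le _ _).trans
    (Finset.sum_le_sum fun i _ => h2 i)), ?_⟩
  rw [coeff_C_mul, coeff_prod_sum _ _ _ fun i _ => h2 i, Fin.prod_univ_succ]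
  have h3 : ∀ i, (lf c i ^ α i).coeff (α i) = (lf c i).coeff 1 ^ α i := fun i => by
    simpa using coeff_pow_of_natDegree_le (m := α i) (h1 i)
  have h4 : ∀ j : Fin s, (lf c j.succ).coeff 1 = c j := fun j => by
    rw [lf, Fin.cons_succ, coeff_add, coeff_C, coeff_C_mul_X]; simp
  simp only [h3, h4]
  simp [lf]

lemma exists_Phi {b : Rs (s + 1)} (hb : b ≠ 0) : ∃ (c : Fin s → ℤ) (a : ℤ), a ≠ 0 ∧
    (∀ j, |c j| ≤ b.totalDegree) ∧ (Phi c b).natDegree ≤ b.totalDegree ∧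
      (Phi c b).coeff b.totalDegree = a := by
  classical
  set D := b.totalDegree with hD
  have hle : ∀ α ∈ b.support, ∑ i, α i ≤ D := fun α hα => by
    have := MvPolynomial.le_totalDegree hα
    rwa [Finsupp.sum_fintype _ _ (by simp)] at this
  set T := b.support.filter fun α => ∑ i, α i = D with hT
  set G : Rs s := ∑ α ∈ T, MvPolynomial.monomial α.tail (b.coeff α) with hG
  obtain ⟨α0, hα0, h0⟩ := Finset.exists_mem_eq_sup b.support
    (MvPolynomial.support_nonempty.mpr hb) fun α => α.sum fun _ e => e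
  have hα0T : α0 ∈ T := Finset.mem_filter.mpr ⟨hα0, by
    rw [Finsupp.sum_fintype _ _ (by simp)] at h0; exact h0.symm⟩
  have hG0 : G ≠ 0 := fun h => by
    have h1 := congrArg (MvPolynomial.coeff α0.tail) h
    rw [hG, MvPolynomial.coeff_sum, Finset.sum_eq_single α0 (fun α hα hne => by
      rw [MvPolynomial.coeff_monomial, if_neg]
      intro h2
      refine hne ?_
      have h3 := (Finset.mem_filter.mp hα).2.trans (Finset.mem_filter.mp hα0T).2.symm
      have h4 : ∀ j : Fin s, α j.succ = α0 j.succ := fun j => DFunLike.congr_fun h2 j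
      simp only [Fin.sum_univ_succ, h4] at h3
      ext i
      exact Fin.cases (by omega) h4 i) (fun h => (h hα0T).elim)] at h1
    simp only [MvPolynomial.coeff_monomial, if_true, MvPolynomial.coeff_zero] at h1
    exact MvPolynomial.mem_support_iff.mp hα0 h1
  obtain ⟨c, hc, hc0⟩ := exists_grid hG0 (D := D) fun i => by
    refine (MvPolynomial.degreeOf_sum_le _ _ _).trans (Finset.sup_le fun α hα => ?_)
    refine (MvPolynomial.degreeOf_le_totalDegree _ _).trans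
      ((MvPolynomial.totalDegree_monomial_le _ _).trans ?_)
    rw [Finsupp.sum_fintype _ _ (by simp), ← (Finset.mem_filter.mp hα).2, Fin.sum_univ_succ]
    exact Nat.le_add_left _ _
  refine ⟨c, _, hc0, hc, ?_, ?_⟩
  · rw [b.as_sum, map_sum]
    exact natDegree_sum_le_of_forall_le _ _ fun α hα => (Phi_monomial c α _).1.trans (hle α hα)
  · conv_lhs => rw [b.as_sum, map_sum, finsetSum_coeff]
    rw [hG, map_sum, Int.cast_sum, hT, Finset.sum_filter]
    refine Finset.sum_congr rfl fun α hα => ?_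
    split_ifs with h
    · rw [← h, (Phi_monomial c α _).2, MvPolynomial.eval_monomial,
        Finsupp.prod_fintype _ _ (by simp)]
      rfl
    · exact coeff_eq_zero_of_natDegree_lt ((Phi_monomial c α _).1.trans_lt
        (lt_of_le_of_ne (hle α hα) h))

lemma natDegree_Phi_le {p : Rs (s + 1)} {M : ℝ} {k : ℕ}
    (h : ∀ x, ‖ev x p‖ ≤ M * max 1 ‖x‖ ^ k) (c : Fin s → ℤ) (x : Fin s → ℂ) :
    ((Phi c p).map (ev x)).natDegree ≤ k := by
  have hM : 0 ≤ M := by simpa using (norm_nonneg _).trans (h 0)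
  obtain ⟨D, hD⟩ := (Set.finite_range fun j => |(c j : ℝ)|).bddAbove
  refine natDegree_le_of_growth _ (M := M * (‖x‖ + max 1 D) ^ k) fun u => ?_
  rw [eval_Phi, mul_assoc, ← mul_pow]
  refine (h _).trans (mul_le_mul_of_nonneg_left (pow_le_pow_left₀ (by positivity) ?_ _) hM)
  have h1 := norm_pt_le (c := c) (D := max 1 D) (fun j => (hD ⟨j, rfl⟩).trans (le_max_right _ _))
    (le_max_left _ _) x u
  have h2 := le_max_left 1 D
  have h3 := le_max_left 1 ‖u‖
  have h4 := le_max_right 1 ‖u‖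
  have h5 := norm_nonneg x
  exact max_le (by nlinarith) (by nlinarith)

lemma totalDegree_le_of_growth {p : Rs s} {M : ℝ} {k : ℕ}
    (h : ∀ x, ‖ev x p‖ ≤ M * max 1 ‖x‖ ^ k) : p.totalDegree ≤ k := by
  rcases s with _ | s
  · rw [p.eq_C_of_isEmpty, MvPolynomial.totalDegree_C]; simp
  rcases eq_or_ne p 0 with rfl | hp
  · simp
  obtain ⟨c, a, ha, -, -, h1⟩ := exists_Phi hp
  refine le_trans (le_natDegree_of_ne_zero ?_) (natDegree_Phi_le h c 0)
  rw [coeff_map, h1, map_intCast]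
  exact_mod_cast ha

lemma ev_injective_of {θ : Fin (s + 1) → ℂ} (hθ : Function.Injective (ev θ)) (c : Fin s → ℤ) :
    Function.Injective (ev fun j => θ j.succ - c j * θ 0) := by
  let ρ : Rs s →+* Rs (s + 1) := MvPolynomial.eval₂Hom (Int.castRingHom _)
    fun j => MvPolynomial.X j.succ - (c j : Rs (s + 1)) * MvPolynomial.X 0
  let π : Rs (s + 1) →+* Rs s := MvPolynomial.eval₂Hom (Int.castRingHom _)
    (Fin.cons 0 MvPolynomial.X)
  have h1 : (ev fun j => θ j.succ - c j * θ 0) = (ev θ).comp ρ :=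
    MvPolynomial.ringHom_ext (fun a => by simp) fun j => by simp [ρ, ev_X]
  have h2 : π.comp ρ = RingHom.id _ :=
    MvPolynomial.ringHom_ext (fun a => by simp) fun j => by simp [ρ, π]
  rw [h1]
  exact hθ.comp (Function.LeftInverse.injective (g := π) fun p => DFunLike.congr_fun h2 p)

lemma pt_self (θ : Fin (s + 1) → ℂ) (c : Fin s → ℤ) :
    pt c (fun j => θ j.succ - c j * θ 0) (θ 0) = θ := by
  ext j
  refine Fin.cases ?_ (fun j => ?_) j <;> simp [pt]

end Pool.Agent.Lib.MP_12eca1_ag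
end

-- part Pool.Agent.Lib.MP_12eca1_ag.LNear
section

/-!
Homomorphisms over a nearby point which move finitely many given elements only a little.
-/

namespace Pool.Agent.Lib.MP_12eca1_ag

open Polynomial Filter

variable {s : ℕ}

lemma differentiable_ev (p : Rs s) : Differentiable ℂ fun x => ev x p := by
  induction p using MvPolynomial.induction_on with
  | C a => simp only [ev_C]; fun_prop
  | add p q hp hq => simp only [map_add]; exact hp.add hq
  | mul_X p j hp => simp only [map_mul, ev_X]; exact hp.mul (by fun_prop)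

lemma prod_le_pow_real {κ : Type*} (T : Finset κ) (f : κ → ℝ) (A : ℝ) (h0 : ∀ i, 0 ≤ f i)
    (h : ∀ i ∈ T, f i ≤ A) : ∏ i ∈ T, f i ≤ A ^ T.card :=
  (Finset.prod_le_prod (fun i _ => h0 i) h).trans (Finset.prod_const A).le

lemma norm_interpolate_le {κ : Type*} [DecidableEq κ] (T : Finset κ) (v r : κ → ℂ) {ε A : ℝ}
    (hr : ∀ i ∈ T, ‖r i‖ ≤ ε) (hA : 1 ≤ A) {w : ℂ}
    (hw : ∀ i ∈ T, ∀ j ∈ T, i ≠ j → ‖w - v j‖ ≤ A * ‖v i - v j‖) :
    ‖(Lagrange.interpolate T v r).eval w‖ ≤ T.card * (ε * A ^ T.card) := by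
  rw [Lagrange.interpolate_apply, eval_finsetSum]
  refine (norm_sum_le _ _).trans ?_
  rw [← nsmul_eq_mul]
  refine Finset.sum_le_card_nsmul _ _ _ fun i hi => ?_
  rw [eval_mul, eval_C, norm_mul, Lagrange.basis, eval_prod, norm_prod]
  refine mul_le_mul (hr i hi) ((prod_le_pow_real _ _ A (fun _ => norm_nonneg _) fun j hj => ?_).trans
    (pow_le_pow_right₀ hA Finset.card_erase_le)) (by positivity) ((norm_nonneg _).trans (hr i hi))
  obtain ⟨h1, h2⟩ := Finset.mem_erase.mp hj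
  simp only [Lagrange.basisDivisor, eval_mul, eval_C, eval_sub, eval_X, norm_mul, norm_inv]
  rw [inv_mul_eq_div]
  exact div_le_of_le_mul₀ (norm_nonneg _) (by linarith) (hw i hi j h2 h1.symm)

lemma coeff_le_of_values {q : ℂ[X]} (T : Finset ℕ) (hq : q.degree < T.card) {K : ℕ}
    (hK : ∀ t ∈ T, t ≤ K) {ε : ℝ} (h : ∀ t ∈ T, ‖q.eval (t : ℂ)‖ ≤ ε) (i : ℕ) :
    ‖q.coeff i‖ ≤ T.card * (ε * (K + 1) ^ T.card) := by
  refine norm_coeff_le_of_circle _ (fun w hw => ?_) i
  rw [Lagrange.eq_interpolate (v := fun t : ℕ => (t : ℂ)) (s := T)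
    (fun a _ b _ h => Nat.cast_injective h) hq]
  refine norm_interpolate_le T _ _ h (by linarith [Nat.cast_nonneg (α := ℝ) K]) fun a _ b hb hab => ?_
  have h1 : (1 : ℝ) ≤ ‖(a : ℂ) - b‖ := by
    have : (a : ℂ) - b = ((a - b : ℤ) : ℂ) := by simp
    rw [this, Complex.norm_intCast]
    exact_mod_cast Int.one_le_abs (show (a - b : ℤ) ≠ 0 by omega)
  have h2 : (b : ℝ) ≤ K := by exact_mod_cast hK b hb
  have h3 := norm_sub_le w b
  rw [hw, Complex.norm_natCast] at h3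
  nlinarith [Nat.cast_nonneg (α := ℝ) K]

lemma exists_near_one {θ : Fin s → ℂ} (hθ : Function.Injective (ev θ)) {u : Oc θ} {S : ℕ}
    (hS : 4 ≤ S) (h1 : (mp θ u).natDegree ≤ S) (h2 : Sw u (2 * S) S) (h3 : ‖θ‖ ≤ Real.exp S)
    {x : Fin s → ℂ} {E : ℝ} (hE : 0 ≤ E) (hx : ‖x - θ‖ ≤ Real.exp (-(S * E + 3 * S ^ 3))) :
    ∃ φ : Oc θ →+* ℂ, Ov φ x ∧ ‖φ u - u‖ ≤ Real.exp (-E) := by
  have hS' : (4 : ℝ) ≤ S := by exact_mod_cast hS
  have hb : ∀ y : Fin s → ℂ, ‖y - θ‖ < 1 →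
      Real.exp (2 * S) * max 1 ‖y‖ ^ S ≤ Real.exp (S ^ 2 + 3 * S) := fun y hy => by
    have h4 : max 1 ‖y‖ ≤ Real.exp (S + 1) := by
      refine max_le (Real.one_le_exp (by positivity)) ?_
      have := norm_le_norm_add_norm_sub' y θ
      have h5 := Real.add_one_le_exp 1
      have h6 := Real.one_le_exp (show (0 : ℝ) ≤ S by positivity)
      rw [Real.exp_add]; nlinarith
    exact (mul_le_exp le_rfl (pow_le_exp h4 (by positivity) (by positivity) le_rfl)
      (by positivity)).trans (le_of_eq (by congr 1; ring))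
  let f : (Fin s → ℂ) → ℂ := fun y => ((mp θ u).map (ev y)).eval u
  have hf0 : f θ = 0 := mp_root u (ov_subtype θ)
  have hd : Differentiable ℂ f := by
    simp only [f, eval_map, eval₂_eq_sum_range]
    exact Differentiable.fun_sum fun i _ => (differentiable_ev _).mul_const _
  have hS3 := pow_pos (show (0 : ℝ) < S by linarith) 3
  have hx1 : ‖x - θ‖ < 1 := hx.trans_lt (Real.exp_lt_one_iff.mpr (by nlinarith))
  have h4 := Complex.dist_le_div_mul_dist_of_mapsTo_ball (c := θ) (R₁ := 1)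
    (R₂ := Real.exp (2 * S ^ 3)) hd.differentiableOn (fun y hy => by
      rw [Metric.mem_closedBall, hf0, dist_zero_right]
      refine (h2.eval_le hθ (by positivity) h1 y u).trans ?_
      have h5 := hb y (mem_ball_iff_norm.mp hy)
      have h6 := (h2 _ θ (ov_subtype θ)).trans (hb θ (by simp))
      have h7 : ‖(u : ℂ)‖ + Real.exp (2 * S) * max 1 ‖y‖ ^ S ≤ Real.exp (2 * S ^ 2) := by
        have h8 := Real.add_one_le_exp 1
        have h9 : Real.exp (1 + (S ^ 2 + 3 * S)) ≤ Real.exp (2 * S ^ 2) :=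
          Real.exp_le_exp.mpr (by nlinarith)
        rw [Real.exp_add] at h9
        have := Real.exp_pos ((S : ℝ) ^ 2 + 3 * S)
        change ‖(u : ℂ)‖ ≤ _ at h6
        nlinarith
      exact (pow_le_exp h7 (by positivity) (by positivity) le_rfl).trans
        (le_of_eq (by congr 1; ring))) (mem_ball_iff_norm.mpr hx1)
  rw [hf0, dist_zero_right, div_one, dist_eq_norm] at h4
  obtain ⟨r, hr, hr'⟩ := exists_root_near ((mp θ u).map (ev x)) (natDegree_map_le.trans h1)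
    (δ := Real.exp (-E)) (by positivity) (Real.exp_le_one_iff.mpr (by linarith)) (t := u) (by
      rw [((mp_monic u).map _).leadingCoeff, norm_one, one_mul, ← Real.exp_nat_mul]
      refine (h4.trans (mul_le_exp le_rfl hx (norm_nonneg _))).trans_lt (Real.exp_lt_exp.mpr ?_)
      linarith)
  obtain ⟨φ, h5, h6⟩ := exists_ov_root hθ u x hr
  exact ⟨φ, h5, by rw [h6, norm_sub_rev]; exact hr'.le⟩

lemma exists_near_hom (ι : Type*) [Fintype ι] : ∀ᶠ S : ℕ in atTop, ∀ {s : ℕ} {θ : Fin s → ℂ},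
    Function.Injective (ev θ) → ∀ L : Subring (Oc θ), (∀ g ∈ L, (mp θ g).natDegree ≤ S) →
    ∀ g : ι → Oc θ, (∀ i, g i ∈ L) → (∀ i, Sw (g i) S S) → ‖θ‖ ≤ Real.exp S →
    ∀ {x : Fin s → ℂ} {E : ℝ}, 0 ≤ E → ‖x - θ‖ ≤ Real.exp (-(S * E + 3 * S ^ 3)) →
    ∃ φ : Oc θ →+* ℂ, Ov φ x ∧ ∀ i, ‖φ (g i) - g i‖ ≤ Real.exp (S - E) := by
  classical
  set n := Fintype.card ι with hn
  filter_upwards [eventually_ge_atTop 4, eventually_poly_le_exp (n * (n + 1) ^ n) (n * n)]
    with S hS hS2 s θ hθ L hL g hg hgS hθS x E hE hx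
  have hS1 : (1 : ℝ) ≤ S := by exact_mod_cast (show 1 ≤ S by omega)
  let e := Fintype.equivFin ι
  set K := S ^ n * n with hK
  have hK1 : (n : ℝ) * (K + 1) ^ n ≤ Real.exp S := by
    refine le_trans ?_ hS2
    rw [mul_assoc, pow_mul, ← mul_pow]
    have := one_le_pow₀ (n := n) hS1
    gcongr
    rw [hK]; push_cast; nlinarith
  have h1 : ∀ t : ℕ, t ≤ K → ∃ φ : Oc θ →+* ℂ, Ov φ x ∧
      ‖φ (∑ i, (t : Oc θ) ^ (e i : ℕ) * g i) - (∑ i, (t : Oc θ) ^ (e i : ℕ) * g i : Oc θ)‖ ≤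
        Real.exp (-E) := fun t ht => by
    refine exists_near_one hθ hS (hL _ (sum_mem fun i _ => mul_mem (pow_mem (natCast_mem L t) _)
      (hg i))) (fun φ y hy => ?_) hθS hE hx
    rw [map_sum]
    refine (norm_sum_le _ _).trans ((Finset.sum_le_card_nsmul _ _
      ((K + 1) ^ n * (Real.exp S * max 1 ‖y‖ ^ S)) fun i _ => ?_).trans ?_)
    · rw [map_mul, map_pow, map_natCast, norm_mul, norm_pow, Complex.norm_natCast]
      have ht' : (t : ℝ) ≤ K + 1 := by exact_mod_cast ht.trans (Nat.le_succ K)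
      exact mul_le_mul ((pow_le_pow_left₀ (by positivity) ht' _).trans (pow_le_pow_right₀
        (by linarith [Nat.cast_nonneg (α := ℝ) K]) (e i).2.le)) (hgS i φ y hy) (norm_nonneg _)
          (by positivity)
    · rw [nsmul_eq_mul, Finset.card_univ, ← mul_assoc, two_mul, Real.exp_add, mul_assoc (Real.exp _)]
      exact mul_le_mul_of_nonneg_right hK1 (by positivity)
  have : Nonempty (Oc θ →+* ℂ) := ⟨(Oc θ).subtype⟩
  choose! φ hφ1 hφ2 using h1
  obtain ⟨v, -, hv⟩ := Finset.exists_lt_card_fiber_of_mul_lt_card_of_maps_to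
    (s := Finset.range (K + 1))
    (t := Fintype.piFinset fun i => ((mp θ (g i)).map (ev x)).roots.toFinset)
    (f := fun t i => φ t (g i)) (n := n) (fun t ht => Fintype.mem_piFinset.mpr fun i =>
      Multiset.mem_toFinset.mpr ((mem_roots ((mp_monic _).map _).ne_zero).mpr
        (mp_root _ (hφ1 t (by simpa using Nat.lt_succ_iff.mp (Finset.mem_range.mp ht))))))
    (by
      rw [Fintype.card_piFinset, Finset.card_range]
      refine Nat.lt_succ_of_le (Nat.mul_le_mul_right _ ?_)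
      exact Finset.prod_le_pow_card _ _ S fun i _ => (Multiset.toFinset_card_le _).trans
        ((card_roots' _).trans (natDegree_map_le.trans (hL _ (hg i)))))
  obtain ⟨t0, ht0⟩ := Finset.card_pos.mp ((Nat.zero_le _).trans_lt hv)
  obtain ⟨T, hT, hTc⟩ := Finset.exists_subset_card_eq hv.le
  have h2 : ∀ t ∈ T, t ≤ K ∧ ∀ i, φ t (g i) = v i := fun t ht => by
    obtain ⟨h3, h4⟩ := Finset.mem_filter.mp (hT ht)
    exact ⟨Nat.lt_succ_iff.mp (Finset.mem_range.mp h3), congrFun h4⟩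
  obtain ⟨h3, h4⟩ := Finset.mem_filter.mp ht0
  refine ⟨φ t0, hφ1 t0 (Nat.lt_succ_iff.mp (Finset.mem_range.mp h3)), fun i => ?_⟩
  have h5 := coeff_le_of_values (q := ∑ j : Fin n, C (v (e.symm j) - g (e.symm j)) * X ^ (j : ℕ)) T
    (by rw [hTc]; exact degree_sum_fin_lt _) (fun t ht => (h2 t ht).1) (ε := Real.exp (-E)) (fun t ht => by
      refine le_trans (le_of_eq ?_) (hφ2 t (h2 t ht).1)
      congr 1
      push_cast
      rw [eval_finsetSum, map_sum, ← Finset.sum_sub_distrib, ← e.sum_comp]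
      refine Finset.sum_congr rfl fun j _ => ?_
      simp [(h2 t ht).2]; ring) (e i)
  rw [finsetSum_coeff, Finset.sum_eq_single (e i) (fun j _ hj => by
    rw [coeff_C_mul_X_pow, if_neg fun h => hj (Fin.ext h.symm)]) (by simp), coeff_C_mul_X_pow,
    if_pos rfl, e.symm_apply_apply, hTc, mul_left_comm] at h5
  rw [congrFun h4 i, sub_eq_add_neg (S : ℝ), add_comm]
  exact h5.trans (mul_le_exp le_rfl hK1 (by positivity))

end Pool.Agent.Lib.MP_12eca1_ag
end

-- part Pool.Agent.Lib.MP_12eca1_ag.LSpec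
section

/-!
Passing to a point on a hypersurface: integrality, sizes and degrees.
-/

namespace Pool.Agent.Lib.MP_12eca1_ag

open Polynomial Filter

lemma exists_comp_hom {A : Type*} [CommRing A] (φ : A →+* ℂ) (O : Subring ℂ) {a : ℤ} (ha : a ≠ 0)
    (h : ∀ g, ∃ k : ℕ, (a : ℂ) ^ k * φ g ∈ O) (φ' : O →+* ℂ) :
    ∃ ψ : A →+* ℂ, ∀ g (k : ℕ) (hk : (a : ℂ) ^ k * φ g ∈ O), φ' ⟨_, hk⟩ = a ^ k * ψ g := by
  choose k0 hk0 using h
  have ha' : (a : ℂ) ≠ 0 := by exact_mod_cast ha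
  let ψ0 : A → ℂ := fun g => φ' ⟨_, hk0 g⟩ / a ^ k0 g
  have key : ∀ g (k : ℕ) (hk : (a : ℂ) ^ k * φ g ∈ O), φ' ⟨_, hk⟩ = a ^ k * ψ0 g := by
    intro g k hk
    have h1 : (⟨_, hk⟩ : O) * a ^ k0 g = ⟨_, hk0 g⟩ * a ^ k := Subtype.ext (by push_cast; ring)
    have h2 := congrArg φ' h1
    simp only [map_mul, map_pow, map_intCast] at h2
    rw [mul_div_assoc', eq_div_iff (pow_ne_zero _ ha'), h2, mul_comm]
  have key' : ∀ g, φ' ⟨_, hk0 g⟩ = a ^ k0 g * ψ0 g := fun g => key g _ _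
  refine ⟨RingHom.mk' ⟨⟨ψ0, ?_⟩, fun g h => ?_⟩ fun g h => ?_, key⟩
  · have := key 1 0 (by simp)
    simp only [pow_zero, map_one, one_mul] at this
    rw [← this]; exact φ'.map_one
  · have h1 : (a : ℂ) ^ (k0 g + k0 h) * φ (g * h) = a ^ k0 g * φ g * (a ^ k0 h * φ h) := by
      rw [map_mul]; ring
    have h2 := key (g * h) (k0 g + k0 h) (h1 ▸ mul_mem (hk0 g) (hk0 h))
    have h3 : (⟨_, h1 ▸ mul_mem (hk0 g) (hk0 h)⟩ : O) = ⟨_, hk0 g⟩ * ⟨_, hk0 h⟩ := Subtype.ext h1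
    rw [h3, map_mul, key', key'] at h2
    apply mul_left_cancel₀ (pow_ne_zero (k0 g + k0 h) ha')
    simp only
    linear_combination -h2
  · have h1 : (a : ℂ) ^ (k0 g + k0 h) * φ (g + h) =
        a ^ k0 g * φ g * a ^ k0 h + a ^ k0 h * φ h * a ^ k0 g := by
      rw [map_add]; ring
    have h0 : ∀ k : ℕ, (a : ℂ) ^ k ∈ O := fun k => pow_mem (intCast_mem O a) k
    have h4 := add_mem (mul_mem (hk0 g) (h0 (k0 h))) (mul_mem (hk0 h) (h0 (k0 g)))
    have h2 := key (g + h) (k0 g + k0 h) (h1 ▸ h4)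
    have h3 : (⟨_, h1 ▸ h4⟩ : O) = ⟨_, hk0 g⟩ * a ^ k0 h + ⟨_, hk0 h⟩ * a ^ k0 g :=
      Subtype.ext (by push_cast; exact h1)
    rw [h3, map_add, map_mul, map_mul, key', key', map_pow, map_pow, map_intCast] at h2
    apply mul_left_cancel₀ (pow_ne_zero (k0 g + k0 h) ha')
    change _ * ψ0 _ = _ * (ψ0 _ + ψ0 _)
    linear_combination -h2

variable {s : ℕ}

lemma lead_mul_mem {θ : Fin s → ℂ} {P : (Rs s)[X]} {D : ℕ} {a : ℤ} (ha : a ≠ 0)
    (h1 : P.natDegree ≤ D) (h2 : P.coeff D = a) {τ : ℂ} (hτ : (P.map (ev θ)).eval τ = 0) :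
    (a : ℂ) * τ ∈ Oc θ := by
  let _ := alg θ
  have h3 : P.natDegree = D := natDegree_eq_of_le_of_coeff_ne_zero h1 (by
    rw [h2]; exact_mod_cast ha)
  have h4 := isIntegral_leadingCoeff_smul P τ (by rw [aeval_def, ← eval_map]; exact hτ)
  rwa [leadingCoeff, h3, h2, Algebra.smul_def, map_intCast] at h4

lemma scaled_mem {θ : Fin (s + 1) → ℂ} (hθ : Function.Injective (ev θ)) {θ' : Fin s → ℂ}
    {c : Fin s → ℤ} {a : ℤ} {τ : ℂ} (hτ : (a : ℂ) * τ ∈ Oc θ') {φ : Oc θ →+* ℂ}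
    (hφ : Ov φ (pt c θ' τ)) {g : Oc θ} {lam : ℝ} {d ν : ℕ} (h : Sw g lam d) (hlam : 0 ≤ lam)
    (hν : (mp θ g).natDegree ≤ ν) : (a : ℂ) ^ (ν * d) * φ g ∈ Oc θ' := by
  have h0 : ∀ k : ℕ, (a : ℂ) ^ k ∈ Oc θ' := fun k => pow_mem (intCast_mem _ a) k
  have hm := (mp_monic g).map (ev (pt c θ' τ))
  refine mem_Oc_of_monic ((monic_scaleRoots_iff ((a : ℂ) ^ (ν * d))).mpr hm) (fun i => ?_)
    (by rw [scaleRoots_eval_mul, mp_root g hφ, mul_zero])
  rw [coeff_scaleRoots]
  rcases lt_trichotomy i ((mp θ g).map (ev (pt c θ' τ))).natDegree with hi | rfl | hi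
  · obtain ⟨e, he⟩ := Nat.exists_eq_add_of_lt hi
    rw [he, add_assoc, Nat.add_sub_cancel_left, pow_succ', ← mul_assoc, coeff_map, ← eval_Phi,
      eval_eq_sum_range' (Nat.lt_succ_of_le
        (natDegree_Phi_le (fun x => h.coeff_le hθ hlam hν x i) c θ')), Finset.sum_mul]
    refine mul_mem (sum_mem fun j hj => ?_) (pow_mem (h0 _) _)
    obtain ⟨k, hk⟩ := Nat.exists_eq_add_of_le (Nat.lt_succ_iff.mp (Finset.mem_range.mp hj))
    rw [hk, pow_add, coeff_map, mul_assoc, ← mul_assoc (τ ^ j), ← mul_pow, mul_comm τ]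
    exact mul_mem (ev_mem _ _) (mul_mem (pow_mem hτ _) (h0 _))
  · rw [hm.coeff_natDegree]; simp
  · rw [coeff_eq_zero_of_natDegree_lt hi]; simp

lemma coeff_Phi_le {b : Rs (s + 1)} {S : ℕ} (hS : 2 * (S : ℝ) ^ 2 ≤ Real.exp S) (hS1 : 1 ≤ S)
    (hb : ∀ x, ‖ev x b‖ ≤ Real.exp (S * S) * max 1 ‖x‖ ^ (S * S)) {c : Fin s → ℤ}
    (hc : ∀ j, |(c j : ℝ)| ≤ S ^ 2) (x : Fin s → ℂ) (i : ℕ) :
    ‖((Phi c b).map (ev x)).coeff i‖ ≤ Real.exp (S ^ 2 + S ^ 3) * max 1 ‖x‖ ^ (S * S) := by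
  have h1 : (1 : ℝ) ≤ S ^ 2 := one_le_pow₀ (by exact_mod_cast hS1)
  refine norm_coeff_le_of_circle _ (fun u hu => ?_) i
  rw [eval_Phi]
  refine (hb _).trans ?_
  have h2 := norm_pt_le hc h1 x u
  have h3 := le_max_left 1 ‖x‖
  have h4 := le_max_right 1 ‖x‖
  have h5 : max 1 ‖pt c x u‖ ≤ Real.exp S * max 1 ‖x‖ := by
    rw [hu] at h2
    exact max_le (by nlinarith) (by nlinarith)
  calc _ ≤ Real.exp (S * S) * (Real.exp S * max 1 ‖x‖) ^ (S * S) := by gcongr
    _ = _ := by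
      rw [mul_pow, ← Real.exp_nat_mul, ← mul_assoc, ← Real.exp_add]
      congr 2; push_cast; ring

lemma sw_scaled {θ : Fin (s + 1) → ℂ} (hθ : Function.Injective (ev θ)) {θ' : Fin s → ℂ}
    {b : Rs (s + 1)} {S : ℕ} (hS : 2 * (S : ℝ) ^ 2 ≤ Real.exp S) (hS1 : 3 ≤ S)
    (hb : ∀ x, ‖ev x b‖ ≤ Real.exp (S * S) * max 1 ‖x‖ ^ (S * S)) {c : Fin s → ℤ}
    (hc : ∀ j, |(c j : ℝ)| ≤ S ^ 2) {D : ℕ} (hD : D ≤ S * S) {a : ℤ} (ha : a ≠ 0)
    (h1 : (Phi c b).natDegree ≤ D) (h2 : (Phi c b).coeff D = a) {τ : ℂ}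
    (hτ : ((Phi c b).map (ev θ')).eval τ = 0) {φ : Oc θ →+* ℂ} (hφ : Ov φ (pt c θ' τ)) {g : Oc θ}
    (h : Sw g S S) (hg : (a : ℂ) ^ (S * S) * φ g ∈ Oc θ') :
    Sw (⟨_, hg⟩ : Oc θ') (S ^ 6 : ℕ) (S ^ 6) := by
  intro φ' x hx
  have hS' : (3 : ℝ) ≤ S := by exact_mod_cast hS1
  obtain ⟨ψ, hψ⟩ := exists_comp_hom φ (Oc θ') ha (fun g => by
    obtain ⟨k, hk⟩ := (eventually_sw g).exists
    exact ⟨_, scaled_mem hθ (lead_mul_mem ha h1 h2 hτ) hφ hk (by positivity) le_rfl⟩) φ'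
  have hψ0 : ∀ p q, ev (pt c θ' τ) p = ev θ' q → ψ (inc θ p) = ev x q := fun p q hpq => by
    have h3 : (a : ℂ) ^ 0 * φ (inc θ p) = ev θ' q := by rw [pow_zero, one_mul, hφ, hpq]
    have h4 := hψ (inc θ p) 0 (h3 ▸ ev_mem θ' q)
    rw [← one_mul (ψ _), ← pow_zero (a : ℂ), ← h4, ← hx]
    exact congrArg φ' (Subtype.ext h3)
  set τ' := ψ (inc θ (MvPolynomial.X 0)) with hτ'
  have hov : Ov ψ (pt c x τ') := by
    have : ψ.comp (inc θ) = ev (pt c x τ') := by
      refine MvPolynomial.ringHom_ext (fun a => by simp) fun j => ?_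
      rw [ev_X]
      refine Fin.cases rfl (fun j => ?_) j
      have h3 := hψ0 (MvPolynomial.X j.succ - (c j : Rs (s + 1)) * MvPolynomial.X 0)
        (MvPolynomial.X j) (by simp [ev_X, pt])
      simp only [map_sub, map_mul, map_intCast, ev_X] at h3
      simp only [pt, Fin.cons_succ, RingHom.comp_apply]
      linear_combination h3
    exact fun p => DFunLike.congr_fun this p
  have h3 : ((Phi c b).map (ev x)).eval τ' = 0 := by
    rw [eval_Phi, ← hov, hψ0 b 0 (by rw [← eval_Phi, hτ, map_zero]), map_zero]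
  have h4 := coeff_Phi_le hS (by omega) hb hc
  have h5 : ((Phi c b).map (ev x)).coeff D = a := by rw [coeff_map, h2, map_intCast]
  have h6 : ((Phi c b).map (ev x)).natDegree = D :=
    natDegree_eq_of_le_of_coeff_ne_zero (natDegree_map_le.trans h1) (by
      rw [h5]; exact_mod_cast ha)
  have h7 := norm_lead_mul_root_le _ h3 (h4 x)
  rw [leadingCoeff, h6, h5, norm_mul, Complex.norm_intCast] at h7
  have ha1 : (1 : ℝ) ≤ |(a : ℝ)| := by exact_mod_cast Int.one_le_abs ha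
  have hD' : (D : ℝ) ≤ S * S := by exact_mod_cast hD
  set m := max 1 ‖x‖ with hm
  have hm1 : 1 ≤ m := le_max_left _ _
  have hm2 : m ≤ m ^ (S * S) := le_self_pow₀ hm1 (by positivity)
  have h8 : ‖τ'‖ ≤ Real.exp (S + (S ^ 2 + S ^ 3)) * m ^ (S * S) := by
    rw [Real.exp_add, mul_assoc]
    refine (le_mul_of_one_le_left (norm_nonneg _) ha1).trans (h7.trans ?_)
    exact mul_le_mul_of_nonneg_right (by nlinarith) (by positivity)
  have h9 : max 1 ‖pt c x τ'‖ ≤ Real.exp (2 * S ^ 3) * m ^ (S * S) := by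
    refine max_le (one_le_bd (by positivity) x _)
      ((norm_pt_le hc (by nlinarith) x τ').trans ?_)
    have e1 : (S : ℝ) ^ 2 * ‖τ'‖ ≤ Real.exp S * (Real.exp (S + (S ^ 2 + S ^ 3)) * m ^ (S * S)) :=
      mul_le_mul (by nlinarith) h8 (norm_nonneg _) (by positivity)
    rw [← mul_assoc, ← Real.exp_add] at e1
    have e2 : Real.exp (1 + (S + (S + (S ^ 2 + S ^ 3)))) ≤ Real.exp (2 * S ^ 3) :=
      Real.exp_le_exp.mpr (by nlinarith)
    have e3 := Real.add_one_le_exp 1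
    have e4 := Real.one_le_exp (show (0 : ℝ) ≤ S + (S + (S ^ 2 + S ^ 3)) by positivity)
    rw [Real.exp_add] at e2
    have e5 : ‖x‖ ≤ m ^ (S * S) := (le_max_right _ _).trans hm2
    have e6 : 1 + Real.exp (S + (S + (S ^ 2 + S ^ 3))) ≤ Real.exp (2 * S ^ 3) := by nlinarith
    nlinarith [mul_le_mul_of_nonneg_right e6 (show 0 ≤ m ^ (S * S) by positivity)]
  have h10 : |(a : ℝ)| ≤ Real.exp (S ^ 2 + S ^ 3) := by
    have := h4 0 D
    rw [coeff_map, h2, map_intCast, Complex.norm_intCast] at this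
    simpa using this
  rw [hψ, norm_mul, norm_pow, Complex.norm_intCast]
  calc _ ≤ Real.exp ((S * S : ℕ) * (S ^ 2 + S ^ 3)) *
        (Real.exp S * (Real.exp (2 * S ^ 3) * m ^ (S * S)) ^ S) :=
        mul_le_mul (pow_le_exp h10 (abs_nonneg _) (by positivity) le_rfl)
          ((h ψ _ hov).trans (by gcongr)) (norm_nonneg _) (by positivity)
    _ = Real.exp (S ^ 5 + 3 * S ^ 4 + S) * m ^ (S ^ 3) := by
        rw [mul_pow, ← Real.exp_nat_mul, ← mul_assoc, ← mul_assoc, ← Real.exp_add, ← Real.exp_add,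
          ← pow_mul]
        congr 2
        · push_cast; ring
        · ring
    _ ≤ _ := by
        refine mul_le_mul (Real.exp_le_exp.mpr ?_) (pow_le_pow_right₀ hm1
          (Nat.pow_le_pow_right (by omega) (by omega))) (by positivity) (by positivity)
        push_cast
        have e1 : (S : ℝ) ≤ S ^ 4 := le_self_pow₀ (by linarith) (by norm_num)
        have e2 : (0 : ℝ) ≤ S ^ 4 := by positivity
        nlinarith [mul_le_mul_of_nonneg_left (show (S : ℝ) + 4 ≤ S ^ 2 by nlinarith) e2]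

lemma deg_scaled {θ : Fin (s + 1) → ℂ} {θ' : Fin s → ℂ} (hθ' : Function.Injective (ev θ'))
    {P : (Rs s)[X]} (hP : P ≠ 0) {τ : ℂ} (hτ : (P.map (ev θ')).eval τ = 0) {c : Fin s → ℤ}
    {φ : Oc θ →+* ℂ} (hφ : Ov φ (pt c θ' τ)) (g : Oc θ) (w : Oc θ') (hw : φ g = w) :
    (mp θ' w).natDegree ≤ P.natDegree * (mp θ g).natDegree := by
  obtain ⟨F, _, _, hF1, hF2⟩ := exists_field hθ'
  obtain ⟨E1, h1, h2, h3, h4⟩ := tower_step (⊥ : IntermediateField F ℂ) inferInstance
    ((Polynomial.map_ne_zero_iff hθ').mpr hP) (fun j => by rw [coeff_map]; exact hF1 _) hτ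
  obtain ⟨E2, -, h6, h7, h8⟩ := tower_step E1 h3 ((mp_monic g).map (ev (pt c θ' τ))).ne_zero
    (fun j => by
      rw [coeff_map, ← eval_Phi, eval_eq_sum_range]
      exact sum_mem fun i _ => mul_mem (by rw [coeff_map]; exact h1 (hF1 _)) (pow_mem h2 _))
    (mp_root g hφ)
  rw [IntermediateField.finrank_bot, one_mul] at h4
  exact (hF2 E2 h7 w (hw ▸ h6)).trans (h8.trans
    (Nat.mul_le_mul (h4.trans natDegree_map_le) natDegree_map_le))

end Pool.Agent.Lib.MP_12eca1_ag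
end

-- part Pool.Agent.Lib.MP_12eca1_ag.LAna
section

/-!
Analytic estimates for exponential polynomials.
-/

namespace Pool.Agent.Lib.MP_12eca1_ag

open Polynomial

lemma exists_factor {κ : Type*} {G : ℂ → ℂ} (hG : Differentiable ℂ G) (T : Finset κ) (v : κ → ℂ)
    (hv : Set.InjOn v T) (h : ∀ i ∈ T, G (v i) = 0) :
    ∃ H : ℂ → ℂ, Differentiable ℂ H ∧ ∀ w, G w = (∏ i ∈ T, (w - v i)) * H w := by
  classical
  induction T using Finset.induction_on with
  | empty => exact ⟨G, hG, by simp⟩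
  | insert a T ha ih =>
    obtain ⟨H, h1, h2⟩ := ih (hv.mono (by simp)) fun i hi => h i (Finset.mem_insert_of_mem hi)
    have h3 : H (v a) = 0 := (mul_eq_zero.mp ((h2 _).symm.trans
      (h a (Finset.mem_insert_self _ _)))).resolve_left (Finset.prod_ne_zero_iff.mpr fun i hi h0 =>
        ha (hv (by simp) (by simp [hi]) (sub_eq_zero.mp h0) ▸ hi))
    refine ⟨dslope H (v a), differentiableOn_univ.mp
      ((Complex.differentiableOn_dslope Filter.univ_mem).mpr h1.differentiableOn), fun w => ?_⟩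
    have h4 := sub_smul_dslope H (v a) w
    rw [h3, sub_zero, smul_eq_mul] at h4
    rw [h2, Finset.prod_insert ha, ← h4]; ring

lemma norm_le_of_zeros {κ : Type*} {G : ℂ → ℂ} (hG : Differentiable ℂ G) (T : Finset κ) (v : κ → ℂ)
    (hv : Set.InjOn v T) (h : ∀ i ∈ T, G (v i) = 0) {ρ B : ℝ} (hρ : 0 < ρ)
    (hvρ : ∀ i ∈ T, ‖v i‖ ≤ ρ) (hB : ∀ w, ‖w‖ ≤ 7 * ρ → ‖G w‖ ≤ B) {w : ℂ} (hw : ‖w‖ ≤ ρ) :
    ‖G w‖ ≤ Real.exp (-T.card) * B := by
  obtain ⟨H, h1, h2⟩ := exists_factor hG T v hv h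
  have h3 : ‖H w‖ ≤ B / (6 * ρ) ^ T.card := by
    refine Complex.norm_le_of_forall_mem_frontier_norm_le (Metric.isBounded_ball (x := 0)
      (r := 7 * ρ)) h1.diffContOnCl (fun u hu => ?_) (subset_closure (by simp; linarith))
    rw [frontier_ball _ (by positivity), mem_sphere_zero_iff_norm] at hu
    rw [le_div_iff₀ (by positivity), mul_comm]
    refine le_trans ?_ (hB u hu.le)
    rw [h2, norm_mul, norm_prod, ← Finset.prod_const]
    refine mul_le_mul_of_nonneg_right (Finset.prod_le_prod (fun _ _ => by positivity)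
      fun i hi => ?_) (norm_nonneg _)
    linarith [norm_sub_norm_le u (v i), hvρ i hi]
  have hB0 : 0 ≤ B := (norm_nonneg _).trans (hB 0 (by simp; positivity))
  rw [h2, norm_mul, norm_prod]
  refine (mul_le_mul (prod_le_pow_real T _ (2 * ρ) (fun _ => norm_nonneg _) fun i hi => by
    linarith [norm_sub_le w (v i), hvρ i hi]) h3 (norm_nonneg _) (by positivity)).trans ?_
  rw [mul_div_assoc', mul_div_right_comm, ← div_pow, ← mul_neg_one, Real.exp_nat_mul]
  gcongr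
  rw [div_le_iff₀ (by positivity), Real.exp_neg, inv_mul_eq_div, le_div_iff₀ (Real.exp_pos 1)]
  nlinarith [Real.exp_one_lt_d9]

lemma interp_bound {κ : Type*} {F : ℂ → ℂ} (hF : Differentiable ℂ F) (T : Finset κ) (v : κ → ℂ)
    {ρ a b V : ℝ} (hρ : 0 < ρ) (ha : 0 ≤ a) (hv : ∀ i ∈ T, ‖v i‖ ≤ ρ)
    (hsep : ∀ i ∈ T, ∀ j ∈ T, i ≠ j → 8 * ρ ≤ Real.exp a * ‖v i - v j‖)
    (hV : ∀ i ∈ T, ‖F (v i)‖ ≤ Real.exp (-V)) (hB : ∀ w, ‖w‖ ≤ 7 * ρ → ‖F w‖ ≤ Real.exp b)
    {w : ℂ} (hw : ‖w‖ ≤ ρ) :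
    ‖F w‖ ≤ Real.exp (b - T.card) + Real.exp (T.card * (a + 1) + 1 - V) := by
  classical
  have hinj : Set.InjOn v T := fun i hi j hj h => by_contra fun hij => by
    have := hsep i hi j hj hij
    rw [h, sub_self, norm_zero] at this
    linarith
  set P := Lagrange.interpolate T v fun i => F (v i) with hP
  have h1 : ∀ u, ‖u‖ ≤ 7 * ρ → ‖P.eval u‖ ≤ Real.exp (T.card * (a + 1) - V) := fun u hu => by
    refine (norm_interpolate_le T v _ hV (Real.one_le_exp ha) fun i hi j hj hij => by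
      linarith [norm_sub_le u (v j), hv j hj, hsep i hi j hj hij]).trans ?_
    rw [← Real.exp_nat_mul, ← Real.exp_add]
    exact (mul_le_exp (a := T.card) (by linarith [Real.add_one_le_exp (T.card : ℝ)]) le_rfl
      (by positivity)).trans (le_of_eq (by congr 1; ring))
  have h2 := norm_le_of_zeros (G := fun u => F u - P.eval u) (hF.sub P.differentiable) T v hinj
    (fun i hi => by rw [hP, Lagrange.eval_interpolate_at_node _ hinj hi, sub_self]) hρ hv
    (fun u hu => (norm_sub_le _ _).trans (add_le_add (hB u hu) (h1 u hu))) hw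
  have h3 := h1 w (by linarith)
  have h4 := norm_le_norm_add_norm_sub' (F w) (P.eval w)
  have h5 : Real.exp (T.card * (a + 1) + 1 - V) = Real.exp (T.card * (a + 1) - V) * Real.exp 1 := by
    rw [← Real.exp_add]; congr 1; ring
  have h6 := Real.exp_le_one_iff.mpr (show -(T.card : ℝ) ≤ 0 by simp)
  rw [mul_add, ← Real.exp_add, neg_add_eq_sub] at h2
  nlinarith [Real.add_one_le_exp 1, Real.exp_pos (T.card * (a + 1) - V)]

lemma exists_small_comb {Λ κ : Type*} [Fintype Λ] [Fintype κ] (a : Λ → κ → ℝ) {B : ℕ} {δ : ℝ}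
    (hδ : 0 < δ) (ha : ∀ k, ∑ i, |a i k| ≤ B * δ)
    (h : (2 * B + 1) ^ Fintype.card κ < 2 ^ Fintype.card Λ) :
    ∃ p : Λ → ℤ, p ≠ 0 ∧ (∀ i, |p i| ≤ 1) ∧ ∀ k, |∑ i, p i * a i k| ≤ δ := by
  classical
  have hmem : ∀ {p : Λ → ℤ}, p ∈ Fintype.piFinset (fun _ : Λ => Finset.Icc (0 : ℤ) 1) →
      ∀ i, 0 ≤ p i ∧ p i ≤ 1 := fun hp i => Finset.mem_Icc.mp (Fintype.mem_piFinset.mp hp i)
  obtain ⟨p, hp, p', hp', hne, heq⟩ := Finset.exists_ne_map_eq_of_card_lt_of_maps_to
    (s := Fintype.piFinset fun _ : Λ => Finset.Icc (0 : ℤ) 1)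
    (t := Fintype.piFinset fun _ : κ => Finset.Icc (-B : ℤ) B)
    (f := fun p k => ⌊(∑ i, p i * a i k) / δ⌋) (by
      simp only [Fintype.card_piFinset, Int.card_Icc, Finset.prod_const, Finset.card_univ]
      rwa [show ((B : ℤ) + 1 - -B).toNat = 2 * B + 1 by omega]) fun p hp => by
      refine Finset.mem_coe.mpr (Fintype.mem_piFinset.mpr fun k => ?_)
      have h1 : |∑ i, p i * a i k| ≤ B * δ := by
        refine (Finset.abs_sum_le_sum_abs _ _).trans (le_trans (Finset.sum_le_sum fun i _ => ?_)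
          (ha k))
        rw [abs_mul]
        refine mul_le_of_le_one_left (abs_nonneg _) ?_
        exact_mod_cast abs_le.mpr ⟨by linarith [hmem hp i], (hmem hp i).2⟩
      rw [Finset.mem_Icc, Int.le_floor, Int.floor_le_iff, le_div_iff₀ hδ, div_lt_iff₀ hδ]
      push_cast
      constructor <;> nlinarith [abs_le.mp h1]
  refine ⟨p - p', sub_ne_zero.mpr hne, fun i => ?_, fun k => ?_⟩
  · rw [Pi.sub_apply, abs_le]; constructor <;> linarith [hmem hp i, hmem hp' i]
  · have h1 := Int.abs_sub_lt_one_of_floor_eq_floor (congrFun heq k)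
    rw [← sub_div, abs_div, abs_of_pos hδ, div_lt_one hδ, ← Finset.sum_sub_distrib] at h1
    simpa [sub_mul] using h1.le

lemma exists_aux {Λ κ : Type*} [Fintype Λ] [Fintype κ] (a : Λ → κ → ℂ) {U W : ℝ} (hU : 0 ≤ U)
    (hW : 0 ≤ W) (ha : ∀ k, ∑ i, ‖a i k‖ ≤ Real.exp W)
    (h : 4 * Fintype.card κ * (U + W + 3) < Fintype.card Λ) :
    ∃ p : Λ → ℤ, p ≠ 0 ∧ (∀ i, |p i| ≤ 1) ∧ ∀ k, ‖∑ i, p i * a i k‖ ≤ Real.exp (-U) := by
  obtain ⟨p, h1, h2, h3⟩ := exists_small_comb (κ := κ ⊕ κ)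
    (fun i => Sum.elim (fun k => (a i k).re) fun k => (a i k).im) (B := ⌈Real.exp (U + W + 1)⌉₊)
    (Real.exp_pos (-U - 1)) (fun k => by
      refine le_trans ?_ (mul_le_mul_of_nonneg_right (Nat.le_ceil _) (by positivity))
      rw [← Real.exp_add, show U + W + 1 + (-U - 1) = W by ring]
      rcases k with k | k
      · exact (Finset.sum_le_sum fun i _ => Complex.abs_re_le_norm _).trans (ha k)
      · exact (Finset.sum_le_sum fun i _ => Complex.abs_im_le_norm _).trans (ha k)) (by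
      rw [← Nat.cast_lt (α := ℝ)]
      push_cast
      have e1 : 2 * (⌈Real.exp (U + W + 1)⌉₊ : ℝ) + 1 ≤ Real.exp (U + W + 3) := by
        have e2 := (Nat.ceil_lt_add_one (Real.exp_nonneg (U + W + 1))).le
        have e3 := Real.one_le_exp (show 0 ≤ U + W + 1 by positivity)
        have e4 : 5 ≤ Real.exp 1 * Real.exp 1 := by nlinarith [Real.exp_one_gt_d9]
        rw [show U + W + 3 = U + W + 1 + (1 + 1) by ring, Real.exp_add _ (1 + 1), Real.exp_add 1]
        nlinarith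
      refine (pow_le_exp e1 (by positivity) (by positivity) le_rfl).trans_lt ?_
      rw [← Real.exp_log two_pos, ← Real.exp_nat_mul, Real.exp_lt_exp, Fintype.card_sum]
      push_cast
      nlinarith [Real.log_two_gt_d9, Nat.cast_nonneg (α := ℝ) (Fintype.card Λ)])
  refine ⟨p, h1, h2, fun k => (Complex.norm_le_abs_re_add_abs_im _).trans ?_⟩
  have e1 := h3 (Sum.inl k)
  have e2 := h3 (Sum.inr k)
  have e3 : Real.exp (-U) = Real.exp (-U - 1) * Real.exp 1 := by
    rw [← Real.exp_add]; congr 1; ring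
  simp only [Sum.elim_inl, Sum.elim_inr] at e1 e2
  simp only [Complex.re_sum, Complex.im_sum, Complex.mul_re, Complex.mul_im, Complex.intCast_re,
    Complex.intCast_im, zero_mul, sub_zero, add_zero]
  nlinarith [Real.add_one_le_exp 1, Real.exp_pos (-U - 1)]

lemma vander {Λ : Type*} [Fintype Λ] {p : Λ → ℤ} (hp : p ≠ 0) (u : Λ → ℂ) {a V : ℝ} (ha : 0 ≤ a)
    (hu : ∀ i, ‖u i‖ ≤ 1 / 4) (hsep : ∀ i j, i ≠ j → Real.exp (-a) ≤ ‖u i - u j‖)
    (hV : ∀ t < Fintype.card Λ, ‖∑ i, p i * Complex.exp (u i * t)‖ ≤ Real.exp (-V)) :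
    V ≤ Fintype.card Λ * (a + 5) := by
  classical
  obtain ⟨i0, hi0⟩ := Function.ne_iff.mp hp
  set L := Fintype.card Λ with hL
  set Q : ℂ[X] := ∏ i ∈ Finset.univ.erase i0, (X - C (Complex.exp (u i))) with hQ
  have hc : (Finset.univ.erase i0).card < L := Finset.card_erase_lt_of_mem (Finset.mem_univ _)
  have hd : Q.natDegree < L := by rw [hQ, natDegree_finsetProd_X_sub_C_eq_card]; exact hc
  have h1 : p i0 * Q.eval (Complex.exp (u i0)) =
      ∑ t ∈ Finset.range L, Q.coeff t * ∑ i, p i * Complex.exp (u i * t) := by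
    rw [← Finset.sum_eq_single (s := Finset.univ) (f := fun i => p i * Q.eval (Complex.exp (u i)))
      i0 (fun i _ hi => by
        rw [hQ, eval_prod, Finset.prod_eq_zero (Finset.mem_erase.mpr ⟨hi, Finset.mem_univ _⟩)
          (by simp), mul_zero]) (by simp)]
    simp only [eval_eq_sum_range' hd, Finset.mul_sum]
    rw [Finset.sum_comm]
    refine Finset.sum_congr rfl fun t _ => Finset.sum_congr rfl fun i _ => ?_
    rw [mul_comm (u i), Complex.exp_nat_mul]; ring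
  have e1 := Real.add_one_le_exp 1
  have h2 : ∀ t, ‖Q.coeff t‖ ≤ Real.exp (L * 2) := fun t =>
    norm_coeff_le_of_circle _ (fun w hw => by
      rw [hQ, eval_prod, norm_prod]
      refine (prod_le_pow_real _ _ (Real.exp 2) (fun _ => norm_nonneg _) fun i _ => ?_).trans
        (pow_le_exp le_rfl (by positivity) (by positivity) hc.le)
      have e2 := (Complex.norm_exp_le_exp_norm (u i)).trans
        (Real.exp_le_exp.mpr (show _ ≤ 1 by linarith [hu i]))
      rw [eval_sub, eval_X, eval_C, show (2 : ℝ) = 1 + 1 by norm_num, Real.exp_add]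
      nlinarith [norm_sub_le w (Complex.exp (u i))]) t
  have h3 : Real.exp (-(a + 2)) ^ L ≤ ‖Q.eval (Complex.exp (u i0))‖ := by
    refine (pow_le_pow_of_le_one (by positivity) (Real.exp_le_one_iff.mpr (by linarith))
      hc.le).trans ?_
    rw [hQ, eval_prod, norm_prod, ← Finset.prod_const]
    refine Finset.prod_le_prod (fun _ _ => by positivity) fun i hi => ?_
    have e2 : Complex.exp (u i0) - Complex.exp (u i) =
        Complex.exp (u i) * (Complex.exp (u i0 - u i) - 1) := by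
      rw [mul_sub, ← Complex.exp_add]; simp
    have e3 : ‖u i0 - u i‖ ≤ 1 / 2 := by linarith [norm_sub_le (u i0) (u i), hu i, hu i0]
    have e4 := Complex.norm_exp_sub_one_sub_id_le (x := u i0 - u i) (by linarith)
    have e5 := norm_le_norm_add_norm_sub (Complex.exp (u i0 - u i) - 1) (u i0 - u i)
    have e6 := hsep i0 i (Finset.mem_erase.mp hi).1.symm
    have e7 : Real.exp (-1) ≤ ‖Complex.exp (u i)‖ := by
      rw [Complex.norm_exp]
      exact Real.exp_le_exp.mpr (by linarith [abs_le.mp (Complex.abs_re_le_norm (u i)), hu i])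
    have e8 : Real.exp (-a) = Real.exp (-a - 1) * Real.exp 1 := by
      rw [← Real.exp_add]; congr 1; ring
    rw [eval_sub, eval_X, eval_C, e2, norm_mul, show -(a + 2) = -1 + (-a - 1) by ring, Real.exp_add]
    refine mul_le_mul e7 ?_ (by positivity) (norm_nonneg _)
    nlinarith [Real.exp_pos (-a - 1), norm_nonneg (u i0 - u i)]
  have h4 : ‖p i0 * Q.eval (Complex.exp (u i0))‖ ≤ Real.exp (L + (L * 2 + -V)) := by
    rw [h1]
    refine (norm_sum_le _ _).trans ((Finset.sum_le_card_nsmul _ _ _ fun t ht => (norm_mul_le _ _).trans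
      (mul_le_exp (h2 t) (hV t (Finset.mem_range.mp ht)) (norm_nonneg _))).trans ?_)
    rw [Finset.card_range, nsmul_eq_mul]
    exact mul_le_exp (by linarith [Real.add_one_le_exp (L : ℝ)]) le_rfl (by positivity)
  have h5 : (1 : ℝ) ≤ |(p i0 : ℝ)| := by exact_mod_cast Int.one_le_abs hi0
  rw [norm_mul, Complex.norm_intCast] at h4
  rw [← Real.exp_nat_mul] at h3
  have := Real.exp_le_exp.mp (h3.trans ((le_mul_of_one_le_left (norm_nonneg _) h5).trans h4))
  linarith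

end Pool.Agent.Lib.MP_12eca1_ag
end
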