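import Pool.Agent.Lib.MP_12eca1_ag.Small

/-!
Algebraic numbers of very small height are roots of unity of small order.
-/

namespace Pool.Agent.Lib.MP_12eca1_ag

open Polynomial Height NumberField

lemma le_totient_sq (n : ℕ) : n ≤ 2 * n.totient ^ 2 ∧ (Odd n → n ≤ n.totient ^ 2) := by
  induction n using Nat.recOnPosPrimePosCoprime with
  | zero => simp
  | one => simp
  | prime_pow p k hp hk =>
    obtain ⟨k, rfl⟩ := Nat.exists_eq_succ_of_ne_zero hk.ne'
    obtain ⟨r, rfl⟩ := Nat.exists_eq_add_of_le' hp.two_le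
    have h1 : 1 ≤ (r + 2) ^ k := Nat.one_le_pow _ _ (by omega)
    rw [Nat.totient_prime_pow_succ hp, pow_succ, mul_pow, show r + 2 - 1 = r + 1 from rfl]
    have h2 : (r + 2) ^ k ≤ ((r + 2) ^ k) ^ 2 := Nat.le_self_pow (by norm_num) _
    refine ⟨?_, fun h => Nat.mul_le_mul h2 ?_⟩
    · rw [mul_left_comm]; exact Nat.mul_le_mul h2 (by nlinarith)
    · have := (Nat.odd_mul.mp h).2
      have h3 : r ≠ 0 := by rintro rfl; exact absurd this (by decide)
      nlinarith [Nat.pos_of_ne_zero h3]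
  | coprime a b _ _ hab ha hb =>
    rw [Nat.totient_mul hab, mul_pow]
    refine ⟨?_, fun h => Nat.mul_le_mul (ha.2 (Nat.odd_mul.mp h).1) (hb.2 (Nat.odd_mul.mp h).2)⟩
    rcases Nat.even_or_odd a with h | h
    · have h2 : Odd b := (Nat.even_or_odd b).resolve_left fun h' => by
        have := Nat.dvd_gcd h.two_dvd h'.two_dvd
        rw [hab] at this; omega
      rw [← mul_assoc]; exact Nat.mul_le_mul ha.1 (hb.2 h2)
    · rw [mul_left_comm]; exact Nat.mul_le_mul (ha.2 h) hb.1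

lemma dvd_sum_pow_prime {R κ : Type*} [CommRing R] {p : ℕ} (hp : p.Prime) (t : Finset κ)
    (f : κ → R) : (p : R) ∣ (∑ i ∈ t, f i) ^ p - ∑ i ∈ t, f i ^ p := by
  classical
  induction t using Finset.induction_on with
  | empty => simp [hp.ne_zero]
  | insert a t ha ih =>
    obtain ⟨r, hr⟩ := exists_add_pow_prime_eq hp (f a) (∑ i ∈ t, f i)
    obtain ⟨u, hu⟩ := ih
    rw [Finset.sum_insert ha, Finset.sum_insert ha, hr]
    exact ⟨u + f a * (∑ i ∈ t, f i) * r, by linear_combination hu⟩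

lemma int_of_integral {q : ℚ} (h : IsIntegral ℤ (q : ℂ)) : ∃ n : ℤ, (q : ℂ) = n := by
  have h1 : IsIntegral ℤ q := (isIntegral_algebraMap_iff (algebraMap ℚ ℂ).injective).mp h
  obtain ⟨n, hn⟩ := IsIntegrallyClosed.isIntegral_iff.mp h1
  exact ⟨n, by rw [← hn]; simp⟩

variable {K : Type*} [Field K] [NumberField K]

lemma sum_pow_prime_eq {α : K} (hα : IsIntegral ℤ α) {p : ℕ} (hp : p.Prime)
    (h : ‖∑ σ : K →ₐ[ℚ] ℂ, σ α ^ p - ∑ σ : K →ₐ[ℚ] ℂ, σ α‖ < p) :
    ∑ σ : K →ₐ[ℚ] ℂ, σ α ^ p = ∑ σ : K →ₐ[ℚ] ℂ, σ α := by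
  have h1 : ∀ {x : K}, IsIntegral ℤ x → ∃ n : ℤ, ∑ σ : K →ₐ[ℚ] ℂ, σ x = n := fun {x} hx => by
    have h2 := IsIntegral.sum (s := Finset.univ) (fun σ : K →ₐ[ℚ] ℂ => σ x) fun σ _ =>
      hx.map (σ.restrictScalars ℤ)
    rw [← trace_eq_sum_embeddings] at h2 ⊢
    exact int_of_integral h2
  obtain ⟨a, ha⟩ := h1 hα
  obtain ⟨b, hb⟩ := h1 (hα.pow p)
  simp only [map_pow] at hb
  obtain ⟨r, hr⟩ := dvd_sum_pow_prime hp Finset.univ
    fun σ : K →ₐ[ℚ] ℂ => (⟨σ α, hα.map (σ.restrictScalars ℤ)⟩ : integralClosure ℤ ℂ)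
  have h2 := congrArg Subtype.val hr
  push_cast at h2
  rw [ha, hb] at h2
  have hp0 : (p : ℂ) ≠ 0 := by exact_mod_cast hp.ne_zero
  have h3 : (r : ℂ) = (((a ^ p - b) / p : ℚ) : ℂ) := by push_cast; rw [h2]; field_simp
  obtain ⟨n, hn⟩ := int_of_integral (h3 ▸ r.2)
  rw [h3, hn] at h2
  have h4 : a ^ p - b = p * n := by exact_mod_cast h2
  have := Fact.mk hp
  have h5 : (p : ℤ) ∣ a ^ p - a := by
    rw [← ZMod.intCast_zmod_eq_zero_iff_dvd]; simp
  have h6 : (p : ℤ) ∣ b - a := by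
    have := dvd_sub h5 (Dvd.intro _ h4.symm)
    rwa [sub_sub_sub_cancel_left] at this
  rw [ha, hb] at h ⊢
  rw [← Int.cast_sub, Complex.norm_intCast] at h
  rw [sub_eq_zero.mp (Int.eq_zero_of_abs_lt_dvd h6 (by exact_mod_cast h))]

lemma exists_eq_of_power_sums {κ : Type*} [Fintype κ] (u v : κ → ℂ)
    (h : ∀ k < 2 * Fintype.card κ, ∑ i, u i ^ k = ∑ i, v i ^ k) (i0 : κ) : ∃ i, v i = u i0 := by
  classical
  by_contra hcon
  push Not at hcon
  set A := (Finset.univ.image u ∪ Finset.univ.image v).erase (u i0) with hA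
  have hc : A.card < 2 * Fintype.card κ := by
    refine (Finset.card_erase_lt_of_mem (by simp)).trans_le ((Finset.card_union_le _ _).trans ?_)
    rw [two_mul]
    exact Nat.add_le_add Finset.card_image_le Finset.card_image_le
  set P : ℂ[X] := ∏ a ∈ A, (X - C a) with hP
  have hd : P.natDegree < 2 * Fintype.card κ := by
    rw [hP, natDegree_finsetProd_X_sub_C_eq_card]; exact hc
  have h1 : ∑ i, P.eval (u i) = ∑ i, P.eval (v i) := by
    simp only [eval_eq_sum_range' hd]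
    rw [Finset.sum_comm, Finset.sum_comm (f := fun i k => P.coeff k * v i ^ k)]
    refine Finset.sum_congr rfl fun k hk => ?_
    rw [← Finset.mul_sum, ← Finset.mul_sum, h k (Finset.mem_range.mp hk)]
  have h2 : ∀ a ∈ A, P.eval a = 0 := fun a ha => by
    rw [hP, eval_prod]; exact Finset.prod_eq_zero ha (by simp)
  have h3 : P.eval (u i0) ≠ 0 := by
    rw [hP, eval_prod]
    exact Finset.prod_ne_zero_iff.mpr fun a ha => by
      simpa [sub_eq_zero] using (Finset.mem_erase.mp ha).1.symm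
  rw [Finset.sum_eq_zero (f := fun i => P.eval (v i)) fun i _ => h2 _ (by simp [hA, hcon i]),
    ← Finset.sum_filter_of_ne (p := fun i => u i = u i0) (fun i _ hi => by
      by_contra h4; exact hi (h2 _ (by simp [hA, h4]))),
    Finset.sum_congr rfl (g := fun _ => P.eval (u i0)) fun i hi => by
      rw [(Finset.mem_filter.mp hi).2], Finset.sum_const, nsmul_eq_mul] at h1
  refine mul_ne_zero ?_ h3 h1
  exact_mod_cast Finset.card_ne_zero.mpr ⟨i0, by simp⟩

theorem weak_dob {D : ℕ} (hD : Module.finrank ℚ K ≤ D) {γ : K} (hγ : γ ≠ 0)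
    (hh : 100 * D ^ 2 * logHeight₁ γ ≤ 1) : ∃ j, 0 < j ∧ j ≤ 2 * D ^ 2 ∧ γ ^ j = 1 := by
  have hD1 : 1 ≤ D := Module.finrank_pos.trans_le hD
  have hD1' : (1 : ℝ) ≤ D := by exact_mod_cast hD1
  have h0 := zero_le_logHeight₁ γ
  have hm : mulHeight₁ γ = Real.exp (logHeight₁ γ) := by
    rw [logHeight₁_eq_log_mulHeight₁, Real.exp_log (mulHeight₁_pos γ)]
  have hint : IsIntegral ℤ γ := by
    obtain ⟨n, hn0, hn1, hn2⟩ := NumberField.exists_nat_le_mulHeight₁ γ
    have h1 : Real.exp (logHeight₁ γ) < 2 := by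
      refine (Real.lt_log_iff_exp_lt two_pos).mp ?_
      nlinarith [Real.log_two_gt_d9, mul_le_mul_of_nonneg_right (one_le_pow₀ (n := 2) hD1') h0]
    have hn : n = 1 := by
      have : n < 2 := by exact_mod_cast (hn1.trans hm.le).trans_lt h1
      omega
    simpa [hn] using hn2
  obtain ⟨p, hp, hp1, hp2⟩ := Nat.exists_prime_lt_and_le_two_mul (6 * D) (by omega)
  have hcard : Fintype.card (K →ₐ[ℚ] ℂ) ≤ D := (AlgHom.card ℚ K ℂ).le.trans hD
  have h1 : ∀ k ≤ 24 * D ^ 2, ‖∑ σ : K →ₐ[ℚ] ℂ, σ γ ^ k‖ ≤ D * 3 := fun k hk => by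
    refine (norm_sum_le _ _).trans ((Finset.sum_le_card_nsmul _ _ 3 fun σ _ => ?_).trans ?_)
    · rw [norm_pow]
      refine (pow_le_exp ((norm_le_mulHeight γ σ).trans hm.le) (norm_nonneg _) h0 hk).trans ?_
      refine (Real.exp_le_exp.mpr (show _ ≤ 1 by push_cast; nlinarith)).trans ?_
      linarith [Real.exp_one_lt_d9]
    · rw [nsmul_eq_mul, Finset.card_univ]; gcongr
  obtain ⟨σ0, -, hσ0⟩ := Finset.exists_max_image Finset.univ (fun σ : K →ₐ[ℚ] ℂ => ‖σ γ‖)
    (Finset.card_pos.mp (by rw [Finset.card_univ, AlgHom.card]; exact Module.finrank_pos))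
  obtain ⟨σ1, hσ1⟩ := exists_eq_of_power_sums (fun σ : K →ₐ[ℚ] ℂ => σ γ ^ p) (fun σ => σ γ)
    (fun k hk => by
      have h2 := sum_pow_prime_eq (hint.pow k) hp (by
        simp only [map_pow, ← pow_mul]
        refine (norm_sub_le _ _).trans_lt ?_
        have h3 := h1 (k * p) (by nlinarith)
        have h4 := h1 k (by nlinarith)
        have h5 : (6 * D : ℝ) < p := by exact_mod_cast hp1
        linarith)
      simpa only [map_pow, ← pow_mul, mul_comm] using h2) σ0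
  have h2 : ‖σ0 γ‖ ≤ 1 := by
    by_contra h3
    have h4 := hσ0 σ1 (Finset.mem_univ _)
    rw [hσ1, norm_pow] at h4
    have := pow_lt_pow_right₀ (not_le.mp h3) hp.one_lt
    rw [pow_one] at this
    linarith
  obtain ⟨n, hn, hn1⟩ := Embeddings.pow_eq_one_of_norm_le_one K ℂ hγ hint fun φ =>
    (hσ0 φ.toRatAlgHom (Finset.mem_univ _)).trans h2
  have h3 := (IsPrimitiveRoot.orderOf γ).totient_le_degree_minpoly
  refine ⟨orderOf γ, (isOfFinOrder_iff_pow_eq_one.mpr ⟨n, hn, hn1⟩).orderOf_pos,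
    (le_totient_sq _).1.trans ?_, pow_orderOf_eq_one γ⟩
  rw [← (minpoly.monic hint).natDegree_map (algebraMap ℤ ℚ),
    ← minpoly.isIntegrallyClosed_eq_field_fractions' ℚ hint] at h3
  have := h3.trans ((minpoly.natDegree_le _).trans hD)
  gcongr

end Pool.Agent.Lib.MP_12eca1_ag
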