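import Mathlib

/-!
Ranks of sets of integral vectors.
-/

namespace Pool.Agent.Lib.MP_12eca1_ag

open Module

variable {ι : Type*} [Fintype ι]

/-- an integral vector as a real vector -/
noncomputable def iv (m : ι → ℤ) : EuclideanSpace ℝ ι := WithLp.toLp 2 fun i => (m i : ℝ)

omit [Fintype ι] in
lemma iv_apply (m : ι → ℤ) (i : ι) : iv m i = m i := rfl

/-- the rank of a set of integral vectors -/
noncomputable def rkS (R : Set (ι → ℤ)) : ℕ := finrank ℝ (Submodule.span ℝ (iv '' R))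

lemma rkS_mono {R R' : Set (ι → ℤ)} (h : R ⊆ R') : rkS R ≤ rkS R' :=
  Submodule.finrank_mono (Submodule.span_mono (Set.image_mono h))

lemma exists_coords (W : Submodule ℝ (EuclideanSpace ℝ ι)) :
    ∃ J : Finset ι, J.card ≤ finrank ℝ W ∧ ∀ w ∈ W, (∀ j ∈ J, w j = 0) → w = 0 := by
  classical
  let f : ι → Dual ℝ W := fun i => (EuclideanSpace.projₗ i).comp W.subtype
  obtain ⟨κ, a, ha, hsp, hli⟩ := exists_linearIndependent' ℝ f
  have : Finite κ := Finite.of_injective a ha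
  let _ := Fintype.ofFinite κ
  refine ⟨Finset.univ.image a, Finset.card_image_le.trans ?_, fun w hw h => ?_⟩
  · rw [← Subspace.dual_finrank_eq]; exact hli.fintype_card_le_finrank
  · ext i
    obtain ⟨r, hr⟩ := (Submodule.mem_span_range_iff_exists_fun ℝ).mp
      (hsp ▸ Submodule.subset_span ⟨i, rfl⟩ : f i ∈ Submodule.span ℝ (Set.range (f ∘ a)))
    have h1 := congrArg (fun g : Dual ℝ W => g ⟨w, hw⟩) hr
    simp only [LinearMap.sum_apply, LinearMap.smul_apply] at h1
    refine h1.symm.trans (Finset.sum_eq_zero fun j _ => ?_)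
    have : (f ∘ a) j ⟨w, hw⟩ = 0 := h _ (Finset.mem_image_of_mem a (Finset.mem_univ j))
    rw [this, smul_zero]

lemma exists_emb {R : Set (ι → ℤ)} {r : ℕ} (h : rkS R + r ≤ Fintype.card ι) :
    ∃ e : Fin r ↪ ι, ∀ m ∈ R, (∀ i, i ∉ Set.range e → m i = 0) → m = 0 := by
  classical
  obtain ⟨J, h1, h2⟩ := exists_coords (Submodule.span ℝ (iv '' R))
  obtain ⟨e⟩ : Nonempty (Fin r ↪ (Jᶜ : Finset ι)) := Function.Embedding.nonempty_of_card_le (by
    rw [Fintype.card_fin, Fintype.card_coe, Finset.card_compl]; unfold rkS at h; omega)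
  refine ⟨e.trans (Function.Embedding.subtype _), fun m hm h3 => funext fun i => ?_⟩
  have h4 := h2 _ (Submodule.subset_span ⟨m, hm, rfl⟩) fun j hj => by
    rw [iv_apply, h3 j, Int.cast_zero]
    rintro ⟨k, rfl⟩
    exact Finset.mem_compl.mp (e k).2 hj
  have h5 : (m i : ℝ) = 0 := congrArg (fun w : EuclideanSpace ℝ ι => w i) h4
  exact_mod_cast h5

omit [Fintype ι] in
lemma exists_ne_zero_of_rkS {R : Set (ι → ℤ)} (h : 0 < rkS R) : ∃ m ∈ R, m ≠ 0 := by
  by_contra hcon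
  push Not at hcon
  have : Submodule.span ℝ (iv '' R) = ⊥ := Submodule.span_eq_bot.mpr (by
    rintro _ ⟨m, hm, rfl⟩; rw [hcon m hm]; ext i; simp [iv_apply])
  rw [rkS, this] at h
  simp at h

lemma exists_decomp (V : Submodule ℝ (EuclideanSpace ℝ ι)) : ∃ (k : ℕ) (b : Fin k → ι → ℝ),
    finrank ℝ V + k = Fintype.card ι ∧ (∀ j i, |b j i| ≤ 1) ∧ ∀ u : EuclideanSpace ℝ ι, ∃ v ∈ V,
      ∀ i, u i - v i = ∑ j, (∑ i', b j i' * u i') * b j i := by
  let b := stdOrthonormalBasis ℝ Vᗮ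
  refine ⟨_, fun j i => (b j : EuclideanSpace ℝ ι) i, ?_, fun j i => ?_, fun u => ?_⟩
  · rw [V.finrank_add_finrank_orthogonal]; simp
  · exact (PiLp.norm_apply_le (b j : EuclideanSpace ℝ ι) i).trans (b.orthonormal.1 j).le
  · refine ⟨u - Vᗮ.starProjection u, ?_, fun i => ?_⟩
    · have := Vᗮ.sub_starProjection_mem_orthogonal u
      rwa [V.orthogonal_orthogonal] at this
    · rw [b.starProjection_eq_sum_rankOne]
      simp [PiLp.inner_apply, mul_comm]

omit [Fintype ι] in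
lemma approx_span [Finite ι] {R : Set (ι → ℤ)} {v : EuclideanSpace ℝ ι}
    (hv : v ∈ Submodule.span ℝ (iv '' R)) :
    ∃ C : ℝ, ∀ t : ℝ, ∃ m ∈ Submodule.span ℤ R, ∀ i, |t * v i - m i| ≤ C := by
  induction hv using Submodule.span_induction with
  | mem x hx =>
    obtain ⟨r, hr, rfl⟩ := hx
    obtain ⟨C, hC⟩ := (Set.finite_range fun i => |(r i : ℝ)|).bddAbove
    refine ⟨C, fun t => ⟨⌊t⌋ • r, Submodule.smul_mem _ _ (Submodule.subset_span hr), fun i => ?_⟩⟩
    rw [iv_apply, Pi.smul_apply, smul_eq_mul, Int.cast_mul, ← sub_mul, abs_mul, Int.self_sub_floor,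
      abs_of_nonneg (Int.fract_nonneg t)]
    exact (mul_le_of_le_one_left (abs_nonneg _) (Int.fract_lt_one t).le).trans (hC ⟨i, rfl⟩)
  | zero => exact ⟨0, fun t => ⟨0, zero_mem _, fun i => by simp⟩⟩
  | add x y _ _ hx hy =>
    obtain ⟨C, hC⟩ := hx
    obtain ⟨C', hC'⟩ := hy
    refine ⟨C + C', fun t => ?_⟩
    obtain ⟨m, hm, h1⟩ := hC t
    obtain ⟨m', hm', h2⟩ := hC' t
    refine ⟨m + m', add_mem hm hm', fun i => le_trans (le_of_eq ?_)
      ((abs_add_le _ _).trans (add_le_add (h1 i) (h2 i)))⟩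
    congr 1; simp; ring
  | smul c x _ hx =>
    obtain ⟨C, hC⟩ := hx
    refine ⟨C, fun t => ?_⟩
    obtain ⟨m, hm, h1⟩ := hC (t * c)
    exact ⟨m, hm, fun i => by simpa [mul_assoc] using h1 i⟩

/-- short vectors nearly proportional to a vector of the group generated by `R` -/
def Near (R : Set (ι → ℤ)) (A Q : ℕ) : Set (ι → ℤ) :=
  {a | (∀ i, |a i| ≤ A) ∧ ∃ M : ℕ, 0 < M ∧ ∃ m ∈ Submodule.span ℤ R, ∀ i, Q * |M * a i - m i| ≤ M}

theorem rank_near (R : Set (ι → ℤ)) {c g A Q : ℕ} (hc : Fintype.card ι ≤ rkS R + c) (hA : 2 ≤ A)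
    (hg : 4 * Fintype.card ι ^ 2 * Q * A + 1 ≤ A ^ g) :
    Fintype.card ι ≤ rkS (Near R A Q) + g * c := by
  classical
  set n := Fintype.card ι with hn
  obtain ⟨k, b, hk, hb, hdec⟩ := exists_decomp (Submodule.span ℝ (iv '' R))
  obtain ⟨J, hJ, hJ'⟩ := exists_coords (Submodule.span ℝ (iv '' Near R A Q))
  have hkc : k ≤ c := by unfold rkS at hc; omega
  by_contra hcon
  set B : ℕ := 2 * n ^ 2 * Q * A with hB
  have hmem : ∀ {a : ι → ℤ}, a ∈ Fintype.piFinset (fun _ : ι => Finset.Ico (0 : ℤ) A) →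
      ∀ i, 0 ≤ a i ∧ a i < A := fun ha i => Finset.mem_Ico.mp (Fintype.mem_piFinset.mp ha i)
  obtain ⟨y, -, hy⟩ := Finset.exists_lt_card_fiber_of_mul_lt_card_of_maps_to
    (s := Fintype.piFinset fun _ : ι => Finset.Ico (0 : ℤ) A)
    (t := Fintype.piFinset fun _ : Fin k => Finset.Icc (-B : ℤ) B)
    (f := fun a j => ⌊2 * n * Q * ∑ i, b j i * a i⌋) (n := A ^ J.card) (fun a ha => by
      refine Fintype.mem_piFinset.mpr fun j => ?_
      have h1 : |∑ i, b j i * a i| ≤ n * A := by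
        refine (Finset.abs_sum_le_sum_abs _ _).trans ?_
        rw [hn, ← nsmul_eq_mul]
        refine Finset.sum_le_card_nsmul _ _ _ fun i _ => ?_
        rw [abs_mul]
        refine (mul_le_of_le_one_left (abs_nonneg _) (hb j i)).trans ?_
        exact_mod_cast abs_le.mpr ⟨by linarith [hmem ha i], (hmem ha i).2.le⟩
      have h2 := abs_le.mp h1
      have h3 : (0 : ℝ) ≤ 2 * n * Q := by positivity
      rw [Finset.mem_Icc, Int.le_floor, Int.floor_le_iff, hB]
      push_cast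
      constructor <;> nlinarith) (by
      simp only [Fintype.card_piFinset, Int.card_Icc, Finset.prod_const, Finset.card_univ,
        Fintype.card_fin, Int.card_Ico, sub_zero, Int.toNat_natCast, ← hn]
      have h1 : ((B : ℤ) + 1 - -B).toNat ≤ A ^ g := by
        refine le_trans (le_of_eq ?_) hg
        rw [show 4 * n ^ 2 * Q * A = 2 * B by rw [hB]; ring]; omega
      calc _ ≤ (A ^ g) ^ c * A ^ J.card := Nat.mul_le_mul_right _ ((Nat.pow_le_pow_left h1 _).trans
            (Nat.pow_le_pow_right (by positivity) hkc))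
        _ < _ := by
          rw [← pow_mul, ← pow_add]
          exact Nat.pow_lt_pow_right hA (by unfold rkS at hcon; omega))
  obtain ⟨a, ha, a', ha', hne, heq⟩ := Finset.exists_ne_map_eq_of_card_lt_of_maps_to
    (t := Fintype.piFinset fun _ : J => Finset.Ico (0 : ℤ) A) (f := fun a (j : J) => a j)
    (lt_of_eq_of_lt (by simp) hy) fun a ha => Finset.mem_coe.mpr (Fintype.mem_piFinset.mpr
      fun j => Finset.mem_Ico.mpr (hmem (Finset.mem_filter.mp ha).1 j))
  obtain ⟨h1, h2⟩ := Finset.mem_filter.mp ha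
  obtain ⟨h1', h2'⟩ := Finset.mem_filter.mp ha'
  have h3 : a - a' ∈ Near R A Q := by
    refine ⟨fun i => ?_, ?_⟩
    · rw [Pi.sub_apply, abs_le]; constructor <;> linarith [hmem h1 i, hmem h1' i]
    obtain ⟨v, hv, h4⟩ := hdec (iv (a - a'))
    obtain ⟨C, hC⟩ := approx_span hv
    obtain ⟨M, hM⟩ := exists_nat_gt (max 0 (2 * Q * C))
    obtain ⟨m, hm, h5⟩ := hC M
    refine ⟨M, by exact_mod_cast (le_max_left _ _).trans_lt hM, m, hm, fun i => ?_⟩
    have h6 : ∀ j, 2 * n * Q * |(∑ i', b j i' * iv (a - a') i') * b j i| ≤ 1 := fun j => by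
      have h7 := Int.abs_sub_lt_one_of_floor_eq_floor (congrFun (h2.trans h2'.symm) j)
      rw [← mul_sub, ← Finset.sum_sub_distrib, abs_mul, abs_of_nonneg (by positivity)] at h7
      rw [abs_mul, ← mul_assoc]
      refine mul_le_one₀ (le_trans (le_of_eq ?_) h7.le) (abs_nonneg _) (hb j i)
      simp [iv_apply, mul_sub]
    have h7 : 2 * n * Q * |iv (a - a') i - v i| ≤ n := by
      rw [h4]
      refine (mul_le_mul_of_nonneg_left (Finset.abs_sum_le_sum_abs _ _) (by positivity)).trans ?_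
      rw [Finset.mul_sum]
      refine (Finset.sum_le_card_nsmul _ _ _ fun j _ => h6 j).trans ?_
      simp only [Finset.card_univ, Fintype.card_fin, nsmul_eq_mul, mul_one, Nat.cast_le]; omega
    have hn0 : (0 : ℝ) < n := by exact_mod_cast Fintype.card_pos_iff.mpr ⟨i⟩
    have h8 : 2 * Q * |iv (a - a') i - v i| ≤ 1 := le_of_mul_le_mul_left (by linarith) hn0
    have h9 := abs_sub_le (M * iv (a - a') i) (M * v i) (m i)
    rw [← mul_sub, abs_mul, Nat.abs_cast] at h9
    have h10 := (le_max_right _ _).trans hM.le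
    rw [← Int.cast_le (R := ℝ)]
    push_cast
    rw [← iv_apply (a - a')]
    have hQ := Nat.cast_nonneg (α := ℝ) Q
    nlinarith [mul_le_mul_of_nonneg_left h9 hQ, mul_le_mul_of_nonneg_left (h5 i) hQ,
      mul_le_mul_of_nonneg_left h8 (Nat.cast_nonneg (α := ℝ) M)]
  have h4 := hJ' _ (Submodule.subset_span ⟨_, h3, rfl⟩) fun j hj => by
    rw [iv_apply, Pi.sub_apply, congrFun heq ⟨j, hj⟩]; simp
  refine hne (funext fun i => sub_eq_zero.mp ?_)
  have h5 : ((a - a') i : ℝ) = 0 := congrArg (fun w : EuclideanSpace ℝ ι => w i) h4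
  exact_mod_cast h5

end Pool.Agent.Lib.MP_12eca1_ag
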