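import Pool.Agent.Lib.MP_12eca1_ag.Step2
import Pool.Agent.Lib.MP_12eca1_ag.Acc

-- part Pool.Agent.Lib.MP_12eca1_ag.Spec
section

/-!
Specialisation of polynomial relations along rational lines.
-/

namespace Pool.Agent.Lib.MP_12eca1_ag

open Polynomial Filter Topology

lemma natDegree_sum_monomial_le {τ : Type*} (S : Finset τ) (e : τ → ℕ) (c : τ → ℤ) {N : ℕ}
    (h : ∀ ν ∈ S, e ν ≤ N) : (∑ ν ∈ S, monomial (e ν) (c ν)).natDegree ≤ N :=
  natDegree_sum_le_of_forall_le _ _ fun ν hν => (natDegree_monomial_le _).trans (h ν hν)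

lemma coeff_sum_monomial_le {τ : Type*} (S : Finset τ) (e : τ → ℕ) (c : τ → ℤ) (i : ℕ) :
    |((∑ ν ∈ S, monomial (e ν) (c ν)).coeff i : ℝ)| ≤ ∑ ν ∈ S, |(c ν : ℝ)| := by
  rw [finsetSum_coeff, Int.cast_sum]
  refine (Finset.abs_sum_le_sum_abs _ _).trans (Finset.sum_le_sum fun ν _ => ?_)
  rw [coeff_monomial]
  split_ifs <;> simp

lemma sum_le_totalDegree {σ : Type*} [Fintype σ] {P : MvPolynomial σ ℤ} {ν : σ →₀ ℕ}
    (hν : ν ∈ P.support) : ∑ i, ν i ≤ P.totalDegree := by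
  have := MvPolynomial.le_totalDegree hν
  rwa [Finsupp.sum_fintype _ _ (by simp)] at this

variable {ι : Type*} [Fintype ι]

/-- coefficient of `U ^ j` in `P (U p, T ^ p)` -/
noncomputable def specB (P : MvPolynomial (ι ⊕ ι) ℤ) (p : ι → ℕ) (j : ℕ) : ℤ[X] :=
  ∑ ν ∈ P.support.filter (fun ν => ∑ i, ν (Sum.inl i) = j),
    monomial (∑ i, ν (Sum.inr i) * p i) (P.coeff ν * ∏ i, (p i : ℤ) ^ ν (Sum.inl i))

lemma natDegree_specB_le (P : MvPolynomial (ι ⊕ ι) ℤ) {p : ι → ℕ} {q D : ℕ} (hp : ∀ i, p i ≤ q)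
    (hD : P.totalDegree ≤ D) (j : ℕ) : (specB P p j).natDegree ≤ D * q := by
  refine natDegree_sum_monomial_le _ _ _ fun ν hν => ?_
  have h1 := sum_le_totalDegree (Finset.mem_filter.mp hν).1
  rw [Fintype.sum_sum_type] at h1
  calc ∑ i, ν (Sum.inr i) * p i ≤ ∑ i, ν (Sum.inr i) * q :=
        Finset.sum_le_sum fun i _ => Nat.mul_le_mul_left _ (hp i)
    _ = (∑ i, ν (Sum.inr i)) * q := (Finset.sum_mul _ _ _).symm
    _ ≤ D * q := Nat.mul_le_mul_right _ (by omega)

lemma coeff_specB_le (P : MvPolynomial (ι ⊕ ι) ℤ) {p : ι → ℕ} {q D : ℕ} (hp : ∀ i, p i ≤ q)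
    (hq : 1 ≤ q) (hD : P.totalDegree ≤ D) (j i : ℕ) :
    |((specB P p j).coeff i : ℝ)| ≤ (∑ ν ∈ P.support, |((P.coeff ν : ℤ) : ℝ)|) * (q : ℝ) ^ D := by
  refine (coeff_sum_monomial_le _ _ _ i).trans ?_
  refine (Finset.sum_le_sum_of_subset_of_nonneg (Finset.filter_subset _ _)
    fun _ _ _ => abs_nonneg _).trans ?_
  rw [Finset.sum_mul]
  refine Finset.sum_le_sum fun ν hν => ?_
  have h1 := sum_le_totalDegree hν
  rw [Fintype.sum_sum_type] at h1
  push_cast
  rw [abs_mul]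
  refine mul_le_mul_of_nonneg_left ?_ (abs_nonneg _)
  rw [abs_of_nonneg (by positivity)]
  have hq' : (1 : ℝ) ≤ q := by exact_mod_cast hq
  calc ∏ i, (p i : ℝ) ^ ν (Sum.inl i) ≤ ∏ i, (q : ℝ) ^ ν (Sum.inl i) :=
        Finset.prod_le_prod (fun i _ => by positivity) fun i _ =>
          pow_le_pow_left₀ (by positivity) (by exact_mod_cast hp i) _
    _ = (q : ℝ) ^ ∑ i, ν (Sum.inl i) := Finset.prod_pow_eq_pow_sum _ _ _
    _ ≤ _ := pow_le_pow_right₀ hq' (by omega)

lemma sum_specB (P : MvPolynomial (ι ⊕ ι) ℤ) (p : ι → ℕ) {D : ℕ} (hD : P.totalDegree ≤ D)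
    (U s : ℂ) :
    ∑ j ∈ Finset.range (D + 1), aeval (Complex.exp s) (specB P p j) * U ^ j =
      MvPolynomial.aeval (Sum.elim (fun i => U * p i) fun i => Complex.exp (s * p i)) P := by
  classical
  rw [MvPolynomial.aeval_def, MvPolynomial.eval₂_eq',
    ← Finset.sum_fiberwise_of_maps_to (s := P.support) (t := Finset.range (D + 1))
      (g := fun ν => ∑ i, ν (Sum.inl i)) (fun ν hν => by
        have h1 := sum_le_totalDegree hν
        rw [Fintype.sum_sum_type] at h1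
        rw [Finset.mem_range]; omega)]
  refine Finset.sum_congr rfl fun j _ => ?_
  rw [specB, map_sum, Finset.sum_mul]
  refine Finset.sum_congr rfl fun ν hν => ?_
  rw [← (Finset.mem_filter.mp hν).2, aeval_monomial, Fintype.prod_sum_type]
  simp only [Sum.elim_inl, Sum.elim_inr, mul_pow, Finset.prod_mul_distrib,
    Finset.prod_pow_eq_pow_sum, map_mul, map_prod, map_pow, map_natCast]
  have h1 : ∏ i, Complex.exp (s * p i) ^ ν (Sum.inr i) =
      Complex.exp s ^ ∑ i, ν (Sum.inr i) * p i := by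
    rw [← Finset.prod_pow_eq_pow_sum]
    refine Finset.prod_congr rfl fun i _ => ?_
    rw [mul_comm s, Complex.exp_nat_mul, ← pow_mul, mul_comm]
  rw [h1]
  ring

lemma exists_lipschitz (P : MvPolynomial (ι ⊕ ι) ℤ) (z : ι → ℂ) (hP : evE z P = 0) :
    ∃ C : ℝ, 0 ≤ C ∧ ∀ᶠ w : (ι → ℂ) × (ι → ℂ) in 𝓝 (z, z),
      ‖MvPolynomial.aeval (Sum.elim w.1 fun i => Complex.exp (w.2 i)) P‖ ≤ C * ‖w - (z, z)‖ := by
  have hg : ∀ i : ι ⊕ ι, DifferentiableAt ℂ (Sum.elim (fun i (w : (ι → ℂ) × (ι → ℂ)) => w.1 i)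
      (fun i w => Complex.exp (w.2 i)) i) (z, z) := by
    rintro (i | i)
    · change DifferentiableAt ℂ (fun w : (ι → ℂ) × (ι → ℂ) => w.1 i) (z, z)
      fun_prop
    · change DifferentiableAt ℂ (fun w : (ι → ℂ) × (ι → ℂ) => Complex.exp (w.2 i)) (z, z)
      fun_prop
  obtain ⟨L, hL, -⟩ := hasFDerivAt_aeval (R := ℤ) _ _ (z, z) (fun i => (hg i).hasFDerivAt) P
  have key : ∀ w : (ι → ℂ) × (ι → ℂ), (fun i => Sum.elim (fun i (w : (ι → ℂ) × (ι → ℂ)) => w.1 i)
      (fun i w => Complex.exp (w.2 i)) i w) = Sum.elim w.1 fun i => Complex.exp (w.2 i) := by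
    intro w; funext i; cases i <;> rfl
  simp only [key] at hL
  obtain ⟨C, hC0, hC⟩ := hL.isBigO_sub.exists_nonneg
  refine ⟨C, hC0, ?_⟩
  filter_upwards [hC.bound] with w hw
  have h0 : MvPolynomial.aeval (Sum.elim z fun i => Complex.exp (z i)) P = 0 := hP
  rwa [h0, sub_zero] at hw

/-- functions which become polynomial in `w, exp w` after clearing denominators -/
def Clr (f : (ι → ℂ) → ℂ) : Prop :=
  ∃ (c : (ι → ℂ) → ℂ) (Q P : MvPolynomial (ι ⊕ ι) ℤ), (∀ w, c w ≠ 0) ∧ (∀ w, c w = evE w Q) ∧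
    ∀ w, c w * f w = evE w P

omit [Fintype ι] in
lemma Clr.add {f g : (ι → ℂ) → ℂ} (hf : Clr f) (hg : Clr g) : Clr fun w => f w + g w := by
  obtain ⟨c, Q, P, h1, h2, h3⟩ := hf
  obtain ⟨c', Q', P', h1', h2', h3'⟩ := hg
  refine ⟨fun w => c w * c' w, Q * Q', P * Q' + P' * Q, fun w => mul_ne_zero (h1 w) (h1' w),
    fun w => ?_, fun w => ?_⟩
  · simp only [h2, h2', evE, map_mul]
  · have e1 := h2 w; have e2 := h2' w; have e3 := h3 w; have e4 := h3' w
    simp only [evE, map_mul, map_add] at *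
    rw [← e1, ← e2, ← e3, ← e4]; ring

omit [Fintype ι] in
lemma Clr.mul {f g : (ι → ℂ) → ℂ} (hf : Clr f) (hg : Clr g) : Clr fun w => f w * g w := by
  obtain ⟨c, Q, P, h1, h2, h3⟩ := hf
  obtain ⟨c', Q', P', h1', h2', h3'⟩ := hg
  refine ⟨fun w => c w * c' w, Q * Q', P * P', fun w => mul_ne_zero (h1 w) (h1' w),
    fun w => ?_, fun w => ?_⟩
  · simp only [h2, h2', evE, map_mul]
  · have e3 := h3 w; have e4 := h3' w
    simp only [evE, map_mul] at *
    rw [← e3, ← e4]; ring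

omit [Fintype ι] in
lemma Clr.of_poly (P : MvPolynomial (ι ⊕ ι) ℤ) {f : (ι → ℂ) → ℂ} (h : ∀ w, f w = evE w P) :
    Clr f :=
  ⟨fun _ => 1, 1, P, fun _ => one_ne_zero, fun _ => by simp [evE], fun w => by simp [h]⟩

omit [Fintype ι] in
lemma Clr.rat (r : ℚ) : Clr fun _ : ι → ℂ => (r : ℂ) :=
  ⟨fun _ => r.den, (r.den : ℤ), (r.num : ℤ), fun _ => Nat.cast_ne_zero.mpr r.den_nz,
    fun _ => by simp [evE], fun _ => by
      simp only [evE, map_intCast]
      exact_mod_cast Rat.den_mul_eq_num r⟩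

omit [Fintype ι] in
lemma Clr.zpow (i : ι) (a : ℤ) : Clr fun w : ι → ℂ => Complex.exp (w i) ^ a := by
  obtain ⟨n, rfl | rfl⟩ := a.eq_nat_or_neg
  · exact Clr.of_poly (MvPolynomial.X (Sum.inr i) ^ n) fun w => by simp [evE]
  · exact ⟨fun w => Complex.exp (w i) ^ n, MvPolynomial.X (Sum.inr i) ^ n, 1,
      fun w => pow_ne_zero _ (Complex.exp_ne_zero _), fun w => by simp [evE],
      fun w => by simp [evE]⟩

omit [Fintype ι] in
lemma Clr.prod {κ : Type*} (s : Finset κ) (f : κ → (ι → ℂ) → ℂ) (h : ∀ j ∈ s, Clr (f j)) :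
    Clr fun w => ∏ j ∈ s, f j w := by
  classical
  induction s using Finset.induction_on with
  | empty => exact Clr.of_poly 1 fun w => by simp [evE]
  | insert a s ha ih =>
    simp only [Finset.prod_insert ha]
    exact (h a (Finset.mem_insert_self _ _)).mul (ih fun j hj => h j (Finset.mem_insert_of_mem hj))

lemma clr_evE_lin {κ : Type*} (A : κ → ι → ℤ) (P : MvPolynomial (κ ⊕ κ) ℚ) :
    Clr fun w => evE (lin A w) P := by
  induction P using MvPolynomial.induction_on with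
  | C c => simpa [evE] using Clr.rat c
  | add p q hp hq => simpa [evE] using hp.add hq
  | mul_X p i hp =>
    simp only [evE, map_mul, MvPolynomial.aeval_X]
    refine hp.mul ?_
    cases i with
    | inl j =>
      exact Clr.of_poly (∑ i, (A j i : MvPolynomial (ι ⊕ ι) ℤ) * MvPolynomial.X (Sum.inl i))
        fun w => by simp [evE, lin]
    | inr j =>
      simp only [Sum.elim_inr, exp_lin]
      exact Clr.prod _ _ fun i _ => Clr.zpow i (A j i)

lemma acc_of_int {z : ι → ℂ} {w : ℕ → ι → ℂ}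
    (h : ∀ P : MvPolynomial (ι ⊕ ι) ℤ, evE z P = 0 → ∀ᶠ k in atTop, evE (w k) P = 0)
    {κ : Type*} (A : κ → ι → ℤ) (P : MvPolynomial (κ ⊕ κ) ℚ) (hP : evE (lin A z) P = 0) :
    ∀ᶠ k in atTop, evE (lin A (w k)) P = 0 := by
  obtain ⟨c, Q, P', h1, -, h3⟩ := clr_evE_lin A P
  filter_upwards [h P' (by rw [← h3]; simp only [hP, mul_zero])] with k hk
  rw [← h3] at hk
  exact (mul_eq_zero.mp hk).resolve_left (h1 _)

end Pool.Agent.Lib.MP_12eca1_ag
end

-- part Pool.Agent.Lib.MP_12eca1_ag.Step1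
section

/-!
The first step: a nonzero integral polynomial in one variable which is small at `exp u`.
-/

namespace Pool.Agent.Lib.MP_12eca1_ag

open Polynomial Filter Topology

variable {ι : Type*} [Fintype ι]

lemma eventually_eval_ne_zero {a : ℂ[X]} (ha : a ≠ 0) {x : ℕ → ℂ} {ξ : ℂ}
    (hx : Tendsto x atTop (𝓝 ξ)) (hne : ∀ᶠ k in atTop, x k ≠ ξ) :
    ∀ᶠ k in atTop, a.eval (x k) ≠ 0 := by
  classical
  have h1 : ((a.roots.toFinset : Set ℂ) \ {ξ}).Finite := (Finset.finite_toSet _).subset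
    Set.sdiff_subset
  have h2 : ((a.roots.toFinset : Set ℂ) \ {ξ})ᶜ ∈ 𝓝 ξ :=
    h1.isClosed.isOpen_compl.mem_nhds (by simp)
  filter_upwards [hx h2, hne] with k hk hk' h0
  apply hk
  exact ⟨by simpa [ha] using h0, hk'⟩

lemma step1 {z : ι → ℂ} (hz : LinearIndependent ℚ z) {i0 i1 : ι} (hi : i0 ≠ i1)
    (hdep : ¬ AlgebraicIndependent ℚ
      fun o : Option ι => o.elim (z i0 / z i1) fun i => Complex.exp (z i))
    (q : ℕ → ℕ) (p : ℕ → ι → ℕ) (u : ℕ → ℂ) (hq : ∀ k, 1 ≤ q k) (hp : ∀ k i, p k i ≤ q k)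
    (hlim : Tendsto (fun k i => u k * p k i) atTop (𝓝 z)) :
    ∃ (D : ℕ) (C : ℝ) (G : ℕ → ℤ[X]), 0 ≤ C ∧ (∀ k, (G k).natDegree ≤ D * q k) ∧
      (∀ k i, |((G k).coeff i : ℝ)| ≤ C * (q k : ℝ) ^ D) ∧
      ∀ᶠ k in atTop, G k ≠ 0 ∧ ‖u k‖ ^ D * ‖aeval (Complex.exp (u k)) (G k)‖ ≤
        C * ‖(fun i => u k * p k i) - z‖ := by
  classical
  have : Algebra.IsAlgebraic ℤ ℚ := IsLocalization.isAlgebraic ℚ (nonZeroDivisors ℤ)
  have hdepZ : ¬ AlgebraicIndependent ℤ
      fun o : Option ι => o.elim (z i0 / z i1) fun i => Complex.exp (z i) :=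
    fun h => hdep (h.extendScalars ℚ)
  rw [algebraicIndependent_iff] at hdepZ
  push Not at hdepZ
  obtain ⟨P, hP, hP0⟩ := hdepZ
  set D := P.totalDegree with hD
  have hdeg : ∀ ν ∈ P.support, ν none + ∑ i, ν (some i) ≤ D := by
    intro ν hν
    have := sum_le_totalDegree hν
    rwa [Fintype.sum_option] at this
  have hz1 : z i1 ≠ 0 := hz.ne_zero i1
  let P' : MvPolynomial (ι ⊕ ι) ℤ := ∑ ν ∈ P.support, MvPolynomial.C (P.coeff ν) *
    (MvPolynomial.X (Sum.inl i0) ^ ν none * MvPolynomial.X (Sum.inl i1) ^ (D - ν none) *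
      ∏ i, MvPolynomial.X (Sum.inr i) ^ ν (some i))
  have hP' : ∀ w : ι → ℂ, evE w P' = ∑ ν ∈ P.support, ((P.coeff ν : ℤ) : ℂ) *
      (w i0 ^ ν none * w i1 ^ (D - ν none) * ∏ i, Complex.exp (w i) ^ ν (some i)) := by
    intro w
    simp [P', evE]
  have hP'z : evE z P' = 0 := by
    rw [MvPolynomial.aeval_def, MvPolynomial.eval₂_eq'] at hP
    rw [hP', ← mul_zero (z i1 ^ D), ← hP, Finset.mul_sum]
    refine Finset.sum_congr rfl fun ν hν => ?_
    obtain ⟨c, hc⟩ := Nat.exists_eq_add_of_le ((Nat.le_add_right _ _).trans (hdeg ν hν))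
    rw [hc, Nat.add_sub_cancel_left, Fintype.prod_option]
    simp only [Option.elim, eq_intCast, div_pow, pow_add]
    field_simp
  obtain ⟨C1, hC1, hlip⟩ := exists_lipschitz P' z hP'z
  let G : ℕ → ℤ[X] := fun k => ∑ ν ∈ P.support, monomial (∑ i, ν (some i) * p k i)
    (P.coeff ν * ((p k i0 : ℤ) ^ ν none * (p k i1 : ℤ) ^ (D - ν none)))
  let C2 : ℝ := ∑ ν ∈ P.support, |((P.coeff ν : ℤ) : ℝ)|
  have hC2 : 0 ≤ C2 := Finset.sum_nonneg fun _ _ => abs_nonneg _
  refine ⟨D, C1 + C2, G, by linarith, fun k => ?_, fun k i => ?_, Eventually.and ?_ ?_⟩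
  · refine natDegree_sum_monomial_le _ _ _ fun ν hν => ?_
    have h1 := hdeg ν hν
    calc ∑ i, ν (some i) * p k i ≤ ∑ i, ν (some i) * q k :=
          Finset.sum_le_sum fun i _ => Nat.mul_le_mul_left _ (hp k i)
      _ = (∑ i, ν (some i)) * q k := (Finset.sum_mul _ _ _).symm
      _ ≤ D * q k := Nat.mul_le_mul_right _ (by omega)
  · refine (coeff_sum_monomial_le _ _ _ i).trans ?_
    refine le_trans ?_ (mul_le_mul_of_nonneg_right (le_add_of_nonneg_left hC1) (by positivity))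
    rw [Finset.sum_mul]
    refine Finset.sum_le_sum fun ν hν => ?_
    push_cast
    rw [abs_mul]
    refine mul_le_mul_of_nonneg_left ?_ (abs_nonneg _)
    rw [abs_of_nonneg (by positivity)]
    have h1 : ν none ≤ D := (Nat.le_add_right _ _).trans (hdeg ν hν)
    calc _ ≤ (q k : ℝ) ^ ν none * (q k : ℝ) ^ (D - ν none) := by
          gcongr <;> exact_mod_cast hp k _
      _ = _ := by rw [← pow_add, Nat.add_sub_cancel' h1]
  · obtain ⟨ν0, hν0⟩ := MvPolynomial.support_nonempty.mpr hP0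
    have hlimi : ∀ i, Tendsto (fun k => u k * p k i) atTop (𝓝 (z i)) :=
      fun i => tendsto_pi_nhds.mp hlim i
    have hsep : ∀ ν ∈ P.support, ∀ᶠ k in atTop,
        (∑ i, ν (some i) * p k i = ∑ i, ν0 (some i) * p k i) → ∀ i, ν (some i) = ν0 (some i) := by
      intro ν _
      by_cases h : ∀ i, ν (some i) = ν0 (some i)
      · exact Eventually.of_forall fun _ _ => h
      have h1 : ∑ i, ((ν (some i) : ℂ) - ν0 (some i)) * z i ≠ 0 := by
        intro h0
        apply h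
        intro i
        have := Fintype.linearIndependent_iff.mp hz (fun i => (ν (some i) : ℚ) - ν0 (some i))
          (by simpa [Rat.smul_def] using h0) i
        exact_mod_cast sub_eq_zero.mp this
      have h2 : Tendsto (fun k => ∑ i, ((ν (some i) : ℂ) - ν0 (some i)) * (u k * p k i)) atTop
          (𝓝 (∑ i, ((ν (some i) : ℂ) - ν0 (some i)) * z i)) :=
        tendsto_finsetSum _ fun i _ => (hlimi i).const_mul _
      filter_upwards [h2.eventually_ne h1] with k hk h3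
      exfalso
      apply hk
      have h4 : ((∑ i, ν (some i) * p k i : ℕ) : ℂ) = (∑ i, ν0 (some i) * p k i : ℕ) := by rw [h3]
      push_cast at h4
      calc _ = u k * (∑ i, (ν (some i) : ℂ) * p k i - ∑ i, (ν0 (some i) : ℂ) * p k i) := by
            rw [← Finset.sum_sub_distrib, Finset.mul_sum]
            exact Finset.sum_congr rfl fun i _ => by ring
        _ = 0 := by rw [h4, sub_self, mul_zero]
    let S := P.support.filter fun ν => ∀ i, ν (some i) = ν0 (some i)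
    let a : ℂ[X] := ∑ ν ∈ S, monomial (ν none) ((P.coeff ν : ℤ) : ℂ)
    have ha : a ≠ 0 := by
      intro h0
      have h1 : a.coeff (ν0 none) = P.coeff ν0 := by
        simp only [a, finsetSum_coeff, coeff_monomial]
        rw [Finset.sum_eq_single ν0]
        · simp
        · intro ν hν hne
          rw [if_neg]
          intro h2
          apply hne
          ext o
          cases o with
          | none => exact h2
          | some i => exact (Finset.mem_filter.mp hν).2 i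
        · intro h2
          exact absurd (Finset.mem_filter.mpr ⟨hν0, fun _ => rfl⟩) h2
      rw [h0, coeff_zero] at h1
      exact MvPolynomial.mem_support_iff.mp hν0 (by exact_mod_cast h1.symm)
    have hne1 := (hlimi i1).eventually_ne hz1
    have hx : Tendsto (fun k => (p k i0 : ℂ) / p k i1) atTop (𝓝 (z i0 / z i1)) := by
      refine ((hlimi i0).div (hlimi i1) hz1).congr' ?_
      filter_upwards [hne1] with k hk
      have := left_ne_zero_of_mul hk
      simp only [Pi.div_apply]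
      rw [mul_div_mul_left _ _ this]
    have hxne : ∀ᶠ k in atTop, (p k i0 : ℂ) / p k i1 ≠ z i0 / z i1 := by
      filter_upwards [hne1] with k hk h0
      have h1 := right_ne_zero_of_mul hk
      rw [div_eq_div_iff h1 hz1] at h0
      have h01 : Function.Injective ![i0, i1] := by
        intro a b
        fin_cases a <;> fin_cases b <;> simp [hi, hi.symm]
      have h2 := hz.comp _ h01
      have h3 : (z ∘ ![i0, i1]) = ![z i0, z i1] := by
        funext a; fin_cases a <;> rfl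
      rw [h3, LinearIndependent.pair_iff] at h2
      have h4 := h2 (p k i1) (-p k i0) (by
        simp only [Rat.smul_def]; push_cast; linear_combination -h0)
      apply h1
      exact_mod_cast h4.1
    filter_upwards [(Finset.eventually_all P.support).mpr hsep, hne1,
      eventually_eval_ne_zero ha hx hxne] with k hk1 hk2 hk3 h0
    have h1 := right_ne_zero_of_mul hk2
    apply mul_ne_zero (pow_ne_zero D h1) hk3
    have h2 : (((G k).coeff (∑ i, ν0 (some i) * p k i) : ℤ) : ℂ) = 0 := by simp [h0]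
    rw [← h2]
    simp only [G, a, finsetSum_coeff, coeff_monomial, eval_finsetSum,
      Finset.mul_sum, S, Finset.sum_filter, Int.cast_sum]
    refine Finset.sum_congr rfl fun ν hν => ?_
    by_cases h3 : ∀ i, ν (some i) = ν0 (some i)
    · rw [if_pos h3, if_pos (by simp only [h3])]
      obtain ⟨c, hc⟩ := Nat.exists_eq_add_of_le ((Nat.le_add_right _ _).trans (hdeg ν hν))
      rw [hc, Nat.add_sub_cancel_left]
      simp only [eval_monomial, div_pow, pow_add]
      push_cast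
      field_simp
    · rw [if_neg h3, if_neg fun h => h3 (hk1 ν hν h)]
      simp
  · have hlim2 : Tendsto (fun k => ((fun i => u k * p k i : ι → ℂ), (fun i => u k * p k i : ι → ℂ)))
        atTop (𝓝 (z, z)) := hlim.prodMk_nhds hlim
    filter_upwards [hlim2.eventually hlip] with k hk
    have h1 : u k ^ D * aeval (Complex.exp (u k)) (G k) = evE (fun i => u k * p k i) P' := by
      rw [hP']
      simp only [G, map_sum, Finset.mul_sum, aeval_monomial]
      refine Finset.sum_congr rfl fun ν hν => ?_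
      have h1 : ∏ i, Complex.exp (u k * p k i) ^ ν (some i) =
          Complex.exp (u k) ^ ∑ i, ν (some i) * p k i := by
        rw [← Finset.prod_pow_eq_pow_sum]
        refine Finset.prod_congr rfl fun i _ => ?_
        rw [mul_comm (u k), Complex.exp_nat_mul, ← pow_mul, mul_comm]
      obtain ⟨c, hc⟩ := Nat.exists_eq_add_of_le ((Nat.le_add_right _ _).trans (hdeg ν hν))
      rw [h1, hc, Nat.add_sub_cancel_left]
      simp only [eq_intCast, mul_pow, pow_add]
      push_cast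
      ring
    rw [← norm_pow, ← norm_mul, h1]
    refine hk.trans ?_
    rw [Prod.mk_sub_mk, Prod.norm_mk, max_self]
    exact mul_le_mul_of_nonneg_right (by linarith) (norm_nonneg _)

end Pool.Agent.Lib.MP_12eca1_ag
end

-- part Pool.Agent.Lib.MP_12eca1_ag.Final
section

/-!
Assembly of the proof.
-/

namespace Pool.Agent.Lib.MP_12eca1_ag

open Polynomial Filter Topology

lemma exists_root7 (q : ℕ) : ∃ m : ℕ, m ^ 7 ≤ q ∧ q < (m + 1) ^ 7 := by
  have h : ∃ m : ℕ, q < (m + 1) ^ 7 :=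
    ⟨q, (Nat.lt_succ_self q).trans_le (Nat.le_self_pow (by norm_num) _)⟩
  refine ⟨Nat.find h, ?_, Nat.find_spec h⟩
  rcases Nat.eq_zero_or_pos (Nat.find h) with h0 | h0
  · simp [h0]
  · have := Nat.find_min h (m := Nat.find h - 1) (by omega)
    rw [Nat.sub_add_cancel h0] at this
    omega

lemma exists_scale (q : ℕ → ℕ) (hq : Tendsto q atTop atTop) :
    ∃ m : ℕ → ℕ, (∀ k, m k ^ 7 ≤ q k) ∧ Tendsto m atTop atTop ∧
      ∀ (C : ℝ) (a : ℕ), ∀ᶠ k in atTop, C * (q k : ℝ) ^ a ≤ Real.exp (m k) := by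
  choose f hf1 hf2 using exists_root7
  have hm : Tendsto (fun k => f (q k)) atTop atTop := by
    refine tendsto_atTop.mpr fun b => ?_
    filter_upwards [hq.eventually_ge_atTop ((b + 1) ^ 7)] with k hk
    have := lt_of_pow_lt_pow_left₀ 7 (by positivity) (hk.trans_lt (hf2 (q k)))
    omega
  refine ⟨fun k => f (q k), fun k => hf1 _, hm, fun C a => ?_⟩
  filter_upwards [hm.eventually (eventually_poly_le_exp (|C| * 128 ^ a) (7 * a)),
    hm.eventually_ge_atTop 1] with k hk hk1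
  refine le_trans ?_ hk
  have h1 : q k ≤ 128 * f (q k) ^ 7 := by
    have := (hf2 (q k)).le.trans (Nat.pow_le_pow_left (show f (q k) + 1 ≤ 2 * f (q k) by omega) 7)
    rwa [mul_pow] at this
  have h2 : (q k : ℝ) ≤ 128 * (f (q k) : ℝ) ^ 7 := by exact_mod_cast h1
  calc C * (q k : ℝ) ^ a ≤ |C| * (128 * (f (q k) : ℝ) ^ 7) ^ a :=
        mul_le_mul (le_abs_self C) (pow_le_pow_left₀ (by positivity) h2 a) (by positivity)
          (abs_nonneg _)
    _ = _ := by rw [mul_pow, ← pow_mul]; ring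

lemma exists_log_near {u t : ℂ} {δ E : ℝ} (h : ‖Complex.exp u - t‖ ≤ δ)
    (hE : Real.exp ‖u‖ ≤ E) (hδ : δ * E ≤ 1 / 2) :
    ∃ s : ℂ, Complex.exp s = t ∧ ‖s - u‖ ≤ 2 * (δ * E) := by
  have hδ0 : 0 ≤ δ := (norm_nonneg _).trans h
  let θ : ℂ := (t - Complex.exp u) * Complex.exp (-u)
  have hθ : ‖θ‖ ≤ δ * E := by
    rw [norm_mul, norm_sub_rev]
    refine mul_le_mul h ((Complex.norm_exp_le_exp_norm _).trans ?_) (norm_nonneg _) hδ0
    rwa [norm_neg]
  have h1 : 1 + θ ≠ 0 := by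
    intro h0
    have : θ = -1 := by linear_combination h0
    rw [this] at hθ
    simp at hθ
    linarith
  refine ⟨u + Complex.log (1 + θ), ?_, ?_⟩
  · rw [Complex.exp_add, Complex.exp_log h1]
    simp only [θ, Complex.exp_neg]
    field_simp
    ring
  · rw [add_sub_cancel_left]
    have := Complex.norm_log_one_add_half_le_self (hθ.trans hδ)
    linarith [norm_nonneg θ]

variable {ι : Type*} [Fintype ι]

theorem exists_good {z : ι → ℂ} (hz : LinearIndependent ℚ z) {i0 i1 : ι} (hi : i0 ≠ i1)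
    (hdep : ¬ AlgebraicIndependent ℚ
      fun o : Option ι => o.elim (z i0 / z i1) fun i => Complex.exp (z i))
    (q : ℕ → ℕ) (p : ℕ → ι → ℕ) (u : ℕ → ℂ) (hq : ∀ k, 1 ≤ q k) (hqlim : Tendsto q atTop atTop)
    (hp : ∀ k i, p k i ≤ q k)
    (happ : ∀ k i, ‖z i - u k * p k i‖ < Real.exp (-(q k : ℝ) ^ 8)) :
    ∃ w : ℕ → ι → ℂ, Good z w := by
  obtain ⟨m, hm7, hm, hmod⟩ := exists_scale q hqlim
  have hmR : ∀ c : ℝ, ∀ᶠ k in atTop, c ≤ m k := fun c =>
    (tendsto_natCast_atTop_atTop.comp hm).eventually_ge_atTop c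
  have hq' : ∀ k, (1 : ℝ) ≤ q k := fun k => by exact_mod_cast hq k
  have hm7' : ∀ k, (m k : ℝ) ^ 7 ≤ q k := fun k => by exact_mod_cast hm7 k
  have hε : ∀ k, ‖(fun i => u k * p k i) - z‖ ≤ Real.exp (-(q k : ℝ) ^ 8) := by
    intro k
    rw [pi_norm_le_iff_of_nonneg (Real.exp_nonneg _)]
    intro i
    rw [Pi.sub_apply, norm_sub_rev]
    exact (happ k i).le
  have hexpm : Tendsto (fun k => Real.exp (-(m k : ℝ))) atTop (𝓝 0) :=
    Real.tendsto_exp_neg_atTop_nhds_zero.comp (tendsto_natCast_atTop_atTop.comp hm)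
  -- basic inequalities between the scales
  have hbasic : ∀ᶠ k in atTop, (1 : ℝ) ≤ m k ∧ (m k : ℝ) ≤ q k ∧
      (m k : ℝ) ≤ (q k : ℝ) ^ 6 * (m k : ℝ) ^ 5 ∧
      (q k : ℝ) ^ 7 * (m k : ℝ) ^ 7 ≤ (q k : ℝ) ^ 8 := by
    filter_upwards [hmR 1] with k hk
    have h1 : (m k : ℝ) ≤ (m k : ℝ) ^ 5 := le_self_pow₀ hk (by norm_num)
    have h2 : (1 : ℝ) ≤ (q k : ℝ) ^ 6 := one_le_pow₀ (hq' k)
    refine ⟨hk, (le_self_pow₀ hk (by norm_num)).trans (hm7' k), by nlinarith, ?_⟩
    rw [pow_succ _ 7]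
    exact mul_le_mul_of_nonneg_left (hm7' k) (by positivity)
  have hεδ : ∀ᶠ k in atTop, Real.exp (-(q k : ℝ) ^ 8) ≤
      Real.exp (-((q k : ℝ) ^ 6 * (m k : ℝ) ^ 6)) := by
    filter_upwards [hbasic] with k ⟨h1, _, _, h4⟩
    refine Real.exp_le_exp.mpr (neg_le_neg (le_trans ?_ h4))
    exact mul_le_mul (pow_le_pow_right₀ (hq' k) (by norm_num)) (pow_le_pow_right₀ h1 (by norm_num))
      (by positivity) (by positivity)
  have hδm : ∀ c : ℝ, ∀ᶠ k in atTop, c * (m k : ℝ) ≤ (q k : ℝ) ^ 6 * (m k : ℝ) ^ 6 := by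
    intro c
    filter_upwards [hbasic, hmR c] with k ⟨h1, _, h3, _⟩ hc
    calc c * (m k : ℝ) ≤ m k * ((q k : ℝ) ^ 6 * (m k : ℝ) ^ 5) :=
          mul_le_mul hc h3 (by linarith) (by linarith)
      _ = _ := by ring
  have hlim : Tendsto (fun k i => u k * p k i) atTop (𝓝 z) := by
    rw [tendsto_iff_norm_sub_tendsto_zero]
    refine squeeze_zero' (Eventually.of_forall fun _ => norm_nonneg _) ?_ hexpm
    filter_upwards [hεδ, hδm 1] with k h1 h2
    exact (hε k).trans (h1.trans (Real.exp_le_exp.mpr (by linarith)))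
  -- size of `u`
  have hz0 : 0 < ‖z i0‖ := norm_pos_iff.mpr (hz.ne_zero i0)
  have hu : ∀ᶠ k in atTop, ‖z i0‖ / 2 ≤ ‖u k‖ * q k ∧ ‖u k‖ ≤ ‖z i0‖ + 1 := by
    have h1 : Tendsto (fun k => ‖u k * p k i0‖) atTop (𝓝 ‖z i0‖) :=
      (tendsto_pi_nhds.mp hlim i0).norm
    filter_upwards [h1.eventually_const_lt (show ‖z i0‖ / 2 < ‖z i0‖ by linarith),
      h1.eventually_lt_const (show ‖z i0‖ < ‖z i0‖ + 1 by linarith)] with k h2 h3
    rw [norm_mul, Complex.norm_natCast] at h2 h3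
    have h4 : p k i0 ≠ 0 := by
      intro h0
      rw [h0] at h2
      simp at h2
      linarith
    have h5 : (1 : ℝ) ≤ p k i0 := by exact_mod_cast Nat.one_le_iff_ne_zero.mpr h4
    have h6 : (p k i0 : ℝ) ≤ q k := by exact_mod_cast hp k i0
    have := norm_nonneg (u k)
    constructor <;> nlinarith
  obtain ⟨D0, C0, G, hC0, hGdeg, hGcoef, hG⟩ := step1 hz hi hdep q p u hq hp hlim
  -- the exact points
  have hs : ∀ᶠ k in atTop, ∃ s : ℂ, aeval (Complex.exp s) (G k) = 0 ∧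
      ‖Complex.exp s - Complex.exp (u k)‖ ≤ Real.exp (-((q k : ℝ) ^ 6 * (m k : ℝ) ^ 6)) ∧
      ‖s - u k‖ ≤ 2 * (Real.exp (-((q k : ℝ) ^ 6 * (m k : ℝ) ^ 6)) * Real.exp (m k)) := by
    filter_upwards [hbasic, hu, hG, hmod (C0 * (2 / ‖z i0‖) ^ D0) D0, hmR (D0 + 2),
      hmR (‖z i0‖ + 1), hδm 2] with k ⟨b1, b2, b3, b4⟩ ⟨u1, u2⟩ ⟨g1, g2⟩ h1 h2 h3 h4
    have hGt : ‖aeval (Complex.exp (u k)) (G k)‖ ≤ Real.exp (m k + -(q k : ℝ) ^ 8) := by
      have h5 : 1 ≤ (‖u k‖ * (2 / ‖z i0‖ * q k)) ^ D0 := by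
        apply one_le_pow₀
        rw [div_le_iff₀ (by norm_num)] at u1
        rw [div_mul_eq_mul_div, ← mul_div_assoc, le_div_iff₀ hz0]
        linarith
      calc _ ≤ (‖u k‖ * (2 / ‖z i0‖ * q k)) ^ D0 * ‖aeval (Complex.exp (u k)) (G k)‖ :=
            le_mul_of_one_le_left (norm_nonneg _) h5
        _ = (2 / ‖z i0‖ * q k) ^ D0 * (‖u k‖ ^ D0 * ‖aeval (Complex.exp (u k)) (G k)‖) := by
            rw [mul_pow]; ring
        _ ≤ (2 / ‖z i0‖ * q k) ^ D0 * (C0 * Real.exp (-(q k : ℝ) ^ 8)) :=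
            mul_le_mul_of_nonneg_left (g2.trans (mul_le_mul_of_nonneg_left (hε k) hC0))
              (by positivity)
        _ = (C0 * (2 / ‖z i0‖) ^ D0 * (q k : ℝ) ^ D0) * Real.exp (-(q k : ℝ) ^ 8) := by
            rw [mul_pow]; ring
        _ ≤ _ := mul_le_exp h1 le_rfl (by positivity)
    obtain ⟨t, ht, ht'⟩ := exists_root_near ((G k).map (Int.castRingHom ℂ))
      (natDegree_map_le.trans (hGdeg k)) (Real.exp_nonneg (-((q k : ℝ) ^ 6 * (m k : ℝ) ^ 6)))
      (Real.exp_le_one_iff.mpr (by linarith)) (t := Complex.exp (u k)) (by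
        rw [eval_map, leadingCoeff_map_of_injective (Int.castRingHom ℂ).injective_int]
        refine hGt.trans_lt (lt_of_lt_of_le ?_ (le_mul_of_one_le_left (by positivity) ?_))
        · rw [← Real.exp_nat_mul, Real.exp_lt_exp]
          push_cast
          have h5 : (1 : ℝ) ≤ (q k : ℝ) ^ 7 := one_le_pow₀ (hq' k)
          have h6 : (m k : ℝ) ≤ (m k : ℝ) ^ 6 := le_self_pow₀ b1 (by norm_num)
          have h7 : (D0 + 2) * ((q k : ℝ) ^ 7 * (m k : ℝ) ^ 6) ≤
              m k * ((q k : ℝ) ^ 7 * (m k : ℝ) ^ 6) :=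
            mul_le_mul_of_nonneg_right h2 (by positivity)
          nlinarith
        · rw [eq_intCast, Complex.norm_intCast]
          exact_mod_cast Int.one_le_abs (leadingCoeff_ne_zero.mpr g1))
    obtain ⟨s, hs1, hs2⟩ := exists_log_near ht'.le (E := Real.exp (m k))
      (Real.exp_le_exp.mpr (by linarith)) (by
        rw [← Real.exp_add]
        refine (Real.exp_le_exp.mpr (show _ ≤ -1 by linarith)).trans ?_
        rw [Real.exp_neg, one_div]
        exact inv_anti₀ (by norm_num) (by linarith [Real.add_one_le_exp 1]))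
    refine ⟨s, ?_, ?_, hs2⟩
    · rw [hs1, ← ht, eval_map]; rfl
    · rw [hs1, norm_sub_rev]; exact ht'.le
  obtain ⟨s, hs⟩ := hs.choice
  have hsz : ∀ᶠ k in atTop, ‖(fun i => s k * p k i) - z‖ ≤
      Real.exp (-((q k : ℝ) ^ 6 * (m k : ℝ) ^ 6) + 4 * m k) := by
    filter_upwards [hs, hεδ, hmod 1 1, hmR 1] with k ⟨_, _, h1⟩ h2 h3 h4
    rw [pow_one, one_mul] at h3
    have h5 : ‖(fun i => s k * p k i : ι → ℂ) - fun i => u k * p k i‖ ≤ ‖s k - u k‖ * q k := by
      rw [pi_norm_le_iff_of_nonneg (by positivity)]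
      intro i
      rw [Pi.sub_apply, ← sub_mul, norm_mul, Complex.norm_natCast]
      exact mul_le_mul_of_nonneg_left (by exact_mod_cast hp k i) (norm_nonneg _)
    have h6 := norm_sub_le_norm_sub_add_norm_sub (fun i => s k * p k i : ι → ℂ)
      (fun i => u k * p k i) z
    have h7 := hε k
    have h8 : 2 ≤ Real.exp (m k) := by linarith [Real.add_one_le_exp (m k)]
    have h9 : ‖s k - u k‖ * q k ≤
        2 * (Real.exp (-((q k : ℝ) ^ 6 * (m k : ℝ) ^ 6)) * Real.exp (m k)) * Real.exp (m k) :=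
      mul_le_mul h1 h3 (by positivity) (by positivity)
    rw [Real.exp_add, show 4 * (m k : ℝ) = (4 : ℕ) * (m k : ℝ) by norm_num, Real.exp_nat_mul]
    set δ := Real.exp (-((q k : ℝ) ^ 6 * (m k : ℝ) ^ 6))
    set E := Real.exp (m k)
    have hδ : 0 ≤ δ := Real.exp_nonneg _
    have h10 : 2 * E ^ 2 + 1 ≤ E ^ 4 := by nlinarith [sq_nonneg (E ^ 2 - 2), sq_nonneg (E - 2)]
    nlinarith
  have hlims : Tendsto (fun k i => s k * p k i) atTop (𝓝 z) := by
    rw [tendsto_iff_norm_sub_tendsto_zero]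
    refine squeeze_zero' (Eventually.of_forall fun _ => norm_nonneg _) ?_ hexpm
    filter_upwards [hsz, hδm 5] with k h1 h2
    exact h1.trans (Real.exp_le_exp.mpr (by linarith))
  refine ⟨fun k i => s k * p k i, hlims, fun k => ⟨s k, fun i => p k i, by simp⟩,
    fun _ A P hP => acc_of_int (fun P hP => ?_) A P hP⟩
  obtain ⟨C1, hC1, hlip⟩ := exists_lipschitz P z hP
  obtain ⟨D, hD0, hDP, hD1⟩ : ∃ D, D0 ≤ D ∧ P.totalDegree ≤ D ∧ 1 ≤ D :=
    ⟨D0 + P.totalDegree + 1, by omega, by omega, by omega⟩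
  have hD1' : (1 : ℝ) ≤ D := by exact_mod_cast hD1
  set C2 : ℝ := ∑ ν ∈ P.support, |((P.coeff ν : ℤ) : ℝ)| with hC2
  have hC2' : 0 ≤ C2 := Finset.sum_nonneg fun _ _ => abs_nonneg _
  obtain ⟨W, hW⟩ : ∃ W : ℝ, W = 2 ^ 28 * (3 * D ^ 11) := ⟨_, rfl⟩
  have hW0 : 0 ≤ W := by rw [hW]; positivity
  filter_upwards [hbasic, hu, hG, hs, hsz, hεδ, (hlim.prodMk_nhds hlims).eventually hlip,
    hmod ((D + 1) * (C0 + C2)) (D + 1), hmod (D + 1) 0, hmod (2 / ‖z i0‖) 1, hmod C1 0,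
    hmod (2 ^ 32 * (3 * D ^ 13)) 13, hmR (‖z i0‖ + 2), hmR (W + 3),
    hmR (6 + 3 * D ^ 2 + D * (W + 3))]
    with k ⟨b1, b2, b3, b4⟩ ⟨u1, u2⟩ ⟨g1, _⟩ ⟨s1, s2, _⟩ h1 h2 h3 h4 h5 h6 h7 h8 h9 h10 h11
  rw [pow_zero, mul_one] at h5 h7
  rw [pow_one] at h6
  set Q : ℝ := (q k : ℝ) ^ 6 * (m k : ℝ) ^ 5 with hQ
  have hQ6 : (q k : ℝ) ^ 6 * (m k : ℝ) ^ 6 = m k * Q := by rw [hQ]; ring
  rw [hQ6] at h1 h2 s2
  have hQ0 : 1 ≤ Q := b1.trans b3
  have hqk := hq' k
  have hN2 : (D : ℝ) * q k + 2 ≤ 3 * (D * q k) := by nlinarith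
  have key := step2 g1 (specB P (p k)) (N := D * q k) (D := D) (lam := m k)
    ((hGdeg k).trans (Nat.mul_le_mul_right _ hD0)) (natDegree_specB_le P (hp k) hDP)
    (Hc := (C0 + C2) * (q k : ℝ) ^ D) (δ := Real.exp (-((W + 3) * Q))) (by exact_mod_cast b1)
    (fun i => (hGcoef k i).trans (mul_le_mul (by linarith) (pow_le_pow_right₀ hqk hD0)
      (by positivity) (by positivity)))
    (fun j i => (coeff_specB_le P (hp k) (hq k) hDP j i).trans
      (mul_le_mul_of_nonneg_right (by linarith) (by positivity)))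
    (by
      refine le_trans ?_ h4
      push_cast
      calc _ ≤ ((D + 1) * q k) * ((C0 + C2) * (q k : ℝ) ^ D) :=
            mul_le_mul_of_nonneg_right (by nlinarith) (by positivity)
        _ = _ := by ring)
    h5 s1 (u := u k) (by linarith) (Real.exp_nonneg _) (Real.exp_le_one_iff.mpr (by nlinarith))
    (by
      have h12 : Real.exp (-((W + 3) * Q)) ≤ Real.exp (-(m k : ℝ)) :=
        Real.exp_le_exp.mpr (by nlinarith)
      refine h12.trans ?_
      rw [Real.exp_neg, inv_le_iff_one_le_mul₀ (Real.exp_pos _)]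
      have h13 : 1 ≤ ‖u k‖ * (2 / ‖z i0‖ * q k) := by
        rw [div_le_iff₀ (by norm_num)] at u1
        rw [div_mul_eq_mul_div, ← mul_div_assoc, le_div_iff₀ hz0]
        linarith
      exact h13.trans (mul_le_mul_of_nonneg_left h6 (norm_nonneg _)))
    (s2.trans (Real.exp_le_exp.mpr (by nlinarith)))
    (by
      rw [sum_specB P (p k) hDP]
      refine h3.trans_lt ?_
      have h12 : ‖((fun i => u k * p k i : ι → ℂ), (fun i => s k * p k i : ι → ℂ)) - (z, z)‖ ≤
          Real.exp (-(m k * Q) + 4 * m k) := by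
        rw [Prod.mk_sub_mk, Prod.norm_mk]
        exact max_le ((hε k).trans (h2.trans (Real.exp_le_exp.mpr (by linarith)))) h1
      refine (mul_le_exp h7 h12 (norm_nonneg _)).trans_lt ?_
      rw [← Real.exp_nat_mul, ← Real.exp_add, Real.exp_lt_exp]
      push_cast
      have h13 : (D : ℝ) * q k * ((D * q k + 2) * m k) ≤ 3 * D ^ 2 * Q := by
        have h14 : (q k : ℝ) ^ 2 * m k ≤ Q :=
          mul_le_mul (pow_le_pow_right₀ hqk (by norm_num)) (le_self_pow₀ b1 (by norm_num))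
            (by positivity) (by positivity)
        calc _ ≤ (D : ℝ) * q k * ((3 * (D * q k)) * m k) := by gcongr
          _ = 3 * D ^ 2 * ((q k : ℝ) ^ 2 * m k) := by ring
          _ ≤ _ := by gcongr
      have h15 : (6 + 3 * D ^ 2 + D * (W + 3)) * Q ≤ m k * Q :=
        mul_le_mul_of_nonneg_right h11 (by positivity)
      nlinarith)
    (by
      refine le_trans ?_ h8
      push_cast
      calc _ ≤ (2 : ℝ) ^ 32 * (D * q k * D) ^ 6 * ((3 * (D * q k)) * q k) * (q k) ^ 5 := by gcongr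
        _ = _ := by ring)
    (by
      have h12 : 1 + 2 * Real.exp (m k) ≤ Real.exp (3 * m k) := by
        rw [show 3 * (m k : ℝ) = (3 : ℕ) * (m k : ℝ) by norm_num, Real.exp_nat_mul]
        have h8 : 2 ≤ Real.exp (m k) := by linarith [Real.add_one_le_exp (m k)]
        nlinarith [sq_nonneg (Real.exp (m k) - 2)]
      refine (mul_le_exp le_rfl h12 (by positivity)).trans (Real.exp_le_exp.mpr ?_)
      have h13 : (2 : ℝ) ^ 28 * (D * q k * D : ℕ) ^ 5 * ((D * q k + 2) * m k : ℕ) * (m k) ^ 4 ≤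
          W * Q := by
        push_cast
        calc _ ≤ (2 : ℝ) ^ 28 * (D * q k * D) ^ 5 * ((3 * (D * q k)) * m k) * (m k) ^ 4 := by
              gcongr
          _ = _ := by rw [hW, hQ]; ring
      linarith)
  have h12 := sum_specB P (p k) hDP (s k) (s k)
  rw [Finset.sum_eq_zero fun j hj => by
    rw [key j (Nat.lt_succ_iff.mp (Finset.mem_range.mp hj)), zero_mul]] at h12
  exact h12.symm

end Pool.Agent.Lib.MP_12eca1_ag
end

-- part Pool.Agent.Lib.MP_12eca1_ag.Main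
section

/-!
The main theorem: sign normalisation and passage to the transcendence degree.
-/

namespace Pool.Agent.Lib.MP_12eca1_ag

open Filter Topology

lemma le_trdeg_of_indep {F : IntermediateField ℚ ℂ} {κ : Type} [Fintype κ] (v : κ → ℂ)
    (hv : ∀ j, v j ∈ F) (h : AlgebraicIndependent ℚ v) {r : ℕ} (hr : r ≤ Fintype.card κ) :
    (r : Cardinal) ≤ Algebra.trdeg ℚ F := by
  have h1 : AlgebraicIndependent ℚ fun j => (⟨v j, hv j⟩ : F) :=
    AlgebraicIndependent.of_comp F.val h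
  refine le_trans ?_ h1.cardinalMk_le_trdeg
  rw [Cardinal.mk_fintype]
  exact_mod_cast hr

theorem main (n : ℕ) (hn : 2 ≤ n) (z : Fin n → ℂ) (hz : LinearIndependent ℚ z)
    (happ : ∀ N : ℕ, ∃ q : ℕ, N ≤ q ∧ ∃ (p : Fin n → ℤ) (u : ℂ),
      ∀ i, |p i| ≤ q ∧ ‖z i - u * p i‖ < Real.exp (-(q : ℝ) ^ 8)) :
    ((n + 1 : ℕ) : Cardinal) ≤ Algebra.trdeg ℚ (expField z) := by
  classical
  have hsign : ∃ σ : Fin n → Bool, ∀ N : ℕ, ∃ q : ℕ, N ≤ q ∧ ∃ (p : Fin n → ℤ) (u : ℂ),
      (∀ i, |p i| ≤ q ∧ ‖z i - u * p i‖ < Real.exp (-(q : ℝ) ^ 8)) ∧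
        ∀ i, σ i = decide (0 ≤ p i) := by
    by_contra hcon
    push Not at hcon
    choose N hN using hcon
    obtain ⟨q, hq, p, u, h⟩ := happ (Finset.univ.sup N)
    obtain ⟨i, hi⟩ := hN (fun i => decide (0 ≤ p i)) q
      ((Finset.le_sup (Finset.mem_univ _)).trans hq) p u h
    exact hi rfl
  obtain ⟨σ, hσ⟩ := hsign
  choose q hq p u h1 h2 using fun k => hσ (k + 1)
  let e : Fin n → ℤˣ := fun i => if σ i then 1 else -1
  let A : Fin n → Fin n → ℤ := fun j i => if j = i then (e i : ℤ) else 0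
  have hA : ∀ (w : Fin n → ℂ) j, lin A w j = ((e j : ℤ) : ℂ) * w j := by
    intro w j
    simp [lin, A]
  have hz' : LinearIndependent ℚ (lin A z) := by
    have h3 := hz.units_smul fun j => Units.map (Int.castRingHom ℚ).toMonoidHom (e j)
    convert h3 using 1
    funext j
    rw [hA]
    simp [Units.smul_def, Rat.smul_def]
  let i0 : Fin n := ⟨0, by omega⟩
  let i1 : Fin n := ⟨1, by omega⟩
  by_cases hdep : AlgebraicIndependent ℚ fun o : Option (Fin n) =>
      o.elim (lin A z i0 / lin A z i1) fun i => Complex.exp (lin A z i)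
  · refine le_trdeg_of_indep _ ?_ hdep (by simp)
    rintro (_ | i)
    · exact expField_lin_le A z (div_mem (mem_expField _ _) (mem_expField _ _))
    · exact expField_lin_le A z (exp_mem_expField _ _)
  obtain ⟨w, hw⟩ := exists_good hz' (i0 := i0) (i1 := i1) (by simp [i0, i1]) hdep q
    (fun k i => (p k i).natAbs) u (fun k => (Nat.le_add_left 1 k).trans (hq k))
    (tendsto_atTop_mono (fun k => (Nat.le_succ k).trans (hq k)) tendsto_id)
    (fun k i => by have := (h1 k i).1; rw [← Int.natCast_natAbs] at this; exact_mod_cast this) (fun k i => by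
      have h3 : (((p k i).natAbs : ℕ) : ℂ) = ((e i : ℤ) : ℂ) * p k i := by
        have h4 : (((p k i).natAbs : ℕ) : ℤ) = (e i : ℤ) * p k i := by
          simp only [e, h2 k i, decide_eq_true_eq]
          split_ifs <;> simp <;> omega
        have h6 := congrArg (Int.cast : ℤ → ℂ) h4
        rwa [Int.cast_natCast, Int.cast_mul] at h6
      have h5 : ‖((e i : ℤ) : ℂ)‖ = 1 := by
        rcases Int.units_eq_one_or (e i) with h | h <;> simp [h]
      rw [hA, h3, mul_left_comm, ← mul_sub, norm_mul, h5, one_mul]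
      exact (h1 k i).2)
  obtain ⟨κ, _, v, hv1, hv2, hv3⟩ := (td_of_good hermite_lindemann n _ w hz' hw).2 hn
  exact le_trdeg_of_indep v (fun j => expField_lin_le A z (hv1 j)) hv2 hv3

end Pool.Agent.Lib.MP_12eca1_ag
end
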