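import Pool.Agent.Lib.MP_12eca1_ag.LAna
import Pool.Agent.Lib.MP_12eca1_ag.Rel
import Pool.Agent.Lib.MP_12eca1_ag.LDob
import Pool.Agent.Lib.MP_12eca1_ag.LLat
import Pool.Agent.Lib.MP_12eca1_ag.Main

-- part Pool.Agent.Lib.MP_12eca1_ag.LCut
section

/-!
Approximation states and the step lowering the number of independent generators.
-/

namespace Pool.Agent.Lib.MP_12eca1_ag

open Polynomial Filter

/-- an approximation `l` of `z` whose exponentials are quotients of integral elements of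
controlled size over a polynomial ring in `s` variables -/
structure St {ι : Type*} (z : ι → ℂ) (s S : ℕ) (E : ℝ) where
  θ : Fin s → ℂ
  inj : Function.Injective (ev θ)
  L : Subring (Oc θ)
  η : ι → Oc θ
  β : ι → Oc θ
  l : ι → ℂ
  θ_le : ‖θ‖ ≤ Real.exp S
  deg : ∀ g ∈ L, (mp θ g).natDegree ≤ S
  η_mem : ∀ i, η i ∈ L
  β_mem : ∀ i, β i ∈ L
  η_sw : ∀ i, Sw (η i) S S
  β_sw : ∀ i, Sw (β i) S S
  β_ge : ∀ i, Real.exp (-S) ≤ ‖(β i : ℂ)‖
  rel : ∀ i, β i * Complex.exp (l i) = η i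
  close : ∀ i, ‖z i - l i‖ ≤ Real.exp (-E)

variable {ι : Type*} {z : ι → ℂ} {s S S' : ℕ} {E E' : ℝ}

/-- weakening the parameters -/
def St.mono (h : St z s S E) (h1 : S ≤ S') (h2 : E' ≤ E) : St z s S' E' :=
  have h3 : (S : ℝ) ≤ S' := by exact_mod_cast h1
  { h with
    θ_le := h.θ_le.trans (Real.exp_le_exp.mpr h3)
    deg := fun g hg => (h.deg g hg).trans h1
    η_sw := fun i => (h.η_sw i).mono h3 h1
    β_sw := fun i => (h.β_sw i).mono h3 h1
    β_ge := fun i => (Real.exp_le_exp.mpr (neg_le_neg h3)).trans (h.β_ge i)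
    close := fun i => (h.close i).trans (Real.exp_le_exp.mpr (neg_le_neg h2)) }

lemma St.norm_small (h : St z s S E) {f : Oc h.θ} (hf : f ∈ h.L) (hf0 : f ≠ 0) (hfS : Sw f S S)
    (hfE : ‖(f : ℂ)‖ ≤ Real.exp (-E)) :
    ∃ b : Rs s, b ≠ 0 ∧ (∀ x, ‖ev x b‖ ≤ Real.exp (S * S) * max 1 ‖x‖ ^ (S * S)) ∧
      ‖ev h.θ b‖ ≤ Real.exp (-E + 2 * S ^ 3) := by
  obtain ⟨b, h1, h2, h3, -⟩ := norm_mv h.inj hf0 (h.deg f hf) hfS (by positivity)
  refine ⟨b, h1, h2, h3.trans (mul_le_exp hfE ?_ (by positivity))⟩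
  refine (pow_le_exp (mul_le_exp le_rfl (pow_le_exp (max_le (Real.one_le_exp (by positivity))
    h.θ_le) (by positivity) (by positivity) le_rfl) (by positivity)) (by positivity) (by positivity)
      le_rfl).trans (Real.exp_le_exp.mpr ?_)
  rcases Nat.eq_zero_or_pos S with rfl | hS
  · simp
  · have : (1 : ℝ) ≤ S := by exact_mod_cast hS
    nlinarith [mul_le_mul_of_nonneg_left this (sq_nonneg (S : ℝ))]

lemma St.cut_zero (h : St z 0 S E) {f : Oc h.θ} (hf : f ∈ h.L) (hf0 : f ≠ 0) (hfS : Sw f S S)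
    (hfE : ‖(f : ℂ)‖ ≤ Real.exp (-E)) (hE : 2 * (S : ℝ) ^ 3 < E) : False := by
  obtain ⟨b, h1, -, h3⟩ := h.norm_small hf hf0 hfS hfE
  rw [b.eq_C_of_isEmpty] at h1 h3
  rw [ev_C, Complex.norm_intCast] at h3
  have h4 : (1 : ℝ) ≤ |((b.coeff 0 : ℤ) : ℝ)| := by
    exact_mod_cast Int.one_le_abs fun h => h1 (by rw [h, map_zero])
  have := Real.exp_lt_one_iff.mpr (show -E + 2 * (S : ℝ) ^ 3 < 0 by linarith)
  linarith

lemma near_log {β η β' η' l : ℂ} {S F : ℝ} (hS : 1 ≤ S) (hF : 4 * S + 3 ≤ F)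
    (h1 : Real.exp (-S) ≤ ‖β‖) (h2 : β * Complex.exp l = η) (h3 : ‖l‖ ≤ S)
    (h4 : ‖β' - β‖ ≤ Real.exp (S - F)) (h5 : ‖η' - η‖ ≤ Real.exp (S - F)) :
    Real.exp (-(S + 1)) ≤ ‖β'‖ ∧
      ∃ l', β' * Complex.exp l' = η' ∧ ‖l' - l‖ ≤ Real.exp (4 * S + 3 - F) := by
  have e1 := Real.add_one_le_exp 1
  have h6 : Real.exp (-(S + 1)) ≤ ‖β'‖ := by
    have h7 := h4.trans (Real.exp_le_exp.mpr (show S - F ≤ -(S + 1) by linarith))
    have h8 : Real.exp (-S) = Real.exp (-(S + 1)) * Real.exp 1 := by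
      rw [← Real.exp_add]; congr 1; ring
    have h9 := norm_le_norm_add_norm_sub β' β
    nlinarith [Real.exp_pos (-(S + 1))]
  have hβ' : β' ≠ 0 := norm_pos_iff.mp ((Real.exp_pos _).trans_le h6)
  have h7 : Real.exp ‖l‖ ≤ Real.exp S := Real.exp_le_exp.mpr h3
  have h8 : ‖Complex.exp l - η' / β'‖ ≤ Real.exp (3 * S + 2 - F) := by
    have e2 : Complex.exp l - η' / β' = ((β' - β) * Complex.exp l - (η' - η)) * β'⁻¹ := by
      rw [← h2]; field_simp; ring
    have e3 : ‖(β' - β) * Complex.exp l - (η' - η)‖ ≤ Real.exp (S - F + (S + 1)) := by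
      refine (norm_sub_le _ _).trans ?_
      rw [norm_mul, Real.exp_add, Real.exp_add]
      have e4 := mul_le_mul h4 ((Complex.norm_exp_le_exp_norm l).trans h7) (norm_nonneg _)
        (Real.exp_nonneg _)
      have e5 := Real.one_le_exp (show 0 ≤ S by linarith)
      have e6 : Real.exp S + 1 ≤ Real.exp S * Real.exp 1 := by nlinarith
      nlinarith [mul_le_mul_of_nonneg_left e6 (Real.exp_nonneg (S - F))]
    have e4 : ‖β'⁻¹‖ ≤ Real.exp (S + 1) := by
      rw [norm_inv, ← neg_neg (S + 1), Real.exp_neg]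
      exact inv_anti₀ (Real.exp_pos _) h6
    rw [e2, norm_mul]
    exact (mul_le_exp e3 e4 (norm_nonneg _)).trans (le_of_eq (by congr 1; ring))
  have h9 : Real.exp (3 * S + 2 - F) * Real.exp S * Real.exp 1 = Real.exp (4 * S + 3 - F) := by
    rw [← Real.exp_add, ← Real.exp_add]; congr 1; ring
  have h10 := Real.exp_le_one_iff.mpr (show 4 * S + 3 - F ≤ 0 by linarith)
  have h11 : 0 ≤ Real.exp (3 * S + 2 - F) * Real.exp S := by positivity
  obtain ⟨l', h12, h13⟩ := exists_log_near h8 h7 (by nlinarith)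
  exact ⟨h6, l', by rw [h12]; field_simp, by nlinarith⟩

theorem cut [Fintype ι] (z : ι → ℂ) : ∀ᶠ S : ℕ in atTop, ∀ {s : ℕ} {E : ℝ} (h : St z (s + 1) S E)
    {f : Oc h.θ}, f ∈ h.L → f ≠ 0 → Sw f S S → ‖(f : ℂ)‖ ≤ Real.exp (-E) → (S : ℝ) ^ 12 ≤ E →
      Nonempty (St z s (S ^ 6) (E / S ^ 6)) := by
  filter_upwards [exists_near_hom (ι ⊕ ι), eventually_ge_atTop 3, eventually_poly_le_exp 2 2,
    tendsto_natCast_atTop_atTop.eventually_ge_atTop (‖z‖ + 1)]
    with S hnear hS3 hS hz s E h f hf hf0 hfS hfE hE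
  have hS' : (3 : ℝ) ≤ S := by exact_mod_cast hS3
  have hp : ∀ k : ℕ, 3 * (S : ℝ) ^ k ≤ S ^ (k + 1) := fun k => by
    rw [pow_succ']; gcongr
  have p1 := hp 1
  have p2 := hp 2
  have p3 := hp 3
  have p4 := hp 4
  have p5 := hp 5
  norm_num at p1 p2 p3 p4 p5
  obtain ⟨F, hF⟩ : ∃ F, F = E / S ^ 6 := ⟨_, rfl⟩
  have hEF : E = S ^ 6 * F := by rw [hF]; field_simp
  have hF6 : (S : ℝ) ^ 6 ≤ F := by
    rw [hF, le_div_iff₀ (by positivity), ← pow_add]; exact hE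
  rw [← hF]
  obtain ⟨b, hb0, hb, hbθ⟩ := h.norm_small hf hf0 hfS hfE
  obtain ⟨c, a, ha, hc, h1, h2⟩ := exists_Phi hb0
  have hD := totalDegree_le_of_growth hb
  have hc' : ∀ j, |(c j : ℝ)| ≤ S ^ 2 := fun j => by
    rw [sq]; exact_mod_cast (hc j).trans (Int.ofNat_le.mpr hD)
  set θ' : Fin s → ℂ := fun j => h.θ j.succ - c j * h.θ 0 with hθ'
  have hinj := ev_injective_of h.inj c
  have ha1 : (1 : ℝ) ≤ |(a : ℝ)| := by exact_mod_cast Int.one_le_abs ha
  have hP0 : Phi c b ≠ 0 := fun h0 => ha (by rw [h0, coeff_zero] at h2; exact_mod_cast h2.symm)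
  obtain ⟨τ, hτ, hτ'⟩ := exists_root_near ((Phi c b).map (ev θ'))
    (natDegree_map_le.trans (h1.trans hD)) (δ := Real.exp (-(S ^ 2 * F))) (by positivity)
    (Real.exp_le_one_iff.mpr (by nlinarith)) (t := h.θ 0) (by
      have h3 : ((Phi c b).map (ev θ')).coeff b.totalDegree = a := by
        rw [coeff_map, h2, map_intCast]
      rw [eval_Phi, pt_self, leadingCoeff, natDegree_eq_of_le_of_coeff_ne_zero
        (natDegree_map_le.trans h1) (by rw [h3]; exact_mod_cast ha), h3, Complex.norm_intCast,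
        ← Real.exp_nat_mul]
      refine (hbθ.trans_lt (Real.exp_lt_exp.mpr ?_)).trans_le
        (le_mul_of_one_le_left (by positivity) ha1)
      push_cast
      nlinarith [mul_le_mul_of_nonneg_right (show (S : ℝ) ^ 4 + 1 ≤ S ^ 6 by nlinarith)
        (show 0 ≤ F by nlinarith)])
  obtain ⟨φ, hφ, hφ'⟩ := hnear h.inj h.L h.deg (Sum.elim h.η h.β)
    (by rintro (i | i); exacts [h.η_mem i, h.β_mem i])
    (by rintro (i | i); exacts [h.η_sw i, h.β_sw i]) h.θ_le (x := pt c θ' τ) (E := 2 * F)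
    (by nlinarith) (by
      conv_lhs => rw [← pt_self h.θ c, pt_sub]
      refine (norm_pt_le hc' (by nlinarith) _ _).trans ?_
      rw [norm_zero, zero_add, norm_sub_rev]
      refine (mul_le_exp (a := S) (by nlinarith) hτ'.le (norm_nonneg _)).trans
        (Real.exp_le_exp.mpr ?_)
      nlinarith [mul_le_mul_of_nonneg_right (show 2 * (S : ℝ) + 1 ≤ S ^ 2 by nlinarith)
        (show 0 ≤ F by nlinarith)])
  have hE0 : 0 ≤ E := le_trans (by positivity) hE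
  have hl : ∀ i, ‖h.l i‖ ≤ S := fun i => by
    have e1 := (h.close i).trans (Real.exp_le_one_iff.mpr (by linarith))
    have e2 := norm_le_norm_add_norm_sub (z i) (h.l i)
    linarith [norm_le_pi_norm z i]
  have h3 := fun i => near_log (by linarith) (by nlinarith) (h.β_ge i) (h.rel i) (hl i)
    (hφ' (Sum.inr i)) (hφ' (Sum.inl i))
  choose h4 l' h5 h6 using h3
  have hmem : ∀ g ∈ h.L, Sw g S S → (a : ℂ) ^ (S * S) * φ g ∈ Oc θ' := fun g hg hgS =>
    scaled_mem h.inj (lead_mul_mem ha h1 h2 hτ) hφ hgS (by positivity) (h.deg g hg)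
  have hL : ∀ g ∈ h.L, ∀ hg, (⟨(a : ℂ) ^ (S * S) * φ g, hg⟩ : Oc θ') ∈
      (h.L.map φ).comap (Oc θ').subtype := fun g hg _ =>
    ⟨a ^ (S * S) * g, mul_mem (pow_mem (intCast_mem _ a) _) hg, by simp⟩
  refine ⟨{ θ := θ', inj := hinj, L := (h.L.map φ).comap (Oc θ').subtype
            η := fun i => ⟨_, hmem _ (h.η_mem i) (h.η_sw i)⟩
            β := fun i => ⟨_, hmem _ (h.β_mem i) (h.β_sw i)⟩
            l := l', θ_le := ?_, deg := ?_
            η_mem := fun i => hL _ (h.η_mem i) _, β_mem := fun i => hL _ (h.β_mem i) _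
            η_sw := fun i => sw_scaled h.inj hS hS3 hb hc' hD ha h1 h2 hτ hφ (h.η_sw i) _
            β_sw := fun i => sw_scaled h.inj hS hS3 hb hc' hD ha h1 h2 hτ hφ (h.β_sw i) _
            β_ge := fun i => ?_, rel := fun i => ?_, close := fun i => ?_ }⟩
  · refine (pi_norm_le_iff_of_nonneg (by positivity)).mpr fun j => (norm_sub_le _ _).trans ?_
    have e1 := (norm_le_pi_norm h.θ j.succ).trans h.θ_le
    have e2 := mul_le_mul (hc' j) ((norm_le_pi_norm h.θ 0).trans h.θ_le) (norm_nonneg _)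
      (by positivity)
    have e3 : Real.exp (S + S) ≤ Real.exp (S ^ 6 : ℕ) :=
      Real.exp_le_exp.mpr (by push_cast; nlinarith)
    rw [Real.exp_add] at e3
    rw [norm_mul, Complex.norm_intCast]
    nlinarith [mul_le_mul_of_nonneg_right (show 1 + (S : ℝ) ^ 2 ≤ Real.exp S by nlinarith)
      (Real.exp_nonneg S)]
  · rintro w ⟨g, hg, hw⟩
    refine (deg_scaled hinj hP0 hτ hφ g w hw).trans ((Nat.mul_le_mul (h1.trans hD)
      (h.deg g hg)).trans ?_)
    calc S * S * S = S ^ 3 := by ring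
      _ ≤ _ := Nat.pow_le_pow_right (by omega) (by omega)
  · rw [norm_mul, norm_pow, Complex.norm_intCast]
    refine le_trans (Real.exp_le_exp.mpr ?_) ((h4 i).trans
      (le_mul_of_one_le_left (norm_nonneg _) (one_le_pow₀ ha1)))
    push_cast; nlinarith
  · rw [mul_assoc]; exact congrArg _ (h5 i)
  · have e1 := norm_sub_le_norm_sub_add_norm_sub (z i) (h.l i) (l' i)
    have e2 := (h.close i).trans (Real.exp_le_exp.mpr (show -E ≤ -F - 1 by
      nlinarith [mul_le_mul_of_nonneg_right (show 2 ≤ (S : ℝ) ^ 6 by nlinarith)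
        (show 0 ≤ F by nlinarith)]))
    have e3 := (h6 i).trans (Real.exp_le_exp.mpr (show 4 * S + 3 - 2 * F ≤ -F - 1 by nlinarith))
    have e4 : Real.exp (-F) = Real.exp (-F - 1) * Real.exp 1 := by
      rw [← Real.exp_add]; congr 1; ring
    rw [norm_sub_rev] at e3
    nlinarith [Real.add_one_le_exp 1, Real.exp_pos (-F - 1)]

end Pool.Agent.Lib.MP_12eca1_ag
end

-- part Pool.Agent.Lib.MP_12eca1_ag.LAbs
section

/-!
A linear relation implies every short relation which is nearly proportional to it.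
-/

namespace Pool.Agent.Lib.MP_12eca1_ag

open Polynomial Filter Height IntermediateField

lemma exists_numField (M : Subring ℂ) {S : ℕ}
    (hM : ∀ w ∈ M, ∃ P : ℚ[X], P ≠ 0 ∧ P.natDegree ≤ S ∧ aeval w P = 0) {κ : Type*} [Finite κ]
    (x : κ → ℂ) (hx : ∀ i, x i ∈ M) : ∃ K : IntermediateField ℚ ℂ, FiniteDimensional ℚ K ∧
      Module.finrank ℚ K ≤ S ∧ ∀ i, x i ∈ K := by
  have halg : ∀ w ∈ Set.range x, IsAlgebraic ℚ w := by
    rintro _ ⟨i, rfl⟩
    obtain ⟨P, h1, -, h2⟩ := hM _ (hx i)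
    exact ⟨P, h1, h2⟩
  have hfd := finiteDimensional_adjoin fun w hw => (halg w hw).isIntegral
  refine ⟨_, hfd, ?_, fun i => subset_adjoin _ _ ⟨i, rfl⟩⟩
  obtain ⟨α, hα⟩ := Field.exists_primitive_element ℚ (adjoin ℚ (Set.range x))
  have h1 : (α : ℂ) ∈ Algebra.adjoin ℚ (Set.range x) :=
    adjoin_toSubalgebra_of_isAlgebraic halg ▸ α.2
  have h2 : ∀ w ∈ Algebra.adjoin ℚ (Set.range x), ∃ N : ℤ, N ≠ 0 ∧ N * w ∈ M := by
    intro w hw
    induction hw using Algebra.adjoin_induction with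
    | mem w hw => obtain ⟨i, rfl⟩ := hw; exact ⟨1, one_ne_zero, by simpa using hx i⟩
    | algebraMap r => exact ⟨r.den, by simp, by
        have : ((r.den : ℤ) : ℂ) * algebraMap ℚ ℂ r = r.num := by
          rw [eq_ratCast]
          exact_mod_cast Rat.den_mul_eq_num r
        rw [this]; exact intCast_mem M _⟩
    | add u v _ _ hu hv =>
      obtain ⟨N, h1, h2⟩ := hu
      obtain ⟨N', h1', h2'⟩ := hv
      refine ⟨N * N', mul_ne_zero h1 h1', ?_⟩
      convert add_mem (mul_mem h2 (intCast_mem M N')) (mul_mem h2' (intCast_mem M N)) using 1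
      push_cast; ring
    | mul u v _ _ hu hv =>
      obtain ⟨N, h1, h2⟩ := hu
      obtain ⟨N', h1', h2'⟩ := hv
      refine ⟨N * N', mul_ne_zero h1 h1', ?_⟩
      convert mul_mem h2 h2' using 1
      push_cast; ring
  obtain ⟨N, hN, h3⟩ := h2 _ h1
  obtain ⟨P, h4, h5, h6⟩ := hM _ h3
  have h7 := scaleRoots_aeval_eq_zero (r := (N : ℚ)⁻¹) h6
  have hN' : (N : ℂ) ≠ 0 := by exact_mod_cast hN
  rw [map_inv₀, map_intCast, inv_mul_cancel_left₀ hN'] at h7
  rw [← (Field.primitive_element_iff_minpoly_natDegree_eq ℚ α).mp hα,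
    ← minpoly.algebraMap_eq (B' := ℂ) Subtype.val_injective]
  refine (natDegree_le_natDegree (minpoly.degree_le_of_ne_zero ℚ _
    (scaleRoots_ne_zero h4 _) h7)).trans (by rwa [natDegree_scaleRoots])

variable {s : ℕ} {θ : Fin s → ℂ}

lemma int_root {φ : Oc θ →+* ℂ} {t : Fin s → ℤ} (h : Ov φ fun j => t j) (g : Oc θ) :
    aeval (φ g) ((mp θ g).map (MvPolynomial.eval t)) = 0 := by
  rw [← mp_root g h, aeval_def, eval₂_map, eval_map]
  congr 1
  exact RingHom.ext fun p => (ev_intCast t p).symm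

lemma logHeight_le_of_sw {φ : Oc θ →+* ℂ} {t : Fin s → ℤ} (h : Ov φ fun j => t j) {S : ℕ}
    (ht : ∀ j, |(t j : ℝ)| ≤ Real.exp S) {K : IntermediateField ℚ ℂ} [NumberField K]
    (hK : Module.finrank ℚ K ≤ S) {g : Oc θ} (hg : φ g ∈ K) (hS : Sw g S S) :
    logHeight₁ (⟨φ g, hg⟩ : K) ≤ S * (S + S * S) := by
  have hint : ∀ x, IsIntegral ℤ (φ x) := fun x => ⟨_, (mp_monic x).map _, int_root h x⟩
  refine logHeight_le_of_sz ⟨(isIntegral_algHom_iff K.val.toRingHom.toIntAlgHom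
    Subtype.val_injective).mp (hint g), fun σ => ?_⟩ (by positivity) hK
  obtain ⟨ψ, hψ⟩ := exists_conj φ hint K σ
  have h1 : Ov ψ fun j => t j := fun p => by
    have h2 := (h p).trans (ev_intCast t p)
    rw [hψ _ (h2 ▸ intCast_mem K _), ev_intCast]
    exact (congrArg σ (Subtype.ext h2)).trans (map_intCast σ _)
  rw [← hψ g hg]
  refine (hS ψ _ h1).trans (mul_le_exp le_rfl (pow_le_exp (max_le (Real.one_le_exp (by positivity))
    ?_) (by positivity) (by positivity) le_rfl) (by positivity))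
  exact (pi_norm_le_iff_of_nonneg (by positivity)).mpr fun j => by simpa using ht j

variable {ι : Type*} {z : ι → ℂ} {S : ℕ} {E : ℝ}

lemma St.β_ne (h : St z s S E) (i : ι) : (h.β i : ℂ) ≠ 0 :=
  norm_pos_iff.mp ((Real.exp_pos _).trans_le (h.β_ge i))

lemma St.η_ne (h : St z s S E) (i : ι) : (h.η i : ℂ) ≠ 0 :=
  h.rel i ▸ mul_ne_zero (h.β_ne i) (Complex.exp_ne_zero _)

lemma St.prod_eq [Fintype ι] (h : St z s S E) (m : ι → ℤ) :
    ∏ i, ((h.η i : ℂ) / h.β i) ^ m i = Complex.exp (∑ i, m i * h.l i) := by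
  rw [← prod_exp_zpow]
  exact Finset.prod_congr rfl fun i _ => by rw [← h.rel i, mul_div_cancel_left₀ _ (h.β_ne i)]

lemma St.Um_iff [Fintype ι] (h : St z s S E) (m : ι → ℤ) :
    Um h.η h.β m = Um h.η h.β (-m) ↔ Complex.exp (∑ i, m i * h.l i) = 1 := by
  rw [← h.prod_eq, ← MP_12eca1_ag.Um_iff h.η_ne h.β_ne, Subtype.ext_iff]
  exact Iff.of_eq (congrArg₂ _ (map_Um (Oc h.θ).subtype _ _ _) (map_Um (Oc h.θ).subtype _ _ _))

lemma St.Um_mem [Fintype ι] (h : St z s S E) (m : ι → ℤ) : Um h.η h.β m ∈ h.L :=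
  prod_mem fun i _ => mul_mem (pow_mem (h.η_mem i) _) (pow_mem (h.β_mem i) _)

lemma St.norm_l_le [Fintype ι] (h : St z s S E) (hE : 0 ≤ E) (i : ι) : ‖h.l i‖ ≤ ‖z‖ + 1 := by
  have e1 := (h.close i).trans (Real.exp_le_one_iff.mpr (by linarith))
  have e2 := norm_le_norm_add_norm_sub (z i) (h.l i)
  linarith [norm_le_pi_norm z i]

theorem absorb [Fintype ι] (z : ι → ℂ) : ∀ᶠ S : ℕ in atTop, ∀ {s : ℕ} {E : ℝ} (h : St z s S E),
    0 ≤ E → ∀ (m a : ι → ℤ) (M : ℕ), 0 < M → (∀ i, (S ^ 6 : ℕ) * |M * a i - m i| ≤ M) →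
      (∀ i, |a i| ≤ S) → ∑ i, m i * h.l i = 0 → ∑ i, a i * h.l i = 0 := by
  set n := Fintype.card ι with hn
  filter_upwards [eventually_ge_atTop (800 * n + 1), eventually_poly_le_exp (6 * n) 7,
    tendsto_natCast_atTop_atTop.eventually_ge_atTop (‖z‖ + 1)]
    with S hS1 hS2 hz s E h hE m a M hM hma ha hm
  have hS : (1 : ℝ) ≤ S := by exact_mod_cast (show 1 ≤ S by omega)
  have hSn : 800 * (n : ℝ) ≤ S := by exact_mod_cast (show 800 * n ≤ S by omega)
  have key : ∃ j : ℕ, j ∈ Finset.Icc 1 (2 * S ^ 2) ∧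
      Um h.η h.β (j • a) = Um h.η h.β (-(j • a)) := by
    by_contra hcon
    push Not at hcon
    set F := (∏ j ∈ Finset.Icc 1 (2 * S ^ 2), (Um h.η h.β (j • a) - Um h.η h.β (-(j • a)))) *
      ∏ i, h.η i * h.β i with hF
    have hF0 : F ≠ 0 := mul_ne_zero (Finset.prod_ne_zero_iff.mpr fun j hj =>
      sub_ne_zero.mpr (hcon j hj)) (Finset.prod_ne_zero_iff.mpr fun i _ => mul_ne_zero
        (fun h0 => h.η_ne i (congrArg Subtype.val h0)) fun h0 => h.β_ne i (congrArg Subtype.val h0))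
    have hFL : F ∈ h.L := mul_mem (prod_mem fun j _ => sub_mem (h.Um_mem _) (h.Um_mem _))
      (prod_mem fun i _ => mul_mem (h.η_mem i) (h.β_mem i))
    have hja : ∀ j ∈ Finset.Icc 1 (2 * S ^ 2), ∀ i, |(j • a) i| ≤ (2 * S ^ 2 * S : ℕ) :=
      fun j hj i => by
        rw [Pi.smul_apply, nsmul_eq_mul, abs_mul, Nat.abs_cast, Nat.cast_mul]
        exact mul_le_mul (by exact_mod_cast (Finset.mem_Icc.mp hj).2) (ha i) (abs_nonneg _)
          (by positivity)
    have hFS := (Sw.prod _ _ fun j hj => (sw_Um h.η_sw h.β_sw (by positivity) (hja j hj)).sub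
      (sw_Um h.η_sw h.β_sw (by positivity) (m := -(j • a)) fun i => by
        simpa using hja j hj i)).mul (Sw.prod Finset.univ _ fun i _ => (h.η_sw i).mul (h.β_sw i))
    obtain ⟨b, hb0, hb, -, hb1⟩ := norm_mv h.inj hF0 (h.deg F hFL) hFS (by positivity)
    obtain ⟨t, ht, ht0⟩ := exists_grid hb0 fun i => (b.degreeOf_le_totalDegree i).trans
      (totalDegree_le_of_growth hb)
    have ht' : ∀ j, |(t j : ℝ)| ≤ Real.exp S := fun j => by
      refine le_trans ?_ hS2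
      have h1 := ht j
      rw [← Int.cast_le (R := ℝ)] at h1
      simp only [Nat.card_Icc, Nat.add_sub_cancel, Finset.card_univ, ← hn] at h1
      push_cast at h1
      refine h1.trans ?_
      have : (S : ℝ) ^ 2 ≤ S ^ 7 := pow_le_pow_right₀ hS (by norm_num)
      nlinarith [mul_le_mul_of_nonneg_left this (Nat.cast_nonneg (α := ℝ) n)]
    obtain ⟨φ, hφ⟩ := exists_ov h.inj fun j => (t j : ℂ)
    have hφF : φ F ≠ 0 := fun h0 => ht0 (by
      have := hb1 φ _ hφ h0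
      rw [ev_intCast] at this; exact_mod_cast this)
    rw [hF, map_mul, map_prod, map_prod] at hφF
    have hφη : ∀ i, φ (h.η i) ≠ 0 := fun i h0 => right_ne_zero_of_mul hφF
      (Finset.prod_eq_zero (Finset.mem_univ i) (by rw [map_mul, h0, zero_mul]))
    have hφβ : ∀ i, φ (h.β i) ≠ 0 := fun i h0 => right_ne_zero_of_mul hφF
      (Finset.prod_eq_zero (Finset.mem_univ i) (by rw [map_mul, h0, mul_zero]))
    obtain ⟨K, hK2, hK3, hK1⟩ := exists_numField (h.L.map φ) (S := S) (by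
      rintro _ ⟨g, hg, rfl⟩
      refine ⟨((mp h.θ g).map (MvPolynomial.eval t)).map (algebraMap ℤ ℚ),
        (((mp_monic g).map _).map _).ne_zero, natDegree_map_le.trans
          (natDegree_map_le.trans (h.deg g hg)), ?_⟩
      rw [aeval_map_algebraMap]; exact int_root hφ g) (fun i => φ (Sum.elim h.η h.β i))
      (by rintro (i | i); exacts [⟨_, h.η_mem i, rfl⟩, ⟨_, h.β_mem i, rfl⟩])
    have := numberField_of K hK2
    let η' : ι → K := fun i => ⟨φ (h.η i), hK1 (Sum.inl i)⟩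
    let β' : ι → K := fun i => ⟨φ (h.β i), hK1 (Sum.inr i)⟩
    have hη' : ∀ i, η' i ≠ 0 := fun i h => hφη i (congrArg Subtype.val h)
    have hβ' : ∀ i, β' i ≠ 0 := fun i h => hφβ i (congrArg Subtype.val h)
    have hU : ∀ m, ((Um η' β' m : K) : ℂ) = φ (Um h.η h.β m) := fun m => by
      rw [map_Um]; exact map_Um K.val.toRingHom η' β' m
    have h2 := logHeight_rel (fun i => η' i / β' i) (fun i => div_ne_zero (hη' i) (hβ' i))
      (h := 2 * (S * (S + S * S))) (fun i => by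
        rw [div_eq_mul_inv]
        refine (logHeight₁_mul_le _ _).trans ?_
        rw [logHeight₁_inv]
        linarith [logHeight_le_of_sw hφ ht' hK3 (η' i).2 (h.η_sw i),
          logHeight_le_of_sw hφ ht' hK3 (β' i).2 (h.β_sw i)]) (τ := 1) (m := m) (a := a) hM
      (by simpa only [Nat.cast_one, one_mul] using hma) ((Um_iff hη' hβ' m).mp (Subtype.ext (by
        rw [hU, hU, (h.Um_iff m).mpr (by rw [hm, Complex.exp_zero])])))
    obtain ⟨j, hj0, hj1, hj2⟩ := weak_dob hK3 (γ := ∏ i, (η' i / β' i) ^ a i)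
      (Finset.prod_ne_zero_iff.mpr fun i _ => zpow_ne_zero _ (div_ne_zero (hη' i) (hβ' i))) (by
        apply le_of_mul_le_mul_left _ (show (0 : ℝ) < S ^ 4 by positivity)
        push_cast at h2
        have h3 : (S : ℝ) ^ 2 ≤ S ^ 3 := pow_le_pow_right₀ hS (by norm_num)
        nlinarith [mul_le_mul_of_nonneg_left h3 (Nat.cast_nonneg (α := ℝ) n),
          mul_le_mul_of_nonneg_right hSn (show (0 : ℝ) ≤ S ^ 3 by positivity)])
    refine left_ne_zero_of_mul hφF (Finset.prod_eq_zero (Finset.mem_Icc.mpr ⟨hj0, hj1⟩) ?_)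
    rw [map_sub, ← hU, ← hU, (Um_iff hη' hβ' _).mpr, sub_self]
    rw [← hj2, ← Finset.prod_pow]
    exact Finset.prod_congr rfl fun i _ => by
      rw [Pi.smul_apply, nsmul_eq_mul, mul_comm, zpow_mul, zpow_natCast]
  obtain ⟨j, hj, h1⟩ := key
  rw [h.Um_iff] at h1
  have h2 : ∑ i, ((j • a) i : ℂ) * h.l i = j * ∑ i, a i * h.l i := by
    rw [Finset.mul_sum]; exact Finset.sum_congr rfl fun i _ => by simp [mul_assoc]
  obtain ⟨hj1, hj2⟩ := Finset.mem_Icc.mp hj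
  rw [h2] at h1
  refine (mul_eq_zero.mp (eq_zero_of_exp_eq_one h1 ?_)).resolve_left (by
    exact_mod_cast (show j ≠ 0 by omega))
  have h3 : (M : ℂ) * ∑ i, a i * h.l i = ∑ i, ((M * a i - m i : ℤ) : ℂ) * h.l i := by
    push_cast
    simp only [sub_mul, Finset.sum_sub_distrib, hm, sub_zero, Finset.mul_sum, mul_assoc]
  have h4 : (S : ℝ) ^ 6 * (M * ‖∑ i, a i * h.l i‖) ≤ n * (M * S) := by
    rw [← Complex.norm_natCast M, ← norm_mul, h3, Complex.norm_natCast]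
    refine (mul_le_mul_of_nonneg_left (norm_sum_le _ _) (by positivity)).trans ?_
    rw [Finset.mul_sum, hn, ← nsmul_eq_mul, ← Finset.card_univ]
    refine Finset.sum_le_card_nsmul _ _ _ fun i _ => ?_
    rw [norm_mul, Complex.norm_intCast, ← mul_assoc]
    exact mul_le_mul (by exact_mod_cast hma i) ((h.norm_l_le hE i).trans hz) (norm_nonneg _)
      (by positivity)
  have hM' : (0 : ℝ) < M := by exact_mod_cast hM
  have h5 : (S : ℝ) ^ 6 * ‖∑ i, a i * h.l i‖ ≤ n * S :=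
    le_of_mul_le_mul_left (by linarith) hM'
  have hj3 : (j : ℝ) ≤ 2 * S ^ 2 := by exact_mod_cast hj2
  rw [norm_mul, Complex.norm_natCast]
  refine (mul_le_mul_of_nonneg_right hj3 (norm_nonneg _)).trans ?_
  apply le_of_mul_le_mul_left _ (show (0 : ℝ) < S ^ 4 by positivity)
  have h6 : (S : ℝ) ^ 2 ≤ S ^ 4 := pow_le_pow_right₀ hS (by norm_num)
  nlinarith

end Pool.Agent.Lib.MP_12eca1_ag
end

-- part Pool.Agent.Lib.MP_12eca1_ag.LDesc
section

/-!
Many independent very small linear forms are impossible in bounded transcendence degree.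
-/

namespace Pool.Agent.Lib.MP_12eca1_ag

open Filter

variable {ι : Type*} [Fintype ι]

theorem cut' (z : ι → ℂ) : ∀ᶠ T : ℕ in atTop, ∀ {s S : ℕ} {E F : ℝ} (h : St z s S E)
    {f : Oc h.θ}, S ≤ T → F ≤ E → f ∈ h.L → f ≠ 0 → Sw f T T → ‖(f : ℂ)‖ ≤ Real.exp (-F) →
      (T : ℝ) ^ 12 ≤ F → ∃ s', s = s' + 1 ∧ Nonempty (St z s' (T ^ 6) (F / T ^ 6)) := by
  filter_upwards [cut z, eventually_ge_atTop 2] with T hT hT2 s S E F h f h1 h2 h3 h4 h5 h6 h7
  rcases s with _ | s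
  · refine ((h.mono h1 h2).cut_zero (f := f) h3 h4 h5 h6 (lt_of_lt_of_le ?_ h7)).elim
    have e1 : (2 : ℝ) ≤ T := by exact_mod_cast hT2
    have e2 : (T : ℝ) ^ 5 ≤ T ^ 12 := pow_le_pow_right₀ (by linarith) (by norm_num)
    nlinarith [mul_le_mul_of_nonneg_left (show (4 : ℝ) ≤ T ^ 2 by nlinarith)
      (show (0 : ℝ) ≤ T ^ 3 by positivity), pow_pos (show (0 : ℝ) < T by linarith) 3]
  · exact ⟨s, rfl, hT (h.mono h1 h2) (f := f) h3 h4 h5 h6 h7⟩

omit [Fintype ι] in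
lemma St.norm_le {z : ι → ℂ} {s S T : ℕ} {E : ℝ} (h : St z s S E) (hS : S ≤ T) {g : Oc h.θ}
    (hg : Sw g T T) : ‖(g : ℂ)‖ ≤ Real.exp (T + T * T) :=
  (hg _ _ (ov_subtype _)).trans (mul_le_exp le_rfl (pow_le_exp (max_le
    (Real.one_le_exp (by positivity)) (h.θ_le.trans (Real.exp_le_exp.mpr (by exact_mod_cast hS))))
      (by positivity) (by positivity) le_rfl) (by positivity))

/-- short vectors giving a small linear form -/
def Rl (z : ι → ℂ) (q : ℕ) (E : ℝ) : Set (ι → ℤ) :=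
  {m | (∀ i, |m i| ≤ q) ∧ ‖∑ i, m i * z i‖ ≤ Real.exp (-E)}

lemma rk_mono (z : ι → ℂ) (q : ℕ) {E E' : ℝ} (h : E' ≤ E) : rkS (Rl z q E) ≤ rkS (Rl z q E') :=
  rkS_mono fun _ hm => ⟨hm.1, hm.2.trans (Real.exp_le_exp.mpr (neg_le_neg h))⟩

theorem cut_rel (z : ι → ℂ) : ∀ᶠ T : ℕ in atTop, ∀ {s S q : ℕ} {E : ℝ} (h : St z s S E)
    {m : ι → ℤ}, Fintype.card ι * (q * S) + 1 ≤ T → S ≤ T → q ≤ T → 2 * (T : ℝ) ^ 12 ≤ E →
      m ∈ Rl z q E → ∑ i, m i * h.l i ≠ 0 →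
        ∃ s', s = s' + 1 ∧ Nonempty (St z s' (T ^ 6) (E / 2 / T ^ 6)) := by
  filter_upwards [cut' z, eventually_ge_atTop 2,
    eventually_poly_le_exp (2 * (Fintype.card ι + 1)) 1]
    with T hT hT2 hT3 s S q E h m h1 h2 h3 h4 hm hm0
  have e1 : (2 : ℝ) ≤ T := by exact_mod_cast hT2
  have e2 : (T : ℝ) ^ 3 ≤ T ^ 12 := pow_le_pow_right₀ (by linarith) (by norm_num)
  have e3 : (q : ℝ) ≤ T := by exact_mod_cast h3
  have e5 : 2 * (T : ℝ) ≤ T * T := by gcongr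
  have e6 : 2 * (T * T : ℝ) ≤ T ^ 3 := by nlinarith
  have e4 : (Fintype.card ι : ℝ) * (q * S) + 1 ≤ T := by exact_mod_cast h1
  have h5 : 2 * ‖∑ i, m i * h.l i‖ ≤ Real.exp (T + -E) := by
    have h6 := norm_lin_sub_le (T := T) (fun i => le_trans (by exact_mod_cast hm.1 i) e3) h.close
    have h7 := norm_le_norm_add_norm_sub (∑ i, m i * z i) (∑ i, m i * h.l i)
    have h8 := hm.2
    rw [pow_one] at hT3
    rw [Real.exp_add]
    nlinarith [mul_le_mul_of_nonneg_right hT3 (Real.exp_nonneg (-E)),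
      mul_le_mul_of_nonneg_right e1 (Real.exp_nonneg (-E)), Real.exp_nonneg (-E)]
  have h6 := h5.trans (Real.exp_le_one_iff.mpr (by linarith))
  have hU : ∀ {m : ι → ℤ}, (∀ i, |m i| ≤ q) → Sw (Um h.η h.β m) (T - 1) T := fun hm =>
    (sw_Um h.η_sw h.β_sw (by positivity) hm).mono (by linarith) (by omega)
  have hU' := hU (m := -m) fun i => by simpa using hm.1 i
  refine hT h h2 (by linarith) (sub_mem (h.Um_mem m) (h.Um_mem (-m))) (fun h0 => hm0 ?_)
    (((hU hm.1).sub hU').mono (by linarith) le_rfl) ?_ (by linarith)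
  · exact eq_zero_of_exp_eq_one ((h.Um_iff m).mp (sub_eq_zero.mp h0)) (by linarith)
  · have h7 : ((Um h.η h.β m - Um h.η h.β (-m) : Oc h.θ) : ℂ) =
        (Um h.η h.β (-m) : Oc h.θ) * (Complex.exp (∑ i, m i * h.l i) - 1) := by
      have h8 : ∀ m, ((Um h.η h.β m : Oc h.θ) : ℂ) = Um (fun i => (h.η i : ℂ)) (fun i => h.β i) m :=
        fun m => map_Um (Oc h.θ).subtype _ _ _
      push_cast
      rw [h8, h8, Um_eq h.η_ne h.β_ne m, h.prod_eq]; ring
    rw [h7, norm_mul]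
    refine (mul_le_exp (h.norm_le h2 (hU'.mono (by linarith) le_rfl))
      ((Complex.norm_exp_sub_one_le (by linarith)).trans h5) (norm_nonneg _)).trans
        (Real.exp_le_exp.mpr (by linarith))

lemma dich (z : ι → ℂ) : ∃ p0 : ℕ, 2 ≤ p0 ∧ ∀ p ≥ p0, ∀ {e t q c T : ℕ} {F : ℝ}
    (h : St z t (p ^ e) F), 1 ≤ e → p ^ e ≤ T → q ≤ T → 2 * (T : ℝ) ^ 36 ≤ F →
      Fintype.card ι ≤ rkS (Rl z q F) + c →
      ((∀ m ∈ Rl z q F, ∑ i, m i * h.l i = 0) ∧
        Fintype.card ι ≤ rkS (Rl z p.sqrt (F / p)) + (18 * e + 2) * c) ∨ ∃ t', t = t' + 1 ∧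
          Nonempty (St z t' (T ^ 18) (F / 2 / T ^ 18)) := by
  set n := Fintype.card ι with hn
  obtain ⟨S0, hS0⟩ := eventually_atTop.mp (((cut_rel z).and (absorb z)).and
    (eventually_poly_le_exp n 1))
  refine ⟨max S0 ((4 * n ^ 2 + 3) ^ 2), le_max_of_le_right (by nlinarith),
    fun p hp e t q c T F h he h1 h2 h3 h4 => ?_⟩
  have hA : 4 * n ^ 2 + 3 ≤ p.sqrt := Nat.le_sqrt'.mpr ((le_max_right _ _).trans hp)
  have hAp := Nat.sqrt_le_self p
  have hpe : p ≤ p ^ e := Nat.le_self_pow (by omega) p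
  have hp2 : (2 : ℝ) ≤ p := by exact_mod_cast (show 2 ≤ p by omega)
  have hp0 := (le_max_left _ _).trans hp
  by_cases hc : ∀ m ∈ Rl z q F, ∑ i, m i * h.l i = 0
  · refine Or.inl ⟨hc, (rank_near (Rl z q F) (g := 18 * e + 2) (A := p.sqrt) (Q := (p ^ e) ^ 6) h4
      (by omega) ?_).trans (Nat.add_le_add_right (rkS_mono ?_) _)⟩
    · have h5 : p ≤ p.sqrt ^ 3 := by nlinarith [Nat.lt_succ_sqrt' p]
      have h6 : (p ^ e) ^ 6 ≤ p.sqrt ^ (18 * e) := by
        rw [← pow_mul, show 18 * e = 3 * (e * 6) by ring, pow_mul _ 3]; gcongr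
      have h7 : 1 ≤ p.sqrt ^ (18 * e) * p.sqrt :=
        Nat.mul_pos (Nat.pow_pos (by omega)) (by omega)
      calc _ ≤ 4 * n ^ 2 * p.sqrt ^ (18 * e) * p.sqrt + p.sqrt ^ (18 * e) * p.sqrt := by gcongr
        _ = (4 * n ^ 2 + 1) * (p.sqrt ^ (18 * e) * p.sqrt) := by ring
        _ ≤ p.sqrt * (p.sqrt ^ (18 * e) * p.sqrt) := Nat.mul_le_mul_right _ (by omega)
        _ = _ := by ring
    · rintro a ⟨ha, M, hM, m, hm, hma⟩
      have hF : 2 * (p : ℝ) ^ e ≤ F := by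
        have e1 : p ^ e ≤ T ^ 36 := h1.trans (Nat.le_self_pow (by norm_num) T)
        have e2 : (p : ℝ) ^ e ≤ T ^ 36 := by exact_mod_cast e1
        linarith
      have hF0 : 0 ≤ F := le_trans (by positivity) hF
      have ha' : ∀ i, |a i| ≤ (p ^ e : ℕ) := fun i => (ha i).trans (by exact_mod_cast hAp.trans hpe)
      have h5 := (hS0 _ (hp0.trans hpe)).1.2 h hF0 m a M hM hma ha' (by
        clear hma
        induction hm using Submodule.span_induction with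
        | mem x hx => exact hc x hx
        | zero => simp
        | add x y _ _ hx hy => simp [add_mul, Finset.sum_add_distrib, hx, hy]
        | smul r x _ hx => simp [mul_assoc, ← Finset.mul_sum, hx])
      have h6 := norm_lin_sub_le (T := (p ^ e : ℕ)) (fun i => by exact_mod_cast ha' i) h.close
      rw [h5, sub_zero, ← mul_assoc] at h6
      have h7 := (hS0 _ (hp0.trans hpe)).2
      rw [pow_one] at h7
      refine ⟨ha, h6.trans ((mul_le_exp h7 le_rfl (by positivity)).trans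
        (Real.exp_le_exp.mpr ?_))⟩
      have : F / p ≤ F / 2 := by gcongr
      push_cast; linarith
  · push Not at hc
    obtain ⟨m, hm, hm0⟩ := hc
    have h6 : 1 ≤ T ^ 2 := Nat.one_le_pow _ _ (by omega)
    have h7 : T ≤ T ^ 3 := Nat.le_self_pow (by omega) _
    obtain ⟨t', ht', ⟨h'⟩⟩ := (hS0 (T ^ 3) (by omega)).1.1 h (by
      calc _ ≤ n * (T * T) + T ^ 2 := by gcongr
        _ = (n + 1) * T ^ 2 := by ring
        _ ≤ T * T ^ 2 := Nat.mul_le_mul_right _ (by nlinarith)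
        _ = _ := by ring) (h1.trans h7) (h2.trans h7) (by
      push_cast; rw [← pow_mul]; exact h3) hm hm0
    exact Or.inr ⟨t', ht', ⟨h'.mono (by rw [← pow_mul]) (by push_cast; rw [← pow_mul])⟩⟩

lemma rounds (z : ι → ℂ) : ∃ p0 : ℕ, ∀ (D P : ℕ) (E : ℝ) (q c : ℕ → ℕ),
    (P : ℝ) ^ (40 * 18 ^ D) ≤ E → ∀ t d : ℕ, ∀ p ≥ p0, 1 ≤ d → d + t ≤ D → p ≤ P →
      (∀ k ≤ t, q k ≤ P) → St z t (p ^ 18 ^ d) (E / (p ^ 18 ^ d : ℕ) ^ 3) →
      (∀ k ≤ t, Fintype.card ι ≤ rkS (Rl z (q k) E) + c k) → ∃ k d' p' : ℕ,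
        (p' = p ∧ d' + k = d + t ∨ d' + k ≤ t ∧ p' = q (d' + k)) ∧
          Fintype.card ι ≤ rkS (Rl z p'.sqrt (E / p' ^ (40 * 18 ^ D))) + 360 ^ d' * c k := by
  obtain ⟨p0, hp2, hp0⟩ := dich z
  refine ⟨p0, fun D P E q c hE t => ?_⟩
  have hE0 : 0 ≤ E := le_trans (by positivity) hE
  induction t using Nat.strong_induction_on with
  | _ t ih =>
  intro d p hp hd h1 h2 h3 h h4
  have e0 : 1 ≤ 18 ^ d := Nat.one_le_pow _ _ (by norm_num)
  have e1 : 18 ^ d ≤ 18 ^ D := Nat.pow_le_pow_right (by norm_num) (by omega)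
  have e2 : p ≤ p ^ 18 ^ d := Nat.le_self_pow (by omega) p
  obtain ⟨T, hT⟩ : ∃ T, T = max (p ^ 18 ^ d) (q t) := ⟨_, rfl⟩
  have e3 : p ^ 18 ^ d ≤ T := hT ▸ le_max_left _ _
  have e4 : T ≤ P ^ 18 ^ D := hT ▸ max_le ((Nat.pow_le_pow_left h2 _).trans
    (Nat.pow_le_pow_right (by omega) e1)) ((h3 t le_rfl).trans (Nat.le_self_pow (by omega) P))
  have e5 : ((p ^ 18 ^ d : ℕ) : ℝ) ≤ T := by exact_mod_cast e3
  have e6 : (2 : ℝ) ≤ (p ^ 18 ^ d : ℕ) := by exact_mod_cast (show 2 ≤ p ^ 18 ^ d by omega)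
  have e7 : (T : ℝ) ^ 40 ≤ E := by
    refine le_trans ?_ hE
    rw [mul_comm, pow_mul]; gcongr; exact_mod_cast e4
  rcases hp0 p hp h e0 e3 (hT ▸ le_max_right _ _) (by
      rw [le_div_iff₀ (by positivity)]
      refine le_trans ?_ e7
      calc _ ≤ (T : ℝ) * T ^ 36 * T ^ 3 := by gcongr; linarith
        _ = _ := by ring) ((h4 t le_rfl).trans (Nat.add_le_add_right (rk_mono _ _
      (div_le_self hE0 (one_le_pow₀ (by linarith)))) _)) with h5 | ⟨t', rfl, ⟨h'⟩⟩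
  · refine ⟨t, d, p, Or.inl ⟨rfl, rfl⟩, h5.2.trans (Nat.add_le_add (rk_mono _ _ ?_)
      (Nat.mul_le_mul_right _ ?_))⟩
    · have e8 : (1 : ℝ) ≤ p := by exact_mod_cast (show 1 ≤ p by omega)
      push_cast
      rw [div_div, ← pow_mul, ← pow_succ]
      exact div_le_div_of_nonneg_left hE0 (by positivity) (pow_le_pow_right₀ e8 (by omega))
    · have e8 : 20 ≤ 20 ^ d := Nat.le_self_pow (by omega) 20
      rw [show 360 = 20 * 18 by norm_num, mul_pow]
      nlinarith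
  have h5 := h'.mono le_rfl (show E / (T ^ 18 : ℕ) ^ 3 ≤ _ by
    rw [div_div, div_div]
    have e8 : 0 < T := by omega
    refine div_le_div_of_nonneg_left hE0 (by positivity) ?_
    push_cast at e5 e6 ⊢
    calc _ ≤ (T : ℝ) ^ 3 * (T * T ^ 18) := by gcongr; linarith
      _ = T ^ 22 := by ring
      _ ≤ _ := by rw [← pow_mul]; exact pow_le_pow_right₀ (by linarith) (by norm_num))
  rcases max_choice (p ^ 18 ^ d) (q (t' + 1)) with h6 | h6
  · rw [hT, h6, ← pow_mul, ← pow_succ] at h5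
    obtain ⟨k, d', p', h7, h8⟩ := ih t' (by omega) (d + 1) p hp (by omega) (by omega) h2
      (fun k hk => h3 k (by omega)) h5 fun k hk => h4 k (by omega)
    exact ⟨k, d', p', h7.imp (fun h => ⟨h.1, by omega⟩) fun h => ⟨by omega, h.2⟩, h8⟩
  · rw [h6] at hT
    rw [hT, ← pow_one 18] at h5
    obtain ⟨k, d', p', h7, h8⟩ := ih t' (by omega) 1 _ (by omega) le_rfl (by omega) (h3 _ le_rfl)
      (fun k hk => h3 k (by omega)) h5 fun k hk => h4 k (by omega)
    refine ⟨k, d', p', Or.inr ?_, h8⟩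
    rcases h7 with h7 | h7
    · exact ⟨by omega, by rw [h7.1, h7.2, add_comm]⟩
    · exact ⟨by omega, h7.2⟩

end Pool.Agent.Lib.MP_12eca1_ag
end

-- part Pool.Agent.Lib.MP_12eca1_ag.LExp
section

/-!
The auxiliary function and its lower bound on a grid.
-/

namespace Pool.Agent.Lib.MP_12eca1_ag

open Filter

/-- no short vector gives a small linear form -/
def TH {ι : Type*} [Fintype ι] (x : ι → ℂ) (q : ℕ) (E : ℝ) : Prop := ∀ m ∈ Rl x q E, m = 0

lemma TH.mono {ι : Type*} [Fintype ι] {x : ι → ℂ} {q q' : ℕ} {E E' : ℝ} (h : TH x q E)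
    (h1 : q' ≤ q) (h2 : E ≤ E') : TH x q' E' := fun m hm =>
  h m ⟨fun i => (hm.1 i).trans (by exact_mod_cast h1),
    hm.2.trans (Real.exp_le_exp.mpr (neg_le_neg h2))⟩

/-- a combination with coefficients in a box -/
noncomputable def cmb {r X : ℕ} (x : Fin r → ℂ) (a : Fin r → Fin X) : ℂ := ∑ i, (a i : ℕ) * x i

lemma norm_cmb_le {r X : ℕ} (x : Fin r → ℂ) (a : Fin r → Fin X) : ‖cmb x a‖ ≤ r * ‖x‖ * X := by
  refine (norm_sum_le _ _).trans ((Finset.sum_le_card_nsmul _ _ (‖x‖ * X) fun i _ => ?_).trans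
    (by simp [mul_assoc]))
  rw [norm_mul, Complex.norm_natCast, mul_comm]
  exact mul_le_mul (norm_le_pi_norm x i) (by exact_mod_cast (a i).2.le) (by positivity)
    (by positivity)

lemma TH.sep {r X : ℕ} {x : Fin r → ℂ} {E : ℝ} (h : TH x X E) {a a' : Fin r → Fin X}
    (hne : a ≠ a') : Real.exp (-E) ≤ ‖cmb x a - cmb x a'‖ := by
  by_contra hcon
  refine hne (funext fun i => Fin.ext ?_)
  have := congrFun (h (fun i => (a i : ℕ) - (a' i : ℕ)) ⟨fun i => abs_le.mpr (by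
    have := (a i).2; have := (a' i).2; beta_reduce; omega), le_trans (le_of_eq ?_) (not_le.mp hcon).le⟩) i
  · simp only [Pi.zero_apply] at this; omega
  · simp [cmb, sub_mul]

/-- the auxiliary function -/
noncomputable def auxE {r X : ℕ} (x : Fin r → ℂ) (p : (Fin r → Fin X) → ℤ) (w : ℂ) : ℂ :=
  ∑ a, p a * Complex.exp (cmb x a * w)

lemma differentiable_auxE {r X : ℕ} (x : Fin r → ℂ) (p : (Fin r → Fin X) → ℤ) :
    Differentiable ℂ (auxE x p) := by
  unfold auxE; fun_prop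

lemma sum_exp_le {r X : ℕ} {x : Fin r → ℂ} (h1 : r * ‖x‖ ≤ X) (h2 : (X : ℝ) ^ r ≤ Real.exp X)
    {w : ℂ} {R : ℝ} (hw : ‖w‖ ≤ R) :
    ∑ a : Fin r → Fin X, ‖Complex.exp (cmb x a * w)‖ ≤ Real.exp (X + X ^ 2 * R) := by
  refine (Finset.sum_le_card_nsmul _ _ (Real.exp (X ^ 2 * R)) fun a _ => ?_).trans ?_
  · refine (Complex.norm_exp_le_exp_norm _).trans (Real.exp_le_exp.mpr ?_)
    rw [norm_mul]
    refine mul_le_mul ((norm_cmb_le x a).trans ?_) hw (norm_nonneg _) (by positivity)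
    rw [sq]; gcongr
  · rw [nsmul_eq_mul]
    exact mul_le_exp (by simpa using h2) le_rfl (by positivity)

lemma norm_auxE_le {r X : ℕ} {x : Fin r → ℂ} (h1 : r * ‖x‖ ≤ X) (h2 : (X : ℝ) ^ r ≤ Real.exp X)
    (hX : 1 ≤ X) {p : (Fin r → Fin X) → ℤ} (hp : ∀ a, |p a| ≤ 1) (w : ℂ)
    (hw : ‖w‖ ≤ 7 * (X : ℝ) ^ 3) : ‖auxE x p w‖ ≤ Real.exp (8 * X ^ 5) := by
  refine (norm_sum_le _ _).trans ((Finset.sum_le_sum fun a _ => ?_).trans
    ((sum_exp_le h1 h2 hw).trans (Real.exp_le_exp.mpr ?_)))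
  · rw [norm_mul, Complex.norm_intCast]
    exact mul_le_of_le_one_left (norm_nonneg _) (by exact_mod_cast hp a)
  · have : (X : ℝ) ≤ X ^ 5 := le_self_pow₀ (by exact_mod_cast hX) (by norm_num)
    linarith

lemma exp_add_le {a b c : ℝ} (h1 : a ≤ c - 1) (h2 : b ≤ c - 1) :
    Real.exp a + Real.exp b ≤ Real.exp c := by
  have e3 : Real.exp c = Real.exp (c - 1) * Real.exp 1 := by
    rw [← Real.exp_add]; congr 1; ring
  nlinarith [Real.add_one_le_exp 1, Real.exp_pos (c - 1), Real.exp_le_exp.mpr h1,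
    Real.exp_le_exp.mpr h2]

lemma params {k : ℕ} (hk : 6 ≤ k) (C : ℝ) : ∀ᶠ X : ℕ in atTop, C ≤ X ∧ (100 : ℝ) ≤ X ∧
    (X : ℝ) ^ 6 ≤ X ^ k ∧ 24 * ((X : ℝ) ^ k) ^ 4 * X ^ 3 ≤ Real.exp X ∧
      (X : ℝ) ^ (4 * k) ≤ Real.exp X := by
  filter_upwards [tendsto_natCast_atTop_atTop.eventually_ge_atTop C,
    tendsto_natCast_atTop_atTop.eventually_ge_atTop (100 : ℝ),
    eventually_poly_le_exp 24 (k * 4 + 3), eventually_poly_le_exp 1 (4 * k)] with X h1 h2 h3 h4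
  exact ⟨h1, h2, pow_le_pow_right₀ (by linarith) hk, by rwa [pow_add, pow_mul, ← mul_assoc] at h3,
    by simpa using h4⟩

lemma exists_auxE {k : ℕ} (hk : 6 ≤ k) (x : Fin (4 * k) → ℂ) : ∀ᶠ X : ℕ in atTop,
    ∃ p : (Fin (4 * k) → Fin X) → ℤ, p ≠ 0 ∧ (∀ a, |p a| ≤ 1) ∧
      ∀ w, ‖w‖ ≤ (X : ℝ) ^ 3 → ‖auxE x p w‖ ≤ Real.exp (-X ^ k) := by
  filter_upwards [params hk ((4 * k : ℕ) * ‖x‖)] with X ⟨h1, h2, h3, h4, h5⟩
  have hX : 1 ≤ X := by exact_mod_cast (show (1 : ℝ) ≤ X by linarith)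
  obtain ⟨Y, hY⟩ : ∃ Y, Y = (X : ℝ) ^ k := ⟨_, rfl⟩
  have e1 : 100 * (X : ℝ) ^ 5 ≤ X ^ 6 := by rw [pow_succ' _ 5]; gcongr
  have e2 : (X : ℝ) ^ 2 ≤ X ^ 5 := pow_le_pow_right₀ (by linarith) (by norm_num)
  have e3 : (X : ℝ) ≤ X ^ 2 := by nlinarith
  have hY0 : 0 ≤ Y := by rw [hY]; positivity
  rw [← hY] at h3 h4 ⊢
  have hv : ∀ i : Fin (3 * X ^ k), ‖(((i : ℕ) / (3 * Y) : ℝ) : ℂ)‖ ≤ 1 := fun i => by
    rw [Complex.norm_real, Real.norm_of_nonneg (by positivity), div_le_one (by linarith), hY]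
    exact_mod_cast i.2.le
  obtain ⟨p, hp0, hp1, hp⟩ := exists_aux
    (fun (a : Fin (4 * k) → Fin X) (i : Fin (3 * X ^ k)) =>
      Complex.exp (cmb x a * (((i : ℕ) / (3 * Y) : ℝ) : ℂ))) (U := Y ^ 2) (W := Y) (by positivity)
    (by linarith) (fun i => (sum_exp_le h1 h5 (hv i)).trans (Real.exp_le_exp.mpr (by linarith)))
    (by
      simp only [Fintype.card_fin, Fintype.card_fun]
      push_cast
      rw [pow_mul', ← hY]
      have : 0 < Y := by linarith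
      nlinarith [mul_le_mul_of_nonneg_left (show 100 ≤ Y by linarith) (show 0 ≤ Y ^ 3 by positivity),
        mul_le_mul_of_nonneg_left (show 100 ≤ Y by linarith) (show 0 ≤ Y ^ 2 by positivity)])
  refine ⟨p, hp0, hp1, fun w hw => (interp_bound (differentiable_auxE x p) Finset.univ
    (fun i : Fin (3 * X ^ k) => (((i : ℕ) / (3 * Y) : ℝ) : ℂ)) (a := X) (by positivity)
    (by positivity) (fun i _ => (hv i).trans (one_le_pow₀ (by linarith))) (fun i _ j _ hij => ?_)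
    (fun i _ => hp i) (norm_auxE_le h1 h5 hX hp1) hw).trans (exp_add_le ?_ ?_)⟩
  · rw [← Complex.ofReal_sub, Complex.norm_real, ← sub_div, Real.norm_eq_abs, abs_div,
      abs_of_pos (show 0 < 3 * Y by linarith), mul_div_assoc', le_div_iff₀ (by linarith)]
    have h6 : (1 : ℝ) ≤ |((i : ℕ) : ℝ) - (j : ℕ)| := by
      have := Int.one_le_abs (show ((i : ℕ) - (j : ℕ) : ℤ) ≠ 0 by have := Fin.val_ne_of_ne hij; omega)
      exact_mod_cast this
    have h7 : Y ≤ Y ^ 4 := le_self_pow₀ (by linarith) (by norm_num)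
    nlinarith [mul_le_mul_of_nonneg_left h6 (Real.exp_nonneg X),
      mul_le_mul_of_nonneg_right h7 (show (0 : ℝ) ≤ X ^ 3 by positivity)]
  · simp only [Finset.card_univ, Fintype.card_fin]
    push_cast; rw [← hY]; linarith
  · simp only [Finset.card_univ, Fintype.card_fin]
    push_cast; rw [← hY]
    nlinarith [mul_le_mul_of_nonneg_left (show 3 * X + 6 ≤ Y by linarith) (show 0 ≤ Y by linarith)]

lemma not_small {k : ℕ} (hk : 6 ≤ k) (x y : Fin (4 * k) → ℂ) : ∀ᶠ X : ℕ in atTop,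
    TH x (X ^ 2) ((X ^ k) ^ 2) → TH y (X ^ 2) ((X ^ k) ^ 2) → ∀ p : (Fin (4 * k) → Fin X) → ℤ,
      p ≠ 0 → (∀ a, |p a| ≤ 1) → ¬ ∀ μ : Fin (4 * k) → Fin (X ^ 2),
        ‖auxE x p (cmb y μ)‖ ≤ Real.exp (-(X ^ k) ^ 11) := by
  filter_upwards [params hk ((4 * k : ℕ) * ‖x‖), params hk ((4 * k : ℕ) * ‖y‖)]
    with X ⟨h1, h2, h3, h4, h5⟩ ⟨h1', _⟩ hx hy p hp0 hp1 h
  have hX : 1 ≤ X := by exact_mod_cast (show (1 : ℝ) ≤ X by linarith)
  obtain ⟨Y, hY⟩ : ∃ Y, Y = (X : ℝ) ^ k := ⟨_, rfl⟩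
  have e1 : 100 * (X : ℝ) ^ 5 ≤ X ^ 6 := by rw [pow_succ' _ 5]; gcongr
  have e2 : (X : ℝ) ^ 3 ≤ X ^ 5 := pow_le_pow_right₀ (by linarith) (by norm_num)
  have e3 : (X : ℝ) ≤ X ^ 2 := by nlinarith
  have e4 : (X : ℝ) ^ 2 ≤ X ^ 3 := pow_le_pow_right₀ (by linarith) (by norm_num)
  have hY0 : 0 ≤ Y := by rw [hY]; positivity
  rw [← hY] at h3 h4 h hx hy
  have hp : ∀ j : ℕ, 100 * Y ^ j ≤ Y ^ (j + 1) := fun j => by
    rw [pow_succ']; exact mul_le_mul_of_nonneg_right (by linarith) (by positivity)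
  have p0 := hp 0
  have p1 := hp 1
  have p2 := hp 2
  have p3 := hp 3
  have p7 := hp 7
  have p10 := hp 10
  have q1 : Y ≤ Y ^ 7 := le_self_pow₀ (by linarith) (by norm_num)
  have q2 : Y ^ 8 ≤ Y ^ 10 := pow_le_pow_right₀ (by linarith) (by norm_num)
  norm_num at p0 p1 p2 p3 p7 p10
  have hc : ((Finset.univ : Finset (Fin (4 * k) → Fin (X ^ 2))).card : ℝ) = Y ^ 8 := by
    simp only [Finset.card_univ, Fintype.card_fin, Fintype.card_fun]
    push_cast
    rw [hY, ← pow_mul, ← pow_mul]; congr 1; ring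
  have h6 : ∀ w, ‖w‖ ≤ (X : ℝ) ^ 3 → ‖auxE x p w‖ ≤ Real.exp (-Y ^ 7) := fun w hw =>
    (interp_bound (differentiable_auxE x p) Finset.univ (cmb y) (a := X + Y ^ 2) (by positivity)
      (by positivity) (fun μ _ => (norm_cmb_le y μ).trans (by
        push_cast at h1' ⊢; nlinarith)) (fun μ _ μ' _ hne => by
        have h7 := mul_le_mul_of_nonneg_left (hy.sep hne) (Real.exp_nonneg (X + Y ^ 2))
        rw [← Real.exp_add, add_neg_cancel_right] at h7
        nlinarith [mul_le_mul_of_nonneg_right (show 1 ≤ Y ^ 4 by linarith)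
          (show (0 : ℝ) ≤ X ^ 3 by positivity)])
      (fun μ _ => h μ) (norm_auxE_le h1 h5 hX hp1) hw).trans (exp_add_le (by rw [hc]; linarith) (by
        rw [hc]
        nlinarith [mul_le_mul_of_nonneg_left (show X + Y ^ 2 + 1 ≤ 2 * Y ^ 2 by linarith)
          (show 0 ≤ Y ^ 8 by positivity)]))
  have hc' : (Fintype.card (Fin (4 * k) → Fin X) : ℝ) = Y ^ 4 := by
    simp only [Fintype.card_fin, Fintype.card_fun]
    push_cast
    rw [hY, pow_mul']
  have hD : 0 < 4 * (X : ℝ) ^ 2 * Y ^ 4 := by positivity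
  have h7 := vander hp0 (fun a => cmb x a * ((4 * X ^ 2 * Y ^ 4 : ℝ)⁻¹ : ℝ)) (a := Y ^ 2 + X)
    (V := Y ^ 7) (by positivity) (fun a => by
      rw [norm_mul, Complex.norm_real, Real.norm_of_nonneg (by positivity), ← div_eq_mul_inv,
        div_le_iff₀ hD]
      nlinarith [norm_cmb_le x a, mul_le_mul_of_nonneg_left (show 1 ≤ Y ^ 4 by linarith)
        (show (0 : ℝ) ≤ X ^ 2 by positivity)]) (fun a a' hne => by
      rw [← sub_mul, norm_mul, Complex.norm_real, Real.norm_of_nonneg (by positivity), neg_add,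
        Real.exp_add, Real.exp_neg X]
      refine mul_le_mul ((hx.mono (Nat.le_self_pow (by norm_num) X) le_rfl).sep hne)
        (inv_anti₀ hD ?_) (by positivity) (norm_nonneg _)
      nlinarith [mul_le_mul_of_nonneg_left e4 (show (0 : ℝ) ≤ Y ^ 4 by positivity)])
    fun t ht => by
      simp only [mul_assoc (cmb x _)]
      refine h6 _ ?_
      have h8 : (t : ℝ) ≤ Y ^ 4 := by rw [← hc']; exact_mod_cast ht.le
      rw [norm_mul, Complex.norm_real, Real.norm_of_nonneg (by positivity), Complex.norm_natCast,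
        inv_mul_le_iff₀ hD]
      nlinarith [mul_le_mul_of_nonneg_left (show 1 ≤ 4 * (X : ℝ) ^ 2 * X ^ 3 by nlinarith)
        (show (0 : ℝ) ≤ Y ^ 4 by positivity)]
  rw [hc'] at h7
  nlinarith [mul_le_mul_of_nonneg_left (show Y ^ 2 + X + 5 + 1 ≤ Y ^ 3 by linarith)
    (show (0 : ℝ) ≤ Y ^ 4 by positivity)]

end Pool.Agent.Lib.MP_12eca1_ag
end

-- part Pool.Agent.Lib.MP_12eca1_ag.LStep
section

/-!
Under separation at one scale, the number of generators can be lowered until a contradiction.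
-/

namespace Pool.Agent.Lib.MP_12eca1_ag

open Filter

/-- the family of products -/
def prd {r : ℕ} (x y : Fin r → ℂ) : Fin r × Fin r → ℂ := fun ij => x ij.1 * y ij.2

lemma stepA {k : ℕ} (hk : 6 ≤ k) (x y : Fin (4 * k) → ℂ) : ∀ᶠ X : ℕ in atTop,
    ∀ {s S T : ℕ} (_ : St (prd x y) s S ((X ^ k) ^ 13)), 1 ≤ S → X ^ 5 * S ≤ T →
      2 * (T : ℝ) ^ 12 ≤ X ^ k → TH x (X ^ 2) ((X ^ k) ^ 2) → TH y (X ^ 2) ((X ^ k) ^ 2) →
        ∃ s', s = s' + 1 ∧ Nonempty (St (prd x y) s' (T ^ 6) (X ^ k / 2 / T ^ 6)) := by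
  set n := Fintype.card (Fin (4 * k) × Fin (4 * k)) with hn
  obtain ⟨T0, hT0⟩ := eventually_atTop.mp (cut' (prd x y))
  filter_upwards [params hk ((4 * k : ℕ) * ‖x‖), params hk ((4 * k : ℕ) * ‖y‖), exists_auxE hk x,
    not_small hk x y, eventually_poly_le_exp n 3, eventually_ge_atTop n, eventually_ge_atTop T0]
    with X ⟨h1, h2, h3, _, h5⟩ ⟨h1', _⟩ ⟨p, hp0, hp1, hp⟩ hns h6 h7 hXT s S T h hS hT hT4 hx hy
  have hX : 2 ≤ X := by exact_mod_cast (show (2 : ℝ) ≤ X by linarith)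
  obtain ⟨Y, hY⟩ : ∃ Y, Y = (X : ℝ) ^ k := ⟨_, rfl⟩
  have e1 : 100 * (X : ℝ) ^ 5 ≤ X ^ 6 := by rw [pow_succ' _ 5]; gcongr
  have e2 : 100 * (X : ℝ) ≤ X ^ 5 :=
    le_trans (by nlinarith) (pow_le_pow_right₀ (by linarith) (show 2 ≤ 5 by norm_num))
  have hT1 : n * (X ^ 3 * S) + X ≤ T := by
    have : X ≤ X ^ 4 * S := (Nat.le_self_pow (by omega) X).trans (Nat.le_mul_of_pos_right _ hS)
    calc _ ≤ X * (X ^ 3 * S) + X ^ 4 * S := by gcongr
      _ = 2 * (X ^ 4 * S) := by ring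
      _ ≤ X * (X ^ 4 * S) := by gcongr
      _ ≤ _ := le_trans (le_of_eq (by ring)) hT
  have hT2 : S ≤ T := (Nat.le_mul_of_pos_left _ (by positivity)).trans hT
  have hT3 : (100 : ℝ) ≤ T := h2.trans (by exact_mod_cast (show X ≤ T by omega))
  have hT5 : (T : ℝ) ^ 3 ≤ T ^ 12 := pow_le_pow_right₀ (by linarith) (by norm_num)
  have hT1' : (n : ℝ) * (X ^ 3 * S) + X ≤ T := by exact_mod_cast hT1
  have hcut := @hT0 T (by omega)
  rw [← hY] at h3 hp hns hx hy hT4 ⊢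
  have q1 : Y ≤ Y ^ 12 := le_self_pow₀ (by linarith) (by norm_num)
  have q2 : Y ^ 11 ≤ Y ^ 12 := pow_le_pow_right₀ (by linarith) (by norm_num)
  have q3 : 100 * Y ^ 12 ≤ Y ^ 13 := by
    rw [pow_succ' _ 12]; exact mul_le_mul_of_nonneg_right (by linarith) (by linarith)
  have hcl : ∀ i, ‖prd x y i - h.l i‖ ≤ Real.exp (-Y ^ 13) := by rw [hY]; exact h.close
  let c : (Fin (4 * k) → Fin (X ^ 2)) → (Fin (4 * k) → Fin X) → Fin (4 * k) × Fin (4 * k) → ℕ :=
    fun μ a ij => a ij.1 * μ ij.2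
  have hc : ∀ μ a ij, c μ a ij ≤ X ^ 3 := fun μ a ij => by
    rw [pow_succ']; exact Nat.mul_le_mul (a ij.1).2.le (μ ij.2).2.le
  have hv : ∀ μ : Fin (4 * k) → Fin (X ^ 2), ‖cmb y μ‖ ≤ (X : ℝ) ^ 3 := fun μ =>
    (norm_cmb_le y μ).trans (by push_cast at h1' ⊢; nlinarith)
  let G : (Fin (4 * k) → Fin (X ^ 2)) → ℂ := fun μ =>
    ∑ a, p a * Complex.exp (∑ ij, c μ a ij * h.l ij)
  have hG : ∀ μ, ‖G μ - auxE x p (cmb y μ)‖ ≤ Real.exp (2 * X ^ 5 - Y ^ 13) := fun μ => by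
    rw [auxE, ← Finset.sum_sub_distrib]
    refine (norm_sum_le _ _).trans ((Finset.sum_le_sum (g := fun a =>
      ‖Complex.exp (cmb x a * cmb y μ)‖ * Real.exp (1 + (X + -Y ^ 13))) fun a _ => ?_).trans ?_)
    · have h8 := norm_lin_sub_le (a := fun ij => (c μ a ij : ℤ)) (T := X ^ 3)
        (fun ij => by rw [Int.cast_natCast, Nat.abs_cast]; exact_mod_cast hc μ a ij) hcl
      have h9 : ∑ ij, ((c μ a ij : ℤ) : ℂ) * prd x y ij = cmb x a * cmb y μ := by
        rw [cmb, cmb, Finset.sum_mul_sum, Fintype.sum_prod_type]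
        refine Finset.sum_congr rfl fun i _ => Finset.sum_congr rfl fun j _ => ?_
        simp only [c, prd]; push_cast; ring
      rw [h9, ← mul_assoc, norm_sub_rev] at h8
      simp only [Int.cast_natCast] at h8
      have h10 := h8.trans (mul_le_exp h6 le_rfl (by positivity))
      have h11 := Complex.norm_exp_sub_one_le
        (h10.trans (Real.exp_le_one_iff.mpr (by linarith)))
      have h12 : ∀ u v : ℂ, Complex.exp u - Complex.exp v =
          Complex.exp v * (Complex.exp (u - v) - 1) := fun u v => by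
        rw [mul_sub, ← Complex.exp_add]; simp
      rw [← mul_sub, norm_mul, Complex.norm_intCast, h12, norm_mul]
      refine (mul_le_of_le_one_left (by positivity) (by exact_mod_cast hp1 a)).trans
        (mul_le_mul_of_nonneg_left (h11.trans (mul_le_exp ?_ h10 (norm_nonneg _))) (norm_nonneg _))
      linarith [Real.add_one_le_exp 1]
    · rw [← Finset.sum_mul]
      exact (mul_le_exp (sum_exp_le h1 h5 (hv μ)) le_rfl (by positivity)).trans
        (Real.exp_le_exp.mpr (by linarith))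
  obtain ⟨μ, hμ⟩ : ∃ μ, G μ ≠ 0 := by
    by_contra hcon
    push Not at hcon
    refine hns hx hy p hp0 hp1 fun μ => ?_
    have := hG μ
    rw [hcon, zero_sub, norm_neg] at this
    exact this.trans (Real.exp_le_exp.mpr (by linarith))
  have hf : ((∑ a, (p a : Oc h.θ) * ∏ ij, h.η ij ^ c μ a ij * h.β ij ^ (X ^ 3 - c μ a ij) :
      Oc h.θ) : ℂ) = (∏ ij, h.β ij ^ X ^ 3 : Oc h.θ) * G μ := by
    push_cast
    rw [Finset.mul_sum]
    refine Finset.sum_congr rfl fun a _ => ?_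
    rw [mul_left_comm, Complex.exp_sum, ← Finset.prod_mul_distrib]
    congr 1
    refine Finset.prod_congr rfl fun ij _ => ?_
    rw [← h.rel, Complex.exp_nat_mul, mul_pow, mul_right_comm, ← pow_add,
      Nat.add_sub_cancel' (hc μ a ij)]
  refine hcut h hT2 (show Y / 2 ≤ _ by rw [← hY]; linarith)
    (f := ∑ a, (p a : Oc h.θ) * ∏ ij, h.η ij ^ c μ a ij * h.β ij ^ (X ^ 3 - c μ a ij))
    (sum_mem fun a _ => mul_mem (intCast_mem _ _) (prod_mem fun ij _ =>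
      mul_mem (pow_mem (h.η_mem ij) _) (pow_mem (h.β_mem ij) _))) (fun h0 => ?_) ?_ ?_
        (by linarith)
  · rw [h0] at hf
    refine mul_ne_zero ?_ hμ hf.symm
    push_cast
    exact Finset.prod_ne_zero_iff.mpr fun ij _ => pow_ne_zero _ (h.β_ne ij)
  · refine (Sw.sum _ _ (mu := X) (fun a _ => (Sw.intCast (lam := 0) (p a)
      (by rw [Real.exp_zero]; exact_mod_cast hp1 a)).mul (Sw.prod _ _
        (lam := X ^ 3 * S) (d := X ^ 3 * S) fun ij _ => ?_))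
          (by simpa using h5)).mono ?_ ?_
    · refine (((h.η_sw ij).pow _).mul ((h.β_sw ij).pow _)).mono (le_of_eq ?_) (le_of_eq ?_)
      · rw [← add_mul, ← Nat.cast_add, Nat.add_sub_cancel' (hc μ a ij), Nat.cast_pow]
      · rw [← add_mul, Nat.add_sub_cancel' (hc μ a ij)]
    · rw [Finset.card_univ, ← hn]; linarith
    · rw [Finset.card_univ, ← hn]; omega
  · rw [hf, norm_mul]
    have h8 := h.norm_le hT2 ((Sw.prod Finset.univ _ fun ij _ => (h.β_sw ij).pow (X ^ 3)).mono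
      (by rw [Finset.card_univ, ← hn]; push_cast; linarith) (by rw [Finset.card_univ, ← hn]; omega))
    have h9 := (norm_le_norm_add_norm_sub' (G μ) (auxE x p (cmb y μ))).trans
      ((add_le_add (hp _ (hv μ)) (hG μ)).trans (exp_add_le (c := 1 - Y) (by linarith) (by linarith)))
    exact (mul_le_exp h8 h9 (norm_nonneg _)).trans (Real.exp_le_exp.mpr (by nlinarith))

theorem partA (s : ℕ) : ∀ e k : ℕ, 13 * 6 ^ s * (e + 9 * 14 ^ s) ≤ k → ∀ x y : Fin (4 * k) → ℂ,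
    ∀ᶠ b : ℕ in atTop, St (prd x y) s (b ^ e) (((b ^ 14 ^ s : ℕ) ^ k) ^ 13) →
      TH x ((b ^ 14 ^ s) ^ 2) ((b ^ k) ^ 2) → TH y ((b ^ 14 ^ s) ^ 2) ((b ^ k) ^ 2) → False := by
  have aux : ∀ s e k : ℕ, 12 * (14 ^ s * 5 + e) + 1 ≤ k → ∀ x y : Fin (4 * k) → ℂ,
      ∀ᶠ b : ℕ in atTop, St (prd x y) s (b ^ e) (((b ^ 14 ^ s : ℕ) ^ k) ^ 13) →
        TH x ((b ^ 14 ^ s) ^ 2) ((b ^ k) ^ 2) → TH y ((b ^ 14 ^ s) ^ 2) ((b ^ k) ^ 2) →
          ∃ s', s = s' + 1 ∧ Nonempty (St (prd x y) s' ((b ^ (14 ^ s * 5 + e)) ^ 6)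
            ((b ^ 14 ^ s : ℕ) ^ k / 2 / (b ^ (14 ^ s * 5 + e) : ℕ) ^ 6)) := by
    intro s e k hk x y
    have h0 : 1 ≤ 14 ^ s := Nat.one_le_pow _ _ (by norm_num)
    filter_upwards [(tendsto_pow_atTop (show 14 ^ s ≠ 0 by positivity)).eventually
      (stepA (k := k) (by omega) x y), eventually_ge_atTop 2] with b hb hb2 h hx hy
    have h1 : b ≤ b ^ 14 ^ s := Nat.le_self_pow (by positivity) b
    have h2 : ((b : ℝ) ^ k) ^ 2 ≤ ((b ^ 14 ^ s : ℕ) ^ k) ^ 2 := by gcongr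
    have h3 : (2 : ℝ) ≤ b := by exact_mod_cast hb2
    refine hb h (Nat.one_le_pow _ _ (by omega)) (by rw [← pow_mul, ← pow_add]) ?_
      (hx.mono le_rfl h2) (hy.mono le_rfl h2)
    calc _ ≤ (b : ℝ) * (b ^ (14 ^ s * 5 + e)) ^ 12 := by push_cast; gcongr
      _ = b ^ (12 * (14 ^ s * 5 + e) + 1) := by ring
      _ ≤ b ^ k := pow_le_pow_right₀ (by linarith) hk
      _ ≤ _ := by gcongr
  induction s with
  | zero =>
    refine fun e k hk x y => (aux 0 e k (by omega) x y).mono fun b hb h hx hy => ?_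
    obtain ⟨s', h1, -⟩ := hb h hx hy
    omega
  | succ s ih =>
    intro e k hk x y
    have h0 : 1 ≤ 6 ^ s := Nat.one_le_pow _ _ (by norm_num)
    have h0' : 12 * (14 ^ (s + 1) * 5 + e) + 1 ≤ k := by
      have : 1 ≤ 14 ^ (s + 1) := Nat.one_le_pow _ _ (by norm_num)
      rw [pow_succ 6] at hk
      nlinarith [Nat.mul_le_mul_right (e + 9 * 14 ^ (s + 1)) h0]
    filter_upwards [aux (s + 1) e k h0' x y, ih ((14 ^ (s + 1) * 5 + e) * 6) k (by
      refine le_trans ?_ hk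
      rw [pow_succ 6, pow_succ 14, mul_assoc 13, mul_assoc 13, mul_assoc (6 ^ s)]
      gcongr; omega) x y, eventually_ge_atTop 2] with b h1 h2 hb h hx hy
    obtain ⟨s', h3, ⟨h'⟩⟩ := h1 h hx hy
    obtain rfl : s = s' := by omega
    have h4 : (b ^ 14 ^ s) ^ 2 ≤ (b ^ 14 ^ (s + 1)) ^ 2 := by gcongr <;> omega
    refine h2 (h'.mono (by rw [← pow_mul]) ?_) (hx.mono h4 le_rfl) (hy.mono h4 le_rfl)
    have h6 : (2 : ℝ) ≤ b := by exact_mod_cast hb
    have h7 : 1 ≤ 14 ^ s := Nat.one_le_pow _ _ (by norm_num)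
    push_cast
    rw [div_div, le_div_iff₀ (by positivity)]
    simp only [← pow_mul]
    calc _ ≤ (b : ℝ) ^ (14 ^ s * k * 13) * (b * b ^ ((14 ^ (s + 1) * 5 + e) * 6)) := by gcongr
      _ = b ^ (14 ^ s * k * 13 + ((14 ^ (s + 1) * 5 + e) * 6 + 1)) := by ring
      _ ≤ _ := pow_le_pow_right₀ (by linarith) (by
        rw [pow_succ 14] at h0' ⊢; nlinarith [Nat.mul_le_mul_right k h7])

end Pool.Agent.Lib.MP_12eca1_ag
end

-- part Pool.Agent.Lib.MP_12eca1_ag.LBase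
section

/-!
The initial state and the descent on several scales.
-/

namespace Pool.Agent.Lib.MP_12eca1_ag

open Filter Polynomial

lemma base {ι : Type*} [Fintype ι] {s : ℕ} {θ : Fin s → ℂ} (hθ : Function.Injective (ev θ))
    (z : ι → ℂ) (h : ∀ i, ∃ P : (Rs s)[X], P ≠ 0 ∧ (P.map (ev θ)).eval (Complex.exp (z i)) = 0) :
    ∀ᶠ S : ℕ in atTop, ∀ E, ∃ h : St z s S E, h.l = z := by
  choose P hP0 hP using h
  obtain ⟨F, _, _, hF1, hF2⟩ := exists_field hθ
  obtain ⟨K, h1, h2, h3, -⟩ := tower_fin Finset.univ (⊥ : IntermediateField F ℂ) inferInstance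
    (fun i => (P i).map (ev θ)) (fun i => Complex.exp (z i))
    (c := Finset.univ.sup fun i => ((P i).map (ev θ)).natDegree)
    (fun i => (Polynomial.map_ne_zero_iff hθ).mpr (hP0 i))
    (fun i j => by rw [coeff_map]; exact hF1 _) hP fun i => Finset.le_sup (f := fun i =>
      ((P i).map (ev θ)).natDegree) (Finset.mem_univ i)
  have hη : ∀ i, ev θ (P i).leadingCoeff * Complex.exp (z i) ∈ Oc θ := fun i => by
    let _ := alg θ
    exact isIntegral_leadingCoeff_smul (P i) _ (by rw [aeval_def, ← eval_map]; exact hP i)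
  have hβ : ∀ i, ∀ᶠ S : ℕ in atTop, Real.exp (-S) ≤ ‖ev θ (P i).leadingCoeff‖ := fun i =>
    (Real.tendsto_exp_neg_atTop_nhds_zero.comp tendsto_natCast_atTop_atTop).eventually_le_const
      (norm_pos_iff.mpr fun h0 => leadingCoeff_ne_zero.mpr (hP0 i) (hθ (h0.trans (map_zero _).symm)))
  filter_upwards [eventually_all.mpr hβ, eventually_ge_atTop (Module.finrank F K),
    eventually_all.mpr fun i => eventually_sw (⟨_, hη i⟩ : Oc θ),
    eventually_all.mpr fun i => eventually_sw (inc θ (P i).leadingCoeff),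
    eventually_poly_le_exp ‖θ‖ 0] with S e1 e2 e3 e4 e5 E
  exact ⟨{ θ := θ, inj := hθ, L := K.toSubring.comap (Oc θ).subtype, η := fun i => ⟨_, hη i⟩
           β := fun i => inc θ (P i).leadingCoeff, l := z, θ_le := by simpa using e5
           deg := fun g hg => (hF2 K h3 g hg).trans e2
           η_mem := fun i => K.mul_mem (h1 (hF1 _)) (h2 i (Finset.mem_univ i))
           β_mem := fun i => h1 (hF1 _), η_sw := e3, β_sw := e4, β_ge := e1, rel := fun _ => rfl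
           close := fun i => by simpa using Real.exp_nonneg _ }, rfl⟩

lemma eventually_no_rel {ι : Type*} [Fintype ι] {z : ι → ℂ} (hz : LinearIndependent ℚ z) (p : ℕ) :
    ∃ X : ℕ, ∀ E : ℝ, X ≤ E → ∀ q ≤ p, ∀ m ∈ Rl z q E, m = 0 := by
  classical
  have h1 : ∀ m ∈ Fintype.piFinset fun _ : ι => Finset.Icc (-p : ℤ) p, ∀ᶠ X : ℕ in atTop,
      m ≠ 0 → Real.exp (-X) < ‖∑ i, m i * z i‖ := fun m _ => by
    rcases eq_or_ne m 0 with h | h
    · simp [h]
    · exact ((Real.tendsto_exp_neg_atTop_nhds_zero.comp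
        tendsto_natCast_atTop_atTop).eventually_lt_const
          (norm_pos_iff.mpr (sum_ne_zero_of_li hz h))).mono fun _ h _ => h
  obtain ⟨X, hX⟩ := ((eventually_all_finset _).mpr h1).exists
  refine ⟨X, fun E hE q hq m hm => by_contra fun h => ?_⟩
  have h2 := hX m (Fintype.mem_piFinset.mpr fun i => Finset.mem_Icc.mpr
    (abs_le.mp ((hm.1 i).trans (by exact_mod_cast hq)))) h
  exact absurd (hm.2.trans (Real.exp_le_exp.mpr (neg_le_neg hE))) (not_le.mpr h2)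

theorem descB {ι : Type*} [Fintype ι] {s r : ℕ} (hN : r * 360 ^ s + 1 ≤ Fintype.card ι) {z : ι → ℂ}
    (hz : LinearIndependent ℚ z) (hb : ∀ᶠ S : ℕ in atTop, ∀ E, ∃ h : St z s S E, h.l = z) :
    ∀ᶠ q : ℕ in atTop,
      rkS (Rl z q (q ^ ((s + 1) * (2 * (40 * 18 ^ s)) + 1))) + r ≤ Fintype.card ι := by
  classical
  obtain ⟨S0, hS0⟩ := eventually_atTop.mp hb
  obtain ⟨p0, -, hp0⟩ := dich z
  obtain ⟨p1, hp1⟩ := rounds z
  obtain ⟨X, hX⟩ := eventually_no_rel hz (S0 + p0 + p1 + 1)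
  obtain ⟨L, hL⟩ : ∃ L, L = 40 * 18 ^ s := ⟨_, rfl⟩
  have hL1 : 40 ≤ L := by have := Nat.one_le_pow s 18 (by norm_num); omega
  rw [← hL]
  have key : ∀ (Q : ℕ) (q : ℕ → ℕ) (E : ℝ), ∏ k ∈ Finset.range (s + 1), q k = Q →
      (X + 1) * (Q : ℝ) ^ (2 * L) ≤ E →
        ¬ ∀ k ≤ s, Fintype.card ι ≤ rkS (Rl z (q k) E) + r * 360 ^ k := by
    intro Q
    induction Q using Nat.strong_induction_on with
    | _ Q ih =>
    intro q E hQ hE h
    have h1 : ∀ k ≤ s, ∃ m ∈ Rl z (q k) E, m ≠ 0 := fun k hk => exists_ne_zero_of_rkS (by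
      have := Nat.mul_le_mul_left r (Nat.pow_le_pow_right (show 0 < 360 by norm_num) hk)
      have := h k hk
      omega)
    have h2 : 0 < Q := hQ ▸ Finset.prod_pos fun k hk => Nat.pos_of_ne_zero fun h0 => by
      obtain ⟨m, hm, hm0⟩ := h1 k (Nat.lt_succ_iff.mp (Finset.mem_range.mp hk))
      exact hm0 (funext fun i => by simpa [h0] using hm.1 i)
    have hQ1 : (1 : ℝ) ≤ Q := by exact_mod_cast h2
    have h3 : ∀ k ≤ s, S0 + p0 + p1 + 1 < q k := fun k hk => lt_of_not_ge fun h0 => by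
      obtain ⟨m, hm, hm0⟩ := h1 k hk
      refine hm0 (hX E (le_trans ?_ hE) _ h0 m hm)
      nlinarith [one_le_pow₀ (n := 2 * L) hQ1, Nat.cast_nonneg (α := ℝ) X]
    have h4 : ∀ k ≤ s, q k ≤ Q := fun k hk => Nat.le_of_dvd h2
      (hQ ▸ Finset.dvd_prod_of_mem _ (Finset.mem_range.mpr (Nat.lt_succ_of_le hk)))
    have h5 : (Q : ℝ) ^ L ≤ E := by
      refine le_trans ?_ hE
      nlinarith [pow_le_pow_right₀ hQ1 (show L ≤ 2 * L by omega),
        mul_nonneg (Nat.cast_nonneg (α := ℝ) X) (pow_nonneg (zero_le_one.trans hQ1) (2 * L))]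
    have hE0 : 0 ≤ E := le_trans (by positivity) h5
    have h6 := h3 s le_rfl
    have e1 : (2 : ℝ) ≤ q s := by exact_mod_cast (show 2 ≤ q s by omega)
    have e2 : (q s : ℝ) ≤ Q := by exact_mod_cast h4 s le_rfl
    obtain ⟨st, hst⟩ := hS0 (q s ^ 1) (by rw [pow_one]; omega) E
    rcases hp0 (q s) (by omega) st le_rfl (pow_one _).le le_rfl (by
      refine le_trans ?_ ((pow_le_pow_right₀ hQ1 (show 37 ≤ L by omega)).trans h5)
      rw [pow_succ' _ 36]; gcongr; linarith) (h s le_rfl) with h7 | ⟨t, rfl, ⟨st'⟩⟩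
    · obtain ⟨m, hm, hm0⟩ := h1 s le_rfl
      exact sum_ne_zero_of_li hz hm0 (hst ▸ h7.1 m hm)
    obtain ⟨k, d, p, h8, h9⟩ := hp1 (t + 1) Q E q (fun k => r * 360 ^ k) (hL ▸ h5) t 1 (q (t + 1))
      (by omega) le_rfl (by omega) (h4 _ le_rfl) (fun k hk => h4 k (by omega))
      (st'.mono (by norm_num) (by
        rw [div_div]
        refine div_le_div_of_nonneg_left hE0 (by positivity) ?_
        push_cast
        calc _ ≤ (q (t + 1) : ℝ) * q (t + 1) ^ 18 := by gcongr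
          _ = _ ^ 19 := by ring
          _ ≤ _ := by rw [← pow_mul]; exact pow_le_pow_right₀ (by linarith) (by norm_num)))
      fun k hk => h k (by omega)
    obtain ⟨j, hj1, hj2, rfl⟩ : ∃ j, d + k = j ∧ j ≤ t + 1 ∧ p = q j := by
      rcases h8 with h8 | h8
      exacts [⟨t + 1, by omega, le_rfl, h8.1⟩, ⟨_, rfl, by omega, h8.2⟩]
    have hj : j ∈ Finset.range (t + 1 + 1) := Finset.mem_range.mpr (Nat.lt_succ_of_le hj2)
    have h10 := h3 j hj2
    have e4 : (1 : ℝ) ≤ q j := by exact_mod_cast (show 1 ≤ q j by omega)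
    rw [Finset.prod_eq_mul_prod_sdiff_singleton_of_mem hj] at hQ
    set W := ∏ k ∈ Finset.range (t + 1 + 1) \ {j}, q k with hW
    refine ih ((q j).sqrt * W) ?_ (Function.update q j (q j).sqrt) (E / q j ^ L)
      (Finset.prod_update_of_mem hj _ _) ?_ fun i hi => ?_
    · rw [← hQ] at h2 ⊢
      exact Nat.mul_lt_mul_of_pos_right (Nat.sqrt_lt_self (by omega)) (Nat.pos_of_mul_pos_left h2)
    · rw [le_div_iff₀ (by positivity)]
      refine le_trans ?_ hE
      have e5 : ((q j).sqrt : ℝ) ^ 2 ≤ q j := by exact_mod_cast Nat.sqrt_le' (q j)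
      rw [← hQ, mul_assoc, pow_mul, pow_mul, ← mul_pow]
      push_cast
      gcongr
      nlinarith [mul_le_mul_of_nonneg_right e5 (show (0 : ℝ) ≤ W ^ 2 * q j by positivity)]
    · rcases eq_or_ne i j with rfl | hij
      · rw [Function.update_self, ← hj1, pow_add, ← mul_left_comm, hj1, hL]
        exact h9
      · rw [Function.update_of_ne hij]
        exact (h i hi).trans (Nat.add_le_add_right (rk_mono _ _
          (div_le_self hE0 (one_le_pow₀ e4))) _)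
  filter_upwards [eventually_ge_atTop (X + 1)] with q hq
  by_contra hcon
  refine key _ (fun _ => q) (q ^ ((s + 1) * (2 * L) + 1)) rfl ?_ fun k _ => ?_
  · rw [Finset.prod_const, Finset.card_range, pow_succ' (q : ℝ), pow_mul (q : ℝ)]
    push_cast
    gcongr
    exact_mod_cast hq
  · have := Nat.mul_le_mul_left r (Nat.one_le_pow k 360 (by norm_num))
    omega

end Pool.Agent.Lib.MP_12eca1_ag
end

-- part Pool.Agent.Lib.MP_12eca1_ag.LMain
section

/-!
Large transcendence degree for values of the exponential function at products.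
-/

namespace Pool.Agent.Lib.MP_12eca1_ag

open Filter Polynomial

lemma exists_TH {ι : Type*} [Fintype ι] {z : ι → ℂ} {q r : ℕ} {E : ℝ}
    (h : rkS (Rl z q E) + r ≤ Fintype.card ι) : ∃ e : Fin r ↪ ι, TH (z ∘ e) q E := by
  obtain ⟨e, he⟩ := exists_emb h
  refine ⟨e, fun m hm => funext fun i => ?_⟩
  have h1 : ∀ j ∉ Set.range e, Function.extend e m 0 j = 0 := fun j hj =>
    Function.extend_apply' _ _ _ hj
  have h2 := he (Function.extend e m 0) ⟨fun j => ?_, le_trans (le_of_eq ?_) hm.2⟩ h1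
  · rw [← e.injective.extend_apply m 0, h2]; rfl
  · by_cases hj : j ∈ Set.range e
    · obtain ⟨i, rfl⟩ := hj
      rw [e.injective.extend_apply]; exact hm.1 i
    · simp [h1 j hj]
  · congr 1
    exact (Fintype.sum_of_injective e e.injective _ _ (fun j hj => by simp [h1 j hj])
      fun i => by rw [e.injective.extend_apply]; rfl).symm

lemma TH.scale {ι : Type*} [Fintype ι] {x : ι → ℂ} {c : ℂ} {q : ℕ} {E E' : ℝ}
    (h : TH (fun i => x i * c) q E) (hc : ‖c‖ ≤ Real.exp (E' - E)) : TH x q E' := fun m hm =>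
  h m ⟨hm.1, by
    simp only [← mul_assoc, ← Finset.sum_mul, norm_mul]
    exact (mul_le_exp hm.2 hc (norm_nonneg _)).trans (le_of_eq (by congr 1; ring))⟩

lemma li_scale {ι : Type*} {x : ι → ℂ} (hx : LinearIndependent ℚ x) {c : ℂ} (hc : c ≠ 0) :
    LinearIndependent ℚ fun i => x i * c :=
  hx.map' (LinearMap.mulRight ℚ c) (LinearMap.ker_eq_bot.mpr (mul_left_injective₀ hc))

theorem no_basis (s : ℕ) : ∀ m n : ℕ, 2 ^ (18 * (s + 1)) ≤ m → 2 ^ (18 * (s + 1)) ≤ n →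
    ∀ (x : Fin m → ℂ) (y : Fin n → ℂ), LinearIndependent ℚ x → LinearIndependent ℚ y →
      ∀ θ : Fin s → ℂ, Function.Injective (ev θ) →
        ¬ ∀ i j, ∃ P : (Rs s)[X], P ≠ 0 ∧ (P.map (ev θ)).eval (Complex.exp (x i * y j)) = 0 := by
  obtain ⟨κ, hκ⟩ : ∃ κ, κ = (s + 1) * (2 * (40 * 18 ^ s)) + 1 := ⟨_, rfl⟩
  obtain ⟨k0, hk0⟩ : ∃ k0, k0 = 13 * 6 ^ s * (1 + 9 * 14 ^ s) := ⟨_, rfl⟩
  obtain ⟨k, hk⟩ : ∃ k, k = k0 + (14 ^ s * κ + 1) := ⟨_, rfl⟩
  have hN2 : 4 * k * 360 ^ s + 1 ≤ 2 ^ (18 * (s + 1)) := by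
    have b0 : s + 1 ≤ 2 ^ s := Nat.lt_two_pow_self
    have b1 : 1 ≤ 14 ^ s := Nat.one_le_pow _ _ (by norm_num)
    have b2 : 1 ≤ 18 ^ s := Nat.one_le_pow _ _ (by norm_num)
    have b3 : k0 ≤ 130 * 512 ^ s := by
      calc k0 ≤ 13 * 6 ^ s * (10 * 14 ^ s) := by rw [hk0]; gcongr; omega
        _ = 130 * (6 * 14) ^ s := by rw [mul_pow]; ring
        _ ≤ _ := by gcongr; norm_num
    have b4 : 14 ^ s * κ ≤ 81 * 512 ^ s := by
      calc _ ≤ 14 ^ s * (2 ^ s * (81 * 18 ^ s)) := by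
            have b8 := Nat.mul_le_mul_right (80 * 18 ^ s) b0
            have b9 := Nat.mul_le_mul (Nat.one_le_two_pow (n := s)) b2
            rw [hκ]; gcongr; linarith
        _ = 81 * (14 * 2 * 18) ^ s := by rw [mul_pow, mul_pow]; ring
        _ ≤ _ := by gcongr; norm_num
    have b5 : 1 ≤ 512 ^ s := Nat.one_le_pow _ _ (by norm_num)
    have b6 : 360 ^ s ≤ 512 ^ s := by gcongr; norm_num
    have b7 : 2 ^ (18 * (s + 1)) = 512 ^ s * 512 ^ s * 2 ^ 18 := by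
      rw [← mul_pow, mul_add, pow_add, pow_mul]; norm_num
    rw [b7]
    have b8 := Nat.mul_le_mul (show 4 * k ≤ 848 * 512 ^ s by omega) b6
    have b9 := Nat.mul_le_mul b5 b5
    rw [mul_assoc 848] at b8
    omega
  intro m n hm hn x y hx hy θ hθ h
  let i0 : Fin m := ⟨0, by omega⟩
  let j0 : Fin n := ⟨0, by omega⟩
  have h1 := descB (r := 4 * k) (by simpa using hN2.trans hm) (li_scale hx (hy.ne_zero j0))
    (base hθ _ fun i => h i j0)
  have h2 := descB (r := 4 * k) (by simpa using hN2.trans hn) (li_scale hy (hx.ne_zero i0))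
    (base hθ _ fun j => by simpa only [mul_comm] using h i0 j)
  rw [← hκ] at h1 h2
  have ht : Tendsto (fun b : ℕ => (b ^ 14 ^ s) ^ 2) atTop atTop :=
    (tendsto_pow_atTop two_ne_zero).comp (tendsto_pow_atTop (by positivity))
  obtain ⟨b, ⟨⟨⟨⟨h3, h4⟩, h5⟩, h6⟩, h7, h8⟩, h9⟩ := ((((((ht.eventually h1).and
    (ht.eventually h2)).and (eventually_all.mpr fun e : (Fin (4 * k) ↪ Fin m) × (Fin (4 * k) ↪ Fin n) =>
      partA s 1 k (by omega) (x ∘ e.1) (y ∘ e.2))).and (eventually_all.mpr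
        fun e : (Fin (4 * k) ↪ Fin m) × (Fin (4 * k) ↪ Fin n) =>
          base hθ (prd (x ∘ e.1) (y ∘ e.2)) fun ij => h _ _)).and
      ((eventually_poly_le_exp ‖y j0‖ 0).and (eventually_poly_le_exp ‖x i0‖ 0))).and
        (eventually_ge_atTop 2)).exists
  obtain ⟨e1, he1⟩ := exists_TH h3
  obtain ⟨e2, he2⟩ := exists_TH h4
  obtain ⟨st, -⟩ := h6 (e1, e2) (((b ^ 14 ^ s : ℕ) ^ k) ^ 13)
  have h10 : Real.exp b ≤ Real.exp (((b : ℝ) ^ k) ^ 2 - (((b ^ 14 ^ s) ^ 2 : ℕ) : ℝ) ^ κ) := by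
    have e1 : (2 : ℝ) ≤ b := by exact_mod_cast h9
    push_cast
    rw [← pow_mul, ← pow_mul, ← pow_mul, Real.exp_le_exp]
    have e2 : (b : ℝ) ^ (14 ^ s * (2 * κ) + 2) ≤ b ^ (k * 2) :=
      pow_le_pow_right₀ (by linarith) (by rw [hk, mul_left_comm]; omega)
    have e3 : (1 : ℝ) ≤ b ^ (14 ^ s * (2 * κ)) := one_le_pow₀ (by linarith)
    rw [pow_add] at e2
    have e4 : (b : ℝ) + 1 ≤ b ^ 2 := by clear * - e1; nlinarith
    linarith [mul_le_mul_of_nonneg_left e3 (show (0 : ℝ) ≤ b ^ 2 - 1 by linarith)]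
  rw [pow_zero, mul_one] at h7 h8
  exact h5 (e1, e2) (st.mono (pow_one b).ge le_rfl) (TH.scale he1 (h7.trans h10))
    (TH.scale he2 (h8.trans h10))

lemma exists_basis_or (S : Set ℂ) (T : ℕ) :
    (∃ v : Fin T → ℂ, (∀ j, v j ∈ S) ∧ Function.Injective (ev v)) ∨ ∃ s < T, ∃ θ : Fin s → ℂ,
      Function.Injective (ev θ) ∧ ∀ w ∈ S, ∃ P : (Rs s)[X], P ≠ 0 ∧ (P.map (ev θ)).eval w = 0 := by
  induction T with
  | zero =>
    refine Or.inl ⟨Fin.elim0, fun j => j.elim0, (injective_iff_map_eq_zero _).mpr fun p hp => ?_⟩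
    rw [p.eq_C_of_isEmpty] at hp ⊢
    rw [ev_C, Int.cast_eq_zero] at hp
    rw [hp, map_zero]
  | succ T ih =>
    rcases ih with ⟨v, h1, h2⟩ | ⟨s, hs, h⟩
    swap
    · exact Or.inr ⟨s, by omega, h⟩
    by_cases h3 : ∀ w ∈ S, ∃ P : (Rs T)[X], P ≠ 0 ∧ (P.map (ev v)).eval w = 0
    · exact Or.inr ⟨T, by omega, v, h2, h3⟩
    push Not at h3
    obtain ⟨w, hw, h3⟩ := h3
    refine Or.inl ⟨pt 0 v w, fun j => Fin.cases hw (fun j => by simpa [pt] using h1 j) j,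
      (injective_iff_map_eq_zero _).mpr fun p hp => by_contra fun hp0 => ?_⟩
    obtain ⟨t, -, ht⟩ := exists_grid hp0 fun i => p.degreeOf_le_totalDegree i
    refine h3 (Phi 0 p) (fun h0 => ht ?_) (by rw [eval_Phi, hp])
    have h4 := eval_Phi 0 (fun j => (t j.succ : ℂ) - (0 : Fin T → ℤ) j * t 0) (t 0) p
    rw [pt_self (fun j => (t j : ℂ)), ev_intCast, h0, Polynomial.map_zero, eval_zero] at h4
    exact_mod_cast h4.symm

theorem mainL (T m n : ℕ) (hm : 2 ^ (18 * T) ≤ m) (hn : 2 ^ (18 * T) ≤ n) (x : Fin m → ℂ)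
    (y : Fin n → ℂ) (hx : LinearIndependent ℚ x) (hy : LinearIndependent ℚ y) :
    (T : Cardinal) ≤ Algebra.trdeg ℚ
      (IntermediateField.adjoin ℚ (Set.range fun ij : Fin m × Fin n =>
        Complex.exp (x ij.1 * y ij.2))) := by
  rcases exists_basis_or (Set.range fun ij : Fin m × Fin n => Complex.exp (x ij.1 * y ij.2)) T with
    ⟨v, h1, h2⟩ | ⟨s, hs, θ, h1, h2⟩
  · have : Algebra.IsAlgebraic ℤ ℚ := IsLocalization.isAlgebraic ℚ (nonZeroDivisors ℤ)
    have h3 : AlgebraicIndependent ℤ v := h2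
    exact le_trdeg_of_indep v (fun j => IntermediateField.subset_adjoin _ _ (h1 j))
      (h3.extendScalars ℚ) (by simp)
  · have h3 : 2 ^ (18 * (s + 1)) ≤ 2 ^ (18 * T) := by gcongr <;> omega
    exact (no_basis s m n (h3.trans hm) (h3.trans hn) x y hx hy θ h1 fun i j =>
      h2 _ ⟨(i, j), rfl⟩).elim

end Pool.Agent.Lib.MP_12eca1_ag
end
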