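import Pool.Agent.Lib.MP_12eca1_ag.LMain

/-!
Many independent very small linear forms force a large transcendence degree.
-/

namespace Pool.Agent.Lib.MP_12eca1_ag

open Filter Polynomial

lemma card_le_rkS {ι κ : Type*} [Fintype ι] [Fintype κ] {R : Set (ι → ℤ)} (M : κ → ι → ℤ)
    (hM : LinearIndependent ℤ M) (h : ∀ k, M k ∈ R) : Fintype.card κ ≤ rkS R := by
  classical
  have h1 : LinearIndependent ℝ fun k i => (M k i : ℝ) :=
    (linearIndependent_algebraMap_comp_iff (R := ℤ) (S := ℝ)).mpr hM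
  have h2 : LinearIndependent ℝ fun k => iv (M k) :=
    h1.map' (WithLp.linearEquiv 2 ℝ (ι → ℝ)).symm.toLinearMap (LinearEquiv.ker _)
  rw [← finrank_span_eq_card h2]
  exact Submodule.finrank_mono (Submodule.span_mono (by rintro _ ⟨k, rfl⟩; exact ⟨_, h k, rfl⟩))

theorem mainB (T r n : ℕ) (hn : (r + 1) * 360 ^ T < n) (z : Fin n → ℂ)
    (hz : LinearIndependent ℚ z) (happ : ∀ N : ℕ, ∃ q : ℕ, N ≤ q ∧ ∃ M : Fin (n - r) → Fin n → ℤ,
      LinearIndependent ℤ M ∧ ∀ k, (∀ i, |M k i| ≤ q) ∧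
        ‖∑ i, (M k i : ℂ) * z i‖ ≤ Real.exp (-(q : ℝ) ^ (81 * 36 ^ T))) :
    ((T + 1 : ℕ) : Cardinal) ≤ Algebra.trdeg ℚ
      (IntermediateField.adjoin ℚ (Set.range fun i => Complex.exp (z i))) := by
  rcases exists_basis_or (Set.range fun i => Complex.exp (z i)) (T + 1) with
    ⟨v, h1, h2⟩ | ⟨s, hs, θ, h1, h2⟩
  · have : Algebra.IsAlgebraic ℤ ℚ := IsLocalization.isAlgebraic ℚ (nonZeroDivisors ℤ)
    have h3 : AlgebraicIndependent ℤ v := h2
    exact le_trdeg_of_indep v (fun j => IntermediateField.subset_adjoin _ _ (h1 j))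
      (h3.extendScalars ℚ) (by simp)
  have h3 : (r + 1) * 360 ^ s ≤ (r + 1) * 360 ^ T := by gcongr <;> omega
  obtain ⟨N, hN⟩ := eventually_atTop.mp (descB (r := r + 1) (by rw [Fintype.card_fin]; omega) hz
    (base h1 z fun i => h2 _ ⟨i, rfl⟩))
  obtain ⟨q, hq, M, h4, h5⟩ := happ (N + 1)
  have h6 := hN q (by omega)
  have h7 : (s + 1) * (2 * (40 * 18 ^ s)) + 1 ≤ 81 * 36 ^ T := by
    have b0 : s + 1 ≤ 2 ^ s := Nat.lt_two_pow_self
    have b1 := Nat.mul_le_mul_right (80 * 18 ^ s) b0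
    have b2 : 36 ^ s ≤ 36 ^ T := by gcongr <;> omega
    have b3 : 1 ≤ 36 ^ s := Nat.one_le_pow _ _ (by norm_num)
    have b4 : 36 ^ s = 2 ^ s * 18 ^ s := by rw [← mul_pow]; norm_num
    linarith
  have h8 := card_le_rkS (R := Rl z q (q ^ ((s + 1) * (2 * (40 * 18 ^ s)) + 1))) M h4 fun k =>
    ⟨(h5 k).1, (h5 k).2.trans (Real.exp_le_exp.mpr (neg_le_neg (pow_le_pow_right₀
      (by exact_mod_cast (show 1 ≤ q by omega)) h7)))⟩
  rw [Fintype.card_fin] at h6 h8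
  have := Nat.mul_le_mul_left (r + 1) (Nat.one_le_pow T 360 (by norm_num))
  omega

end Pool.Agent.Lib.MP_12eca1_ag
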