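import Pool.Agent.Lib.MP_12eca1_ag.Small
import Pool.Agent.Lib.MP_12eca1_ag.Main

-- part Pool.Agent.Lib.MP_12eca1_ag.Rel
section

-- part Pool.Agent.Lib.MP_12eca1_ag.Pert
section

/-!
Perturbation of roots.
-/

namespace Pool.Agent.Lib.MP_12eca1_ag

open Polynomial Filter

lemma exists_root_near' (f : ℂ[X]) {N : ℕ} (hN : f.natDegree ≤ N) {δ : ℝ} (hδ0 : 0 ≤ δ)
    (hδ : δ ≤ 1) {t : ℂ} {j : ℕ} (h : ‖f.eval t‖ < ‖f.coeff j‖ * (δ / (2 * (‖t‖ + 1))) ^ N) :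
    ∃ r, f.eval r = 0 ∧ ‖t - r‖ < δ := by
  by_contra hcon
  push Not at hcon
  have hf : f ≠ 0 := by rintro rfl; simp at h
  have ht : 0 < ‖t‖ + 1 := by positivity
  rw [(IsAlgClosed.splits f).eval_eq_prod_roots, norm_mul] at h
  have h1 : ∀ s : Multiset ℂ, (∀ r ∈ s, δ ≤ ‖t - r‖) →
      (s.map fun a => max 1 ‖a‖).prod * (δ / (‖t‖ + 1)) ^ s.card ≤
        ‖(s.map fun r => t - r).prod‖ := by
    intro s
    induction s using Multiset.induction_on with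
    | empty => simp
    | cons a s ih =>
      intro hs
      rw [Multiset.map_cons, Multiset.prod_cons, Multiset.map_cons, Multiset.prod_cons,
        Multiset.card_cons, norm_mul, pow_succ', mul_mul_mul_comm]
      refine mul_le_mul ?_ (ih fun r hr => hs r (Multiset.mem_cons_of_mem hr))
        (mul_nonneg (Multiset.prod_nonneg (by
          intro x hx
          obtain ⟨y, -, rfl⟩ := Multiset.mem_map.mp hx
          positivity)) (by positivity)) (norm_nonneg _)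
      have h2 := hs a (Multiset.mem_cons_self _ _)
      rw [← mul_div_assoc, div_le_iff₀ ht]
      have h3 := norm_nonneg t
      rcases le_or_gt ‖a‖ (‖t‖ + 1) with h4 | h4
      · have : max 1 ‖a‖ ≤ ‖t‖ + 1 := max_le (by linarith) h4
        nlinarith
      · have h5 := norm_sub_norm_le a t
        rw [norm_sub_rev] at h5
        rw [max_eq_right (by linarith)]
        nlinarith
  have h2 := h1 f.roots fun r hr => hcon r ((mem_roots hf).mp hr)
  rw [IsAlgClosed.card_roots_eq_natDegree] at h2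
  have h3 := norm_coeff_le_choose_mul_mahlerMeasure j f
  have h4 : (f.natDegree.choose j : ℝ) ≤ 2 ^ f.natDegree := by
    exact_mod_cast Nat.choose_le_two_pow _ _
  have h5 : (δ / (2 * (‖t‖ + 1))) ^ N ≤ (δ / (2 * (‖t‖ + 1))) ^ f.natDegree :=
    pow_le_pow_of_le_one (by positivity) (by
      rw [div_le_one (by positivity)]; linarith [norm_nonneg t]) hN
  have h6 : ‖f.coeff j‖ * (δ / (2 * (‖t‖ + 1))) ^ N ≤
      (2 ^ f.natDegree * f.mahlerMeasure) * (δ / (2 * (‖t‖ + 1))) ^ f.natDegree :=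
    mul_le_mul (h3.trans (mul_le_mul_of_nonneg_right h4 f.mahlerMeasure_nonneg)) h5
      (by positivity) (mul_nonneg (by positivity) f.mahlerMeasure_nonneg)
  have h7 : (2 ^ f.natDegree * f.mahlerMeasure) * (δ / (2 * (‖t‖ + 1))) ^ f.natDegree =
      f.mahlerMeasure * (δ / (‖t‖ + 1)) ^ f.natDegree := by
    rw [mul_comm (2 ^ _), mul_assoc, ← mul_pow]
    congr 2
    field_simp
  rw [h7, mahlerMeasure_eq_leadingCoeff_mul_prod_roots, mul_assoc] at h6
  have h8 := mul_le_mul_of_nonneg_left h2 (norm_nonneg f.leadingCoeff)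
  linarith

lemma Bd2.mono {p : ℤ[X][X]} {c c' : ℕ} {mu mu' : ℝ} (h : Bd2 p c mu) (h1 : c ≤ c')
    (h2 : mu ≤ mu') : Bd2 p c' mu' :=
  ⟨h.1.trans h1, fun j => ⟨(h.2 j).1.trans h1, fun i =>
    ((h.2 j).2 i).trans (Real.exp_le_exp.mpr h2)⟩⟩

lemma Bd2.of_coeff {r : ℤ[X]} {c : ℕ} {mu : ℝ} (h1 : r.natDegree ≤ c)
    (h2 : ∀ i, |((r.coeff i : ℤ) : ℝ)| ≤ Real.exp mu) : Bd2 (C r) c mu := by
  refine ⟨by simp, fun j => ?_⟩
  rw [coeff_C]
  split_ifs
  · exact ⟨h1, h2⟩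
  · simp [Real.exp_nonneg]

lemma Bd2.of_int {a : ℤ} {mu : ℝ} (h : |(a : ℝ)| ≤ Real.exp mu) : Bd2 (C (C a)) 0 mu := by
  refine Bd2.of_coeff (by simp) fun i => ?_
  rw [coeff_C]
  split_ifs
  · exact h
  · simp [Real.exp_nonneg]

lemma exists_bd_aux {R : Type*} [Semiring R] (P : R → ℕ → Prop)
    (hP : ∀ r, ∀ᶠ c in atTop, P r c) (p : R[X]) :
    ∀ᶠ c in atTop, p.natDegree ≤ c ∧ ∀ j, P (p.coeff j) c := by
  filter_upwards [eventually_ge_atTop p.natDegree, hP 0,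
    (eventually_all_finset p.support).mpr fun j _ => hP (p.coeff j)] with c h1 h2 h3
  refine ⟨h1, fun j => ?_⟩
  by_cases hj : j ∈ p.support
  · exact h3 j hj
  · rwa [notMem_support_iff.mp hj]

lemma eventually_Bd2 (p : ℤ[X][X]) : ∀ᶠ c : ℕ in atTop, Bd2 p c c :=
  exists_bd_aux (fun (r : ℤ[X]) (c : ℕ) => r.natDegree ≤ c ∧
    ∀ i, |((r.coeff i : ℤ) : ℝ)| ≤ Real.exp c) (exists_bd_aux
      (fun (a : ℤ) (c : ℕ) => |(a : ℝ)| ≤ Real.exp c) fun a => by
        simpa using eventually_poly_le_exp |(a : ℝ)| 0) p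

lemma eventually_Bd3 (G : ℤ[X][X][X]) :
    ∀ᶠ c : ℕ in atTop, G.natDegree ≤ c ∧ ∀ k, Bd2 (G.coeff k) c c :=
  exists_bd_aux (fun p (c : ℕ) => Bd2 p c c) eventually_Bd2 G

lemma ev2_lip {p : ℤ[X][X]} {c : ℕ} {mu κ δ : ℝ} (h : Bd2 p c mu) {s t s' t' : ℂ} (hκ : 0 ≤ κ)
    (hs : ‖s‖ ≤ Real.exp κ) (ht : ‖t‖ ≤ Real.exp κ) (hs' : ‖s'‖ ≤ Real.exp κ)
    (ht' : ‖t'‖ ≤ Real.exp κ) (h1 : ‖s - s'‖ ≤ δ) (h2 : ‖t - t'‖ ≤ δ) :
    ‖ev2 s t p - ev2 s' t' p‖ ≤ Real.exp (mu + 4 * c + 2 * c * κ) * δ := by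
  have hδ : 0 ≤ δ := (norm_nonneg _).trans h1
  have hM := Real.one_le_exp hκ
  set M := Real.exp κ with hMdef
  rw [ev2_eq s t h, ev2_eq s' t' h, ← Finset.sum_sub_distrib]
  simp only [← Finset.sum_sub_distrib]
  have key : ∀ j ∈ Finset.range (c + 1), ∀ i ∈ Finset.range (c + 1),
      ‖(((p.coeff j).coeff i : ℤ) : ℂ) * s ^ i * t ^ j -
        (((p.coeff j).coeff i : ℤ) : ℂ) * s' ^ i * t' ^ j‖ ≤
          Real.exp mu * (2 * c * (M ^ c * M ^ c) * δ) := by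
    intro j hj i hi
    have hi' : i ≤ c := by simp at hi; omega
    have hj' : j ≤ c := by simp at hj; omega
    have e : (((p.coeff j).coeff i : ℤ) : ℂ) * s ^ i * t ^ j -
        (((p.coeff j).coeff i : ℤ) : ℂ) * s' ^ i * t' ^ j = (((p.coeff j).coeff i : ℤ) : ℂ) *
          ((s ^ i - s' ^ i) * t ^ j + s' ^ i * (t ^ j - t' ^ j)) := by ring
    rw [e, norm_mul, Complex.norm_intCast]
    refine mul_le_mul ((h.2 j).2 i) ((norm_add_le _ _).trans ?_) (norm_nonneg _) (by positivity)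
    have h3 : ∀ {x y : ℂ} {k : ℕ}, ‖x‖ ≤ M → ‖y‖ ≤ M → ‖x - y‖ ≤ δ → k ≤ c →
        ‖x ^ k - y ^ k‖ ≤ c * M ^ c * δ := fun hx hy hxy hk =>
      (norm_pow_sub_pow_le' hx hy hM _).trans (by gcongr)
    have h4 : ∀ {x : ℂ} {k : ℕ}, ‖x‖ ≤ M → k ≤ c → ‖x ^ k‖ ≤ M ^ c := fun hx hk => by
      rw [norm_pow]
      exact (pow_le_pow_left₀ (norm_nonneg _) hx _).trans (pow_le_pow_right₀ hM hk)
    rw [norm_mul, norm_mul]
    have h5 := mul_le_mul (h3 hs hs' h1 hi') (h4 ht hj') (norm_nonneg _) (by positivity)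
    have h6 := mul_le_mul (h4 hs' hi') (h3 ht ht' h2 hj') (norm_nonneg _) (by positivity)
    linarith
  refine (norm_sum_le _ _).trans ?_
  have h3 := Finset.sum_le_card_nsmul _ _ _ fun j hj => (norm_sum_le _ _).trans
    (Finset.sum_le_card_nsmul _ _ _ (key j hj))
  refine h3.trans ?_
  simp only [nsmul_eq_mul, Finset.card_range]
  have h4 := succ_le_exp c
  have h5 : (2 * c : ℝ) ≤ Real.exp (2 * c) := by linarith [Real.add_one_le_exp (2 * c : ℝ)]
  have h6 : M ^ c = Real.exp (c * κ) := (Real.exp_nat_mul _ _).symm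
  calc _ ≤ Real.exp c * (Real.exp c * (Real.exp mu * (Real.exp (2 * c) * (M ^ c * M ^ c) * δ))) := by
        gcongr
    _ = _ := by
        simp only [h6, ← mul_assoc, ← Real.exp_add]
        congr 2
        ring

lemma eval_sub_le {f g : ℂ[X]} {c : ℕ} (hf : f.natDegree ≤ c) (hg : g.natDegree ≤ c) {ε M : ℝ}
    (h : ∀ k, ‖f.coeff k - g.coeff k‖ ≤ ε) {x : ℂ} (hx : ‖x‖ ≤ M) (hM : 1 ≤ M) :
    ‖f.eval x - g.eval x‖ ≤ (c + 1) * (ε * M ^ c) := by
  rw [eval_eq_sum_range' (Nat.lt_succ_of_le hf), eval_eq_sum_range' (Nat.lt_succ_of_le hg),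
    ← Finset.sum_sub_distrib]
  refine (norm_sum_le _ _).trans ?_
  have := Finset.sum_le_card_nsmul (Finset.range (c + 1))
    (fun i => ‖f.coeff i * x ^ i - g.coeff i * x ^ i‖) (ε * M ^ c) fun i hi => by
      rw [← sub_mul, norm_mul, norm_pow]
      exact mul_le_mul (h i) ((pow_le_pow_left₀ (norm_nonneg _) hx _).trans
        (pow_le_pow_right₀ hM (by simp at hi; omega))) (by positivity)
          ((norm_nonneg _).trans (h i))
  simpa using this

lemma perturb {G : ℤ[X][X][X]} {s0 t0 x0 : ℂ} (h0 : G.map (ev2 s0 t0) ≠ 0)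
    (hx : (G.map (ev2 s0 t0)).eval x0 = 0) :
    ∀ᶠ c : ℕ in atTop, ∀ E : ℝ, c ≤ E → ∀ s t : ℂ, ‖s0 - s‖ ≤ Real.exp (-(c * E)) →
      ‖t0 - t‖ ≤ Real.exp (-(c * E)) → G.map (ev2 s t) ≠ 0 ∧
        ∃ x, (G.map (ev2 s t)).eval x = 0 ∧ ‖x0 - x‖ ≤ Real.exp (-E) := by
  obtain ⟨c0, hc1, hc2⟩ := (eventually_Bd3 G).exists
  obtain ⟨j, hj⟩ : ∃ j, (G.map (ev2 s0 t0)).coeff j ≠ 0 := by
    by_contra h; push Not at h; exact h0 (Polynomial.ext h)
  set μ := ‖(G.map (ev2 s0 t0)).coeff j‖ with hμ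
  have hμ0 : 0 < μ := norm_pos_iff.mpr hj
  set κ := ‖s0‖ + ‖t0‖ with hκ
  set K := Real.exp (c0 + 4 * c0 + 2 * c0 * κ) with hK
  set M := ‖x0‖ + 1 with hM
  have hM1 : 1 ≤ M := by linarith [norm_nonneg x0]
  filter_upwards [eventually_ge_atTop (c0 + 1), tendsto_natCast_atTop_atTop.eventually_ge_atTop
    ((c0 + 1) * (K * M ^ c0) * (2 * M) ^ c0 * (2 / μ))] with c hc3 hc4 E hE s t hs ht
  have hc5 : (c0 : ℝ) + 1 ≤ c := by exact_mod_cast hc3
  have hE0 : 0 ≤ E := (Nat.cast_nonneg c).trans hE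
  have hε1 : Real.exp (-(c * E)) ≤ 1 := Real.exp_le_one_iff.mpr (by simp; positivity)
  have hκ1 := Real.add_one_le_exp κ
  have hcoef : ∀ k, ‖(G.map (ev2 s t)).coeff k - (G.map (ev2 s0 t0)).coeff k‖ ≤
      K * Real.exp (-(c * E)) := fun k => by
    rw [coeff_map, coeff_map]
    have e1 := norm_sub_norm_le s s0
    have e2 := norm_sub_norm_le t t0
    rw [norm_sub_rev] at hs ht
    have := norm_nonneg s0
    have := norm_nonneg t0
    exact ev2_lip (hc2 k) (by positivity) (by linarith) (by linarith) (by linarith) (by linarith)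
      hs ht
  have h1 := eval_sub_le (natDegree_map_le.trans hc1) (natDegree_map_le.trans hc1) hcoef
    (x := x0) (M := M) (by linarith) hM1
  rw [hx, sub_zero] at h1
  have h2 : Real.exp (-(c * E)) ≤ Real.exp (-E) * Real.exp (-E) ^ c0 := by
    rw [← pow_succ', ← Real.exp_nat_mul]
    exact Real.exp_le_exp.mpr (by push_cast; nlinarith)
  have h3 : (c0 + 1) * (K * M ^ c0) * (2 * M) ^ c0 * (2 / μ) * Real.exp (-E) < 1 := by
    rw [Real.exp_neg, mul_inv_lt_iff₀ (Real.exp_pos _), one_mul]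
    linarith [Real.add_one_le_exp E]
  have h4 : K * Real.exp (-(c * E)) ≤ μ / 2 := by
    have h5 : Real.exp (-(c * E)) ≤ Real.exp (-E) :=
      Real.exp_le_exp.mpr (by nlinarith [Nat.cast_nonneg (α := ℝ) c0])
    have h6 : K * (2 / μ) * Real.exp (-(c * E)) ≤
        (c0 + 1) * (K * M ^ c0) * (2 * M) ^ c0 * (2 / μ) * Real.exp (-E) := by
      gcongr
      calc K = 1 * (K * 1) * 1 := by ring
        _ ≤ _ := by
          gcongr
          · linarith [Nat.cast_nonneg (α := ℝ) c0]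
          · exact one_le_pow₀ hM1
          · exact one_le_pow₀ (by linarith)
    have h7 := h6.trans h3.le
    rw [mul_right_comm, ← le_div_iff₀ (by positivity)] at h7
    simpa using h7
  have h5 : μ / 2 ≤ ‖(G.map (ev2 s t)).coeff j‖ := by
    have := norm_sub_norm_le ((G.map (ev2 s0 t0)).coeff j) ((G.map (ev2 s t)).coeff j)
    rw [norm_sub_rev] at this
    linarith [hcoef j]
  refine ⟨fun h => ?_, ?_⟩
  · rw [h] at h5; simp at h5; linarith
  obtain ⟨x, h6, h7⟩ := exists_root_near' (G.map (ev2 s t)) (natDegree_map_le.trans hc1)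
    (Real.exp_nonneg (-E)) (Real.exp_le_one_iff.mpr (by linarith)) (t := x0) (j := j) (by
      refine h1.trans_lt (lt_of_lt_of_le ?_ (mul_le_mul_of_nonneg_right h5 (by positivity)))
      rw [← hM, div_pow]
      calc _ ≤ (c0 + 1) * (K * (Real.exp (-E) * Real.exp (-E) ^ c0) * M ^ c0) := by gcongr
        _ = ((c0 + 1) * (K * M ^ c0) * (2 * M) ^ c0 * (2 / μ) * Real.exp (-E)) *
            (μ / 2 * (Real.exp (-E) ^ c0 / (2 * M) ^ c0)) := by field_simp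
        _ < 1 * _ := mul_lt_mul_of_pos_right h3 (by positivity)
        _ = _ := one_mul _)
  exact ⟨x, h6, h7.le⟩

lemma perturb_log {G : ℤ[X][X][X]} {s0 t0 z : ℂ} (h0 : G.map (ev2 s0 t0) ≠ 0)
    (hx : (G.map (ev2 s0 t0)).eval (Complex.exp z) = 0) :
    ∀ᶠ c : ℕ in atTop, ∀ E : ℝ, c ≤ E → ∀ s t : ℂ, ‖s0 - s‖ ≤ Real.exp (-(c * E)) →
      ‖t0 - t‖ ≤ Real.exp (-(c * E)) → G.map (ev2 s t) ≠ 0 ∧
        ∃ l, (G.map (ev2 s t)).eval (Complex.exp l) = 0 ∧ ‖z - l‖ ≤ Real.exp (-E) := by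
  obtain ⟨c0, hc0⟩ := (perturb h0 hx).exists
  filter_upwards [eventually_ge_atTop (2 * c0), tendsto_natCast_atTop_atTop.eventually_ge_atTop
    (2 * Real.exp ‖z‖)] with c hc1 hc2 E hE s t hs ht
  have hc3 : 2 * (c0 : ℝ) ≤ c := by exact_mod_cast hc1
  have hE0 : 0 ≤ E := (Nat.cast_nonneg c).trans hE
  have h1 : Real.exp (-(c * E)) ≤ Real.exp (-(c0 * (2 * E))) := Real.exp_le_exp.mpr (by nlinarith)
  obtain ⟨h2, x, h3, h4⟩ := hc0 (2 * E) (by linarith [Nat.cast_nonneg (α := ℝ) c0]) s t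
    (hs.trans h1) (ht.trans h1)
  have h5 : 2 * (Real.exp (-(2 * E)) * Real.exp ‖z‖) ≤ Real.exp (-E) := by
    have h6 : Real.exp (-E) * (2 * Real.exp ‖z‖) ≤ 1 := by
      rw [Real.exp_neg, inv_mul_le_iff₀ (Real.exp_pos _)]
      linarith [Real.add_one_le_exp E]
    calc _ = Real.exp (-E) * (Real.exp (-E) * (2 * Real.exp ‖z‖)) := by
          rw [show -(2 * E) = -E + -E by ring, Real.exp_add]; ring
      _ ≤ Real.exp (-E) * 1 := by gcongr
      _ = _ := mul_one _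
  obtain ⟨l, h6, h7⟩ := exists_log_near h4 le_rfl (by
    linarith [Real.exp_le_one_iff.mpr (show -E ≤ 0 by linarith)])
  exact ⟨h2, l, h6 ▸ h3, by rw [norm_sub_rev]; linarith⟩

end Pool.Agent.Lib.MP_12eca1_ag
end

-- part Pool.Agent.Lib.MP_12eca1_ag.Alg
section

/-!
The contradiction with the measure of simultaneous approximation.
-/

namespace Pool.Agent.Lib.MP_12eca1_ag

open Polynomial Filter

lemma root_step (f : ℂ[X]) {c : ℕ} (hc : f.natDegree ≤ c) {t : ℂ} {j : ℕ} {A B B' Δ : ℝ}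
    (h1 : ‖f.eval t‖ ≤ Real.exp (-A)) (h2 : Real.exp (-B) ≤ ‖f.coeff j‖)
    (h3 : (2 * (‖t‖ + 1)) ^ c ≤ Real.exp B') (hΔ : 0 ≤ Δ) (h4 : B + c * Δ + B' < A) :
    ∃ r, f.eval r = 0 ∧ ‖t - r‖ ≤ Real.exp (-Δ) := by
  obtain ⟨r, h5, h6⟩ := exists_root_near' f hc (Real.exp_nonneg (-Δ))
    (Real.exp_le_one_iff.mpr (by linarith)) (t := t) (j := j) (by
      refine h1.trans_lt (lt_of_lt_of_le ?_ (mul_le_mul_of_nonneg_right h2 (by positivity)))
      rw [div_pow, ← mul_div_assoc, lt_div_iff₀ (by positivity), ← Real.exp_nat_mul, ← Real.exp_add]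
      refine (mul_le_exp le_rfl h3 (by positivity)).trans_lt (Real.exp_lt_exp.mpr ?_)
      linarith)
  exact ⟨r, h5, h6.le⟩

/-- evaluation of an integral polynomial -/
noncomputable def ev1 (s : ℂ) : ℤ[X] →+* ℂ := eval₂RingHom (Int.castRingHom ℂ) s

lemma ev1_eq (s : ℂ) (r : ℤ[X]) : ev1 s r = aeval s r := rfl

lemma ev2_eq_eval (s t : ℂ) (R : ℤ[X][X]) : ev2 s t R = (R.map (ev1 s)).eval t := by
  rw [eval_map]; rfl

lemma map_C_ev2 (s t : ℂ) (R : ℤ[X][X]) : (R.map C).map (ev2 s t) = R.map (ev1 s) := by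
  rw [Polynomial.map_map]
  congr 1
  exact RingHom.ext fun r => ev2_C s t r

section

variable {A : Type*} [CommRing A] [Algebra A ℂ] {σ : Type*} [SetLike σ ℂ] [SubringClass σ ℂ]
  {L : σ} {g : integralClosure A ℂ}

lemma Fr.root1 {s x : ℂ} {lam mu : ℝ} {d c : ℕ} (hs : Fr L g s lam d) {R : ℤ[X][X]}
    (hR : Bd2 R c mu) (hR0 : R.map (ev1 s) ≠ 0) (hx : (R.map (ev1 s)).eval x = 0) (hxL : x ∈ L) :
    Fr L g x (mu + 2 * c + 2 * c * lam + c) (2 * c * d) :=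
  hs.root hs (G := R.map C) (natDegree_map_le.trans hR.1) (fun k => by
    rw [coeff_map]; exact Bd2.of_coeff (hR.2 k).1 (hR.2 k).2) (by rwa [map_C_ev2])
      (by rwa [map_C_ev2]) hxL

lemma Fr.root0 {x : ℂ} {mu : ℝ} {N : ℕ} {b : ℤ[X]} (hN : b.natDegree ≤ N)
    (hb : ∀ i, |((b.coeff i : ℤ) : ℝ)| ≤ Real.exp mu) (hb0 : b ≠ 0)
    (hx : (b.map (Int.castRingHom ℂ)).eval x = 0) (hxL : x ∈ L) : Fr L g x (mu + N) 0 := by
  have e : (b.map ((C : ℤ[X] →+* ℤ[X][X]).comp C)).map (ev2 (1 : ℂ) 1) =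
      b.map (Int.castRingHom ℂ) := by
    rw [Polynomial.map_map]
    congr 1
    exact RingHom.ext_int _ _
  have := (Fr.one (L := L) (g := g)).root Fr.one (G := b.map ((C : ℤ[X] →+* ℤ[X][X]).comp C))
    (natDegree_map_le.trans hN) (fun k => by rw [coeff_map]; exact Bd2.of_int (hb k))
    (by rw [e]; exact (Polynomial.map_ne_zero_iff (Int.castRingHom ℂ).injective_int).mpr hb0)
    (by rwa [e]) hxL
  simpa using this

end

lemma sz_of_fr {K : IntermediateField ℚ ℂ} {x : ℂ} {lam : ℝ} {d : ℕ}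
    (h : Fr K (0 : integralClosure ℤ ℂ) x lam d) :
    ∃ η β : K, β ≠ 0 ∧ ((η / β : K) : ℂ) = x ∧ Sz η (Real.exp lam) ∧ Sz β (Real.exp lam) := by
  obtain ⟨η, β, h1, h2, h3, h4, h5, h6⟩ := h
  have key : ∀ (u : integralClosure ℤ ℂ) (hu : (u : ℂ) ∈ K), Sg 0 u lam d →
      Sz (⟨u, hu⟩ : K) (Real.exp lam) := fun u hu h => by
    have := sz_of_sg (integralClosure ℤ ℂ).val.toRingHom (fun x => x.2) (t := 0) (by simp) hu h
    simpa using this
  refine ⟨⟨η, h3⟩, ⟨β, h4⟩, fun h => h1 (congrArg Subtype.val h), ?_, key _ _ h5, key _ _ h6⟩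
  change (η : ℂ) / β = x
  rw [← h2, mul_div_cancel_left₀ _ h1]

/-- stability of a root under perturbation of the coefficients -/
def PertZ (G : ℤ[X][X][X]) (s0 t0 x0 : ℂ) (c : ℕ) : Prop :=
  ∀ E : ℝ, c ≤ E → ∀ s t : ℂ, ‖s0 - s‖ ≤ Real.exp (-(c * E)) →
    ‖t0 - t‖ ≤ Real.exp (-(c * E)) → G.map (ev2 s t) ≠ 0 ∧
      ∃ x, (G.map (ev2 s t)).eval x = 0 ∧ ‖x0 - x‖ ≤ Real.exp (-E)

/-- stability of the logarithm of a root under perturbation of the coefficients -/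
def PertL (G : ℤ[X][X][X]) (s0 t0 z : ℂ) (c : ℕ) : Prop :=
  ∀ E : ℝ, c ≤ E → ∀ s t : ℂ, ‖s0 - s‖ ≤ Real.exp (-(c * E)) →
    ‖t0 - t‖ ≤ Real.exp (-(c * E)) → G.map (ev2 s t) ≠ 0 ∧
      ∃ l, (G.map (ev2 s t)).eval (Complex.exp l) = 0 ∧ ‖z - l‖ ≤ Real.exp (-E)

/-- bounds for a polynomial in three variables -/
def Bd3 (G : ℤ[X][X][X]) (c : ℕ) : Prop := G.natDegree ≤ c ∧ ∀ k, Bd2 (G.coeff k) c c

theorem alg_stage {θ θ' z : ℂ} (hz : z ≠ 0) {c : ℕ} (hc : 1 ≤ c) {Gz Gy : ℤ[X][X][X]}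
    (hGz : Bd3 Gz c) (hGy : Bd3 Gy c) (hPz : PertZ Gz θ θ' z c) (hPy : PertL Gy θ θ' z c) :
    ∀ᶠ q : ℕ in atTop, ∀ (F : ℝ) (b : ℤ[X]) (R : ℤ[X][X]) (j : ℕ), (q : ℝ) ^ 16 ≤ F → b ≠ 0 →
      b.natDegree ≤ c * q → (∀ i, |((b.coeff i : ℤ) : ℝ)| ≤ Real.exp (q ^ 2)) →
      ‖aeval θ b‖ ≤ Real.exp (-(q ^ 3 * F)) → Bd2 R c q →
      ‖ev2 θ θ' R‖ ≤ Real.exp (-(q ^ 4 * F)) → Real.exp (-F) ≤ ‖aeval θ (R.coeff j)‖ → False := by
  set c1 : ℕ := 4 * c + 2 * c * (1 + 3 * c + 2 * c * (c + 1)) with hc1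
  set κ := ‖θ‖ + ‖θ'‖ with hκ
  have hT := tendsto_natCast_atTop_atTop (R := ℝ)
  filter_upwards [eventually_gt_atTop (5 + c ^ 2), hT.eventually_ge_atTop (4 * c + 2 * c * κ),
    hT.eventually_ge_atTop ((2 * (‖θ'‖ + 1)) ^ c), hT.eventually_ge_atTop ‖z‖⁻¹,
    hT.eventually_ge_atTop (‖z‖ + 1), hT.eventually_ge_atTop (4 * Real.exp (‖z‖ + 1)),
    hT.eventually_ge_atTop (2 ^ 28 * c ^ 20 * c1 ^ 5 + 1),
    eventually_poly_le_exp (2 ^ 32 * c ^ 24 * c1 ^ 6) 18] with q hq1 hq2 hq3 hq4 hq5 hq6 hq7 hq8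
  intro F b R j hF hb0 hbd hbc hbθ hR hRθ hRj
  have hc' : (1 : ℝ) ≤ c := by exact_mod_cast hc
  have hq1' : (5 : ℝ) + c ^ 2 < q := by exact_mod_cast hq1
  have hcq : (c : ℝ) < q := by nlinarith
  have hq0 : (1 : ℝ) ≤ q := by linarith
  have hqq : (q : ℝ) ^ 2 ≤ F := (pow_le_pow_right₀ hq0 (by norm_num)).trans hF
  have hqF : 2 * (q : ℝ) ≤ F := by nlinarith
  have hF0 : 0 < F := by linarith
  have hκ0 : 0 ≤ κ := by positivity
  have hκ1 := Real.add_one_le_exp κ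
  -- the algebraic approximation of the first coordinate
  obtain ⟨θ0, h1, h2⟩ := exists_root_near (b.map (Int.castRingHom ℂ)) (natDegree_map_le.trans hbd)
    (Real.exp_nonneg (-(q * F))) (Real.exp_le_one_iff.mpr (by simp; positivity)) (t := θ) (by
      rw [eval_map]
      refine lt_of_le_of_lt hbθ (lt_of_lt_of_le ?_ (le_mul_of_one_le_left (by positivity) ?_))
      · rw [← Real.exp_nat_mul]
        refine Real.exp_lt_exp.mpr ?_
        push_cast
        have : 0 < (q : ℝ) ^ 2 * F := by positivity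
        nlinarith
      · rw [leadingCoeff_map_of_injective (Int.castRingHom ℂ).injective_int, eq_intCast,
          Complex.norm_intCast]
        exact_mod_cast Int.one_le_abs (leadingCoeff_ne_zero.mpr hb0))
  have hδ1 : Real.exp (-(q * F)) ≤ 1 := Real.exp_le_one_iff.mpr (by simp; positivity)
  have hθ0 : ‖θ0‖ ≤ Real.exp κ := by
    have := norm_sub_norm_le θ0 θ
    rw [norm_sub_rev] at this
    linarith [norm_nonneg θ']
  have hlip : ∀ {p : ℤ[X][X]}, Bd2 p c q →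
      ‖ev2 θ θ' p - ev2 θ0 θ' p‖ ≤ Real.exp (F - q * F) := fun hp => by
    refine (ev2_lip hp hκ0 (by linarith [norm_nonneg θ']) (by linarith [norm_nonneg θ]) hθ0
      (by linarith [norm_nonneg θ]) h2.le (by simp [Real.exp_nonneg])).trans ?_
    rw [← Real.exp_add]
    exact Real.exp_le_exp.mpr (by linarith)
  have two : ∀ x : ℝ, 2 * Real.exp x ≤ Real.exp (x + F) := fun x => by
    rw [Real.exp_add, mul_comm]
    gcongr
    linarith [Real.add_one_le_exp F]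
  have h3 : Real.exp (-(2 * F)) ≤ ‖(R.map (ev1 θ0)).coeff j‖ := by
    have e1 := hlip (Bd2.of_coeff (hR.2 j).1 (hR.2 j).2)
    rw [ev2_C, ev2_C] at e1
    have e2 := norm_sub_norm_le (aeval θ (R.coeff j)) (aeval θ0 (R.coeff j))
    have e3 := two (-(2 * F))
    have e4 : Real.exp (F - q * F) ≤ Real.exp (-(2 * F)) := Real.exp_le_exp.mpr (by nlinarith)
    rw [show -(2 * F) + F = -F by ring] at e3
    rw [coeff_map, ev1_eq]
    linarith
  have hR0 : R.map (ev1 θ0) ≠ 0 := fun h => by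
    rw [h] at h3; simp at h3; linarith [Real.exp_pos (-(2 * F))]
  obtain ⟨θ2, h4, h5⟩ := root_step (R.map (ev1 θ0)) (natDegree_map_le.trans hR.1) (t := θ')
    (A := q * F - 2 * F) (B' := F) (Δ := c * F) (by
      have e1 := hlip hR
      have e2 := norm_sub_norm_le (ev2 θ0 θ' R) (ev2 θ θ' R)
      rw [norm_sub_rev] at e2
      have e3 := two (F - q * F)
      have e4 : Real.exp (-(q ^ 4 * F)) ≤ Real.exp (F - q * F) := Real.exp_le_exp.mpr (by
        have : (q : ℝ) ≤ q ^ 4 := le_self_pow₀ hq0 (by norm_num)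
        nlinarith)
      rw [show F - q * F + F = -(q * F - 2 * F) by ring] at e3
      rw [← ev2_eq_eval]
      linarith) h3 (by linarith [Real.add_one_le_exp F]) (by positivity) (by nlinarith)
  have h6 : ‖θ - θ0‖ ≤ Real.exp (-(c * F)) := h2.le.trans (Real.exp_le_exp.mpr (by nlinarith))
  obtain ⟨hz0, z0, h7, h8⟩ := hPz F (by linarith) θ0 θ2 h6 h5
  obtain ⟨hy0, l0, h9, h10⟩ := hPy F (by linarith) θ0 θ2 h6 h5
  -- the number field
  obtain ⟨K1, -, m1, f1, r1⟩ := tower_step (⊥ : IntermediateField ℚ ℂ) inferInstance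
    ((Polynomial.map_ne_zero_iff (Int.castRingHom ℂ).injective_int).mpr hb0)
    (fun i => by rw [coeff_map]; exact intCast_mem _ _) h1
  obtain ⟨K2, l2, m2, f2, r2⟩ := tower_step K1 f1 hR0
    (fun i => by rw [coeff_map]; exact aeval_mem m1 _) h4
  obtain ⟨K3, l3, m3, f3, r3⟩ := tower_step K2 f2 hz0
    (fun i => by rw [coeff_map]; exact ev2_mem (l2 m1) m2 (hGz.2 i)) h7
  obtain ⟨K, l4, m4, f4, r4⟩ := tower_step K3 f3 hy0
    (fun i => by rw [coeff_map]; exact ev2_mem (l3 (l2 m1)) (l3 m2) (hGy.2 i)) h9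
  have := numberField_of K f4
  have hd : Module.finrank ℚ K ≤ c ^ 4 * q := by
    rw [IntermediateField.finrank_bot, one_mul] at r1
    have e1 := r1.trans (natDegree_map_le.trans hbd)
    have e2 := r2.trans (Nat.mul_le_mul e1 (natDegree_map_le.trans hR.1))
    have e3 := r3.trans (Nat.mul_le_mul e2 (natDegree_map_le.trans hGz.1))
    exact (r4.trans (Nat.mul_le_mul e3 (natDegree_map_le.trans hGy.1))).trans (le_of_eq (by ring))
  have hq2' : (q : ℝ) ≤ q ^ 2 := le_self_pow₀ hq0 (by norm_num)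
  have hq3' : (1 : ℝ) ≤ q ^ 2 := hq0.trans hq2'
  have g1 : Fr K (0 : integralClosure ℤ ℂ) θ0 ((c + 1) * q ^ 2) 0 :=
    (Fr.root0 hbd hbc hb0 h1 (l4 (l3 (l2 m1)))).mono (by push_cast; nlinarith) le_rfl
  have g2 : Fr K (0 : integralClosure ℤ ℂ) θ2 ((1 + 3 * c + 2 * c * (c + 1)) * q ^ 2) 0 :=
    (g1.root1 hR hR0 h4 (l4 (l3 m2))).mono (by nlinarith) le_rfl
  have g1' := g1.mono (mu := (1 + 3 * c + 2 * c * (c + 1)) * q ^ 2)
    (mul_le_mul_of_nonneg_right (by nlinarith) (by positivity)) le_rfl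
  have hs : (c : ℝ) + 2 * c + 2 * c * ((1 + 3 * c + 2 * c * (c + 1)) * q ^ 2) + c ≤
      (c1 * q ^ 2 : ℕ) := by rw [hc1]; push_cast; nlinarith
  obtain ⟨η, β, hβ, e1, s1, s2⟩ :=
    sz_of_fr ((g1'.root g2 hGz.1 hGz.2 hz0 h7 (l4 m3)).mono hs le_rfl)
  obtain ⟨τ, a, ha, e2, s3, s4⟩ := sz_of_fr ((g1'.root g2 hGy.1 hGy.2 hy0 h9 m4).mono hs le_rfl)
  have hc11 : 1 ≤ c1 := by rw [hc1]; omega
  have hc11' : (1 : ℝ) ≤ c1 := by exact_mod_cast hc11
  have hlam : (q : ℝ) ≤ (c1 * q ^ 2 : ℕ) := by push_cast; nlinarith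
  have hδF : Real.exp (-F) < ‖z‖ := by
    rw [Real.exp_neg, inv_lt_comm₀ (Real.exp_pos _) (norm_pos_iff.mpr hz)]
    linarith [Real.add_one_le_exp F]
  have hδF1 : 2 * Real.exp (-F) ≤ 1 := by simpa using two (-F)
  have hz0n : ‖z0‖ ≤ ‖z‖ + 1 := by
    have := norm_sub_norm_le z0 z
    rw [norm_sub_rev] at this
    linarith [Real.exp_pos (-F)]
  have hm := hl_measure K.val.toRingHom hd (h := c1 * q ^ 2) (lam := c1 * q ^ 2)
    (by exact_mod_cast hq0.trans hlam) le_rfl (by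
      refine le_trans (le_of_eq ?_) (hq8.trans (Real.exp_le_exp.mpr hlam))
      push_cast; ring) s1 s2 s3 s4 hβ ha (by
        rintro rfl
        have : z0 = 0 := by rw [← e1]; simp
        rw [this, sub_zero] at h8
        linarith) (by
          change ‖((η / β : K) : ℂ)‖ ≤ _
          rw [e1]; linarith)
  change _ < ‖((τ / a : K) : ℂ) - Complex.exp ((η / β : K) : ℂ)‖ at hm
  rw [e1, e2] at hm
  have h11 : ‖l0 - z0‖ ≤ 2 * Real.exp (-F) := by
    have := norm_sub_le (z - z0) (z - l0)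
    rw [show z - z0 - (z - l0) = l0 - z0 by ring] at this
    linarith
  have h12 : ‖Complex.exp l0 - Complex.exp z0‖ ≤ Real.exp (‖z‖ + 1) * (2 * (2 * Real.exp (-F))) := by
    have h4 : Complex.exp l0 - Complex.exp z0 = Complex.exp z0 * (Complex.exp (l0 - z0) - 1) := by
      rw [mul_sub, ← Complex.exp_add]; simp
    rw [h4, norm_mul]
    exact mul_le_mul ((Complex.norm_exp_le_exp_norm _).trans (Real.exp_le_exp.mpr hz0n))
      ((Complex.norm_exp_sub_one_le (by linarith)).trans (by linarith)) (norm_nonneg _)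
      (by positivity)
  refine absurd (hm.trans_le h12) (not_lt.mpr ?_)
  calc _ = 4 * Real.exp (‖z‖ + 1) * Real.exp (-F) := by ring
    _ ≤ Real.exp (q ^ 15 + -F) := mul_le_exp (by
        have : (q : ℝ) ≤ q ^ 15 := le_self_pow₀ hq0 (by norm_num)
        linarith [Real.add_one_le_exp ((q : ℝ) ^ 15)]) le_rfl (by positivity)
    _ ≤ _ := Real.exp_le_exp.mpr (by
        have := mul_le_mul_of_nonneg_right hq7 (show (0 : ℝ) ≤ q ^ 15 by positivity)
        push_cast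
        nlinarith)

end Pool.Agent.Lib.MP_12eca1_ag
end

-- part Pool.Agent.Lib.MP_12eca1_ag.Stage
section

/-!
The descent step along a curve of small complexity.
-/

namespace Pool.Agent.Lib.MP_12eca1_ag

open Polynomial Filter

lemma Bd3.mono {G : ℤ[X][X][X]} {c c' : ℕ} (h : Bd3 G c) (hc : c ≤ c') : Bd3 G c' :=
  ⟨h.1.trans hc, fun k => (h.2 k).mono hc (by exact_mod_cast hc)⟩

lemma exp_mono_aux {c c' : ℕ} (hc : c ≤ c') {E : ℝ} (hE : c' ≤ E) :
    (c : ℝ) ≤ E ∧ Real.exp (-(c' * E)) ≤ Real.exp (-(c * E)) := by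
  have h1 : (c : ℝ) ≤ c' := by exact_mod_cast hc
  have h2 : 0 ≤ E := (Nat.cast_nonneg _).trans hE
  exact ⟨h1.trans hE, Real.exp_le_exp.mpr (by nlinarith)⟩

lemma PertZ.mono {G : ℤ[X][X][X]} {s0 t0 x0 : ℂ} {c c' : ℕ} (h : PertZ G s0 t0 x0 c)
    (hc : c ≤ c') : PertZ G s0 t0 x0 c' := fun E hE s t hs ht =>
  h E (exp_mono_aux hc hE).1 s t (hs.trans (exp_mono_aux hc hE).2) (ht.trans (exp_mono_aux hc hE).2)

lemma PertL.mono {G : ℤ[X][X][X]} {s0 t0 x0 : ℂ} {c c' : ℕ} (h : PertL G s0 t0 x0 c)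
    (hc : c ≤ c') : PertL G s0 t0 x0 c' := fun E hE s t hs ht =>
  h E (exp_mono_aux hc hE).1 s t (hs.trans (exp_mono_aux hc hE).2) (ht.trans (exp_mono_aux hc hE).2)

lemma tendsto_ceil_log : Tendsto (fun q : ℕ => ⌈Real.log q⌉₊) atTop atTop :=
  tendsto_nat_ceil_atTop.comp (Real.tendsto_log_atTop.comp tendsto_natCast_atTop_atTop)

lemma eventually_log_pow_le (C : ℝ) (k : ℕ) :
    ∀ᶠ q : ℕ in atTop, C * (⌈Real.log q⌉₊ : ℝ) ^ k ≤ q := by
  filter_upwards [tendsto_ceil_log.eventually (eventually_poly_le_exp (Real.exp 1 * C) k),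
    eventually_ge_atTop 1] with q h1 h2
  have h3 : (1 : ℝ) ≤ q := by exact_mod_cast h2
  have h4 := (Nat.ceil_lt_add_one (Real.log_nonneg h3)).le
  have h5 := h1.trans (Real.exp_le_exp.mpr h4)
  rw [Real.exp_add, Real.exp_log (by linarith), mul_assoc, mul_comm (q : ℝ)] at h5
  exact le_of_mul_le_mul_left h5 (Real.exp_pos 1)

lemma eq_zero_of_exp_eq_one {w : ℂ} (h : Complex.exp w = 1) (h2 : ‖w‖ ≤ 2) : w = 0 := by
  obtain ⟨n, hn⟩ := Complex.exp_eq_one_iff.mp h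
  by_contra h0
  have hn0 : n ≠ 0 := by rintro rfl; simp [h0] at hn
  have h3 : (1 : ℝ) ≤ |(n : ℝ)| := by exact_mod_cast Int.one_le_abs hn0
  rw [hn] at h2
  simp [abs_of_pos Real.pi_pos] at h2
  nlinarith [Real.pi_gt_three]

lemma norm_lin_sub_le {ι : Type*} [Fintype ι] {a : ι → ℤ} {T δ : ℝ} (ha : ∀ i, |(a i : ℝ)| ≤ T)
    {z l : ι → ℂ} (h : ∀ i, ‖z i - l i‖ ≤ δ) :
    ‖∑ i, a i * z i - ∑ i, a i * l i‖ ≤ Fintype.card ι * (T * δ) := by
  rw [← Finset.sum_sub_distrib]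
  refine (norm_sum_le _ _).trans ?_
  have := Finset.sum_le_card_nsmul Finset.univ (fun i => ‖a i * z i - a i * l i‖) (T * δ)
    fun i _ => by
      rw [← mul_sub, norm_mul, Complex.norm_intCast]
      exact mul_le_mul (ha i) (h i) (norm_nonneg _) ((abs_nonneg _).trans (ha i))
  simpa using this

lemma prod_exp_zpow {ι : Type*} [Fintype ι] (a : ι → ℤ) (l : ι → ℂ) :
    ∏ i, Complex.exp (l i) ^ a i = Complex.exp (∑ i, a i * l i) := by
  rw [Complex.exp_sum]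
  exact Finset.prod_congr rfl fun i _ => (Complex.exp_int_mul _ _).symm

lemma dirichlet_facts {ι : Type*} [Fintype ι] {m : ι → ℤ} (hm : m ≠ 0) {Q : ℕ} (hQ : 2 ≤ Q)
    (z : ι → ℂ) : ∃ (M τ : ℕ) (a : ι → ℤ), 0 < M ∧ a ≠ 0 ∧ (∀ i, Q * |M * a i - τ * m i| ≤ M) ∧
      (∀ i, |a i| ≤ (2 * Q ^ Fintype.card ι : ℕ)) ∧ ‖∑ i, a i * z i‖ ≤ (∑ i, ‖z i‖) / Q +
        (2 * Q ^ Fintype.card ι : ℕ) * ‖∑ i, m i * z i‖ := by
  obtain ⟨i0, hi0⟩ := Function.ne_iff.mp hm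
  obtain ⟨i1, -, hi1⟩ := Finset.exists_max_image Finset.univ (fun i => (m i).natAbs)
    ⟨i0, Finset.mem_univ _⟩
  have hM : 0 < (m i1).natAbs := (Int.natAbs_pos.mpr hi0).trans_le (hi1 i0 (Finset.mem_univ _))
  obtain ⟨τ, a, h1, h2, h3⟩ := simul_dirichlet m hM (show 0 < Q by omega)
  set M := (m i1).natAbs with hMdef
  have hM' : (0 : ℤ) < M := by exact_mod_cast hM
  have hQ' : (2 : ℤ) ≤ Q := by exact_mod_cast hQ
  have hτ : (1 : ℤ) ≤ τ := by exact_mod_cast h1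
  refine ⟨M, τ, a, hM, fun h0 => ?_, h3, fun i => ?_, ?_⟩
  · have := h3 i1
    rw [h0, Pi.zero_apply, mul_zero, zero_sub, abs_neg, abs_mul, Nat.abs_cast,
      ← Int.natCast_natAbs, ← hMdef] at this
    nlinarith [mul_le_mul_of_nonneg_right hτ hM'.le]
  · have h4 : |m i| ≤ M := by
      rw [← Int.natCast_natAbs]; exact_mod_cast hi1 i (Finset.mem_univ _)
    have h5 := abs_sub_abs_le_abs_sub (M * a i) (τ * m i)
    rw [abs_mul, abs_mul, Nat.abs_cast, Nat.abs_cast] at h5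
    have h6 := h3 i
    have h7 : (τ : ℤ) ≤ Q ^ Fintype.card ι := by exact_mod_cast h2
    have h8 := abs_nonneg (M * a i - τ * m i)
    have h9 : (M : ℤ) * |a i| ≤ M * (τ + 1) := by nlinarith
    have h10 := le_of_mul_le_mul_left h9 hM'
    push_cast
    linarith
  · have hMr : (1 : ℝ) ≤ M := by exact_mod_cast hM
    have hQr : (0 : ℝ) < Q := by exact_mod_cast (show 0 < Q by omega)
    have e : (M : ℂ) * ∑ i, a i * z i =
        ∑ i, ((M * a i - τ * m i : ℤ) : ℂ) * z i + τ * ∑ i, m i * z i := by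
      rw [Finset.mul_sum, Finset.mul_sum, ← Finset.sum_add_distrib]
      exact Finset.sum_congr rfl fun i _ => by push_cast; ring
    have h4 : ‖∑ i, ((M * a i - τ * m i : ℤ) : ℂ) * z i‖ ≤ M * ((∑ i, ‖z i‖) / Q) := by
      rw [Finset.sum_div, Finset.mul_sum]
      refine (norm_sum_le _ _).trans (Finset.sum_le_sum fun i _ => ?_)
      rw [norm_mul, Complex.norm_intCast, ← mul_div_assoc, mul_div_right_comm]
      refine mul_le_mul_of_nonneg_right ?_ (norm_nonneg _)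
      rw [le_div_iff₀ hQr, mul_comm]
      exact_mod_cast h3 i
    have h5 := norm_add_le (∑ i, ((M * a i - τ * m i : ℤ) : ℂ) * z i) (τ * ∑ i, m i * z i)
    rw [← e, norm_mul, norm_mul, Complex.norm_natCast, Complex.norm_natCast] at h5
    have h6 : (τ : ℝ) ≤ M * (2 * Q ^ Fintype.card ι : ℕ) := by
      exact_mod_cast (show τ ≤ M * (2 * Q ^ Fintype.card ι) by nlinarith)
    apply le_of_mul_le_mul_left _ (zero_lt_one.trans_le hMr)
    have h7 := mul_le_mul_of_nonneg_right h6 (norm_nonneg (∑ i, m i * z i))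
    linarith

theorem stage {ι : Type*} [Fintype ι] {θ θ' : ℂ} (hθ : Transcendental ℤ θ) {z : ι → ℂ} {i0 : ι}
    (hz : z i0 ≠ 0) {c : ℕ} (hc : 1 ≤ c) {Gz : ℤ[X][X][X]} {G : ι → ℤ[X][X][X]}
    (hGz : Bd3 Gz c) (hG : ∀ i, Bd3 (G i) c) (hPz : PertZ Gz θ θ' (z i0) c)
    (hP : ∀ i, PertL (G i) θ θ' (z i) c) :
    ∀ᶠ q : ℕ in atTop, ∀ (F : ℝ) (m : ι → ℤ) (R : ℤ[X][X]) (j : ℕ), (q : ℝ) ^ 16 ≤ F → m ≠ 0 →
      (∀ i, |m i| ≤ q) → ‖∑ i, m i * z i‖ ≤ Real.exp (-(q ^ 4 * F)) → Bd2 R c (c * Real.log q) →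
      ‖ev2 θ θ' R‖ ≤ Real.exp (-(q ^ 4 * F)) → Real.exp (-F) ≤ ‖aeval θ (R.coeff j)‖ →
      ∃ a : ι → ℤ, a ≠ 0 ∧ (∀ i, a i ^ 2 ≤ q) ∧ ‖∑ i, a i * z i‖ ≤ Real.exp (-F) := by
  set n := Fintype.card ι with hn
  set ν := c ^ (n + 1) with hν
  set d := 2 * c * (2 * c) with hd
  set c' := c + ν * n * d with hc'
  have hcc : c ≤ c' := Nat.le_add_right _ _
  obtain ⟨N, hN⟩ := small_relation ι ν
  set J := N.factorial with hJ
  have hT := tendsto_natCast_atTop_atTop (R := ℝ)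
  have hl := hT.comp tendsto_ceil_log
  set e : ℝ := 4 * c + 2 * c * (c + 3 * c) with he
  filter_upwards [alg_stage hz (hc.trans hcc) (hGz.mono hcc) ((hG i0).mono hcc) (hPz.mono hcc)
    ((hP i0).mono hcc), eventually_gt_atTop (2 + 2 * c ^ 2 + 2 * n + ν),
    hT.eventually_ge_atTop ((2 * (‖θ'‖ + 1)) ^ c), eventually_log_pow_le c 1,
    eventually_log_pow_le (ν * (n * e + 1 + n * d * ‖θ‖)) 1, eventually_log_pow_le 4 (4 * n),
    eventually_log_pow_le (J * (n + 1) * 2) (2 * n),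
    tendsto_ceil_log.eventually (eventually_poly_le_exp (ν * (n * ((J * 2 + 2) * d))) (2 * n)),
    hl.eventually_ge_atTop (4 * N * n * (ν ^ (2 * n) * (e + d))),
    hl.eventually_ge_atTop (J * ∑ i, ‖z i‖), tendsto_ceil_log.eventually_ge_atTop 2]
    with q hq0 hq1 hq2 hq3 hq4 hq5 hq6 hq7 hq8 hq9 hq10
  intro F m R j hF hm0 hm hmz hR hRθ hRj
  simp only [Function.comp_apply] at hq8 hq9
  set l := ⌈Real.log q⌉₊ with hldef
  have hl1 : Real.log q ≤ l := Nat.le_ceil _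
  have hl2 : (2 : ℝ) ≤ l := by exact_mod_cast hq10
  have hc1 : (1 : ℝ) ≤ c := by exact_mod_cast hc
  have hq1' : (2 : ℝ) + 2 * c ^ 2 + 2 * n + ν < q := by exact_mod_cast hq1
  have hn0 : (0 : ℝ) ≤ n := Nat.cast_nonneg _
  have hν1 : (1 : ℝ) ≤ ν := by rw [hν]; push_cast; exact one_le_pow₀ hc1
  have hq11 : (1 : ℝ) ≤ q := by nlinarith
  have hqF : (q : ℝ) ≤ F := (le_self_pow₀ hq11 (by norm_num)).trans hF
  have hF1 : 1 ≤ F := hq11.trans hqF
  have hq13 : (1 : ℝ) ≤ q ^ 3 := one_le_pow₀ hq11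
  have hq14 : F ≤ q ^ 3 * F := le_mul_of_one_le_left (by linarith) hq13
  have hR0 : R.map (ev1 θ) ≠ 0 := fun h => by
    rw [← ev1_eq, ← coeff_map, h] at hRj; simp at hRj; linarith [Real.exp_pos (-F)]
  obtain ⟨θ2, h1, h2⟩ := root_step (R.map (ev1 θ)) (natDegree_map_le.trans hR.1) (t := θ') (j := j)
    (A := q ^ 4 * F) (B := F) (B' := F) (Δ := c * (2 * (q ^ 3 * F))) (by rwa [← ev2_eq_eval])
    (by rwa [coeff_map]) (by linarith [Real.add_one_le_exp F]) (by positivity) (by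
      have : (2 + 2 * c ^ 2) * (q ^ 3 * F) < q * (q ^ 3 * F) :=
        mul_lt_mul_of_pos_right (by linarith) (by positivity)
      nlinarith)
  choose hG0 lg hlg1 hlg2 using fun i => hP i (2 * (q ^ 3 * F)) (by nlinarith) θ θ2
    (by simp [Real.exp_nonneg]) h2
  obtain ⟨L, hL1, hL2, hL3, hL4⟩ := exists_funField hθ hR0 (fun k => ⟨_, coeff_map _ _⟩) h1 G
    (fun i => Complex.exp (lg i)) (natDegree_map_le.trans hR.1) hG0 (fun i => (hG i).2) hlg1
    fun i => (hG i).1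
  have g0 : Fr L (gen θ) θ 0 1 := Fr.self hL1
  have g1 : Fr L (gen θ) θ2 ((c + 3 * c) * l) (2 * c) :=
    (g0.root1 hR hR0 h1 hL2).mono (by nlinarith) (by omega)
  have g2 : ∀ i, Fr L (gen θ) (Complex.exp (lg i)) (e * l) d := fun i =>
    ((g0.mono (by positivity) (by omega)).root g1 (hG i).1 (hG i).2 (hG0 i) (hlg1 i) (hL3 i)).mono
      (by rw [he]; nlinarith) le_rfl
  choose η β hβ0 hβη hηL hβL hηS hβS using g2
  have hη0 : ∀ i, (η i : ℂ) ≠ 0 := fun i => hβη i ▸ mul_ne_zero (hβ0 i) (Complex.exp_ne_zero _)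
  have hdiv : ∀ i, (η i : ℂ) / β i = Complex.exp (lg i) := fun i => by
    rw [← hβη i, mul_div_cancel_left₀ _ (hβ0 i)]
  have he0 : 0 ≤ e * l := by positivity
  set δ := Real.exp (-(2 * (q ^ 3 * F))) with hδ
  have hδ0 : 0 < δ := Real.exp_pos _
  have hmz' : ‖∑ i, m i * z i‖ ≤ δ := hmz.trans (Real.exp_le_exp.mpr (by
    have : 2 * (q ^ 3 * F) ≤ q * (q ^ 3 * F) := by gcongr; nlinarith
    nlinarith))
  have hqδ : Real.exp (q ^ 3) * δ ≤ Real.exp (-(q ^ 3 * F)) := by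
    rw [← Real.exp_add]; exact Real.exp_le_exp.mpr (by nlinarith)
  have hq3q : (q : ℝ) ≤ Real.exp (q ^ 3) := by
    linarith [Real.add_one_le_exp ((q : ℝ) ^ 3), le_self_pow₀ hq11 (show 3 ≠ 0 by norm_num)]
  have hqδ' : q * δ ≤ Real.exp (-F) :=
    ((mul_le_mul_of_nonneg_right hq3q hδ0.le).trans hqδ).trans (Real.exp_le_exp.mpr (by linarith))
  have hF2 : Real.exp (-F) ≤ 1 := Real.exp_le_one_iff.mpr (by linarith)
  by_cases hrel : ∏ i, ((η i : ℂ) / β i) ^ m i = 1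
  · obtain ⟨M, τ, a, hM, ha0, ha1, ha2, ha3⟩ := dirichlet_facts hm0 (Q := l ^ 2) (by nlinarith) z
    rw [← hn, ← pow_mul] at ha2 ha3
    have hl3 : (1 : ℝ) ≤ l ^ (2 * n) := one_le_pow₀ (by linarith)
    have h3 := hN hθ L hL4 η β (mu := l) hη0 hβ0 hηL hβL hηS hβS he0 (by positivity) m a hM
      (by positivity) ha1 ha2 (by
        refine le_trans ?_ hq7
        push_cast
        calc _ ≤ (ν : ℝ) * (n * ((J * (2 * l ^ (2 * n)) + 2 * l ^ (2 * n)) * d)) := by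
              gcongr; linarith
          _ = _ := by ring) (by
        push_cast
        calc _ = 4 * N * n * (ν ^ (2 * n) * (e + d)) * (l : ℝ) := by ring
          _ ≤ l * l := by gcongr
          _ = _ := by ring) hrel
    simp only [hdiv, prod_exp_zpow] at h3
    have h4 := norm_lin_sub_le (a := a) (T := (2 * l ^ (2 * n) : ℕ))
      (fun i => by exact_mod_cast ha2 i) hlg2
    have hJ1 : (1 : ℝ) ≤ J := by exact_mod_cast N.factorial_pos
    have h5 : ∑ i, ((J * a i : ℤ) : ℂ) * lg i = J * ∑ i, a i * lg i := by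
      rw [Finset.mul_sum]
      exact Finset.sum_congr rfl fun i _ => by push_cast; ring
    push_cast at ha3 h4
    rw [← hn] at h4
    have h6 := eq_zero_of_exp_eq_one h3 (by
      rw [h5, norm_mul, Complex.norm_natCast]
      have e1 := norm_sub_norm_le (∑ i, a i * lg i) (∑ i, a i * z i)
      rw [norm_sub_rev] at e1
      have e2 : J * ((∑ i, ‖z i‖) / l ^ 2) ≤ 1 := by
        rw [← mul_div_assoc, div_le_one (by positivity)]; nlinarith
      have e3 := mul_le_mul_of_nonneg_right hq6 hδ0.le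
      have e4 : ‖∑ i, a i * lg i‖ ≤ (∑ i, ‖z i‖) / l ^ 2 + (n + 1) * 2 * l ^ (2 * n) * δ := by
        have := mul_le_mul_of_nonneg_left hmz' (show (0 : ℝ) ≤ 2 * l ^ (2 * n) by positivity)
        linarith
      have e5 := mul_le_mul_of_nonneg_left e4 (show (0 : ℝ) ≤ J by positivity)
      linarith)
    rw [h5] at h6
    have h7 : ∑ i, a i * lg i = 0 :=
      (mul_eq_zero.mp h6).resolve_left (by exact_mod_cast N.factorial_ne_zero)
    rw [h7, sub_zero] at h4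
    refine ⟨a, ha0, fun i => ?_, h4.trans (le_trans ?_ hqδ')⟩
    · have e1 : a i ^ 2 ≤ ((2 * l ^ (2 * n) : ℕ) : ℤ) ^ 2 := by
        rw [← sq_abs]; exact pow_le_pow_left₀ (abs_nonneg _) (ha2 i) 2
      refine e1.trans ?_
      have e2 : (((2 * l ^ (2 * n) : ℕ) : ℝ)) ^ 2 ≤ q := by
        refine le_trans (le_of_eq ?_) hq5
        push_cast; ring
      exact_mod_cast e2
    · rw [← mul_assoc]
      refine mul_le_mul_of_nonneg_right (le_trans ?_ hq6) hδ0.le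
      calc (n : ℝ) * (2 * l ^ (2 * n)) = 1 * n * 2 * l ^ (2 * n) := by ring
        _ ≤ _ := by gcongr; linarith
  exfalso
  set f := Um η β m - Um η β (-m) with hf
  have hfc : (f : ℂ) = (Um η β (-m) : integralClosure (Ag θ) ℂ) *
      (Complex.exp (∑ i, m i * lg i) - 1) := by
    rw [hf]; push_cast
    rw [coe_Um, coe_Um, Um_eq hη0 hβ0 m]
    simp only [hdiv, prod_exp_zpow]
    ring
  have hf0 : (f : ℂ) ≠ 0 := by
    rw [hfc, coe_Um]
    refine mul_ne_zero (Um_ne_zero hη0 hβ0 _) (sub_ne_zero.mpr ?_)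
    simpa only [hdiv, prod_exp_zpow] using hrel
  have hfL : (f : ℂ) ∈ L := by
    rw [hf]; push_cast
    rw [coe_Um, coe_Um]
    exact sub_mem (Um_mem hηL hβL _) (Um_mem hηL hβL _)
  have hU := sg_Um hηS hβS he0 (m := -m) (q := q) fun i => by simpa using hm i
  have hfS := (sg_Um hηS hβS he0 hm).sub hU
  rw [← hn] at hU hfS
  obtain ⟨b, hb0, hb1, hb2, hb3, -⟩ := norm_poly hθ hf0 (ν := ν) (hL4 f hfL) hfS (by positivity)
  have hS : ν * (n * (q * (e * l)) + 1 + (n * (q * d) : ℕ) * ‖θ‖) ≤ (q : ℝ) ^ 2 := by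
    push_cast
    calc _ ≤ ν * (n * (q * (e * l)) + q * l + n * (q * d) * (‖θ‖ * l)) := by
          gcongr
          · nlinarith
          · exact le_mul_of_one_le_right (norm_nonneg _) (by linarith)
      _ = q * (ν * (n * e + 1 + n * d * ‖θ‖) * (l : ℝ) ^ 1) := by ring
      _ ≤ q * q := by gcongr
      _ = _ := by ring
  have hS0 : 0 ≤ n * (q * (e * l)) + 1 + (n * (q * d) : ℕ) * ‖θ‖ := by positivity
  have hmax : Real.exp (n * (q * (e * l)) + 1) * max 1 ‖θ‖ ^ (n * (q * d)) ≤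
      Real.exp (n * (q * (e * l)) + 1 + (n * (q * d) : ℕ) * ‖θ‖) :=
    mul_le_exp le_rfl (pow_le_exp (max_le (Real.one_le_exp (norm_nonneg _))
      (by linarith [Real.add_one_le_exp ‖θ‖])) (by positivity) (norm_nonneg _) le_rfl)
        (by positivity)
  refine hq0 F b R j hF hb0 (hb1.trans ?_) (fun i => (hb2 i).trans (Real.exp_le_exp.mpr ?_))
    (hb3.trans ?_) (hR.mono hcc (by nlinarith)) hRθ hRj
  · rw [hc']; nlinarith [Nat.zero_le (c * q)]
  · exact le_trans (mul_le_mul_of_nonneg_left (le_add_of_nonneg_right (by positivity))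
      (by positivity)) hS
  have h3 := norm_lin_sub_le (a := m) (T := q) (fun i => by exact_mod_cast hm i) hlg2
  rw [← hn] at h3
  have h4 : ‖∑ i, m i * lg i‖ ≤ (1 + n * q) * δ := by
    have e1 := norm_sub_norm_le (∑ i, m i * lg i) (∑ i, m i * z i)
    rw [norm_sub_rev] at e1
    linarith
  have h5 : 2 * (1 + (n : ℝ) * q) ≤ Real.exp (q ^ 2) := by
    nlinarith [Real.add_one_le_exp ((q : ℝ) ^ 2)]
  have h6 : Real.exp (q ^ 2) ≤ Real.exp (q ^ 3) :=
    Real.exp_le_exp.mpr (pow_le_pow_right₀ hq11 (by norm_num))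
  have h7 : ‖Complex.exp (∑ i, m i * lg i) - 1‖ ≤ Real.exp (q ^ 2) * δ := by
    refine (Complex.norm_exp_sub_one_le ?_).trans (by nlinarith)
    have : Real.exp (-(q ^ 3 * F)) ≤ 1 := Real.exp_le_one_iff.mpr (by linarith)
    nlinarith
  have h8 : ‖((Um η β (-m) : integralClosure (Ag θ) ℂ) : ℂ)‖ ≤ Real.exp (q ^ 2) := by
    refine (hU.mono (le_add_of_nonneg_right zero_le_one) le_rfl
      (integralClosure (Ag θ) ℂ).val.toRingHom).trans (hmax.trans (Real.exp_le_exp.mpr ?_))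
    nlinarith
  rw [hfc, norm_mul]
  calc _ ≤ (Real.exp (q ^ 2) * (Real.exp (q ^ 2) * δ)) * Real.exp (q ^ 2) := by
        refine mul_le_mul (by gcongr) ?_ (by positivity) (by positivity)
        exact (pow_le_exp hmax (by positivity) hS0 le_rfl).trans (Real.exp_le_exp.mpr hS)
    _ = Real.exp (3 * q ^ 2) * δ := by
        rw [show (3 : ℝ) * q ^ 2 = q ^ 2 + q ^ 2 + q ^ 2 by ring, Real.exp_add, Real.exp_add]; ring
    _ ≤ Real.exp (q ^ 3) * δ := by
        gcongr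
        nlinarith
    _ ≤ _ := hqδ

end Pool.Agent.Lib.MP_12eca1_ag
end

-- part Pool.Agent.Lib.MP_12eca1_ag.Rel
section

/-!
Relations over the ring generated by two numbers, and the norm form.
-/

namespace Pool.Agent.Lib.MP_12eca1_ag

open Polynomial Filter

lemma exists_ev2 {s t : ℂ} (a : Algebra.adjoin ℤ {s, t}) : ∃ p, ev2 s t p = a := by
  have h : Algebra.adjoin ℤ {s, t} ≤ (ev2 s t).toIntAlgHom.range := by
    refine Algebra.adjoin_le ?_
    rintro x (rfl | rfl)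
    · exact ⟨C X, by simp [ev2_C]⟩
    · exact ⟨X, by simp [ev2]⟩
  exact h a.2

lemma exists_rel {s t x : ℂ} (h : IsAlgebraic (Algebra.adjoin ℤ {s, t}) x) :
    ∃ G : ℤ[X][X][X], G.map (ev2 s t) ≠ 0 ∧ (G.map (ev2 s t)).eval x = 0 := by
  obtain ⟨P, hP0, hP⟩ := h
  obtain ⟨G, hG⟩ : P.map (algebraMap _ ℂ) ∈ lifts (ev2 s t) :=
    (lifts_iff_coeff_lifts _).mpr fun k => by rw [coeff_map]; exact exists_ev2 _
  rw [coe_mapRingHom] at hG
  refine ⟨G, ?_, ?_⟩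
  · rw [hG]
    exact (Polynomial.map_ne_zero_iff Subtype.val_injective).mpr hP0
  · rw [hG, eval_map_algebraMap, hP]

lemma Bd2.mul_int {p : ℤ[X][X]} {c : ℕ} {mu mu' : ℝ} (h : Bd2 p c mu) {a : ℤ}
    (ha : |(a : ℝ)| ≤ Real.exp mu') : Bd2 (p * (a : ℤ[X][X])) c (mu + mu') := by
  have e : (a : ℤ[X][X]) = C (C a) := by simp
  rw [e]
  refine ⟨(natDegree_mul_C_le _ _).trans h.1, fun j => ?_⟩
  rw [coeff_mul_C]
  refine ⟨(natDegree_mul_C_le _ _).trans (h.2 j).1, fun i => ?_⟩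
  rw [coeff_mul_C, Int.cast_mul, abs_mul]
  exact mul_le_exp ((h.2 j).2 i) ha (abs_nonneg _)

lemma Bd2.sum {κ : Type*} (s : Finset κ) (p : κ → ℤ[X][X]) {c : ℕ} {mu mu' : ℝ}
    (h : ∀ k ∈ s, Bd2 (p k) c mu) (hs : (s.card : ℝ) ≤ Real.exp mu') :
    Bd2 (∑ k ∈ s, p k) c (mu' + mu) := by
  refine ⟨natDegree_sum_le_of_forall_le _ _ fun k hk => (h k hk).1, fun j => ?_⟩
  rw [finsetSum_coeff]
  refine ⟨natDegree_sum_le_of_forall_le _ _ fun k hk => ((h k hk).2 j).1, fun i => ?_⟩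
  rw [finsetSum_coeff, Int.cast_sum]
  refine (Finset.abs_sum_le_sum_abs _ _).trans ?_
  have := Finset.sum_le_card_nsmul s _ _ fun k hk => ((h k hk).2 j).2 i
  rw [nsmul_eq_mul] at this
  exact this.trans (mul_le_exp hs le_rfl (Real.exp_nonneg _))

lemma bd2_eval {ι : Type*} [Fintype ι] (P : MvPolynomial ι ℤ[X][X]) :
    ∃ c : ℕ, ∀ q : ℕ, 3 ≤ q → ∀ m : ι → ℤ, (∀ i, |m i| ≤ q) →
      Bd2 (MvPolynomial.eval (fun i => (m i : ℤ[X][X])) P) c (c * Real.log q) := by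
  obtain ⟨c, hc1, hc2, hc3⟩ := (((eventually_all_finset P.support).mpr fun τ _ =>
    eventually_Bd2 (P.coeff τ)).and ((eventually_ge_atTop P.support.card).and
      (eventually_ge_atTop P.totalDegree))).exists
  refine ⟨3 * c, fun q hq m hm => ?_⟩
  have hq' : (3 : ℝ) ≤ q := by exact_mod_cast hq
  have hlog : 1 ≤ Real.log q := by
    rw [Real.le_log_iff_exp_le (by linarith)]
    linarith [Real.exp_one_lt_three]
  rw [MvPolynomial.eval_eq']
  refine (Bd2.sum (c := c) (mu := c + c * Real.log q) (mu' := c) _ _ (fun τ hτ => ?_) ?_).mono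
    (by omega) (by push_cast; nlinarith [Nat.cast_nonneg (α := ℝ) c])
  · have e : ∏ i, (m i : ℤ[X][X]) ^ τ i = ((∏ i, m i ^ τ i : ℤ) : ℤ[X][X]) := by push_cast; rfl
    rw [e]
    refine (hc1 τ hτ).mul_int ?_
    have h1 : ∑ i, τ i ≤ c := by
      have := MvPolynomial.le_totalDegree hτ
      rw [Finsupp.sum_fintype _ _ (by simp)] at this
      exact this.trans hc3
    push_cast
    rw [Finset.abs_prod, Real.exp_nat_mul, Real.exp_log (by linarith)]
    calc _ ≤ ∏ i, (q : ℝ) ^ τ i := Finset.prod_le_prod (fun i _ => abs_nonneg _) fun i _ => by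
          rw [abs_pow]
          exact pow_le_pow_left₀ (abs_nonneg _) (by exact_mod_cast hm i) _
      _ = (q : ℝ) ^ ∑ i, τ i := Finset.prod_pow_eq_pow_sum _ _ _
      _ ≤ _ := pow_le_pow_right₀ (by linarith) h1
  · have : (P.support.card : ℝ) ≤ c := by exact_mod_cast hc2
    linarith [Real.add_one_le_exp (c : ℝ)]

lemma norm_form_aux {A K ι : Type*} [CommRing A] [IsDomain A] [Field K] [CharZero K] [Algebra A K]
    [IsFractionRing A K] [Algebra A ℂ] [Algebra K ℂ] [IsScalarTower A K ℂ] [Fintype ι]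
    {B : Type*} [CommRing B] (ev : B →+* ℂ) (hev : ∀ a : A, ∃ p, ev p = algebraMap A ℂ a)
    (z : ι → ℂ) (hz : ∀ i, IsAlgebraic A (z i)) :
    ∃ (P : MvPolynomial ι B) (C0 : ℝ) (k : ℕ), ∀ (q : ℝ), 1 ≤ q → ∀ m : ι → ℤ,
      (∀ i, |(m i : ℝ)| ≤ q) → ∑ i, m i * z i ≠ 0 →
      ev (MvPolynomial.eval (fun i => (m i : B)) P) ≠ 0 ∧
        ‖ev (MvPolynomial.eval (fun i => (m i : B)) P)‖ ≤ C0 * q ^ k * ‖∑ i, m i * z i‖ := by
  classical
  let L := IntermediateField.adjoin K (Set.range z)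
  have hfin : FiniteDimensional K L := IntermediateField.finiteDimensional_adjoin (by
    rintro _ ⟨i, rfl⟩
    exact ((hz i).extendScalars (IsFractionRing.injective A K)).isIntegral)
  let e := Module.finBasis K L
  let z' : ι → L := fun i => ⟨z i, IntermediateField.subset_adjoin _ _ ⟨i, rfl⟩⟩
  obtain ⟨b, hb⟩ := IsLocalization.exist_integer_multiples_of_finite (nonZeroDivisors A)
    (fun x : ι × Fin (Module.finrank K L) × Fin (Module.finrank K L) =>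
      Algebra.leftMulMatrix e (z' x.1) x.2.1 x.2.2)
  choose a ha using hb
  choose p hp using fun x => hev (a x)
  have hb0 : algebraMap A ℂ b ≠ 0 := by
    rw [IsScalarTower.algebraMap_apply A K ℂ, map_ne_zero_iff _ (RingHom.injective _),
      map_ne_zero_iff _ (IsFractionRing.injective A K)]
    exact nonZeroDivisors.coe_ne_zero b
  set C1 := 1 + ∑ σ : L →ₐ[K] ℂ, ∑ i, ‖σ (z' i)‖ with hC1
  have hC11 : 1 ≤ C1 := le_add_of_nonneg_right (by positivity)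
  refine ⟨Matrix.det (Matrix.of fun j k => ∑ i, MvPolynomial.X i * MvPolynomial.C (p (i, j, k))),
    ‖algebraMap A ℂ b‖ ^ Fintype.card (Fin (Module.finrank K L)) * C1 ^ Fintype.card (L →ₐ[K] ℂ),
    Fintype.card (L →ₐ[K] ℂ), fun q hq m hm hm0 => ?_⟩
  set δ : L := ∑ i, (m i : L) * z' i with hδ
  have hδ' : L.val δ = ∑ i, m i * z i := by simp [hδ, z']
  have key : ev (MvPolynomial.eval (fun i => (m i : B)) (Matrix.det (Matrix.of fun j k =>
      ∑ i, MvPolynomial.X i * MvPolynomial.C (p (i, j, k))))) =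
      algebraMap A ℂ b ^ Fintype.card (Fin (Module.finrank K L)) * ∏ σ : L →ₐ[K] ℂ, σ δ := by
    rw [← Algebra.norm_eq_prod_embeddings, Algebra.norm_eq_matrix_det e, RingHom.map_det,
      RingHom.map_det, RingHom.map_det, ← Matrix.det_smul]
    congr 1
    ext j k
    have h1 : ∀ i, algebraMap A ℂ (a (i, j, k)) =
        algebraMap A ℂ b * algebraMap K ℂ (Algebra.leftMulMatrix e (z' i) j k) := fun i => by
      rw [IsScalarTower.algebraMap_apply A K ℂ, ha, Algebra.smul_def, map_mul,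
        ← IsScalarTower.algebraMap_apply]
    simp only [hδ, ← zsmul_eq_mul, map_sum, map_zsmul, RingHom.mapMatrix_apply, Matrix.map_apply,
      Matrix.of_apply, map_mul, MvPolynomial.eval_X, MvPolynomial.eval_C, hp, h1,
      Matrix.smul_apply, Matrix.sum_apply, smul_eq_mul, Finset.mul_sum, mul_smul_comm]
  rw [key]
  have hδ0 : δ ≠ 0 := fun h => hm0 (by rw [← hδ', h, map_zero])
  refine ⟨mul_ne_zero (pow_ne_zero _ hb0) (Finset.prod_ne_zero_iff.mpr fun σ _ =>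
    (map_ne_zero_iff _ σ.toRingHom.injective).mpr hδ0), ?_⟩
  rw [norm_mul, norm_pow, mul_assoc, mul_assoc, ← Finset.prod_erase_mul _ _ (Finset.mem_univ L.val),
    hδ', norm_mul, ← mul_assoc (C1 ^ _), ← mul_pow]
  gcongr
  rw [norm_prod]
  refine (Finset.prod_le_prod (fun _ _ => norm_nonneg _) (g := fun _ => C1 * q)
    fun σ _ => ?_).trans ?_
  · rw [hδ, map_sum]
    refine (norm_sum_le _ _).trans ?_
    have h1 : ∑ i, ‖σ (z' i)‖ ≤ C1 :=
      (Finset.single_le_sum (f := fun σ : L →ₐ[K] ℂ => ∑ i, ‖σ (z' i)‖)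
        (fun _ _ => by positivity) (Finset.mem_univ σ)).trans (by rw [hC1]; linarith)
    refine le_trans ?_ (mul_le_mul_of_nonneg_right h1 (by linarith))
    rw [Finset.sum_mul]
    refine Finset.sum_le_sum fun i _ => ?_
    rw [map_mul, map_intCast, norm_mul, Complex.norm_intCast, mul_comm]
    exact mul_le_mul_of_nonneg_left (hm i) (norm_nonneg _)
  · rw [Finset.prod_const]
    exact pow_le_pow_right₀ (one_le_mul_of_one_le_of_one_le hC11 hq) (Finset.card_le_univ _)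

lemma norm_form {ι : Type*} [Fintype ι] {s t : ℂ} (z : ι → ℂ)
    (hz : ∀ i, IsAlgebraic (Algebra.adjoin ℤ {s, t}) (z i)) :
    ∀ᶠ c : ℕ in atTop, ∀ᶠ q : ℕ in atTop, ∀ m : ι → ℤ, (∀ i, |m i| ≤ q) → ∑ i, m i * z i ≠ 0 →
      ∃ R, Bd2 R c (c * Real.log q) ∧ ev2 s t R ≠ 0 ∧
        ‖ev2 s t R‖ ≤ Real.exp q * ‖∑ i, m i * z i‖ := by
  let _ := FractionRing.liftAlgebra (Algebra.adjoin ℤ {s, t}) ℂ
  have := FractionRing.isScalarTower_liftAlgebra (Algebra.adjoin ℤ {s, t}) ℂ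
  have : CharZero (FractionRing (Algebra.adjoin ℤ {s, t})) :=
    (algebraMap (FractionRing (Algebra.adjoin ℤ {s, t})) ℂ).charZero
  obtain ⟨P, C0, k, hP⟩ := norm_form_aux (K := FractionRing (Algebra.adjoin ℤ {s, t})) (ev2 s t)
    exists_ev2 z hz
  obtain ⟨c0, hc0⟩ := bd2_eval P
  filter_upwards [eventually_ge_atTop c0] with c hc
  filter_upwards [eventually_ge_atTop 3, eventually_poly_le_exp C0 k] with q hq1 hq2 m hm hm0
  have hq3 : (1 : ℝ) ≤ q := by exact_mod_cast (show 1 ≤ q by omega)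
  obtain ⟨h1, h2⟩ := hP q hq3 m (fun i => by exact_mod_cast hm i) hm0
  refine ⟨_, (hc0 q hq1 m hm).mono hc ?_, h1, h2.trans (by gcongr)⟩
  exact mul_le_mul_of_nonneg_right (by exact_mod_cast hc) (Real.log_nonneg hq3)

lemma stage' {ι : Type*} [Fintype ι] {θ θ' : ℂ} (hθ : Transcendental ℤ θ) {z : ι → ℂ} {i0 : ι}
    (hz : z i0 ≠ 0) (h1 : ∀ i, IsAlgebraic (Algebra.adjoin ℤ {θ, θ'}) (z i))
    (h2 : ∀ i, IsAlgebraic (Algebra.adjoin ℤ {θ, θ'}) (Complex.exp (z i))) :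
    ∀ᶠ c : ℕ in atTop, ∀ᶠ q : ℕ in atTop, ∀ (F : ℝ) (m : ι → ℤ) (R : ℤ[X][X]) (j : ℕ),
      (q : ℝ) ^ 16 ≤ F → m ≠ 0 →
      (∀ i, |m i| ≤ q) → ‖∑ i, m i * z i‖ ≤ Real.exp (-(q ^ 4 * F)) → Bd2 R c (c * Real.log q) →
      ‖ev2 θ θ' R‖ ≤ Real.exp (-(q ^ 4 * F)) → Real.exp (-F) ≤ ‖aeval θ (R.coeff j)‖ →
      ∃ a : ι → ℤ, a ≠ 0 ∧ (∀ i, a i ^ 2 ≤ q) ∧ ‖∑ i, a i * z i‖ ≤ Real.exp (-F) := by
  obtain ⟨Gz, hz1, hz2⟩ := exists_rel (h1 i0)
  choose G hG1 hG2 using fun i => exists_rel (h2 i)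
  filter_upwards [eventually_ge_atTop 1, eventually_Bd3 Gz, eventually_all.mpr fun i =>
    eventually_Bd3 (G i), perturb hz1 hz2, eventually_all.mpr fun i => perturb_log (hG1 i) (hG2 i)]
    with c e1 e2 e3 e4 e5
  exact stage hθ hz e1 e2 e3 e4 e5

lemma sum_ne_zero_of_li {ι : Type*} [Fintype ι] {z : ι → ℂ} (hz : LinearIndependent ℚ z)
    {m : ι → ℤ} (hm : m ≠ 0) : ∑ i, m i * z i ≠ 0 := fun h => hm (funext fun i => by
  have := Fintype.linearIndependent_iff.mp hz (fun i => m i) (by simpa [Rat.smul_def] using h) i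
  exact_mod_cast this)

theorem descent {ι : Type*} [Fintype ι] {θ θ' : ℂ} (hθ : Transcendental ℤ θ)
    (hθ' : Transcendental ℤ θ') {z : ι → ℂ} (hz : LinearIndependent ℚ z) (i0 : ι)
    (h1 : ∀ i, IsAlgebraic (Algebra.adjoin ℤ {θ, θ'}) (z i))
    (h2 : ∀ i, IsAlgebraic (Algebra.adjoin ℤ {θ, θ'}) (Complex.exp (z i))) :
    ∀ᶠ q : ℕ in atTop, ∀ X : ℝ, 2 ≤ X → ∀ m : ι → ℤ, m ≠ 0 → (∀ i, |m i| ≤ q) →
      ‖∑ i, m i * z i‖ ≤ Real.exp (-(X * q ^ 24)) → ∃ q' : ℕ, q' < q ∧ ∃ a : ι → ℤ, a ≠ 0 ∧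
        (∀ i, |a i| ≤ q') ∧ ‖∑ i, a i * z i‖ ≤ Real.exp (-(X * q' ^ 24)) := by
  obtain ⟨c, ⟨e1, e2⟩, e3⟩ := (((stage' hθ (hz.ne_zero i0) h1 h2).and (stage' hθ' (θ' := θ)
    (hz.ne_zero i0) (by rwa [Set.pair_comm]) (by rwa [Set.pair_comm]))).and
      (norm_form z h1)).exists
  filter_upwards [e1, e2, e3, eventually_ge_atTop 2] with q e1 e2 e3 hq X hX m hm0 hm hmz
  have hq2 : (2 : ℝ) ≤ q := by exact_mod_cast hq
  have hq1 : (1 : ℝ) ≤ q := by linarith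
  obtain ⟨R, hR1, hR2, hR3⟩ := e3 m hm (sum_ne_zero_of_li hz hm0)
  set F := X * q ^ 16 / 2 with hF
  have h16 : (1 : ℝ) ≤ q ^ 16 := one_le_pow₀ hq1
  have h4 : (1 : ℝ) ≤ q ^ 4 := one_le_pow₀ hq1
  have hF1 : (q : ℝ) ^ 16 ≤ F := by rw [hF]; nlinarith
  have hF2 : F ≤ q ^ 4 * F := le_mul_of_one_le_left (by linarith) h4
  have hF3 : q ^ 4 * F ≤ q ^ 4 * (q ^ 4 * F) := by gcongr
  have h24 : (q : ℝ) ≤ q ^ 24 := le_self_pow₀ hq1 (by norm_num)
  have hF4 : q + q ^ 4 * (q ^ 4 * F) ≤ X * q ^ 24 := by rw [hF]; nlinarith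
  have hmz' : ‖∑ i, m i * z i‖ ≤ Real.exp (-(q ^ 4 * (q ^ 4 * F))) :=
    hmz.trans (Real.exp_le_exp.mpr (by linarith))
  have key : ∃ a : ι → ℤ, a ≠ 0 ∧ (∀ i, a i ^ 2 ≤ q) ∧ ‖∑ i, a i * z i‖ ≤ Real.exp (-F) := by
    by_cases hj : ∃ j, Real.exp (-(q ^ 4 * F)) ≤ ‖aeval θ (R.coeff j)‖
    · obtain ⟨j, hj⟩ := hj
      obtain ⟨a, ha1, ha2, ha3⟩ := e1 (q ^ 4 * F) m R j (hF1.trans hF2) hm0 hm hmz' hR1
        (hR3.trans ((mul_le_exp le_rfl hmz (norm_nonneg _)).trans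
          (Real.exp_le_exp.mpr (by linarith)))) hj
      exact ⟨a, ha1, ha2, ha3.trans (Real.exp_le_exp.mpr (by linarith))⟩
    push Not at hj
    have hR0 : R.leadingCoeff ≠ 0 := leadingCoeff_ne_zero.mpr (by rintro rfl; simp at hR2)
    refine e2 F m (R.leadingCoeff.map C) R.leadingCoeff.natDegree hF1 hm0 hm
      (hmz'.trans (Real.exp_le_exp.mpr (by linarith))) ⟨natDegree_map_le.trans (hR1.2 _).1,
        fun j => ?_⟩ ?_ ?_
    · rw [coeff_map]
      have := ((Bd2.of_int ((hR1.2 R.natDegree).2 j)).mono (Nat.zero_le c) le_rfl).2 0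
      rwa [coeff_C_zero] at this
    · rw [ev2_eq_eval, Polynomial.map_map, eval_map]
      refine le_trans (le_of_eq ?_) (hj R.natDegree).le
      rw [aeval_def, leadingCoeff]
      congr 2
      exact RingHom.ext_int _ _
    · rw [coeff_map, aeval_C, eq_intCast, Complex.norm_intCast]
      refine (Real.exp_le_one_iff.mpr (by linarith)).trans ?_
      exact_mod_cast Int.one_le_abs (leadingCoeff_ne_zero.mpr hR0)
  obtain ⟨a, ha1, ha2, ha3⟩ := key
  refine ⟨q.sqrt, Nat.sqrt_lt_self hq, a, ha1, fun i => ?_, ha3.trans (Real.exp_le_exp.mpr ?_)⟩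
  · rw [← Int.natCast_natAbs, Nat.cast_le, Nat.le_sqrt']
    have := ha2 i
    rw [← Int.natAbs_sq] at this
    exact_mod_cast this
  · have h5 : (q.sqrt : ℝ) ^ 2 ≤ q := by exact_mod_cast Nat.sqrt_le' q
    have h6 : (q.sqrt : ℝ) ^ 24 ≤ q ^ 12 := by
      rw [show 24 = 2 * 12 by norm_num, pow_mul]; gcongr
    have h7 : 2 * (q : ℝ) ^ 12 ≤ q ^ 16 := by
      have : (q : ℝ) ≤ q ^ 4 := le_self_pow₀ hq1 (by norm_num)
      calc _ ≤ (q : ℝ) ^ 4 * q ^ 12 := by gcongr; linarith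
        _ = _ := by ring
    rw [hF]; nlinarith

theorem no_pair {ι : Type*} [Fintype ι] {θ θ' : ℂ} (hθ : Transcendental ℤ θ)
    (hθ' : Transcendental ℤ θ') {z : ι → ℂ} (hz : LinearIndependent ℚ z)
    (h1 : ∀ i, IsAlgebraic (Algebra.adjoin ℤ {θ, θ'}) (z i))
    (h2 : ∀ i, IsAlgebraic (Algebra.adjoin ℤ {θ, θ'}) (Complex.exp (z i)))
    (h : ∀ X : ℕ, ∃ (q : ℕ) (m : ι → ℤ), m ≠ 0 ∧ (∀ i, |m i| ≤ q) ∧
      ‖∑ i, m i * z i‖ ≤ Real.exp (-(X * q ^ 24))) : False := by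
  classical
  obtain ⟨-, m0, hm0, -⟩ := h 0
  obtain ⟨i0, -⟩ := Function.ne_iff.mp hm0
  obtain ⟨q0, hq0⟩ := eventually_atTop.mp (descent hθ hθ' hz i0 h1 h2)
  have h3 : ∀ᶠ X : ℕ in atTop, ∀ m ∈ Fintype.piFinset fun _ : ι => Finset.Icc (-q0 : ℤ) q0,
      m ≠ 0 → Real.exp (-X) < ‖∑ i, m i * z i‖ := by
    rw [eventually_all_finset]
    intro m _
    by_cases hm : m = 0
    · simp [hm]
    exact ((Real.tendsto_exp_neg_atTop_nhds_zero.comp tendsto_natCast_atTop_atTop).eventually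
      (gt_mem_nhds (norm_pos_iff.mpr (sum_ne_zero_of_li hz hm)))).mono fun X hX _ => hX
  obtain ⟨X, hX1, hX2⟩ := (h3.and (eventually_ge_atTop 2)).exists
  obtain ⟨q, hq⟩ := h X
  induction q using Nat.strong_induction_on with
  | _ q ih =>
    obtain ⟨m, hm1, hm2, hm3⟩ := hq
    rcases le_total q0 q with h4 | h4
    · obtain ⟨q', h5, h6⟩ := hq0 q h4 X (by exact_mod_cast hX2) m hm1 hm2 hm3
      exact ih q' h5 h6
    · have h5 := hX1 m (Fintype.mem_piFinset.mpr fun i => by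
        rw [Finset.mem_Icc, ← abs_le]
        exact (hm2 i).trans (by exact_mod_cast h4)) hm1
      obtain ⟨i, hi⟩ := Function.ne_iff.mp hm1
      have h6 : (1 : ℝ) ≤ q := by exact_mod_cast (Int.one_le_abs hi).trans (hm2 i)
      refine absurd (h5.trans_le hm3) (not_lt.mpr (Real.exp_le_exp.mpr ?_))
      have := one_le_pow₀ (n := 24) h6
      nlinarith [Nat.cast_nonneg (α := ℝ) X]

lemma exists_pair (S : Set ℂ) : (∃ θ θ' : ℂ, Transcendental ℤ θ ∧ Transcendental ℤ θ' ∧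
    ∀ x ∈ S, IsAlgebraic (Algebra.adjoin ℤ {θ, θ'}) x) ∨
      ∃ v : Option (Option (Fin 1)) → ℂ, (∀ j, v j ∈ S) ∧ AlgebraicIndependent ℚ v := by
  by_contra hcon
  rw [not_or] at hcon
  obtain ⟨h1, h2⟩ := hcon
  push Not at h1
  have he : Transcendental ℤ (Complex.exp 1) :=
    ((hermite_lindemann 1 one_ne_zero).resolve_left fun h => h isAlgebraic_one).restrictScalars
      (algebraMap ℤ ℚ).injective_int
  have hr : ∀ {T : Set ℂ} {x : ℂ}, ¬IsAlgebraic (Algebra.adjoin ℤ T) x → Transcendental ℤ x :=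
    fun {T _} h => Transcendental.restrictScalars
      (algebraMap ℤ (Algebra.adjoin ℤ T)).injective_int h
  obtain ⟨x1, m1, t1⟩ := h1 _ _ he he
  obtain ⟨x2, m2, t2⟩ := h1 _ _ (hr t1) (hr t1)
  obtain ⟨x3, m3, t3⟩ := h1 _ _ (hr t1) (hr t2)
  have i1 : AlgebraicIndependent ℤ ![x1] := algebraicIndependent_iff_transcendental.mpr (hr t1)
  have i2 := (i1.option_iff_transcendental x2).mpr (by
    have e : Set.range ![x1] = {x1, x1} := by simp
    rw [e]; exact t2)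
  have i3 := (i2.option_iff_transcendental x3).mpr (by
    have e : (Set.range fun o : Option (Fin 1) => o.elim x2 ![x1]) = {x1, x2} := by
      ext y
      simp [Option.exists, eq_comm, or_comm]
    rw [e]; exact t3)
  have : Algebra.IsAlgebraic ℤ ℚ := IsLocalization.isAlgebraic ℚ (nonZeroDivisors ℤ)
  refine h2 ⟨_, ?_, i3.extendScalars ℚ⟩
  rintro (_ | _ | j)
  · exact m3
  · exact m2
  · simpa using m1

end Pool.Agent.Lib.MP_12eca1_ag
end
end

-- part Pool.Agent.Lib.MP_12eca1_ag.MainD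
section

/-!
Very small linear forms force transcendence degree at least three.
-/

namespace Pool.Agent.Lib.MP_12eca1_ag

open Filter

theorem three_le_of_indep {ι : Type*} [Fintype ι] {z : ι → ℂ} (hz : LinearIndependent ℚ z)
    (h : ∀ X : ℕ, ∃ (q : ℕ) (m : ι → ℤ), m ≠ 0 ∧ (∀ i, |m i| ≤ q) ∧
      ‖∑ i, m i * z i‖ ≤ Real.exp (-(X * q ^ 24))) {F : IntermediateField ℚ ℂ}
    (hF : expField z ≤ F) : (3 : Cardinal) ≤ Algebra.trdeg ℚ F := by
  rcases exists_pair (Set.range z ∪ Set.range fun i => Complex.exp (z i)) with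
    ⟨θ, θ', h1, h2, h3⟩ | ⟨v, h1, h2⟩
  · exact (no_pair h1 h2 hz (fun i => h3 _ (Or.inl ⟨i, rfl⟩)) (fun i => h3 _ (Or.inr ⟨i, rfl⟩))
      h).elim
  · exact_mod_cast le_trdeg_of_indep v (fun j => hF (IntermediateField.subset_adjoin _ _ (h1 j)))
      h2 (r := 3) (by simp)

theorem mainD (n : ℕ) (z : Fin n → ℂ)
    (happ : ∀ N : ℕ, ∃ q : ℕ, N ≤ q ∧ ∃ m : Fin n → ℤ, (∀ i, |m i| ≤ q) ∧
      ∑ i, (m i : ℂ) * z i ≠ 0 ∧ ‖∑ i, (m i : ℂ) * z i‖ < Real.exp (-(q : ℝ) ^ 25)) :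
    (3 : Cardinal) ≤ Algebra.trdeg ℚ (expField z) := by
  classical
  obtain ⟨κ, a, ha, hsp, hli⟩ := exists_linearIndependent' ℚ z
  have : Finite κ := Finite.of_injective a ha
  let _ := Fintype.ofFinite κ
  have h1 : ∀ i, ∃ r : κ → ℚ, ∑ j, r j • z (a j) = z i := fun i =>
    (Submodule.mem_span_range_iff_exists_fun ℚ).mp (hsp ▸ Submodule.subset_span ⟨i, rfl⟩)
  choose r hr using h1
  obtain ⟨D, hD⟩ := IsLocalization.exist_integer_multiples_of_finite (nonZeroDivisors ℤ)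
    (fun x : Fin n × κ => r x.1 x.2)
  choose A hA using hD
  have hD0 : ((D : ℤ) : ℂ) ≠ 0 := by exact_mod_cast nonZeroDivisors.coe_ne_zero D
  have h2 : ∀ m : Fin n → ℤ, ∑ j, ((∑ i, m i * A (i, j) : ℤ) : ℂ) * z (a j) =
      (D : ℤ) * ∑ i, (m i : ℂ) * z i := by
    intro m
    have h3 : ∀ i j, ((A (i, j) : ℤ) : ℂ) = (D : ℤ) * (r i j : ℂ) := fun i j => by
      have := congrArg (Rat.cast : ℚ → ℂ) (hA (i, j))
      simpa using this
    push_cast
    simp only [Finset.sum_mul, Finset.mul_sum, h3]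
    rw [Finset.sum_comm]
    refine Finset.sum_congr rfl fun i _ => ?_
    rw [← hr i, Finset.mul_sum, Finset.mul_sum]
    exact Finset.sum_congr rfl fun j _ => by rw [Rat.smul_def]; ring
  set C : ℕ := ∑ x, (A x).natAbs with hC
  refine three_le_of_indep hli (fun X => ?_) (IntermediateField.adjoin.mono _ _ _ ?_)
  · obtain ⟨N, hN⟩ := eventually_atTop.mp ((eventually_poly_le_exp |((D : ℤ) : ℝ)| 0).and
      (eventually_ge_atTop (X * C ^ 24 + 1)))
    obtain ⟨q, hq, m, hm1, hm2, hm3⟩ := happ N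
    obtain ⟨h3, h4⟩ := hN q hq
    refine ⟨C * q, fun j => ∑ i, m i * A (i, j), fun h0 => ?_, fun j => ?_, ?_⟩
    · have := h2 m
      simp only [fun j => congrFun h0 j, Pi.zero_apply, Int.cast_zero, zero_mul,
        Finset.sum_const_zero] at this
      exact mul_ne_zero hD0 hm2 this.symm
    · refine (Finset.abs_sum_le_sum_abs _ _).trans ?_
      have h5 : ∑ i, (A (i, j)).natAbs ≤ C := by
        rw [hC, Fintype.sum_prod_type_right]
        exact Finset.single_le_sum (f := fun j => ∑ i, (A (i, j)).natAbs)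
          (fun _ _ => Nat.zero_le _) (Finset.mem_univ j)
      have h6 : ∑ i, |A (i, j)| ≤ C := by
        simp only [← Int.natCast_natAbs]; exact_mod_cast h5
      calc _ ≤ ∑ i, q * |A (i, j)| := Finset.sum_le_sum fun i _ => by
            rw [abs_mul]; gcongr; exact hm1 i
        _ ≤ _ := by rw [← Finset.mul_sum, Nat.cast_mul, mul_comm (C : ℤ)]; gcongr
    · simp only [Function.comp_apply]
      rw [h2, norm_mul, Complex.norm_intCast]
      rw [pow_zero, mul_one] at h3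
      refine (mul_le_exp h3 hm3.le (norm_nonneg _)).trans (Real.exp_le_exp.mpr ?_)
      have h5 : (X : ℝ) * C ^ 24 + 1 ≤ q := by exact_mod_cast h4
      have h6 : (1 : ℝ) ≤ q := le_trans (le_add_of_nonneg_left (by positivity)) h5
      have h7 : (q : ℝ) ≤ q ^ 24 := le_self_pow₀ h6 (by norm_num)
      have h8 := mul_le_mul_of_nonneg_right h5 (show (0 : ℝ) ≤ q ^ 24 by positivity)
      push_cast
      rw [mul_pow]
      nlinarith
  · rintro x (⟨j, rfl⟩ | ⟨j, rfl⟩)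
    · exact Or.inl ⟨a j, rfl⟩
    · exact Or.inr ⟨a j, rfl⟩

end Pool.Agent.Lib.MP_12eca1_ag
end
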