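import Pool.Agent.Lib.MP_12eca1_ag.Step2

-- part Pool.Agent.Lib.MP_12eca1_ag.Gen
section

/-!
Sizes of integral elements measured through all homomorphisms to the complex numbers.
-/

namespace Pool.Agent.Lib.MP_12eca1_ag

open Polynomial

lemma exists_hom_extend {R S : Type*} [CommRing R] [CommRing S] [IsDomain S] [Algebra R S]
    [Algebra.IsIntegral R S] (hinj : Function.Injective (algebraMap R S)) (ψ : R →+* ℂ) :
    ∃ φ : S →+* ℂ, ∀ r, φ (algebraMap R S r) = ψ r := by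
  have hP : (RingHom.ker ψ).IsPrime := RingHom.ker_isPrime ψ
  obtain ⟨Q, hQ, hQ'⟩ := Ideal.exists_ideal_over_prime_of_isIntegral_of_isDomain (S := S)
    (RingHom.ker ψ) (by rw [(RingHom.injective_iff_ker_eq_bot _).mp hinj]; exact bot_le)
  let ψ' : R ⧸ Q.comap (algebraMap R S) →+* ℂ :=
    Ideal.Quotient.lift _ ψ fun a ha => by rwa [hQ', RingHom.mem_ker] at ha
  have hψ' : Function.Injective ψ' := RingHom.lift_injective_of_ker_le_ideal _ _ hQ'.ge
  let _ : Algebra (R ⧸ Q.comap (algebraMap R S)) ℂ := ψ'.toAlgebra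
  have h1 : Module.IsTorsionFree (R ⧸ Q.comap (algebraMap R S)) ℂ :=
    Module.isTorsionFree_iff_algebraMap_injective.mpr hψ'
  have h2 : Module.IsTorsionFree (R ⧸ Q.comap (algebraMap R S)) (S ⧸ Q) :=
    Module.isTorsionFree_iff_algebraMap_injective.mpr Ideal.algebraMap_quotient_injective
  let φ' : (S ⧸ Q) →ₐ[R ⧸ Q.comap (algebraMap R S)] ℂ := IsAlgClosed.lift
  refine ⟨φ'.toRingHom.comp (Ideal.Quotient.mk Q), fun r => ?_⟩
  exact φ'.commutes (Ideal.Quotient.mk _ r)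

section generic

variable {S : Type*} [CommRing S]

/-- all images of `x` are bounded by `exp lam` times the `d`-th power of the image of `g` -/
def Sg (g x : S) (lam : ℝ) (d : ℕ) : Prop :=
  ∀ φ : S →+* ℂ, ‖φ x‖ ≤ Real.exp lam * max 1 ‖φ g‖ ^ d

variable {g x y : S} {lam mu : ℝ} {d e : ℕ}

lemma Sg.mono (h : Sg g x lam d) (h1 : lam ≤ mu) (h2 : d ≤ e) : Sg g x mu e := fun φ =>
  (h φ).trans (mul_le_mul (Real.exp_le_exp.mpr h1) (pow_le_pow_right₀ (le_max_left _ _) h2)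
    (by positivity) (by positivity))

lemma Sg.mul (h : Sg g x lam d) (h' : Sg g y mu e) : Sg g (x * y) (lam + mu) (d + e) := fun φ => by
  rw [map_mul, norm_mul, Real.exp_add, pow_add]
  exact (mul_le_mul (h φ) (h' φ) (norm_nonneg _) (by positivity)).trans (le_of_eq (by ring))

lemma Sg.intCast (g : S) (n : ℤ) (h : |(n : ℝ)| ≤ Real.exp lam) : Sg g (n : S) lam 0 := fun φ => by
  rw [map_intCast, Complex.norm_intCast]; simpa using h

lemma Sg.one (g : S) : Sg g 1 0 0 := by simpa using Sg.intCast g 1 (lam := 0) (by simp)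

lemma Sg.self (g : S) : Sg g g 0 1 := fun φ => by simp

lemma Sg.pow (h : Sg g x lam d) (n : ℕ) : Sg g (x ^ n) (n * lam) (n * d) := by
  induction n with
  | zero => simpa using Sg.one g
  | succ n ih =>
    rw [pow_succ]
    exact (ih.mul h).mono (le_of_eq (by push_cast; ring)) (le_of_eq (by ring))

lemma Sg.sum {ι : Type*} (s : Finset ι) (f : ι → S) (h : ∀ i ∈ s, Sg g (f i) lam d)
    (hs : (s.card : ℝ) ≤ Real.exp mu) : Sg g (∑ i ∈ s, f i) (mu + lam) d := fun φ => by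
  rw [map_sum]
  refine (norm_sum_le _ _).trans ?_
  have := Finset.sum_le_card_nsmul s (fun i => ‖φ (f i)‖) _ fun i hi => h i hi φ
  rw [nsmul_eq_mul] at this
  rw [Real.exp_add, mul_assoc]
  exact this.trans (mul_le_mul_of_nonneg_right hs (by positivity))

lemma Sg.prod {ι : Type*} (s : Finset ι) (f : ι → S) (h : ∀ i ∈ s, Sg g (f i) lam d) :
    Sg g (∏ i ∈ s, f i) (s.card * lam) (s.card * d) := by
  classical
  induction s using Finset.induction_on with
  | empty => simpa using Sg.one g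
  | insert a s ha ih =>
    rw [Finset.prod_insert ha, Finset.card_insert_of_notMem ha]
    exact ((h a (Finset.mem_insert_self _ _)).mul
      (ih fun i hi => h i (Finset.mem_insert_of_mem hi))).mono
        (le_of_eq (by push_cast; ring)) (le_of_eq (by ring))

lemma Sg.sub (h : Sg g x lam d) (h' : Sg g y lam d) : Sg g (x - y) (lam + 1) d := fun φ => by
  rw [map_sub]
  refine (norm_sub_le _ _).trans ?_
  have h1 := Real.add_one_le_exp 1
  have h2 : 0 ≤ Real.exp lam * max 1 ‖φ g‖ ^ d := by positivity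
  have h3 := h φ
  have h4 := h' φ
  rw [Real.exp_add]
  nlinarith

end generic

lemma succ_le_exp (n : ℕ) : ((n + 1 : ℕ) : ℝ) ≤ Real.exp n := by
  have := Real.add_one_le_exp n
  push_cast; linarith

lemma norm_le_of_monic_eq {W a : ℂ} {p : ℕ → ℂ} {e : ℕ} {M : ℝ} (ha : ‖a‖ ≤ M)
    (hp : ∀ j, ‖p j‖ ≤ M)
    (h : W ^ (e + 1) + ∑ j ∈ Finset.range (e + 1), p j * a ^ (e - j) * W ^ j = 0) :
    ‖W‖ ≤ (e + 1) * M := by
  have hM : 0 ≤ M := (norm_nonneg _).trans ha
  have he : (0 : ℝ) ≤ e := Nat.cast_nonneg _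
  rcases le_or_gt ‖W‖ M with h1 | h1
  · nlinarith
  have hW : 0 < ‖W‖ := hM.trans_lt h1
  have h2 : ‖W‖ ^ (e + 1) ≤ (e + 1) * (M * ‖W‖ ^ e) := by
    rw [← norm_pow, eq_neg_of_add_eq_zero_left h, norm_neg]
    refine (norm_sum_le _ _).trans ?_
    have := Finset.sum_le_card_nsmul (Finset.range (e + 1)) (fun j => ‖p j * a ^ (e - j) * W ^ j‖)
      (M * ‖W‖ ^ e) fun j hj => by
        have hj' : j ≤ e := by simp at hj; omega
        rw [norm_mul, norm_mul, norm_pow, norm_pow, mul_assoc]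
        refine mul_le_mul (hp j) ?_ (by positivity) hM
        calc ‖a‖ ^ (e - j) * ‖W‖ ^ j ≤ ‖W‖ ^ (e - j) * ‖W‖ ^ j := by
              gcongr; exact ha.trans h1.le
          _ = _ := by rw [← pow_add, Nat.sub_add_cancel hj']
    simpa using this
  apply le_of_mul_le_mul_right _ (pow_pos hW e)
  calc _ = ‖W‖ ^ (e + 1) := by ring
    _ ≤ _ := h2
    _ = _ := by ring

/-- evaluation of an integral polynomial in two variables -/
noncomputable def ev2 {S : Type*} [CommRing S] (s t : S) : ℤ[X][X] →+* S :=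
  eval₂RingHom (eval₂RingHom (Int.castRingHom S) s) t

/-- bounds for degrees and coefficients of an integral polynomial in two variables -/
def Bd2 (p : ℤ[X][X]) (c : ℕ) (mu : ℝ) : Prop :=
  p.natDegree ≤ c ∧ ∀ j, (p.coeff j).natDegree ≤ c ∧
    ∀ i, |(((p.coeff j).coeff i : ℤ) : ℝ)| ≤ Real.exp mu

lemma ev2_eq {S : Type*} [CommRing S] (s t : S) {p : ℤ[X][X]} {c : ℕ} {mu : ℝ} (h : Bd2 p c mu) :
    ev2 s t p = ∑ j ∈ Finset.range (c + 1), ∑ i ∈ Finset.range (c + 1),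
      (((p.coeff j).coeff i : ℤ) : S) * s ^ i * t ^ j := by
  rw [ev2, coe_eval₂RingHom, eval₂_eq_sum_range' _ (Nat.lt_succ_of_le h.1)]
  refine Finset.sum_congr rfl fun j _ => ?_
  rw [coe_eval₂RingHom, eval₂_eq_sum_range' _ (Nat.lt_succ_of_le (h.2 j).1), Finset.sum_mul]
  rfl

lemma ev2_C {S : Type*} [CommRing S] (s t : S) (r : ℤ[X]) : ev2 s t (C r) = aeval s r := by
  simp [ev2, aeval_def]

section frac

variable {R : Type*} [CommRing R] [Algebra R ℂ] {σ : Type*} [SetLike σ ℂ] [SubringClass σ ℂ]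

/-- `x` is a quotient of two integral elements of `L` of controlled size -/
def Fr (L : σ) (g : integralClosure R ℂ) (x : ℂ) (lam : ℝ) (d : ℕ) : Prop :=
  ∃ η β : integralClosure R ℂ, (β : ℂ) ≠ 0 ∧ (β : ℂ) * x = η ∧ (η : ℂ) ∈ L ∧ (β : ℂ) ∈ L ∧
    Sg g η lam d ∧ Sg g β lam d

variable {L : σ} {g : integralClosure R ℂ}

omit [SubringClass σ ℂ] in
lemma Fr.mono {x : ℂ} {lam mu : ℝ} {d e : ℕ} (h : Fr L g x lam d) (h1 : lam ≤ mu) (h2 : d ≤ e) :
    Fr L g x mu e := by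
  obtain ⟨η, β, h3, h4, h5, h6, h7, h8⟩ := h
  exact ⟨η, β, h3, h4, h5, h6, h7.mono h1 h2, h8.mono h1 h2⟩

lemma Fr.one : Fr L g 1 0 0 :=
  ⟨1, 1, by simp, by simp, by simp, by simp, Sg.one g, Sg.one g⟩

lemma Fr.self (h : (g : ℂ) ∈ L) : Fr L g g 0 1 :=
  ⟨g, 1, by simp, by simp, h, by simp, Sg.self g,
    (Sg.one g).mono le_rfl (by omega)⟩

lemma sg_root (P : (integralClosure R ℂ)[X]) {x : ℂ} (hx : aeval x P = 0) {lam : ℝ} {d N : ℕ}
    (hN : P.natDegree ≤ N) (hP : ∀ j, Sg g (P.coeff j) lam d) :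
    ∃ η : integralClosure R ℂ, (P.leadingCoeff : ℂ) * x = η ∧ Sg g η (lam + N) d := by
  have h1 : IsIntegral R ((P.leadingCoeff : ℂ) * x) :=
    isIntegral_trans (A := integralClosure R ℂ) _ (isIntegral_leadingCoeff_smul P x hx)
  refine ⟨⟨_, h1⟩, rfl, fun φ => ?_⟩
  rcases Nat.eq_zero_or_pos P.natDegree with h0 | h0
  · have h2 : (P.leadingCoeff : ℂ) = 0 := by
      rw [eq_C_of_natDegree_eq_zero h0, aeval_C] at hx
      rw [leadingCoeff, h0]; exact hx
    have h3 : (⟨_, h1⟩ : integralClosure R ℂ) = 0 := Subtype.ext (by simp [h2])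
    rw [h3, map_zero, norm_zero]; positivity
  obtain ⟨e, he⟩ : ∃ e, P.natDegree = e + 1 := ⟨_, (Nat.succ_pred_eq_of_pos h0).symm⟩
  have h2 : (⟨_, h1⟩ : integralClosure R ℂ) ^ (e + 1) + ∑ j ∈ Finset.range (e + 1),
      P.coeff j * P.leadingCoeff ^ (e - j) * (⟨_, h1⟩ : integralClosure R ℂ) ^ j = 0 := by
    apply Subtype.ext
    rw [aeval_eq_sum_range, he, Finset.sum_range_succ] at hx
    push_cast
    have h3 : ∀ j ∈ Finset.range (e + 1), (P.coeff j : ℂ) * (P.leadingCoeff : ℂ) ^ (e - j) *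
        ((P.leadingCoeff : ℂ) * x) ^ j = (P.leadingCoeff : ℂ) ^ e * (P.coeff j • x ^ j) := by
      intro j hj
      have hj' : j ≤ e := by simp at hj; omega
      obtain ⟨k, rfl⟩ := Nat.exists_eq_add_of_le hj'
      rw [Nat.add_sub_cancel_left, Subalgebra.smul_def, smul_eq_mul]; ring
    rw [Finset.sum_congr rfl h3, ← Finset.mul_sum, eq_neg_of_add_eq_zero_left hx,
      Subalgebra.smul_def, smul_eq_mul, leadingCoeff, he]
    ring
  have h3 := congrArg φ h2
  simp only [map_add, map_sum, map_mul, map_pow, map_zero] at h3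
  refine (norm_le_of_monic_eq (hP _ φ) (fun j => hP j φ) h3).trans ?_
  rw [add_comm lam, Real.exp_add, mul_assoc]
  refine mul_le_mul_of_nonneg_right ?_ (by positivity)
  have h4 : ((e + 1 : ℕ) : ℝ) ≤ N := by exact_mod_cast he ▸ hN
  have := Real.add_one_le_exp (N : ℝ)
  push_cast at h4; linarith

lemma Fr.root {s t x : ℂ} {lam mu : ℝ} {d N c : ℕ} (hs : Fr L g s lam d) (ht : Fr L g t lam d)
    {G : ℤ[X][X][X]} (hN : G.natDegree ≤ N) (hG : ∀ k, Bd2 (G.coeff k) c mu)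
    (hG0 : G.map (ev2 s t) ≠ 0) (hx : (G.map (ev2 s t)).eval x = 0) (hxL : x ∈ L) :
    Fr L g x (mu + 2 * c + 2 * c * lam + N) (2 * c * d) := by
  obtain ⟨η, β, hβ, h1, hη1, hβ1, hη2, hβ2⟩ := hs
  obtain ⟨η', β', hβ', h1', hη1', hβ1', hη2', hβ2'⟩ := ht
  have key : ∀ k, ∃ u : integralClosure R ℂ, (u : ℂ) = β ^ c * β' ^ c * ev2 s t (G.coeff k) ∧
      (u : ℂ) ∈ L ∧ Sg g u (mu + 2 * c + 2 * c * lam) (2 * c * d) := by
    intro k
    refine ⟨∑ j ∈ Finset.range (c + 1), ∑ i ∈ Finset.range (c + 1),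
      ((((G.coeff k).coeff j).coeff i : ℤ) : integralClosure R ℂ) * (η ^ i * β ^ (c - i)) *
        (η' ^ j * β' ^ (c - j)), ?_, ?_, ?_⟩
    · rw [ev2_eq s t (hG k), Finset.mul_sum]
      push_cast
      refine Finset.sum_congr rfl fun j hj => ?_
      rw [Finset.mul_sum]
      refine Finset.sum_congr rfl fun i hi => ?_
      obtain ⟨a, ha⟩ := Nat.exists_eq_add_of_le (show i ≤ c by simp at hi; omega)
      obtain ⟨b, hb⟩ := Nat.exists_eq_add_of_le (show j ≤ c by simp at hj; omega)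
      have e1 : (β : ℂ) ^ c = β ^ i * β ^ (c - i) := by rw [← pow_add]; congr 1; omega
      have e2 : (β' : ℂ) ^ c = β' ^ j * β' ^ (c - j) := by rw [← pow_add]; congr 1; omega
      rw [e1, e2, ← h1, ← h1']; ring
    · push_cast
      exact sum_mem fun j _ => sum_mem fun i _ => mul_mem (mul_mem (intCast_mem L _)
        (mul_mem (pow_mem hη1 _) (pow_mem hβ1 _))) (mul_mem (pow_mem hη1' _) (pow_mem hβ1' _))
    · have hh : ∀ {u v : integralClosure R ℂ}, Sg g u lam d → Sg g v lam d → ∀ i ≤ c,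
          Sg g (u ^ i * v ^ (c - i)) (c * lam) (c * d) := by
        intro u v hu hv i hi
        obtain ⟨a, rfl⟩ := Nat.exists_eq_add_of_le hi
        rw [Nat.add_sub_cancel_left]
        exact ((hu.pow i).mul (hv.pow a)).mono (le_of_eq (by push_cast; ring)) (le_of_eq (by ring))
      refine (Sg.sum _ _ (mu := c) (fun j hj => Sg.sum _ _ (mu := c) (fun i hi =>
        ((Sg.intCast g _ (((hG k).2 j).2 i)).mul (hh hη2 hβ2 i (by simp at hi; omega))).mul
          (hh hη2' hβ2' j (by simp at hj; omega))) (by simpa using succ_le_exp c))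
            (by simpa using succ_le_exp c)).mono (le_of_eq (by ring)) (le_of_eq (by ring))
  choose u hu1 hu2 hu3 using key
  have hc0 : (β : ℂ) ^ c * β' ^ c ≠ 0 := mul_ne_zero (pow_ne_zero _ hβ) (pow_ne_zero _ hβ')
  have h2 : C ((β : ℂ) ^ c * β' ^ c) * G.map (ev2 s t) ∈ lifts (algebraMap (integralClosure R ℂ) ℂ) :=
    (lifts_iff_coeff_lifts _).mpr fun k => ⟨u k, by rw [coeff_C_mul, coeff_map]; exact hu1 k⟩
  obtain ⟨P, hP, hdeg⟩ := exists_natDegree_eq_of_mem_lifts h2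
  have hPc : ∀ k, P.coeff k = u k := fun k => Subtype.ext (by
    have := congrArg (coeff · k) hP
    simp only [coeff_map, coeff_C_mul] at this
    rw [hu1]; exact this)
  have hP0 : P ≠ 0 := by
    rintro rfl
    rw [Polynomial.map_zero] at hP
    exact mul_ne_zero (C_ne_zero.mpr hc0) hG0 hP.symm
  obtain ⟨η2, h3, h4⟩ := sg_root (g := g) P (x := x) (N := N)
    (by rw [aeval_def, ← eval_map, hP, eval_mul, hx, mul_zero])
    (by rw [hdeg, natDegree_C_mul hc0]; exact natDegree_map_le.trans hN)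
    (fun j => (hPc j).symm ▸ hu3 j)
  have h5 : (P.leadingCoeff : ℂ) ∈ L := by rw [leadingCoeff, hPc]; exact hu2 _
  refine ⟨η2, P.leadingCoeff, ?_, h3, h3 ▸ mul_mem h5 hxL, h5, h4, ?_⟩
  · exact fun h0 => leadingCoeff_ne_zero.mpr hP0 (Subtype.ext h0)
  · rw [leadingCoeff, hPc]
    exact (hu3 _).mono (by simp) le_rfl

end frac

end Pool.Agent.Lib.MP_12eca1_ag
end

-- part Pool.Agent.Lib.MP_12eca1_ag.Norm
section

/-!
Norms down to the ring generated by one transcendental number, and towers of fields.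
-/

namespace Pool.Agent.Lib.MP_12eca1_ag

open Polynomial IntermediateField

lemma norm_coeff_le_of_circle (p : ℂ[X]) {M : ℝ} (h : ∀ x : ℂ, ‖x‖ = 1 → ‖p.eval x‖ ≤ M) (i : ℕ) :
    ‖p.coeff i‖ ≤ M := by
  have hM : 0 ≤ M := (norm_nonneg _).trans (h 1 (by simp))
  have h1 : Real.circleAverage (fun θ => ‖p.eval θ‖ ^ 2) 0 1 ≤ M ^ 2 := by
    refine Real.circleAverage_mono_on_of_le_circle ?_ fun x hx => ?_
    · exact (Continuous.continuousOn (by fun_prop)).circleIntegrable'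
    · exact pow_le_pow_left₀ (norm_nonneg _) (h x (by simpa using hx)) 2
  rw [← sum_sq_norm_coeff_eq_circleAverage] at h1
  by_cases hi : i ∈ p.support
  · refine (pow_le_pow_iff_left₀ (norm_nonneg _) hM two_ne_zero).mp ?_
    exact (Finset.single_le_sum (f := fun i => ‖p.coeff i‖ ^ 2) (fun _ _ => by positivity) hi).trans h1
  · rw [notMem_support_iff.mp hi, norm_zero]; exact hM

lemma natDegree_le_of_growth (p : ℂ[X]) {M : ℝ} {k : ℕ}
    (h : ∀ x : ℂ, ‖p.eval x‖ ≤ M * max 1 ‖x‖ ^ k) : p.natDegree ≤ k := by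
  rw [natDegree_le_iff_coeff_eq_zero]
  intro i hi
  by_contra h0
  have hM : 0 ≤ M := by simpa using (norm_nonneg _).trans (h 1)
  have h1 : 0 < ‖p.coeff i‖ := norm_pos_iff.mpr h0
  set r : ℝ := M / ‖p.coeff i‖ + 1 with hr
  have hr1 : 1 ≤ r := by rw [hr]; have := div_nonneg hM h1.le; linarith
  have h2 := norm_coeff_le_of_circle (p.comp (C (r : ℂ) * X)) (M := M * r ^ k) (fun x hx => by
    rw [eval_comp]
    refine (h _).trans (le_of_eq ?_)
    simp [hx, abs_of_pos (zero_lt_one.trans_le hr1), hr1]) i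
  rw [comp_C_mul_X_coeff, norm_mul, norm_pow, Complex.norm_real,
    Real.norm_of_nonneg (zero_le_one.trans hr1)] at h2
  have h3 : r ^ (k + 1) ≤ r ^ i := pow_le_pow_right₀ hr1 hi
  have h4 : ‖p.coeff i‖ * r * r ^ k ≤ M * r ^ k := by
    refine le_trans ?_ h2
    rw [mul_assoc, ← pow_succ']
    gcongr
  have h5 := le_of_mul_le_mul_right h4 (by positivity)
  rw [hr, mul_add, mul_div_cancel₀ _ h1.ne'] at h5
  linarith

lemma norm_prod_le {s : Multiset ℂ} {M : ℝ} (h : ∀ r ∈ s, ‖r‖ ≤ M) : ‖s.prod‖ ≤ M ^ s.card := by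
  induction s using Multiset.induction_on with
  | empty => simp
  | cons a s ih =>
    rw [Multiset.prod_cons, Multiset.card_cons, norm_mul, pow_succ']
    have := h a (Multiset.mem_cons_self _ _)
    exact mul_le_mul this (ih fun r hr => h r (Multiset.mem_cons_of_mem hr)) (norm_nonneg _)
      ((norm_nonneg _).trans this)

lemma norm_coeff_zero_monic {p : ℂ[X]} (hp : p.Monic) : ‖p.coeff 0‖ = ‖p.roots.prod‖ := by
  rw [(IsAlgClosed.splits p).coeff_zero_eq_prod_roots_of_monic hp]; simp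

/-- the ring generated by one number -/
abbrev Ag (θ : ℂ) : Subalgebra ℤ ℂ := Algebra.adjoin ℤ {θ}

/-- the generator as an integral element -/
noncomputable def gen (θ : ℂ) : integralClosure (Ag θ) ℂ :=
  algebraMap (Ag θ) _ ⟨θ, Algebra.self_mem_adjoin_singleton ℤ θ⟩

lemma coe_gen (θ : ℂ) : (gen θ : ℂ) = θ := rfl

section

variable {θ : ℂ}

lemma icl (hθ : Transcendental ℤ θ) : IsIntegrallyClosed (Ag θ) :=
  have := hθ.uniqueFactorizationMonoid_adjoin
  inferInstance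

lemma inj_icl (θ : ℂ) :
    Function.Injective (algebraMap (Ag θ) (integralClosure (Ag θ) ℂ)) := fun _ _ h =>
  Subtype.ext (congrArg (fun x : integralClosure (Ag θ) ℂ => (x : ℂ)) h)

lemma exists_hom_root' {R S : Type*} [CommRing R] [IsDomain R] [IsIntegrallyClosed R] [CommRing S]
    [IsDomain S] [Algebra R S] [Algebra.IsIntegral R S]
    (hinj : Function.Injective (algebraMap R S)) (f : S) (ψ : R →+* ℂ)
    {r : ℂ} (hr : ((minpoly R f).map ψ).eval r = 0) :
    ∃ φ : S →+* ℂ, (∀ a, φ (algebraMap _ _ a) = ψ a) ∧ φ f = r := by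
  have hf : IsIntegral R f := Algebra.IsIntegral.isIntegral f
  rw [eval_map] at hr
  have : Module.IsTorsionFree R S := Module.isTorsionFree_iff_algebraMap_injective.mpr hinj
  let B := Algebra.adjoin R {f}
  let ψ' : B →+* ℂ := (AdjoinRoot.lift ψ r hr).comp (minpoly.equivAdjoin hf).symm.toRingHom
  have : Algebra.IsIntegral B S := Algebra.IsIntegral.tower_top R
  obtain ⟨φ, hφ⟩ := exists_hom_extend (S := S) Subtype.val_injective ψ'
  refine ⟨φ, fun a => ?_, ?_⟩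
  · have h2 := hφ (algebraMap _ B a)
    refine h2.trans ?_
    change AdjoinRoot.lift ψ r hr ((minpoly.equivAdjoin hf).symm (algebraMap _ B a)) = _
    rw [AlgEquiv.commutes]
    exact AdjoinRoot.lift_of hr
  · have h2 := hφ ⟨f, Algebra.self_mem_adjoin_singleton _ f⟩
    refine h2.trans ?_
    change AdjoinRoot.lift ψ r hr ((minpoly.equivAdjoin hf).symm _) = _
    have h3 : (minpoly.equivAdjoin hf) (AdjoinRoot.root _) =
        ⟨f, Algebra.self_mem_adjoin_singleton _ f⟩ := by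
      apply Subtype.ext
      simp
    rw [← h3, AlgEquiv.symm_apply_apply]
    exact AdjoinRoot.lift_root hr

lemma exists_hom_root (hθ : Transcendental ℤ θ) (f : integralClosure (Ag θ) ℂ) (ψ : Ag θ →+* ℂ)
    {r : ℂ} (hr : ((minpoly (Ag θ) (f : ℂ)).map ψ).eval r = 0) :
    ∃ φ : integralClosure (Ag θ) ℂ →+* ℂ, (∀ a, φ (algebraMap _ _ a) = ψ a) ∧ φ f = r := by
  have := icl hθ
  have h1 : minpoly (Ag θ) (f : ℂ) = minpoly (Ag θ) f :=
    minpoly.algebraMap_eq (B := integralClosure (Ag θ) ℂ) (B' := ℂ) Subtype.val_injective f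
  rw [h1] at hr
  exact exists_hom_root' (inj_icl θ) f ψ hr

/-- specialisation of the generator -/
noncomputable def spec (hθ : Transcendental ℤ θ) (x : ℂ) : Ag θ →+* ℂ :=
  (aeval x : ℤ[X] →ₐ[ℤ] ℂ).toRingHom.comp (algEquivOfTranscendental ℤ θ hθ).symm.toRingHom

lemma spec_aeval (hθ : Transcendental ℤ θ) (x : ℂ) (b : ℤ[X]) :
    spec hθ x (algEquivOfTranscendental ℤ θ hθ b) = aeval x b := by
  change aeval x ((algEquivOfTranscendental ℤ θ hθ).symm _) = _
  rw [AlgEquiv.symm_apply_apply]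

lemma spec_gen (hθ : Transcendental ℤ θ) (x : ℂ) :
    spec hθ x ⟨θ, Algebra.self_mem_adjoin_singleton ℤ θ⟩ = x := by
  rw [← algEquivOfTranscendental_apply_X ℤ θ hθ, spec_aeval, aeval_X]

lemma exists_hom_over (hθ : Transcendental ℤ θ) (x : ℂ) :
    ∃ φ : integralClosure (Ag θ) ℂ →+* ℂ, (∀ a, φ (algebraMap _ _ a) = spec hθ x a) ∧
      φ (gen θ) = x := by
  obtain ⟨φ, hφ⟩ := exists_hom_extend (inj_icl θ) (spec hθ x)
  exact ⟨φ, hφ, (hφ _).trans (spec_gen hθ x)⟩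

lemma norm_poly (hθ : Transcendental ℤ θ) {f : integralClosure (Ag θ) ℂ} (hf : (f : ℂ) ≠ 0)
    {ν d : ℕ} {lam : ℝ} (hν : (minpoly (Ag θ) (f : ℂ)).natDegree ≤ ν) (hS : Sg (gen θ) f lam d)
    (hlam : 0 ≤ lam) :
    ∃ b : ℤ[X], b ≠ 0 ∧ b.natDegree ≤ ν * d ∧ (∀ i, |(b.coeff i : ℝ)| ≤ Real.exp (ν * lam)) ∧
      ‖aeval θ b‖ ≤ ‖(f : ℂ)‖ * (Real.exp lam * max 1 ‖θ‖ ^ d) ^ ν ∧
      ∀ φ : integralClosure (Ag θ) ℂ →+* ℂ, φ f = 0 → aeval (φ (gen θ)) b = 0 := by
  have := icl hθ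
  have hfi : IsIntegral (Ag θ) (f : ℂ) := f.2
  set P := minpoly (Ag θ) (f : ℂ) with hP
  have hmon : P.Monic := minpoly.monic hfi
  obtain ⟨b, hb⟩ := (algEquivOfTranscendental ℤ θ hθ).surjective (P.coeff 0)
  have hone : ∀ x : ℂ, 1 ≤ Real.exp lam * max 1 ‖x‖ ^ d := fun x =>
    one_le_mul_of_one_le_of_one_le (Real.one_le_exp hlam) (one_le_pow₀ (le_max_left _ _))
  have hroots : ∀ x : ℂ, ∀ r ∈ (P.map (spec hθ x)).roots,
      ‖r‖ ≤ Real.exp lam * max 1 ‖x‖ ^ d := by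
    intro x r hr
    obtain ⟨φ, h1, h2⟩ := exists_hom_root hθ f (spec hθ x) (isRoot_of_mem_roots hr)
    have h3 := hS φ
    rwa [h2, gen, h1, spec_gen] at h3
  have hcard : ∀ x : ℂ, (P.map (spec hθ x)).roots.card ≤ ν := fun x =>
    (card_roots' _).trans (natDegree_map_le.trans hν)
  have hval : ∀ x : ℂ, ‖aeval x b‖ = ‖(P.map (spec hθ x)).roots.prod‖ := fun x => by
    rw [← norm_coeff_zero_monic (hmon.map _), coeff_map, ← hb, spec_aeval]
  have hgr : ∀ x : ℂ, ‖(b.map (Int.castRingHom ℂ)).eval x‖ ≤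
      Real.exp (ν * lam) * max 1 ‖x‖ ^ (ν * d) := fun x => by
    rw [eval_map]
    change ‖aeval x b‖ ≤ _
    rw [hval, Real.exp_nat_mul, mul_comm ν d, pow_mul, ← mul_pow]
    exact (norm_prod_le (hroots x)).trans (pow_le_pow_right₀ (hone x) (hcard x))
  have hsp : spec hθ θ = algebraMap (Ag θ) ℂ := by
    ext a
    obtain ⟨c, rfl⟩ := (algEquivOfTranscendental ℤ θ hθ).surjective a
    rw [spec_aeval, algEquivOfTranscendental_apply]
    exact aeval_algebraMap_apply ℂ (⟨θ, Algebra.self_mem_adjoin_singleton ℤ θ⟩ : Ag θ) c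
  refine ⟨b, ?_, ?_, fun i => ?_, ?_, fun φ hφ => ?_⟩
  · rintro rfl
    rw [map_zero] at hb
    obtain ⟨Q, hQ⟩ := X_dvd_iff.mpr hb.symm
    have h1 : aeval (f : ℂ) Q = 0 := by
      have h2 := minpoly.aeval (Ag θ) (f : ℂ)
      rw [← hP, hQ, map_mul, aeval_X] at h2
      exact (mul_eq_zero.mp h2).resolve_left hf
    have hQ0 : Q ≠ 0 := by rintro rfl; exact hmon.ne_zero (by simpa using hQ)
    have h3 := natDegree_le_of_dvd (minpoly.isIntegrallyClosed_dvd hfi h1) hQ0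
    rw [← hP, hQ, natDegree_X_mul hQ0] at h3
    omega
  · have := natDegree_le_of_growth _ hgr
    rwa [natDegree_map_eq_of_injective (Int.castRingHom ℂ).injective_int] at this
  · have := norm_coeff_le_of_circle (b.map (Int.castRingHom ℂ)) (M := Real.exp (ν * lam))
      (fun x hx => by simpa [hx] using hgr x) i
    rwa [coeff_map, eq_intCast, Complex.norm_intCast] at this
  · classical
    have h1 : (f : ℂ) ∈ (P.map (spec hθ θ)).roots := by
      rw [mem_roots (hmon.map _).ne_zero, IsRoot, hsp, eval_map_algebraMap]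
      exact minpoly.aeval _ _
    rw [hval, ← Multiset.prod_erase h1, norm_mul]
    refine mul_le_mul_of_nonneg_left ((norm_prod_le fun r hr =>
      hroots θ r (Multiset.mem_of_mem_erase hr)).trans (pow_le_pow_right₀ (hone θ) ?_))
        (norm_nonneg _)
    exact (Multiset.card_erase_le).trans (hcard θ)
  · have h1 : aeval f P = 0 := by
      apply Subtype.ext
      exact (aeval_algebraMap_apply ℂ f P).symm.trans (minpoly.aeval _ _)
    have h2 := congrArg φ h1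
    rw [aeval_def, hom_eval₂, hφ, eval₂_at_zero, ← hb, map_zero, algEquivOfTranscendental_apply,
      RingHom.comp_apply, ← aeval_algebraMap_apply] at h2
    exact (aeval_algHom_apply φ.toIntAlgHom _ b).trans h2

end

section tower

variable {F : Type*} [Field F] [Algebra F ℂ]

lemma tower_step (E : IntermediateField F ℂ) (hE : FiniteDimensional F E) {P : ℂ[X]} (hP0 : P ≠ 0)
    (hPc : ∀ j, P.coeff j ∈ E) {x : ℂ} (hx : P.eval x = 0) :
    ∃ E' : IntermediateField F ℂ, E ≤ E' ∧ x ∈ E' ∧ FiniteDimensional F E' ∧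
      Module.finrank F E' ≤ Module.finrank F E * P.natDegree := by
  obtain ⟨Q, hQ, hdeg⟩ := exists_natDegree_eq_of_mem_lifts
    ((lifts_iff_coeff_lifts (f := algebraMap E ℂ) P).mpr fun j => ⟨⟨_, hPc j⟩, rfl⟩)
  obtain ⟨h1, h2⟩ := finrank_adjoin_le (F := E) (x := x) (P := Q)
    (by rintro rfl; exact hP0 (by simpa using hQ.symm)) (by rw [aeval_def, ← eval_map, hQ, hx])
  refine ⟨(E⟮x⟯).restrictScalars F, fun y hy => (E⟮x⟯).algebraMap_mem ⟨y, hy⟩,
    mem_adjoin_simple_self E x, Module.Finite.trans (R := F) E E⟮x⟯, ?_⟩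
  have h3 : Module.finrank F ((E⟮x⟯).restrictScalars F) =
      Module.finrank F E * Module.finrank E E⟮x⟯ := (Module.finrank_mul_finrank F E E⟮x⟯).symm
  rw [h3, ← hdeg]
  exact Nat.mul_le_mul_left _ h2

lemma tower_fin {ι : Type*} (s : Finset ι) (E : IntermediateField F ℂ) (hE : FiniteDimensional F E)
    (P : ι → ℂ[X]) (x : ι → ℂ) {c : ℕ} (hP0 : ∀ i, P i ≠ 0) (hPc : ∀ i j, (P i).coeff j ∈ E)
    (hx : ∀ i, (P i).eval (x i) = 0) (hc : ∀ i, (P i).natDegree ≤ c) :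
    ∃ E' : IntermediateField F ℂ, E ≤ E' ∧ (∀ i ∈ s, x i ∈ E') ∧ FiniteDimensional F E' ∧
      Module.finrank F E' ≤ Module.finrank F E * c ^ s.card := by
  classical
  induction s using Finset.induction_on with
  | empty => exact ⟨E, le_rfl, by simp, hE, by simp⟩
  | insert a s ha ih =>
    obtain ⟨E1, h1, h2, h3, h4⟩ := ih
    obtain ⟨E2, h5, h6, h7, h8⟩ := tower_step E1 h3 (hP0 a) (fun j => h1 (hPc a j)) (hx a)
    refine ⟨E2, h1.trans h5, fun i hi => ?_, h7, h8.trans ?_⟩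
    · rcases Finset.mem_insert.mp hi with rfl | hi
      · exact h6
      · exact h5 (h2 i hi)
    · rw [Finset.card_insert_of_notMem ha, pow_succ, ← mul_assoc]
      exact Nat.mul_le_mul h4 (hc a)

end tower

lemma ev2_mem {σ : Type*} [SetLike σ ℂ] [SubringClass σ ℂ] {L : σ} {s t : ℂ} (hs : s ∈ L)
    (ht : t ∈ L) {p : ℤ[X][X]} {c : ℕ} {mu : ℝ} (h : Bd2 p c mu) : ev2 s t p ∈ L := by
  rw [ev2_eq s t h]
  exact sum_mem fun j _ => sum_mem fun i _ =>
    mul_mem (mul_mem (intCast_mem L _) (pow_mem hs _)) (pow_mem ht _)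

lemma aeval_mem {σ : Type*} [SetLike σ ℂ] [SubringClass σ ℂ] {L : σ} {s : ℂ} (hs : s ∈ L)
    (p : ℤ[X]) : aeval s p ∈ L := by
  rw [aeval_eq_sum_range]
  exact sum_mem fun j _ => zsmul_mem (pow_mem hs _) _

lemma exists_funField {θ t : ℂ} (hθ : Transcendental ℤ θ) {P0 : ℂ[X]} (hP0 : P0 ≠ 0)
    (hP0c : ∀ j, ∃ r : ℤ[X], P0.coeff j = aeval θ r) (ht : P0.eval t = 0) {ι : Type*} [Fintype ι]
    (G : ι → ℤ[X][X][X]) (x : ι → ℂ) {c : ℕ} {mu : ℝ} (hc0 : P0.natDegree ≤ c)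
    (hG0 : ∀ i, (G i).map (ev2 θ t) ≠ 0) (hG : ∀ i k, Bd2 ((G i).coeff k) c mu)
    (hx : ∀ i, ((G i).map (ev2 θ t)).eval (x i) = 0) (hc : ∀ i, (G i).natDegree ≤ c) :
    ∃ L : Subfield ℂ, θ ∈ L ∧ t ∈ L ∧ (∀ i, x i ∈ L) ∧ ∀ f : integralClosure (Ag θ) ℂ,
      (f : ℂ) ∈ L → (minpoly (Ag θ) (f : ℂ)).natDegree ≤ c ^ (Fintype.card ι + 1) := by
  have := icl hθ
  let _ := FractionRing.liftAlgebra (Ag θ) ℂ
  have := FractionRing.isScalarTower_liftAlgebra (Ag θ) ℂ
  have hθ0 : θ ∈ (⊥ : IntermediateField (FractionRing (Ag θ)) ℂ) := by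
    have := (⊥ : IntermediateField (FractionRing (Ag θ)) ℂ).algebraMap_mem
      (algebraMap (Ag θ) _ ⟨θ, Algebra.self_mem_adjoin_singleton ℤ θ⟩)
    rwa [← IsScalarTower.algebraMap_apply] at this
  obtain ⟨E1, h1, h2, h3, h4⟩ := tower_step (⊥ : IntermediateField (FractionRing (Ag θ)) ℂ)
    inferInstance hP0 (fun j => by
      obtain ⟨r, hr⟩ := hP0c j
      rw [hr]; exact aeval_mem hθ0 r) ht
  obtain ⟨E2, h5, h6, h7, h8⟩ := tower_fin Finset.univ E1 h3 (fun i => (G i).map (ev2 θ t)) x hG0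
    (fun i j => by rw [coeff_map]; exact ev2_mem (h1 hθ0) h2 (hG i j)) hx
    (fun i => natDegree_map_le.trans (hc i))
  refine ⟨E2.toSubfield, h5 (h1 hθ0), h5 h2, fun i => h6 i (Finset.mem_univ _), fun f hf => ?_⟩
  have hfi : IsIntegral (Ag θ) (f : ℂ) := f.2
  rw [← (minpoly.monic hfi).natDegree_map (algebraMap _ (FractionRing (Ag θ))),
    ← minpoly.isIntegrallyClosed_eq_field_fractions' _ hfi]
  have h9 := minpoly.natDegree_le (A := FractionRing (Ag θ)) (⟨f, hf⟩ : E2)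
  rw [← minpoly.algebraMap_eq (B' := ℂ) Subtype.val_injective] at h9
  refine h9.trans (h8.trans ?_)
  rw [IntermediateField.finrank_bot, one_mul] at h4
  rw [pow_succ', Finset.card_univ]
  exact Nat.mul_le_mul_right _ (h4.trans hc0)

end Pool.Agent.Lib.MP_12eca1_ag
end

-- part Pool.Agent.Lib.MP_12eca1_ag.Small
section

/-!
Small multiplicative relations.
-/

namespace Pool.Agent.Lib.MP_12eca1_ag

open Polynomial Height NumberField

section heights

variable {K : Type*} [Field K] [NumberField K]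

lemma logHeight_le_of_sz {x : K} {lam : ℝ} {D : ℕ} (h : Sz x (Real.exp lam)) (hlam : 0 ≤ lam)
    (hD : Module.finrank ℚ K ≤ D) : logHeight₁ x ≤ D * lam := by
  rw [logHeight₁_eq_log_mulHeight₁, Real.log_le_iff_le_exp (mulHeight₁_pos x),
    NumberField.mulHeight₁_eq, finprod_eq_one_of_forall_eq_one, mul_one]
  · calc ∏ v : InfinitePlace K, max (v x) 1 ^ v.mult
        ≤ ∏ v : InfinitePlace K, Real.exp lam ^ v.mult :=
          Finset.prod_le_prod (fun v _ => by positivity) fun v _ =>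
            pow_le_pow_left₀ (by positivity) (max_le ((InfinitePlace.le_iff_le x _).mpr h.2 v)
              (Real.one_le_exp hlam)) _
      _ = Real.exp lam ^ Module.finrank ℚ K := by
          rw [Finset.prod_pow_eq_pow_sum, InfinitePlace.sum_mult_eq]
      _ ≤ _ := by rw [Real.exp_nat_mul]; exact pow_le_pow_right₀ (Real.one_le_exp hlam) hD
  · intro v
    rw [max_eq_right]
    rw [← v.norm_embedding_eq]
    exact FinitePlace.norm_le_one K v.maximalIdeal (⟨x, h.1⟩ : 𝓞 K)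

lemma norm_le_mulHeight (x : K) (σ : K →+* ℂ) : ‖σ x‖ ≤ mulHeight₁ x := by
  classical
  rw [NumberField.mulHeight₁_eq]
  refine le_trans ?_ (le_mul_of_one_le_right (by positivity)
    (one_le_finprod fun _ => le_max_right _ _))
  refine le_trans ?_ (Finset.prod_le_prod_of_subset_of_one_le
    (f := fun v : InfinitePlace K => max (v x) 1 ^ v.mult)
    (Finset.subset_univ {InfinitePlace.mk σ}) (fun v _ => by positivity)
    fun v _ _ => one_le_pow₀ (le_max_right _ _))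
  rw [Finset.prod_singleton]
  exact (le_max_left _ 1).trans (le_self_pow₀ (le_max_right _ _) InfinitePlace.mult_ne_zero)

lemma logHeight_rel {ι : Type*} [Fintype ι] (c : ι → K) (hc : ∀ i, c i ≠ 0) {h : ℝ}
    (hh : ∀ i, logHeight₁ (c i) ≤ h) {m a : ι → ℤ} {M τ Q : ℕ} (hM : 0 < M)
    (hQ : ∀ i, Q * |M * a i - τ * m i| ≤ M) (hm : ∏ i, c i ^ m i = 1) :
    Q * logHeight₁ (∏ i, c i ^ a i) ≤ Fintype.card ι * h := by
  have h1 : (∏ i, c i ^ a i) ^ M = ∏ i, c i ^ (M * a i - τ * m i) := by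
    have h2 : ∏ i, c i ^ ((τ : ℤ) * m i) = 1 := by
      have := congrArg (· ^ τ) hm
      simp only [← Finset.prod_pow, one_pow] at this
      rw [← this]
      exact Finset.prod_congr rfl fun i _ => by rw [mul_comm, zpow_mul, zpow_natCast]
    simp only [zpow_sub₀ (hc _), Finset.prod_div_distrib, h2, div_one, ← Finset.prod_pow]
    exact Finset.prod_congr rfl fun i _ => by rw [mul_comm, zpow_mul, zpow_natCast]
  have h2 := logHeight₁_prod_le Finset.univ fun i => c i ^ (M * a i - τ * m i)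
  rw [← h1, logHeight₁_pow] at h2
  have h3 : ∀ i, Q * logHeight₁ (c i ^ (M * a i - τ * m i)) ≤ M * h := fun i => by
    rw [logHeight₁_zpow, ← mul_assoc]
    refine mul_le_mul ?_ (hh i) (zero_le_logHeight₁ _) (Nat.cast_nonneg _)
    have := hQ i
    rw [← Int.natCast_natAbs] at this
    exact_mod_cast this
  have h4 := Finset.sum_le_card_nsmul Finset.univ _ _ fun i _ => h3 i
  rw [← Finset.mul_sum, nsmul_eq_mul, Finset.card_univ] at h4
  have hM' : (0 : ℝ) < M := by exact_mod_cast hM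
  apply le_of_mul_le_mul_left _ hM'
  have h5 := mul_le_mul_of_nonneg_left h2 (Nat.cast_nonneg (α := ℝ) Q)
  nlinarith

end heights

lemma uniform_kronecker (D : ℕ) : ∃ N : ℕ, ∀ (K : IntermediateField ℚ ℂ) [NumberField K],
    Module.finrank ℚ K ≤ D → ∀ γ : K, γ ≠ 0 → 2 * N * logHeight₁ γ ≤ 1 → γ ^ N.factorial = 1 := by
  classical
  have hfin := bUnion_roots_finite (algebraMap ℤ ℂ) D (Set.finite_Icc (-(4 ^ D) : ℤ) (4 ^ D))
  refine ⟨hfin.toFinset.card, fun K _ hD γ hγ hh => ?_⟩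
  have key : ∀ j ∈ Finset.range (hfin.toFinset.card + 1), ((γ ^ j : K) : ℂ) ∈ hfin.toFinset := by
    intro j hj
    have hj' : (j : ℝ) ≤ hfin.toFinset.card := by
      exact_mod_cast Nat.lt_succ_iff.mp (Finset.mem_range.mp hj)
    have h1 : mulHeight₁ (γ ^ j) < 2 := by
      have h2 : logHeight₁ (γ ^ j) ≤ 1 / 2 := by
        rw [logHeight₁_pow]; nlinarith [zero_le_logHeight₁ γ]
      rw [logHeight₁_eq_log_mulHeight₁] at h2
      refine (Real.log_lt_log_iff (mulHeight₁_pos _) two_pos).mp ?_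
      linarith [Real.log_two_gt_d9]
    obtain ⟨n, hn0, hn1, hn2⟩ := NumberField.exists_nat_le_mulHeight₁ (γ ^ j)
    have hn : n = 1 := by
      have : (n : ℝ) < 2 := hn1.trans_lt h1
      have : n < 2 := by exact_mod_cast this
      omega
    rw [hn, Nat.cast_one, one_mul] at hn2
    have hmap := minpoly.isIntegrallyClosed_eq_field_fractions' ℚ hn2
    simp only [Set.Finite.mem_toFinset, Set.mem_iUnion]
    refine ⟨minpoly ℤ (γ ^ j), ⟨?_, fun i => ?_⟩, ?_⟩
    · rw [← (minpoly.monic hn2).natDegree_map (algebraMap ℤ ℚ), ← hmap]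
      exact (minpoly.natDegree_le _).trans hD
    · have h3 := Embeddings.coeff_bdd_of_norm_le (A := ℂ) (B := 2) (x := γ ^ j)
        (fun φ => (norm_le_mulHeight _ φ).trans h1.le) i
      rw [hmap, coeff_map, eq_intCast, Int.norm_cast_rat, Int.norm_eq_abs] at h3
      rw [Set.mem_Icc, ← abs_le, ← @Int.cast_le ℝ]
      push_cast
      refine h3.trans ?_
      have h4 : ((Module.finrank ℚ K).choose (Module.finrank ℚ K / 2) : ℝ) ≤
          2 ^ Module.finrank ℚ K := by exact_mod_cast Nat.choose_le_two_pow _ _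
      calc _ ≤ (2 : ℝ) ^ Module.finrank ℚ K * 2 ^ Module.finrank ℚ K := by
            rw [max_eq_left one_le_two]; gcongr
        _ = 4 ^ Module.finrank ℚ K := by rw [← mul_pow]; norm_num
        _ ≤ _ := pow_le_pow_right₀ (by norm_num) hD
    · rw [Finset.mem_coe, Multiset.mem_toFinset, mem_roots ((minpoly.monic hn2).map _).ne_zero,
        IsRoot, eval_map_algebraMap, ← aeval_coe, minpoly.aeval]
      rfl
  obtain ⟨a, ha, b, hb, hab, h⟩ := Finset.exists_ne_map_eq_of_card_lt_of_maps_to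
    (by simp) key
  have h' : γ ^ a = γ ^ b := Subtype.ext h
  wlog hlt : b < a generalizing a b
  · exact this b hb a ha hab.symm h.symm h'.symm (by omega)
  have h1 : γ ^ (a - b) = 1 := by
    rw [← Nat.sub_add_cancel hlt.le, pow_add] at h'
    exact (mul_eq_right₀ (pow_ne_zero _ hγ)).mp h'
  obtain ⟨k, hk⟩ := Nat.dvd_factorial (show 0 < a - b by omega)
    (show a - b ≤ hfin.toFinset.card by have := Finset.mem_range.mp ha; omega)
  rw [hk, pow_mul, h1, one_pow]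

lemma simul_dirichlet {ι : Type*} [Fintype ι] (m : ι → ℤ) {M Q : ℕ} (hM : 0 < M) (hQ : 0 < Q) :
    ∃ (τ : ℕ) (a : ι → ℤ), 1 ≤ τ ∧ τ ≤ Q ^ Fintype.card ι ∧
      ∀ i, Q * |M * a i - τ * m i| ≤ M := by
  classical
  have hM' : (0 : ℤ) < M := by exact_mod_cast hM
  obtain ⟨s, hs, t, ht, hst, h⟩ := Finset.exists_ne_map_eq_of_card_lt_of_maps_to
    (s := Finset.range (Q ^ Fintype.card ι + 1))
    (t := Fintype.piFinset fun _ : ι => Finset.Ico (0 : ℤ) Q)
    (f := fun t : ℕ => fun i => (Q * ((t * m i) % M)) / M) (by simp) (by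
      intro t _
      simp only [Finset.mem_coe, Fintype.mem_piFinset, Finset.mem_Ico]
      intro i
      have h1 := Int.emod_nonneg (t * m i) hM'.ne'
      have h2 := Int.emod_lt_of_pos (t * m i) hM'
      refine ⟨Int.ediv_nonneg (by positivity) hM'.le, Int.ediv_lt_of_lt_mul hM' ?_⟩
      exact mul_lt_mul_of_pos_left h2 (by exact_mod_cast hQ))
  wlog hlt : t < s generalizing s t
  · exact this t ht s hs hst.symm h.symm (by omega)
  refine ⟨s - t, fun i => s * m i / M - t * m i / M, by omega, by simp at hs; omega, fun i => ?_⟩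
  have h1 := congrFun h i
  have h2 := Int.mul_ediv_add_emod (s * m i) M
  have h3 := Int.mul_ediv_add_emod (t * m i) M
  have h4 := Int.mul_ediv_add_emod (Q * ((s * m i) % M)) M
  have h5 := Int.mul_ediv_add_emod (Q * ((t * m i) % M)) M
  have h6 := Int.emod_nonneg (Q * ((s * m i) % M)) hM'.ne'
  have h7 := Int.emod_lt_of_pos (Q * ((s * m i) % M)) hM'
  have h8 := Int.emod_nonneg (Q * ((t * m i) % M)) hM'.ne'
  have h9 := Int.emod_lt_of_pos (Q * ((t * m i) % M)) hM'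
  have e : (M : ℤ) * (s * m i / M - t * m i / M) - ((s - t : ℕ) : ℤ) * m i =
      (t * m i) % M - (s * m i) % M := by
    rw [Nat.cast_sub hlt.le]; linarith
  rw [e, ← abs_of_nonneg (Int.natCast_nonneg Q), ← abs_mul, abs_le]
  rw [h1] at h4
  constructor <;> linarith

lemma exists_conj {S : Type*} [CommRing S] (φ : S →+* ℂ) (hφ : ∀ x, IsIntegral ℤ (φ x))
    (K : IntermediateField ℚ ℂ) (σ : K →+* ℂ) :
    ∃ ψ : S →+* ℂ, ∀ x (hx : φ x ∈ K), ψ x = σ ⟨φ x, hx⟩ := by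
  obtain ⟨ρ, hρ⟩ := exists_hom_extend (S := integralClosure K ℂ) (RingHom.injective _) σ
  refine ⟨ρ.comp (φ.codRestrict (integralClosure K ℂ) fun x => (hφ x).tower_top), fun x hx => ?_⟩
  rw [← hρ]; rfl

lemma sz_of_sg {S : Type*} [CommRing S] (φ : S →+* ℂ) (hφ : ∀ x, IsIntegral ℤ (φ x))
    {K : IntermediateField ℚ ℂ} {g x : S} {t : ℤ} (hg : φ g = t) (hx : φ x ∈ K) {lam : ℝ} {d : ℕ}
    (h : Sg g x lam d) : Sz (⟨φ x, hx⟩ : K) (Real.exp lam * max 1 |(t : ℝ)| ^ d) := by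
  refine ⟨(isIntegral_algHom_iff K.val.toRingHom.toIntAlgHom Subtype.val_injective).mp (hφ x),
    fun σ => ?_⟩
  obtain ⟨ψ, hψ⟩ := exists_conj φ hφ K σ
  have h1 := h ψ
  have h2 : ψ g = t := by
    rw [hψ g (hg ▸ intCast_mem K t)]
    exact (congrArg σ (Subtype.ext hg)).trans (map_intCast σ t)
  rwa [hψ x hx, h2, Complex.norm_intCast] at h1

/-- numerator of a monomial in quotients -/
def Um {S ι : Type*} [CommRing S] [Fintype ι] (η β : ι → S) (m : ι → ℤ) : S :=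
  ∏ i, η i ^ (m i).toNat * β i ^ (-m i).toNat

lemma map_Um {S T ι : Type*} [CommRing S] [CommRing T] [Fintype ι] (φ : S →+* T) (η β : ι → S)
    (m : ι → ℤ) : φ (Um η β m) = Um (fun i => φ (η i)) (fun i => φ (β i)) m := by
  simp [Um]

lemma Um_eq {T ι : Type*} [Field T] [Fintype ι] {η β : ι → T} (hη : ∀ i, η i ≠ 0)
    (hβ : ∀ i, β i ≠ 0) (m : ι → ℤ) : Um η β m = Um η β (-m) * ∏ i, (η i / β i) ^ m i := by
  rw [Um, Um, ← Finset.prod_mul_distrib]
  refine Finset.prod_congr rfl fun i _ => ?_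
  have h1 := hη i
  have h2 := hβ i
  obtain ⟨n, hn | hn⟩ := (m i).eq_nat_or_neg <;> simp [hn, div_pow] <;> field_simp

lemma Um_ne_zero {T ι : Type*} [Field T] [Fintype ι] {η β : ι → T} (hη : ∀ i, η i ≠ 0)
    (hβ : ∀ i, β i ≠ 0) (m : ι → ℤ) : Um η β m ≠ 0 :=
  Finset.prod_ne_zero_iff.mpr fun i _ => mul_ne_zero (pow_ne_zero _ (hη i)) (pow_ne_zero _ (hβ i))

lemma Um_iff {T ι : Type*} [Field T] [Fintype ι] {η β : ι → T} (hη : ∀ i, η i ≠ 0)
    (hβ : ∀ i, β i ≠ 0) (m : ι → ℤ) : Um η β m = Um η β (-m) ↔ ∏ i, (η i / β i) ^ m i = 1 := by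
  rw [Um_eq hη hβ m]
  exact mul_eq_left₀ (Um_ne_zero hη hβ _)

lemma sg_Um {S ι : Type*} [CommRing S] [Fintype ι] {g : S} {η β : ι → S} {lam : ℝ} {d q : ℕ}
    (hη : ∀ i, Sg g (η i) lam d) (hβ : ∀ i, Sg g (β i) lam d) (hlam : 0 ≤ lam) {m : ι → ℤ}
    (hm : ∀ i, |m i| ≤ q) :
    Sg g (Um η β m) (Fintype.card ι * (q * lam)) (Fintype.card ι * (q * d)) := by
  refine Sg.prod _ _ fun i _ => ?_
  have h1 : (m i).toNat + (-m i).toNat ≤ q := by have := abs_le.mp (hm i); omega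
  refine (((hη i).pow _).mul ((hβ i).pow _)).mono ?_ ?_
  · rw [← add_mul]; gcongr; exact_mod_cast h1
  · rw [← add_mul]; gcongr

lemma Um_mem {σ ι : Type*} [SetLike σ ℂ] [SubringClass σ ℂ] {L : σ} [Fintype ι] {η β : ι → ℂ}
    (hη : ∀ i, η i ∈ L) (hβ : ∀ i, β i ∈ L) (m : ι → ℤ) : Um η β m ∈ L :=
  prod_mem fun i _ => mul_mem (pow_mem (hη i) _) (pow_mem (hβ i) _)

lemma coe_Um {R ι : Type*} [CommRing R] [Algebra R ℂ] [Fintype ι] (η β : ι → integralClosure R ℂ)
    (m : ι → ℤ) : ((Um η β m : integralClosure R ℂ) : ℂ) = Um (fun i => (η i : ℂ))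
      (fun i => (β i : ℂ)) m := map_Um (integralClosure R ℂ).val.toRingHom η β m

theorem small_relation (ι : Type*) [Fintype ι] (ν : ℕ) : ∃ N : ℕ, ∀ {θ : ℂ}, Transcendental ℤ θ →
    ∀ (L : Subfield ℂ), (∀ f : integralClosure (Ag θ) ℂ,
      (f : ℂ) ∈ L → (minpoly (Ag θ) (f : ℂ)).natDegree ≤ ν) →
    ∀ (η β : ι → integralClosure (Ag θ) ℂ) {lam mu : ℝ} {d : ℕ}, (∀ i, (η i : ℂ) ≠ 0) →
    (∀ i, (β i : ℂ) ≠ 0) → (∀ i, (η i : ℂ) ∈ L) → (∀ i, (β i : ℂ) ∈ L) →
    (∀ i, Sg (gen θ) (η i) lam d) → (∀ i, Sg (gen θ) (β i) lam d) → 0 ≤ lam → 0 ≤ mu →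
    ∀ (m a : ι → ℤ) {M τ Q T : ℕ}, 0 < M → 0 < Q → (∀ i, Q * |M * a i - τ * m i| ≤ M) →
    (∀ i, |a i| ≤ T) →
    ((ν * (Fintype.card ι * ((N.factorial * T + 2) * d)) : ℕ) : ℝ) ≤ Real.exp mu →
    4 * N * Fintype.card ι * (ν ^ (2 * Fintype.card ι) * (lam + d * mu)) ≤ Q →
    ∏ i, ((η i : ℂ) / β i) ^ m i = 1 → ∏ i, ((η i : ℂ) / β i) ^ (N.factorial * a i) = 1 := by
  obtain ⟨N, hN⟩ := uniform_kronecker (ν ^ (2 * Fintype.card ι))
  refine ⟨N, fun {θ} hθ L hL η β lam mu d hη0 hβ0 hηL hβL hηS hβS hlam hmu m a M τ Q T hM hQ hma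
    haT hp1 hp2 hrel => ?_⟩
  by_contra hcon
  set a' : ι → ℤ := fun i => N.factorial * a i with ha'
  have ha'T : ∀ i, |a' i| ≤ (N.factorial * T : ℕ) := fun i => by
    rw [ha', abs_mul, Nat.abs_cast]; push_cast; gcongr; exact haT i
  have h1 : Um η β m = Um η β (-m) := Subtype.ext (by
    rw [coe_Um, coe_Um]; exact (Um_iff hη0 hβ0 m).mpr hrel)
  set F := (Um η β a' - Um η β (-a')) * ∏ i, η i * β i with hF
  have hF0 : (F : ℂ) ≠ 0 := by
    rw [hF]; push_cast
    refine mul_ne_zero (sub_ne_zero.mpr ?_)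
      (Finset.prod_ne_zero_iff.mpr fun i _ => mul_ne_zero (hη0 i) (hβ0 i))
    rw [coe_Um, coe_Um]
    exact fun h => hcon ((Um_iff hη0 hβ0 a').mp h)
  have hFL : (F : ℂ) ∈ L := by
    rw [hF]; push_cast
    rw [coe_Um, coe_Um]
    exact mul_mem (sub_mem (Um_mem hηL hβL _) (Um_mem hηL hβL _))
      (prod_mem fun i _ => mul_mem (hηL i) (hβL i))
  have hFS := ((sg_Um hηS hβS hlam ha'T).sub (sg_Um hηS hβS hlam (m := -a')
    fun i => by simpa using ha'T i)).mul (Sg.prod Finset.univ _ fun i _ => (hηS i).mul (hβS i))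
  obtain ⟨b, hb0, hbd, -, -, hb⟩ := norm_poly hθ hF0 (hL F hFL) hFS (by positivity)
  obtain ⟨t, ht1, ht2⟩ : ∃ t : ℕ, t ≤ b.natDegree ∧ b.eval (t : ℤ) ≠ 0 := by
    by_contra h
    push Not at h
    refine hb0 (eq_zero_of_natDegree_lt_card_of_eval_eq_zero b
      (f := fun t : Fin (b.natDegree + 1) => ((t : ℕ) : ℤ)) (fun s t hst => ?_)
      (fun t => h t (Nat.lt_succ_iff.mp t.2)) (by simp))
    exact Fin.ext (by simpa using hst)
  have ht3 : max 1 |((t : ℤ) : ℝ)| ≤ Real.exp mu := by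
    refine max_le (Real.one_le_exp hmu) (le_trans ?_ hp1)
    rw [Int.cast_natCast, Nat.abs_cast]
    exact_mod_cast ht1.trans (hbd.trans (le_of_eq (by rw [Finset.card_univ]; ring)))
  obtain ⟨φ, hφ1, hφ2⟩ := exists_hom_over hθ ((t : ℤ) : ℂ)
  have hφF : φ F ≠ 0 := fun h => ht2 (by
    have := hb φ h
    rw [hφ2, ← eq_intCast (algebraMap ℤ ℂ), aeval_algebraMap_apply] at this
    simpa using this)
  have hint : ∀ x, IsIntegral ℤ (φ x) := fun x =>
    IsIntegral.map_of_comp_eq ((evalRingHom (t : ℤ)).comp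
      (algEquivOfTranscendental ℤ θ hθ).symm.toRingHom) φ (by
        ext a
        obtain ⟨c, rfl⟩ := (algEquivOfTranscendental ℤ θ hθ).surjective a
        rw [RingHom.comp_apply φ, hφ1, spec_aeval, ← eq_intCast (algebraMap ℤ ℂ),
          aeval_algebraMap_apply]
        simp) (integralClosure.isIntegral x)
  rw [hF, map_mul, map_prod] at hφF
  have hφη : ∀ i, φ (η i) ≠ 0 := fun i h => right_ne_zero_of_mul hφF
    (Finset.prod_eq_zero (Finset.mem_univ i) (by rw [map_mul, h, zero_mul]))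
  have hφβ : ∀ i, φ (β i) ≠ 0 := fun i h => right_ne_zero_of_mul hφF
    (Finset.prod_eq_zero (Finset.mem_univ i) (by rw [map_mul, h, mul_zero]))
  let x : ι ⊕ ι → integralClosure (Ag θ) ℂ := Sum.elim η β
  have hxL : ∀ i, (x i : ℂ) ∈ L := by rintro (i | i); exacts [hηL i, hβL i]
  obtain ⟨K, -, hK1, hK2, hK3⟩ := tower_fin Finset.univ (⊥ : IntermediateField ℚ ℂ) inferInstance
    (fun i => (minpoly (Ag θ) (x i : ℂ)).map (spec hθ ((t : ℤ) : ℂ))) (fun i => φ (x i)) (c := ν)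
    (fun i => ((minpoly.monic (x i).2).map _).ne_zero)
    (fun i j => by
      obtain ⟨c, hc⟩ := (algEquivOfTranscendental ℤ θ hθ).surjective
        ((minpoly (Ag θ) (x i : ℂ)).coeff j)
      rw [coeff_map, ← hc, spec_aeval]
      exact aeval_mem (intCast_mem _ _) c)
    (fun i => by
      have h2 : aeval (x i) (minpoly (Ag θ) (x i : ℂ)) = 0 :=
        Subtype.ext ((aeval_algebraMap_apply ℂ (x i) _).symm.trans (minpoly.aeval _ _))
      have h3 := congrArg φ h2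
      rw [aeval_def, hom_eval₂, map_zero] at h3
      rw [eval_map, ← h3]
      congr 1
      exact RingHom.ext fun a => (hφ1 a).symm)
    (fun i => natDegree_map_le.trans (hL _ (hxL i)))
  have := numberField_of K hK2
  have hD : Module.finrank ℚ K ≤ ν ^ (2 * Fintype.card ι) := by
    simpa [two_mul] using hK3
  let η' : ι → K := fun i => ⟨φ (η i), hK1 (Sum.inl i) (Finset.mem_univ _)⟩
  let β' : ι → K := fun i => ⟨φ (β i), hK1 (Sum.inr i) (Finset.mem_univ _)⟩
  have hη' : ∀ i, η' i ≠ 0 := fun i h => hφη i (congrArg Subtype.val h)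
  have hβ' : ∀ i, β' i ≠ 0 := fun i h => hφβ i (congrArg Subtype.val h)
  have hU : ∀ m, ((Um η' β' m : K) : ℂ) = φ (Um η β m) := fun m => by
    rw [map_Um]; exact map_Um K.val.toRingHom η' β' m
  have hsz : ∀ {u : integralClosure (Ag θ) ℂ} (hu : φ u ∈ K), Sg (gen θ) u lam d →
      logHeight₁ (⟨φ u, hu⟩ : K) ≤ (ν ^ (2 * Fintype.card ι) : ℕ) * (lam + d * mu) := by
    intro u hu h
    refine logHeight_le_of_sz ((sz_of_sg φ hint hφ2 hu h).mono ?_) (by positivity) hD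
    exact mul_le_exp le_rfl (pow_le_exp ht3 (by positivity) hmu le_rfl) (by positivity)
  have h2 := logHeight_rel (fun i => η' i / β' i) (fun i => div_ne_zero (hη' i) (hβ' i))
    (h := 2 * ((ν ^ (2 * Fintype.card ι) : ℕ) * (lam + d * mu))) (fun i => by
      rw [div_eq_mul_inv]
      refine (logHeight₁_mul_le _ _).trans ?_
      rw [logHeight₁_inv]
      linarith [hsz (η' i).2 (hηS i), hsz (β' i).2 (hβS i)]) hM hma
    ((Um_iff hη' hβ' m).mp (Subtype.ext (by rw [hU, hU, h1])))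
  have h3 := hN K hD (∏ i, (η' i / β' i) ^ a i) (Finset.prod_ne_zero_iff.mpr fun i _ =>
    zpow_ne_zero _ (div_ne_zero (hη' i) (hβ' i))) (by
      have hQ' : (0 : ℝ) < Q := by exact_mod_cast hQ
      apply le_of_mul_le_mul_left _ hQ'
      have := mul_le_mul_of_nonneg_left h2 (show (0 : ℝ) ≤ 2 * N by positivity)
      push_cast at this
      nlinarith)
  refine left_ne_zero_of_mul hφF ?_
  rw [map_sub, ← hU, ← hU, (Um_iff hη' hβ' a').mpr, sub_self]
  rw [← h3, ← Finset.prod_pow]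
  exact Finset.prod_congr rfl fun i _ => by
    simp only [ha']; rw [mul_comm, zpow_mul, zpow_natCast]

end Pool.Agent.Lib.MP_12eca1_ag
end
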