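import Mathlib

-- part Pool.Agent.Lib.MP_12eca1_ag.Zero
section

/-!
A zero estimate for exponential polynomials (Wronskian argument).
-/

namespace Pool.Agent.Lib.MP_12eca1_ag

open Polynomial

/-- the operator `q ↦ q' + b q` -/
noncomputable def dop {R : Type*} [CommRing R] (b : ℕ) (q : R[X]) : R[X] :=
  derivative q + C (b : R) * q

section ring

variable {R : Type*} [CommRing R]

lemma dop_map {S : Type*} [CommRing S] (f : R →+* S) (b : ℕ) (q : R[X]) :
    (dop b q).map f = dop b (q.map f) := by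
  simp [dop, derivative_map]

lemma iterate_dop_map {S : Type*} [CommRing S] (f : R →+* S) (b j : ℕ) (q : R[X]) :
    ((dop b)^[j] q).map f = (dop b)^[j] (q.map f) := by
  induction j with
  | zero => rfl
  | succ j ih => rw [Function.iterate_succ_apply', Function.iterate_succ_apply', dop_map, ih]

lemma dop_taylor (x : R) (b : ℕ) (q : R[X]) : dop b (taylor x q) = taylor x (dop b q) := by
  simp [dop, taylor_apply, derivative_comp]

lemma iterate_dop_taylor (x : R) (b j : ℕ) (q : R[X]) :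
    (dop b)^[j] (taylor x q) = taylor x ((dop b)^[j] q) := by
  induction j with
  | zero => rfl
  | succ j ih => rw [Function.iterate_succ_apply', Function.iterate_succ_apply', ih, dop_taylor]

lemma natDegree_dop_le (b : ℕ) (q : R[X]) {L : ℕ} (h : q.natDegree ≤ L) :
    (dop b q).natDegree ≤ L := by
  refine (natDegree_add_le _ _).trans (max_le ?_ ((natDegree_C_mul_le _ _).trans h))
  exact (natDegree_derivative_le q).trans (by omega)

lemma natDegree_iterate_dop_le (b j : ℕ) (q : R[X]) {L : ℕ} (h : q.natDegree ≤ L) :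
    ((dop b)^[j] q).natDegree ≤ L := by
  induction j with
  | zero => exact h
  | succ j ih => rw [Function.iterate_succ_apply']; exact natDegree_dop_le _ _ ih

lemma coeff_iterate_dop_top (b j : ℕ) (q : R[X]) {L : ℕ} (h : q.natDegree ≤ L) :
    ((dop b)^[j] q).coeff L = (b : R) ^ j * q.coeff L := by
  induction j with
  | zero => simp
  | succ j ih =>
    rw [Function.iterate_succ_apply', dop, coeff_add, coeff_C_mul, ih, coeff_derivative,
      coeff_eq_zero_of_natDegree_lt (Nat.lt_succ_of_le (natDegree_iterate_dop_le b j q h))]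
    ring

lemma coeff_prod_sum {ι : Type*} (s : Finset ι) (f : ι → R[X]) (d : ι → ℕ)
    (h : ∀ i ∈ s, (f i).natDegree ≤ d i) :
    (∏ i ∈ s, f i).coeff (∑ i ∈ s, d i) = ∏ i ∈ s, (f i).coeff (d i) := by
  classical
  induction s using Finset.induction_on with
  | empty => simp
  | insert a s ha ih =>
    have h2 : ∀ i ∈ s, (f i).natDegree ≤ d i := fun i hi => h i (Finset.mem_insert_of_mem hi)
    rw [Finset.prod_insert ha, Finset.sum_insert ha, Finset.prod_insert ha,
      coeff_mul_add_eq_of_natDegree_le (h a (Finset.mem_insert_self _ _))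
        ((natDegree_prod_le _ _).trans (Finset.sum_le_sum h2)), ih h2]

end ring

variable {K : Type*} [Field K] [CharZero K]

/-- the Wronskian -/
noncomputable def wron {m : ℕ} (b : Fin m → ℕ) (p : Fin m → K[X]) : K[X] :=
  (Matrix.of fun (i j : Fin m) => (dop (b j))^[i] (p j)).det

lemma wron_ne_zero {m : ℕ} (b : Fin m → ℕ) (hb : Function.Injective b) (p : Fin m → K[X])
    (hp : ∀ j, p j ≠ 0) : wron b p ≠ 0 := by
  intro h
  have h1 : (wron b p).coeff (∑ j, (p j).natDegree) =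
      (∏ j, (p j).leadingCoeff) * (Matrix.vandermonde fun j => (b j : K)).det := by
    rw [wron, Matrix.det_apply', ← Matrix.det_transpose, Matrix.det_apply', finsetSum_coeff,
      Finset.mul_sum]
    refine Finset.sum_congr rfl fun σ _ => ?_
    simp only [Matrix.of_apply]
    rw [← C_eq_intCast, coeff_C_mul, coeff_prod_sum _ _ _ fun j _ =>
      natDegree_iterate_dop_le _ _ _ le_rfl]
    simp only [coeff_iterate_dop_top _ _ _ le_rfl, Finset.prod_mul_distrib,
      Matrix.transpose_apply, Matrix.vandermonde_apply, leadingCoeff]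
    ring
  rw [h, coeff_zero] at h1
  refine mul_ne_zero (Finset.prod_ne_zero_iff.mpr fun j _ => leadingCoeff_ne_zero.mpr (hp j))
    (Matrix.det_vandermonde_ne_zero_iff.mpr ?_) h1.symm
  exact Nat.cast_injective.comp hb

omit [CharZero K] in
lemma natDegree_wron_le {m : ℕ} (b : Fin m → ℕ) (p : Fin m → K[X]) {L : ℕ}
    (hp : ∀ j, (p j).natDegree ≤ L) : (wron b p).natDegree ≤ m * L := by
  rw [wron, Matrix.det_apply']
  refine natDegree_sum_le_of_forall_le _ _ fun σ _ => ?_
  rw [← C_eq_intCast]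
  refine (natDegree_C_mul_le _ _).trans ((natDegree_prod_le _ _).trans ?_)
  refine (Finset.sum_le_sum fun j _ => natDegree_iterate_dop_le _ _ _ (hp j)).trans ?_
  simp

omit [CharZero K] in
lemma wron_taylor {m : ℕ} (b : Fin m → ℕ) (p : Fin m → K[X]) (x : K) :
    wron b (fun j => taylor x (p j)) = taylor x (wron b p) := by
  have := (taylorAlgHom x).toRingHom.map_det
    (Matrix.of fun (i j : Fin m) => (dop (b j))^[i] (p j))
  rw [wron, wron]
  refine Eq.trans ?_ this.symm
  congr 1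
  ext i j
  simp [iterate_dop_taylor]

/-- the power series of `exp (b X)` -/
noncomputable def expS (K : Type*) [Field K] (b : ℕ) : PowerSeries K :=
  PowerSeries.mk fun k => (b : K) ^ k / k.factorial

omit [CharZero K] in
lemma constantCoeff_expS (b : ℕ) : PowerSeries.constantCoeff (expS K b) = 1 := by
  rw [← PowerSeries.coeff_zero_eq_constantCoeff_apply, expS, PowerSeries.coeff_mk]
  simp

lemma derivative_expS (b : ℕ) :
    PowerSeries.derivative K (expS K b) = (b : PowerSeries K) * expS K b := by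
  ext k
  have h1 : ((k.factorial : ℕ) : K) ≠ 0 := by exact_mod_cast k.factorial_ne_zero
  have h2 : (k : K) + 1 ≠ 0 := by exact_mod_cast k.succ_ne_zero
  rw [PowerSeries.coeff_derivative, ← map_natCast (PowerSeries.C (R := K)), PowerSeries.coeff_C_mul]
  simp only [expS, PowerSeries.coeff_mk, Nat.factorial_succ]
  push_cast
  field_simp
  ring

lemma iterate_derivative_mul_expS (b j : ℕ) (q : K[X]) :
    (PowerSeries.derivative K)^[j] ((q : PowerSeries K) * expS K b) =
      (((dop b)^[j] q : K[X]) : PowerSeries K) * expS K b := by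
  induction j with
  | zero => rfl
  | succ j ih =>
    rw [Function.iterate_succ_apply', Function.iterate_succ_apply', ih, Derivation.leibniz,
      derivative_expS, PowerSeries.derivative_coe, dop]
    rw [Polynomial.coe_add, Polynomial.coe_mul, Polynomial.coe_C, map_natCast]
    simp only [smul_eq_mul]
    ring

lemma X_pow_dvd_wron {m : ℕ} (b : Fin m → ℕ) (p : Fin m → K[X]) (y : Fin m → K) (j0 : Fin m)
    (hy : y j0 ≠ 0) (T : ℕ)
    (h : ∀ i < T, ∑ j, y j * ((dop (b j))^[i] (p j)).eval 0 = 0) :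
    X ^ (T + 1 - m) ∣ wron b p := by
  classical
  let f : PowerSeries K := ∑ j, PowerSeries.C (y j) * ((p j : PowerSeries K) * expS K (b j))
  have hf : ∀ i, (PowerSeries.derivative K)^[i] f =
      ∑ j, PowerSeries.C (y j) * ((((dop (b j))^[i] (p j) : K[X]) : PowerSeries K) *
        expS K (b j)) := by
    intro i
    induction i with
    | zero => rfl
    | succ i ih =>
      rw [Function.iterate_succ_apply', ih, map_sum]
      refine Finset.sum_congr rfl fun j _ => ?_
      rw [Derivation.leibniz, PowerSeries.derivative_C, ← iterate_derivative_mul_expS,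
        ← iterate_derivative_mul_expS, Function.iterate_succ_apply']
      simp
  have hcoef : ∀ i < T, PowerSeries.coeff i f = 0 := by
    intro i hi
    have h1 := PowerSeries.constantCoeff_iterate_derivative f i
    rw [hf, map_sum] at h1
    have h2 : ∀ j, PowerSeries.constantCoeff (PowerSeries.C (y j) *
        ((((dop (b j))^[i] (p j) : K[X]) : PowerSeries K) * expS K (b j))) =
        y j * ((dop (b j))^[i] (p j)).eval 0 := by
      intro j
      rw [map_mul, map_mul, PowerSeries.constantCoeff_C, constantCoeff_expS, mul_one,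
        ← coeff_zero_eq_eval_zero, ← PowerSeries.coeff_zero_eq_constantCoeff_apply,
        Polynomial.coeff_coe]
    rw [Finset.sum_congr rfl fun j _ => h2 j, h i hi] at h1
    have h3 : ((i.factorial : ℕ) : K) ≠ 0 := by exact_mod_cast i.factorial_ne_zero
    simpa [h3] using h1.symm
  have hdvd : ∀ i : Fin m, (PowerSeries.X : PowerSeries K) ^ (T + 1 - m) ∣
      (PowerSeries.derivative K)^[i] f := by
    intro i
    rw [PowerSeries.X_pow_dvd_iff]
    intro k hk
    rw [PowerSeries.coeff_iterate_derivative, hcoef _ (by have := i.2; omega)]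
    simp
  let Φ : Matrix (Fin m) (Fin m) (PowerSeries K) :=
    Matrix.of fun i j => expS K (b j) * (((dop (b j))^[i] (p j) : K[X]) : PowerSeries K)
  have hΦ : Φ.det = (∏ j, expS K (b j)) * (wron b p : PowerSeries K) := by
    have h1 := (Polynomial.coeToPowerSeries.ringHom (R := K)).map_det
      (Matrix.of fun (i j : Fin m) => (dop (b j))^[i] (p j))
    rw [Polynomial.coeToPowerSeries.ringHom_apply] at h1
    rw [wron, h1, ← Matrix.det_mul_row]
    rfl
  have hmul : Φ.mulVec (fun j => PowerSeries.C (y j)) =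
      fun i : Fin m => (PowerSeries.derivative K)^[i] f := by
    funext i
    rw [hf]
    simp only [Matrix.mulVec, dotProduct, Φ, Matrix.of_apply]
    exact Finset.sum_congr rfl fun j _ => by ring
  have h1 : (PowerSeries.X : PowerSeries K) ^ (T + 1 - m) ∣ Φ.det * PowerSeries.C (y j0) := by
    have h2 := congrFun (Matrix.mulVec_mulVec (fun j => PowerSeries.C (y j)) Φ.adjugate Φ) j0
    rw [hmul, Matrix.adjugate_mul, Matrix.smul_mulVec, Matrix.one_mulVec] at h2
    simp only [Pi.smul_apply, smul_eq_mul] at h2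
    rw [← h2]
    simp only [Matrix.mulVec, dotProduct]
    exact Finset.dvd_sum fun i _ => (hdvd i).mul_left _
  have hu1 : IsUnit (PowerSeries.C (y j0) : PowerSeries K) := by
    rw [PowerSeries.isUnit_iff_constantCoeff]; simpa using hy
  have hu2 : IsUnit (∏ j, expS K (b j)) := by
    rw [PowerSeries.isUnit_iff_constantCoeff, map_prod]
    simp [constantCoeff_expS]
  rw [hu1.dvd_mul_right, hΦ, hu2.dvd_mul_left, PowerSeries.X_pow_dvd_iff] at h1
  rw [Polynomial.X_pow_dvd_iff]
  intro d hd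
  simpa using h1 d hd

theorem zero_estimate {M L S T : ℕ} (p : ℕ → K[X]) (hp : ∃ b < M, p b ≠ 0)
    (hL : ∀ b, (p b).natDegree ≤ L) (x : Fin S → K) (hx : Function.Injective x)
    (y : Fin S → ℕ → K) (hy : ∀ s b, y s b ≠ 0)
    (h : ∀ s, ∀ i < T, ∑ b ∈ Finset.range M, y s b * ((dop b)^[i] (p b)).eval (x s) = 0) :
    S * (T + 1 - M) ≤ M * L := by
  classical
  let I := (Finset.range M).filter fun b => p b ≠ 0
  let e := I.orderEmbOfFin rfl
  have heI : ∀ j, e j ∈ I := fun j => I.orderEmbOfFin_mem rfl j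
  have hm : I.card ≤ M := (Finset.card_filter_le _ _).trans (by simp)
  obtain ⟨b0, hb0, hb0'⟩ := hp
  have hpos : 0 < I.card := Finset.card_pos.mpr ⟨b0, by simp [I, hb0, hb0']⟩
  have hw := wron_ne_zero e e.injective (fun j => p (e j)) fun j => (Finset.mem_filter.mp (heI j)).2
  have hdeg := natDegree_wron_le e (fun j => p (e j)) fun j => hL _
  have hdvd : ∀ s, (X - C (x s)) ^ (T + 1 - M) ∣ wron e fun j => p (e j) := by
    intro s
    have h1 := X_pow_dvd_wron e (fun j => taylor (x s) (p (e j))) (fun j => y s (e j)) ⟨0, hpos⟩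
      (hy _ _) T (fun i hi => by
        simp only [iterate_dop_taylor, taylor_eval, zero_add]
        rw [← h s i hi]
        have h2 : ∑ b ∈ Finset.range M, y s b * ((dop b)^[i] (p b)).eval (x s) =
            ∑ b ∈ I, y s b * ((dop b)^[i] (p b)).eval (x s) := by
          symm
          apply Finset.sum_filter_of_ne
          intro b _ hb h0
          apply hb
          rw [h0, Function.iterate_fixed (by simp [dop])]
          simp
        rw [h2, ← Finset.sum_coe_sort I]
        exact Fintype.sum_equiv (I.orderIsoOfFin rfl).toEquiv _ _ fun j => rfl)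
    rw [wron_taylor] at h1
    have h2 := map_dvd (taylorAlgHom (-x s)) h1
    simp only [map_pow] at h2
    have h3 : taylorAlgHom (-x s) (X : K[X]) = X - C (x s) := by
      change taylor (-x s) X = _
      simp [sub_eq_add_neg]
    have h4 : ∀ q : K[X], taylorAlgHom (-x s) (taylor (x s) q) = q := by
      intro q
      change taylor (-x s) (taylor (x s) q) = q
      rw [taylor_taylor]; simp
    rw [h3, h4] at h2
    exact (pow_dvd_pow _ (by omega)).trans h2
  have hprod : ∏ s, (X - C (x s)) ^ (T + 1 - M) ∣ wron e fun j => p (e j) :=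
    Fintype.prod_dvd_of_coprime (fun s t hst => (pairwise_coprime_X_sub_C hx hst).pow) hdvd
  have h1 := natDegree_le_of_dvd hprod hw
  rw [natDegree_prod_of_monic _ _ fun s _ => (monic_X_sub_C _).pow _] at h1
  simp only [natDegree_pow, natDegree_X_sub_C, mul_one, Finset.sum_const, Finset.card_univ,
    Fintype.card_fin, smul_eq_mul] at h1
  exact h1.trans (hdeg.trans (Nat.mul_le_mul_right _ hm))

end Pool.Agent.Lib.MP_12eca1_ag
end

-- part Pool.Agent.Lib.MP_12eca1_ag.House
section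

/-!
Liouville type inequalities and elementary root estimates.
-/

namespace Pool.Agent.Lib.MP_12eca1_ag

open Polynomial

section sz

variable {K : Type*} [Field K] [NumberField K]

/-- `x` is an algebraic integer all of whose conjugates have modulus at most `B` -/
def Sz (x : K) (B : ℝ) : Prop := IsIntegral ℤ x ∧ ∀ σ : K →+* ℂ, ‖σ x‖ ≤ B

omit [NumberField K] in
lemma Sz.mono {x : K} {B B' : ℝ} (h : Sz x B) (hB : B ≤ B') : Sz x B' :=
  ⟨h.1, fun σ => (h.2 σ).trans hB⟩

lemma Sz.nonneg {x : K} {B : ℝ} (h : Sz x B) : 0 ≤ B :=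
  (norm_nonneg _).trans (h.2 (Classical.arbitrary _))

omit [NumberField K] in
lemma Sz.mul {x y : K} {B B' : ℝ} (h : Sz x B) (h' : Sz y B') : Sz (x * y) (B * B') :=
  ⟨h.1.mul h'.1, fun σ => by
    rw [map_mul, norm_mul]
    exact mul_le_mul (h.2 σ) (h'.2 σ) (norm_nonneg _) ((norm_nonneg _).trans (h.2 σ))⟩

omit [NumberField K] in
lemma Sz.pow {x : K} {B : ℝ} (h : Sz x B) (n : ℕ) : Sz (x ^ n) (B ^ n) :=
  ⟨h.1.pow n, fun σ => by
    rw [map_pow, norm_pow]
    exact pow_le_pow_left₀ (norm_nonneg _) (h.2 σ) n⟩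

omit [NumberField K] in
lemma Sz.intCast (n : ℤ) {B : ℝ} (h : |(n : ℝ)| ≤ B) : Sz (n : K) B :=
  ⟨by simpa using isIntegral_algebraMap (R := ℤ) (A := K) (x := n), fun σ => by
    rw [map_intCast, Complex.norm_intCast]; exact h⟩

omit [NumberField K] in
lemma Sz.natCast (n : ℕ) : Sz (n : K) n := by
  simpa using Sz.intCast (K := K) (n : ℤ) (B := n) (by simp)

omit [NumberField K] in
lemma Sz.sum {ι : Type*} (s : Finset ι) (f : ι → K) {B : ℝ} (h : ∀ i ∈ s, Sz (f i) B) :
    Sz (∑ i ∈ s, f i) (s.card * B) :=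
  ⟨IsIntegral.sum _ fun i hi => (h i hi).1, fun σ => by
    rw [map_sum]
    refine (norm_sum_le _ _).trans ?_
    have := Finset.sum_le_card_nsmul s (fun i => ‖σ (f i)‖) B fun i hi => (h i hi).2 σ
    simpa using this⟩

lemma Sz.liouville {x : K} {B : ℝ} (h : Sz x B) (hx : x ≠ 0) (hB : 1 ≤ B) {d : ℕ}
    (hd : Module.finrank ℚ K ≤ d + 1) (σ : K →+* ℂ) : 1 ≤ ‖σ x‖ * B ^ d := by
  have h1 := NumberField.norm_norm_le_norm_mul_house_pow x σ
  have h2 : NumberField.house x ≤ B := by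
    rw [NumberField.house, pi_norm_le_iff_of_nonneg (by linarith)]
    intro φ
    simpa using h.2 φ
  obtain ⟨m, hm⟩ := IsIntegrallyClosed.isIntegral_iff.mp (Algebra.isIntegral_norm ℚ h.1)
  have hm0 : m ≠ 0 := by
    rintro rfl
    exact (Algebra.norm_ne_zero_iff.mpr hx) (by rw [← hm]; simp)
  have h3 : (1 : ℝ) ≤ ‖Algebra.norm ℚ x‖ := by
    rw [← hm]
    simp only [eq_intCast, Int.norm_cast_rat, Int.norm_eq_abs]
    exact_mod_cast Int.one_le_abs hm0
  refine h3.trans (h1.trans ?_)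
  gcongr
  calc NumberField.house x ^ (Module.finrank ℚ K - 1) ≤ B ^ (Module.finrank ℚ K - 1) :=
        pow_le_pow_left₀ (NumberField.house_nonneg x) h2 _
    _ ≤ B ^ d := pow_le_pow_right₀ hB (by omega)

lemma norm_lead_mul_root_le (P : ℂ[X]) {x : ℂ} (hx : P.eval x = 0) {B : ℝ}
    (hB : ∀ i, ‖P.coeff i‖ ≤ B) : ‖P.leadingCoeff * x‖ ≤ (P.natDegree + 1) * B := by
  have hB0 : 0 ≤ B := (norm_nonneg _).trans (hB 0)
  rw [norm_mul]
  rcases le_or_gt ‖x‖ 1 with h1 | h1
  · have := hB P.natDegree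
    have h2 : (0 : ℝ) ≤ P.natDegree := Nat.cast_nonneg _
    calc ‖P.leadingCoeff‖ * ‖x‖ ≤ B * 1 := mul_le_mul this h1 (norm_nonneg _) hB0
      _ ≤ _ := by nlinarith
  rw [eval_eq_sum_range, Finset.sum_range_succ] at hx
  rcases Nat.eq_zero_or_pos P.natDegree with h0 | h0
  · rw [h0] at hx
    have : P.leadingCoeff = 0 := by simpa [leadingCoeff, h0] using hx
    rw [this, norm_zero, zero_mul]; positivity
  obtain ⟨e, he⟩ : ∃ e, P.natDegree = e + 1 := ⟨_, (Nat.succ_pred_eq_of_pos h0).symm⟩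
  have h2 : ‖P.leadingCoeff‖ * ‖x‖ ^ (e + 1) ≤ (e + 1) * (B * ‖x‖ ^ e) := by
    have h3 : P.leadingCoeff * x ^ (e + 1) = -∑ i ∈ Finset.range (e + 1), P.coeff i * x ^ i := by
      rw [leadingCoeff, he]; rw [he] at hx; linear_combination hx
    rw [← norm_pow, ← norm_mul, h3, norm_neg]
    refine (norm_sum_le _ _).trans ?_
    have := Finset.sum_le_card_nsmul (Finset.range (e + 1)) (fun i => ‖P.coeff i * x ^ i‖)
      (B * ‖x‖ ^ e) fun i hi => by
        rw [norm_mul, norm_pow]
        exact mul_le_mul (hB i) (pow_le_pow_right₀ h1.le (by simp at hi; omega))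
          (by positivity) hB0
    simpa using this
  have h4 : 0 < ‖x‖ ^ e := by positivity
  have h5 : ‖P.leadingCoeff‖ * ‖x‖ ≤ (e + 1) * B := by
    apply le_of_mul_le_mul_right _ h4
    calc _ = ‖P.leadingCoeff‖ * ‖x‖ ^ (e + 1) := by ring
      _ ≤ _ := h2
      _ = _ := by ring
  rw [he]; push_cast; nlinarith

omit [NumberField K] in
lemma Sz.root (P : K[X]) {x : K} (hx : P.eval x = 0) {B : ℝ} (hB : ∀ i, Sz (P.coeff i) B) :
    Sz (P.leadingCoeff * x) ((P.natDegree + 1) * B) := by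
  constructor
  · have h1 : P ∈ lifts (algebraMap (integralClosure ℤ K) K) :=
      (lifts_iff_coeff_lifts P).mpr fun i => ⟨⟨_, (hB i).1⟩, rfl⟩
    obtain ⟨Q, hQ, hdeg⟩ := exists_natDegree_eq_of_mem_lifts h1
    have h2 : aeval x Q = 0 := by rw [aeval_def, ← eval_map, hQ, hx]
    have h3 := isIntegral_leadingCoeff_smul Q x h2
    have h4 : Q.leadingCoeff • x = P.leadingCoeff * x := by
      rw [Algebra.smul_def, leadingCoeff, leadingCoeff, hdeg, ← hQ, coeff_map]
    rw [h4] at h3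
    exact isIntegral_trans (A := integralClosure ℤ K) _ h3
  · intro σ
    have h1 := norm_lead_mul_root_le (P.map σ) (x := σ x) (by
      rw [eval_map, eval₂_at_apply, hx, map_zero]) (B := B) fun i => by
        rw [coeff_map]; exact (hB i).2 σ
    rwa [leadingCoeff_map, natDegree_map, ← map_mul] at h1

omit [NumberField K] in
lemma Sz.homog (b : ℤ[X]) {N : ℕ} (hN : b.natDegree ≤ N) {B' B : ℝ}
    (hb : ∀ i, |(b.coeff i : ℝ)| ≤ B') {τ a : K} (hτ : Sz τ B) (ha : Sz a B) (ha0 : a ≠ 0) :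
    Sz (a ^ N * aeval (τ / a) b) ((N + 1) * (B' * B ^ N)) := by
  rw [aeval_eq_sum_range' (Nat.lt_succ_of_le hN), Finset.mul_sum]
  have := Sz.sum (Finset.range (N + 1)) (fun i => a ^ N * b.coeff i • (τ / a) ^ i)
    (B := B' * B ^ N) fun i hi => by
      have hi' : i ≤ N := by simp at hi; omega
      obtain ⟨j, rfl⟩ := Nat.exists_eq_add_of_le hi'
      have h1 : a ^ (i + j) * b.coeff i • (τ / a) ^ i = (b.coeff i : K) * (τ ^ i * a ^ j) := by
        rw [zsmul_eq_mul, div_pow, pow_add]; field_simp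
      rw [h1, pow_add]
      exact (Sz.intCast _ (hb i)).mul ((hτ.pow i).mul (ha.pow j))
  simpa using this

end sz

lemma exists_root_near (f : ℂ[X]) {N : ℕ} (hN : f.natDegree ≤ N) {δ : ℝ} (hδ0 : 0 ≤ δ)
    (hδ : δ ≤ 1) {t : ℂ} (h : ‖f.eval t‖ < ‖f.leadingCoeff‖ * δ ^ N) :
    ∃ r, f.eval r = 0 ∧ ‖t - r‖ < δ := by
  by_contra hcon
  push Not at hcon
  have hf : f ≠ 0 := by rintro rfl; simp at h
  rw [(IsAlgClosed.splits f).eval_eq_prod_roots, norm_mul] at h
  have h1 : ∀ s : Multiset ℂ, (∀ r ∈ s, δ ≤ ‖t - r‖) →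
      δ ^ s.card ≤ ‖(s.map fun r => t - r).prod‖ := by
    intro s
    induction s using Multiset.induction_on with
    | empty => simp
    | cons a s ih =>
      intro hs
      rw [Multiset.map_cons, Multiset.prod_cons, Multiset.card_cons, norm_mul, pow_succ']
      exact mul_le_mul (hs a (Multiset.mem_cons_self _ _))
        (ih fun r hr => hs r (Multiset.mem_cons_of_mem hr)) (by positivity) (norm_nonneg _)
  have h2 := h1 f.roots fun r hr => hcon r ((mem_roots hf).mp hr)
  rw [IsAlgClosed.card_roots_eq_natDegree] at h2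
  have h3 : δ ^ N ≤ δ ^ f.natDegree := pow_le_pow_of_le_one hδ0 hδ hN
  have h4 := mul_le_mul_of_nonneg_left (h3.trans h2) (norm_nonneg f.leadingCoeff)
  linarith

lemma norm_aeval_le (b : ℤ[X]) {N : ℕ} (hN : b.natDegree ≤ N) {B' B : ℝ}
    (hb : ∀ i, |(b.coeff i : ℝ)| ≤ B') {x : ℂ} (hx : ‖x‖ ≤ B) (hB : 1 ≤ B) :
    ‖aeval x b‖ ≤ (N + 1) * (B' * B ^ N) := by
  rw [aeval_eq_sum_range' (Nat.lt_succ_of_le hN)]
  refine (norm_sum_le _ _).trans ?_
  have := Finset.sum_le_card_nsmul (Finset.range (N + 1)) (fun i => ‖b.coeff i • x ^ i‖)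
    (B' * B ^ N) fun i hi => by
      have hi' : i ≤ N := by simp at hi; omega
      rw [zsmul_eq_mul, norm_mul, norm_pow, Complex.norm_intCast]
      exact mul_le_mul (hb i) ((pow_le_pow_left₀ (norm_nonneg _) hx i).trans
        (pow_le_pow_right₀ hB hi')) (by positivity) ((abs_nonneg _).trans (hb i))
  simpa using this

end Pool.Agent.Lib.MP_12eca1_ag
end

-- part Pool.Agent.Lib.MP_12eca1_ag.AuxFun
section

/-!
The auxiliary function: construction by the Siegel lemma and the Schwarz lemma.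
-/

namespace Pool.Agent.Lib.MP_12eca1_ag

open Polynomial Filter Topology

lemma coeff_iterate_dop_le (b j : ℕ) (q : ℤ[X]) {L M : ℕ} (hq : q.natDegree ≤ L) (hb : b ≤ M)
    {B : ℝ} (hB : ∀ i, |(q.coeff i : ℝ)| ≤ B) (i : ℕ) :
    |(((dop b)^[j] q).coeff i : ℝ)| ≤ ((L : ℝ) + M) ^ j * B := by
  have hB0 : 0 ≤ B := (abs_nonneg _).trans (hB 0)
  induction j generalizing i with
  | zero => simpa using hB i
  | succ j ih =>
    rw [Function.iterate_succ_apply', dop, coeff_add, coeff_C_mul, coeff_derivative]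
    push_cast
    have h1 : |(((dop b)^[j] q).coeff (i + 1) : ℝ) * (i + 1)| ≤ ((L : ℝ) + M) ^ j * B * L := by
      rcases le_or_gt (i + 1) L with h | h
      · rw [abs_mul]
        refine mul_le_mul (ih _) ?_ (abs_nonneg _) (by positivity)
        rw [abs_of_nonneg (by positivity)]
        exact_mod_cast h
      · rw [coeff_eq_zero_of_natDegree_lt ((natDegree_iterate_dop_le b j q hq).trans_lt h)]
        simp only [Int.cast_zero, zero_mul, abs_zero]
        positivity
    have h2 : |(b : ℝ) * (((dop b)^[j] q).coeff i : ℝ)| ≤ M * (((L : ℝ) + M) ^ j * B) := by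
      rw [abs_mul]
      refine mul_le_mul ?_ (ih _) (abs_nonneg _) (by positivity)
      rw [abs_of_nonneg (by positivity)]
      exact_mod_cast hb
    calc _ ≤ _ := abs_add_le _ _
      _ ≤ ((L : ℝ) + M) ^ j * B * L + M * (((L : ℝ) + M) ^ j * B) := add_le_add h1 h2
      _ = _ := by ring

lemma iterate_dop_sum {R ι : Type*} [CommRing R] (b j : ℕ) (s : Finset ι) (c : ι → R)
    (q : ι → R[X]) :
    (dop b)^[j] (∑ a ∈ s, C (c a) * q a) = ∑ a ∈ s, C (c a) * (dop b)^[j] (q a) := by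
  induction j with
  | zero => rfl
  | succ j ih =>
    rw [Function.iterate_succ_apply', ih, dop, map_sum, Finset.mul_sum, ← Finset.sum_add_distrib]
    refine Finset.sum_congr rfl fun a _ => ?_
    rw [Function.iterate_succ_apply', dop, derivative_C_mul]
    ring

open scoped Matrix.Norms.Elementwise in
lemma exists_aux_poly (L M T k : ℕ) (lam : ℝ) (hT : 0 < T) (hk : 0 < k)
    (hLM : L * M = (k + 1) * T) (hE : (L : ℝ) * M ≤ Real.exp lam)
    (hE' : (L : ℝ) + M ≤ Real.exp lam) (hlam : 0 ≤ lam) :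
    ∃ p : ℕ → ℤ[X], (∃ b < M, p b ≠ 0) ∧ (∀ b, (p b).natDegree ≤ L) ∧
      (∀ b i, |((p b).coeff i : ℝ)| ≤ Real.exp (2 * lam * T / k)) ∧
      ∀ j < T, ∑ b ∈ Finset.range M, ((dop b)^[j] (p b)).eval 0 = 0 := by
  classical
  let A : Matrix (Fin T) (Fin L × Fin M) ℤ :=
    Matrix.of fun j ab => ((dop (ab.2 : ℕ))^[j] (X ^ (ab.1 : ℕ))).eval 0
  have hc1 : Fintype.card (Fin T) < Fintype.card (Fin L × Fin M) := by
    simp only [Fintype.card_fin, Fintype.card_prod, hLM]
    nlinarith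
  obtain ⟨t, ht0, ht, hnorm⟩ := Int.Matrix.exists_ne_zero_int_vec_norm_le A hc1 (by simpa using hT)
  have hexp1 : 1 ≤ Real.exp lam := Real.one_le_exp hlam
  have hA : ‖A‖ ≤ Real.exp (lam * T) := by
    rw [Matrix.norm_le_iff (by positivity)]
    intro j ab
    have h1 := coeff_iterate_dop_le (ab.2 : ℕ) j (X ^ (ab.1 : ℕ)) (L := L) (M := M) (B := 1)
      (by simp) ab.2.2.le (fun i => by rw [coeff_X_pow]; split_ifs <;> simp) 0
    rw [coeff_zero_eq_eval_zero, mul_one] at h1
    rw [Int.norm_eq_abs]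
    refine h1.trans ?_
    rw [mul_comm, Real.exp_nat_mul]
    exact (pow_le_pow_left₀ (by positivity) hE' _).trans (pow_le_pow_right₀ hexp1 j.2.le)
  have hnorm' : ‖t‖ ≤ Real.exp (2 * lam * T / k) := by
    refine hnorm.trans ?_
    simp only [Fintype.card_fin, Fintype.card_prod]
    have hT' : (0 : ℝ) < T := by exact_mod_cast hT
    have hk' : (0 : ℝ) < k := by exact_mod_cast hk
    have h1 : (T : ℝ) / (((L * M : ℕ) : ℝ) - T) = 1 / k := by
      rw [hLM]; push_cast
      rw [show ((k : ℝ) + 1) * T - T = k * T by ring]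
      field_simp
    have h2 : ((L * M : ℕ) : ℝ) * max 1 ‖A‖ ≤ Real.exp (2 * lam * T) := by
      have h3 : max 1 ‖A‖ ≤ Real.exp (lam * T) := max_le (Real.one_le_exp (by positivity)) hA
      have h4 : (1 : ℝ) ≤ T := by exact_mod_cast hT
      calc _ ≤ Real.exp lam * Real.exp (lam * T) := by
            push_cast
            exact mul_le_mul hE h3 (by positivity) (by positivity)
        _ = Real.exp (lam + lam * T) := (Real.exp_add _ _).symm
        _ ≤ _ := Real.exp_le_exp.mpr (by nlinarith)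
    rw [h1]
    refine (Real.rpow_le_rpow (by positivity) h2 (by positivity)).trans ?_
    rw [← Real.exp_mul]
    exact le_of_eq (by congr 1; ring)
  let p : ℕ → ℤ[X] := fun b => if hb : b < M then ∑ a : Fin L, C (t (a, ⟨b, hb⟩)) * X ^ (a : ℕ)
    else 0
  have hcoef : ∀ b (hb : b < M) i, (p b).coeff i =
      if hi : i < L then t (⟨i, hi⟩, ⟨b, hb⟩) else 0 := by
    intro b hb i
    simp only [p, dif_pos hb, finsetSum_coeff, coeff_C_mul_X_pow]
    split_ifs with hi
    · rw [Finset.sum_eq_single ⟨i, hi⟩]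
      · simp
      · intro a _ ha
        rw [if_neg]
        intro h; exact ha (Fin.ext h.symm)
      · simp
    · refine Finset.sum_eq_zero fun a _ => if_neg ?_
      intro h; exact hi (h ▸ a.2)
  refine ⟨p, ?_, fun b => ?_, fun b i => ?_, fun j hj => ?_⟩
  · obtain ⟨⟨a, b⟩, hab⟩ := Function.ne_iff.mp ht0
    refine ⟨b, b.2, fun h0 => hab ?_⟩
    have := hcoef b b.2 a
    rw [h0, dif_pos a.2] at this
    simpa using this.symm
  · rw [natDegree_le_iff_coeff_eq_zero]
    intro i hi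
    by_cases hb : b < M
    · rw [hcoef b hb, dif_neg (by omega)]
    · simp [p, hb]
  · by_cases hb : b < M
    · rw [hcoef b hb]
      split_ifs with hi
      · refine le_trans ?_ hnorm'
        have := norm_le_pi_norm t (⟨i, hi⟩, ⟨b, hb⟩)
        rwa [Int.norm_eq_abs] at this
      · simp only [Int.cast_zero, abs_zero]; positivity
    · simp only [p, dif_neg hb, coeff_zero, Int.cast_zero, abs_zero]; positivity
  · have h1 := congrFun ht ⟨j, hj⟩
    simp only [Matrix.mulVec, dotProduct, A, Matrix.of_apply, Pi.zero_apply,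
      Fintype.sum_prod_type] at h1
    refine Eq.trans ?_ h1
    rw [Finset.sum_comm, Finset.sum_range]
    refine Finset.sum_congr rfl fun b _ => ?_
    simp only [p, dif_pos b.2]
    rw [iterate_dop_sum, eval_finsetSum]
    exact Finset.sum_congr rfl fun a _ => by simp [mul_comm]

/-- the `j`-th derivative of the auxiliary function -/
noncomputable def auxF (M : ℕ) (p : ℕ → ℤ[X]) (j : ℕ) (z : ℂ) : ℂ :=
  ∑ b ∈ Finset.range M, Complex.exp (b * z) * aeval z ((dop b)^[j] (p b))

lemma hasDerivAt_auxF (M : ℕ) (p : ℕ → ℤ[X]) (j : ℕ) (z : ℂ) :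
    HasDerivAt (auxF M p j) (auxF M p (j + 1) z) z := by
  unfold auxF
  refine HasDerivAt.fun_sum fun b _ => ?_
  have h1 : HasDerivAt (fun z : ℂ => Complex.exp (b * z)) (Complex.exp (b * z) * b) z := by
    simpa using ((hasDerivAt_id z).const_mul (b : ℂ)).cexp
  refine (h1.mul (((dop b)^[j] (p b)).hasDerivAt_aeval z)).congr_deriv ?_
  rw [Function.iterate_succ_apply', dop]
  simp
  ring

lemma schwarz_family (f : ℕ → ℂ → ℂ) (hf : ∀ j z, HasDerivAt (f j) (f (j + 1) z) z) (n : ℕ)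
    (h0 : ∀ j ≤ n, f j 0 = 0) {R B : ℝ} (hB : ∀ z : ℂ, ‖z‖ < R → ‖f 0 z‖ ≤ B) {x : ℂ}
    (hx : ‖x‖ < R) : ‖f 0 x‖ ≤ B * (‖x‖ / R) ^ (n + 1) := by
  have hd : Differentiable ℂ (f 0) := fun z => (hf 0 z).differentiableAt
  have hit : ∀ i, iteratedDeriv i (f 0) = f i := by
    intro i
    induction i with
    | zero => rfl
    | succ i ih => rw [iteratedDeriv_succ, ih]; funext z; exact (hf i z).deriv
  have han : AnalyticAt ℂ (f 0) 0 := hd.analyticAt 0
  obtain ⟨g, hg, hfg⟩ := (natCast_le_analyticOrderAt han (n := n + 1)).mp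
    ((natCast_le_analyticOrderAt_iff_iteratedDeriv_eq_zero han).mpr fun i hi => by
      rw [hit]; exact h0 i (by omega))
  have h00 : f 0 0 = 0 := h0 0 (Nat.zero_le _)
  have := Complex.dist_le_mul_div_pow_of_mapsTo_ball_of_isLittleO (f := f 0) (c := 0) (z := x)
    (R₁ := R) (R₂ := B) (n := n) hd.differentiableOn (fun z hz => by
      simpa [h00] using hB z (by simpa using hz)) ?_ (by simpa using hx)
  · simpa [h00] using this
  · have h1 : (fun z : ℂ => z ^ (n + 1) * g z) =o[𝓝 0] fun z : ℂ => z ^ n := by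
      have h2 := (Asymptotics.isLittleO_pow_pow (𝕜 := ℂ) (Nat.lt_succ_self n)).mul_isBigO
        (hg.continuousAt.isBigO_one (F := ℂ))
      simpa using h2
    have h3 := h1.norm_right
    simp only [h00, sub_zero]
    refine h3.congr' ?_ (by simp)
    filter_upwards [hfg] with z hz
    simpa using hz.symm

lemma norm_auxF_le {L M : ℕ} (p : ℕ → ℤ[X]) (hL : ∀ b, (p b).natDegree ≤ L) {H : ℝ}
    (hH : ∀ b i, |((p b).coeff i : ℝ)| ≤ H) (j : ℕ) {R : ℝ} (hR : 1 ≤ R) {z : ℂ} (hz : ‖z‖ ≤ R) :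
    ‖auxF M p j z‖ ≤ M * (Real.exp (M * R) * ((L + 1) * (((L : ℝ) + M) ^ j * H * R ^ L))) := by
  refine (norm_sum_le _ _).trans ?_
  have := Finset.sum_le_card_nsmul (Finset.range M)
    (fun b => ‖Complex.exp (b * z) * aeval z ((dop b)^[j] (p b))‖)
    (Real.exp (M * R) * ((L + 1) * (((L : ℝ) + M) ^ j * H * R ^ L))) fun b hb => by
      have hb' : b ≤ M := (Finset.mem_range.mp hb).le
      rw [norm_mul]
      refine mul_le_mul ?_ (norm_aeval_le _ (natDegree_iterate_dop_le b j _ (hL b))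
        (coeff_iterate_dop_le b j _ (hL b) hb' (hH b)) hz hR) (norm_nonneg _) (by positivity)
      refine (Complex.norm_exp_le_exp_norm _).trans (Real.exp_le_exp.mpr ?_)
      rw [norm_mul, Complex.norm_natCast]
      exact mul_le_mul (by exact_mod_cast hb') hz (norm_nonneg _) (by positivity)
  simpa using this

lemma norm_auxF_small {L M T : ℕ} (p : ℕ → ℤ[X]) (hL : ∀ b, (p b).natDegree ≤ L) {H : ℝ}
    (hH : ∀ b i, |((p b).coeff i : ℝ)| ≤ H)
    (h0 : ∀ j < T, ∑ b ∈ Finset.range M, ((dop b)^[j] (p b)).eval 0 = 0) (j n : ℕ)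
    (hj : j + n < T) {r : ℝ} (hr : 1 ≤ r) {x : ℂ} (hx : ‖x‖ ≤ r) :
    ‖auxF M p j x‖ ≤ M * (Real.exp (M * (3 * r)) *
      ((L + 1) * (((L : ℝ) + M) ^ j * H * (3 * r) ^ L))) * Real.exp (-(n + 1)) := by
  have h1 := schwarz_family (fun i => auxF M p (j + i)) (fun i z => hasDerivAt_auxF M p (j + i) z)
    n (fun i hi => by
      have h2 := congrArg (Int.cast : ℤ → ℂ) (h0 (j + i) (by omega))
      simp only [auxF, mul_zero, Complex.exp_zero, one_mul]
      rw [Int.cast_zero] at h2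
      refine Eq.trans ?_ h2
      rw [Int.cast_sum]
      refine Finset.sum_congr rfl fun b _ => ?_
      rw [← coeff_zero_eq_aeval_zero', coeff_zero_eq_eval_zero]
      simp) (R := 3 * r)
    (fun z hz => norm_auxF_le p hL hH j (by linarith) hz.le) (x := x) (by linarith)
  refine h1.trans (mul_le_mul_of_nonneg_left ?_ ?_)
  · have h2 : ‖x‖ / (3 * r) ≤ Real.exp (-1) := by
      rw [div_le_iff₀ (by linarith), Real.exp_neg]
      have h3 : Real.exp 1 ≤ 3 := by linarith [Real.exp_one_lt_d9]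
      have h4 : (3 : ℝ)⁻¹ ≤ (Real.exp 1)⁻¹ := inv_anti₀ (Real.exp_pos _) h3
      nlinarith
    refine (pow_le_pow_left₀ (by positivity) h2 _).trans ?_
    rw [← Real.exp_nat_mul]
    exact le_of_eq (by congr 1; push_cast; ring)
  · have : 0 ≤ H := (abs_nonneg _).trans (hH 0 0)
    positivity

end Pool.Agent.Lib.MP_12eca1_ag
end

-- part Pool.Agent.Lib.MP_12eca1_ag.HL
section

/-!
A measure of simultaneous approximation for `u` and `exp u`, uniform in the number field.
-/

namespace Pool.Agent.Lib.MP_12eca1_ag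

open Polynomial

lemma norm_pow_sub_pow_le' {x y : ℂ} {B : ℝ} (hx : ‖x‖ ≤ B) (hy : ‖y‖ ≤ B) (hB : 1 ≤ B) (m : ℕ) :
    ‖x ^ m - y ^ m‖ ≤ m * B ^ m * ‖x - y‖ := by
  induction m with
  | zero => simp
  | succ m ih =>
    have h1 : x ^ (m + 1) - y ^ (m + 1) = x * (x ^ m - y ^ m) + y ^ m * (x - y) := by ring
    have h2 : ‖y ^ m‖ ≤ B ^ (m + 1) := by
      rw [norm_pow]
      exact (pow_le_pow_left₀ (norm_nonneg _) hy m).trans (pow_le_pow_right₀ hB (Nat.le_succ m))
    rw [h1]
    refine (norm_add_le _ _).trans ?_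
    rw [norm_mul, norm_mul]
    calc _ ≤ B * (m * B ^ m * ‖x - y‖) + B ^ (m + 1) * ‖x - y‖ := by gcongr
      _ = _ := by push_cast; ring

lemma mul_le_exp {x y a b : ℝ} (hx : x ≤ Real.exp a) (hy : y ≤ Real.exp b) (hy0 : 0 ≤ y) :
    x * y ≤ Real.exp (a + b) := by
  rw [Real.exp_add]; exact mul_le_mul hx hy hy0 (Real.exp_nonneg _)

lemma pow_le_exp {x a : ℝ} (hx : x ≤ Real.exp a) (hx0 : 0 ≤ x) (ha : 0 ≤ a) {j n : ℕ}
    (hj : j ≤ n) : x ^ j ≤ Real.exp (n * a) := by
  rw [Real.exp_nat_mul]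
  exact (pow_le_pow_left₀ hx0 hx j).trans (pow_le_pow_right₀ (Real.one_le_exp ha) hj)

lemma hl_vanish {K : Type*} [Field K] [NumberField K] (σ : K →+* ℂ) {d L M S T : ℕ}
    {h lam N : ℝ} (hd : Module.finrank ℚ K ≤ d) (hlam : 1 ≤ lam) (hlh : lam ≤ h)
    (hN : N = lam * M * S) (hNL : N = 2 * h * L) (hT : (T : ℝ) = 32 * d * N)
    (hM1 : 1 ≤ M) (hS3 : 3 ≤ S) (hMS : (M : ℝ) * S ≤ Real.exp lam)
    (hLM : (L : ℝ) + M ≤ Real.exp lam)
    {η β τ a : K} (hη : Sz η (Real.exp h)) (hβ : Sz β (Real.exp h))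
    (hτ : Sz τ (Real.exp lam)) (ha : Sz a (Real.exp lam)) (hβ0 : β ≠ 0) (ha0 : a ≠ 0)
    (hu : ‖σ (η / β)‖ ≤ lam)
    (hε : ‖σ (τ / a) - Complex.exp (σ (η / β))‖ ≤ Real.exp (-(64 * d * N)))
    (p : ℕ → ℤ[X]) (hL : ∀ b, (p b).natDegree ≤ L)
    (hH : ∀ b i, |((p b).coeff i : ℝ)| ≤ Real.exp (4 * N))
    (h0 : ∀ j < T, ∑ b ∈ Finset.range M, ((dop b)^[j] (p b)).eval 0 = 0)
    (s : ℕ) (hs : s ≤ S) (j : ℕ) (hj : j < M * S) :
    ∑ b ∈ Finset.range M, σ (τ / a) ^ (s * b) * aeval (s * σ (η / β)) ((dop b)^[j] (p b)) = 0 := by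
  have hd1 : 1 ≤ d := Module.finrank_pos.trans_le hd
  have hd1' : (1 : ℝ) ≤ d := by exact_mod_cast hd1
  have hM1' : (1 : ℝ) ≤ M := by exact_mod_cast hM1
  have hS3' : (3 : ℝ) ≤ S := by exact_mod_cast hS3
  have hs' : (s : ℝ) ≤ S := by exact_mod_cast hs
  have hL0 : (0 : ℝ) ≤ L := Nat.cast_nonneg _
  have hMS3 : (3 : ℝ) ≤ M * S := by nlinarith
  have hlamN : lam ≤ N := by rw [hN]; nlinarith
  have hMSN : (M : ℝ) * S ≤ N := by rw [hN]; nlinarith
  have hlamL : lam * L ≤ N / 2 := by rw [hNL]; nlinarith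
  have hhL : h * L = N / 2 := by rw [hNL]; ring
  have hN1 : 1 ≤ N := hlam.trans hlamN
  have hNd : N ≤ d * N := by nlinarith
  have hMe : (M : ℝ) ≤ Real.exp lam := by nlinarith
  have hSe : (S : ℝ) ≤ Real.exp lam := by nlinarith
  have hL1e : (L : ℝ) + 1 ≤ Real.exp lam := by linarith
  have hlame : lam ≤ Real.exp lam := by linarith [Real.add_one_le_exp lam]
  have hpowj : ((L : ℝ) + M) ^ j ≤ Real.exp N := by
    refine (pow_le_exp hLM (by positivity) (by linarith) hj.le).trans (le_of_eq ?_)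
    rw [hN]; push_cast; ring_nf
  have hcoef : ((L : ℝ) + M) ^ j * Real.exp (4 * N) ≤ Real.exp (N + 4 * N) :=
    mul_le_exp hpowj le_rfl (Real.exp_nonneg _)
  set u := σ (η / β) with hudef
  set t := σ (τ / a) with htdef
  have hr1 : 1 ≤ S * lam := by nlinarith
  have hre : S * lam ≤ Real.exp (lam + lam) := mul_le_exp hSe hlame (by linarith)
  have hsu : ‖(s : ℂ) * u‖ ≤ S * lam := by
    rw [norm_mul, Complex.norm_natCast]
    exact mul_le_mul hs' hu (norm_nonneg _) (by linarith)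
  -- the analytic upper bound
  have hTMS : M * S < T := by
    have : ((M * S : ℕ) : ℝ) < T := by rw [hT]; push_cast; nlinarith
    exact_mod_cast this
  have hF : ‖auxF M p j (s * u)‖ ≤ Real.exp (-(19 * d * N)) := by
    obtain ⟨n, hn⟩ : ∃ n, T = M * S + n + 1 := ⟨T - M * S - 1, by omega⟩
    refine (norm_auxF_small p hL hH h0 j n (by omega) hr1 hsu).trans ?_
    have h3r : 3 * (S * lam) ≤ Real.exp (lam + (lam + lam)) :=
      mul_le_exp (hS3'.trans hSe) hre (by linarith)
    have h1 := mul_le_exp (mul_le_exp hMe (mul_le_exp (le_refl (Real.exp (M * (3 * (S * lam)))))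
      (mul_le_exp hL1e (mul_le_exp hcoef (pow_le_exp h3r (by linarith) (by linarith) (le_refl L))
        (by positivity)) (by positivity)) (by positivity)) (by positivity))
      (le_refl (Real.exp (-((n : ℝ) + 1)))) (by positivity)
    refine h1.trans (Real.exp_le_exp.mpr ?_)
    have h2 : (n : ℝ) + 1 = 32 * d * N - M * S := by
      rw [← hT, hn]; push_cast; ring
    have h3 : (M : ℝ) * (3 * (S * lam)) = 3 * N := by rw [hN]; ring
    rw [h2, h3]
    nlinarith
  -- the approximation error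
  have hexpu : ‖Complex.exp u‖ ≤ Real.exp lam :=
    (Complex.norm_exp_le_exp_norm u).trans (Real.exp_le_exp.mpr hu)
  have hε1 : Real.exp (-(64 * d * N)) ≤ 1 := Real.exp_le_one_iff.mpr (by nlinarith)
  have h2e : Real.exp lam + 1 ≤ Real.exp (lam + lam) := by
    rw [Real.exp_add]; nlinarith
  have ht : ‖t‖ ≤ Real.exp (lam + lam) := by
    have := norm_add_le (t - Complex.exp u) (Complex.exp u)
    rw [sub_add_cancel] at this
    linarith
  set γ := ∑ b ∈ Finset.range M, t ^ (s * b) * aeval (s * u) ((dop b)^[j] (p b)) with hγ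
  have herr : ‖γ - auxF M p j (s * u)‖ ≤ Real.exp (-(19 * d * N)) := by
    rw [hγ, auxF, ← Finset.sum_sub_distrib]
    refine (norm_sum_le _ _).trans ?_
    have h1 := Finset.sum_le_card_nsmul (Finset.range M)
      (fun b => ‖t ^ (s * b) * aeval (s * u) ((dop b)^[j] (p b)) -
        Complex.exp (b * (s * u)) * aeval (s * u) ((dop b)^[j] (p b))‖)
      (Real.exp ((lam + (M * S : ℕ) * (lam + lam) + -(64 * d * N)) +
        (lam + (N + 4 * N + L * (lam + lam))))) fun b hb => by
        have hb' : b ≤ M := (Finset.mem_range.mp hb).le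
        have hsb : s * b ≤ M * S := by rw [mul_comm]; exact Nat.mul_le_mul hb' hs
        have hsb' : ((s * b : ℕ) : ℝ) ≤ Real.exp lam := by
          refine le_trans ?_ hMS
          exact_mod_cast hsb
        have h2 : Complex.exp (b * (s * u)) = Complex.exp u ^ (s * b) := by
          rw [← Complex.exp_nat_mul]; push_cast; ring_nf
        rw [← sub_mul, norm_mul, h2]
        refine mul_le_exp ?_ ?_ (norm_nonneg _)
        · refine (norm_pow_sub_pow_le' ht (by linarith) (Real.one_le_exp (by linarith)) _).trans ?_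
          exact mul_le_exp (mul_le_exp hsb' (pow_le_exp le_rfl (by positivity) (by linarith) hsb)
            (by positivity)) hε (norm_nonneg _)
        · refine (norm_aeval_le _ (natDegree_iterate_dop_le b j _ (hL b))
            (coeff_iterate_dop_le b j _ (hL b) hb' (hH b)) hsu hr1).trans ?_
          exact mul_le_exp hL1e (mul_le_exp hcoef
            (pow_le_exp hre (by linarith) (by linarith) (le_refl L)) (by positivity))
            (by positivity)
    rw [Finset.card_range, nsmul_eq_mul] at h1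
    refine h1.trans ((mul_le_exp hMe le_rfl (by positivity)).trans (Real.exp_le_exp.mpr ?_))
    have h3 : ((M * S : ℕ) : ℝ) * (lam + lam) = 2 * N := by rw [hN]; push_cast; ring
    rw [h3]
    nlinarith
  have hγsmall : ‖γ‖ ≤ 2 * Real.exp (-(19 * d * N)) := by
    have := norm_add_le (γ - auxF M p j (s * u)) (auxF M p j (s * u))
    rw [sub_add_cancel] at this
    linarith
  -- the arithmetic lower bound
  by_contra hne
  let Γ : K := ∑ b ∈ Finset.range M, (τ ^ (s * b) * a ^ (M * S - s * b)) *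
    (β ^ L * aeval (s * η / β) ((dop b)^[j] (p b)))
  have hΓ : σ Γ = σ β ^ L * σ a ^ (M * S) * γ := by
    simp only [Γ, hγ, map_sum, Finset.mul_sum]
    refine Finset.sum_congr rfl fun b hb => ?_
    have hb' : b ≤ M := (Finset.mem_range.mp hb).le
    have hsb : s * b ≤ M * S := by rw [mul_comm]; exact Nat.mul_le_mul hb' hs
    obtain ⟨c, hc⟩ := Nat.exists_eq_add_of_le hsb
    have h1 : σ (aeval (s * η / β) ((dop b)^[j] (p b))) = aeval (s * u) ((dop b)^[j] (p b)) := by
      have := aeval_algHom_apply σ.toIntAlgHom (s * η / β) ((dop b)^[j] (p b))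
      refine this.symm.trans ?_
      congr 2
      simp [hudef, mul_div_assoc]
    have h2 : σ a ≠ 0 := (map_ne_zero σ).mpr ha0
    rw [hc, Nat.add_sub_cancel_left]
    simp only [map_mul, map_pow, h1, htdef, map_div₀, div_pow, pow_add]
    field_simp
  have hΓ0 : Γ ≠ 0 := by
    intro h1
    rw [h1, map_zero] at hΓ
    exact mul_ne_zero (mul_ne_zero (pow_ne_zero _ ((map_ne_zero σ).mpr hβ0))
      (pow_ne_zero _ ((map_ne_zero σ).mpr ha0))) hne hΓ.symm
  have hSz : Sz Γ (Real.exp (9 * N)) := by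
    have hsη : Sz (s * η) (Real.exp (h + h)) :=
      ((Sz.natCast s).mul hη).mono (mul_le_exp
        (hs'.trans (hSe.trans (Real.exp_le_exp.mpr hlh))) le_rfl (by positivity))
    have hβ' : Sz β (Real.exp (h + h)) := hβ.mono (Real.exp_le_exp.mpr (by linarith))
    have h1 := Sz.sum (Finset.range M) (fun b => (τ ^ (s * b) * a ^ (M * S - s * b)) *
      (β ^ L * aeval (s * η / β) ((dop b)^[j] (p b))))
      (B := Real.exp (N + (lam + (N + 4 * N + L * (h + h))))) fun b hb => by
        have hb' : b ≤ M := (Finset.mem_range.mp hb).le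
        have hsb : s * b ≤ M * S := by rw [mul_comm]; exact Nat.mul_le_mul hb' hs
        refine (((hτ.pow _).mul (ha.pow _)).mul (Sz.homog _ (natDegree_iterate_dop_le b j _ (hL b))
          (coeff_iterate_dop_le b j _ (hL b) hb' (hH b)) hsη hβ' hβ0)).mono ?_
        refine mul_le_exp ?_ (mul_le_exp hL1e (mul_le_exp hcoef
          (pow_le_exp le_rfl (by positivity) (by linarith) (le_refl L)) (by positivity))
          (by positivity)) (by positivity)
        rw [← pow_add, Nat.add_sub_cancel' hsb, ← Real.exp_nat_mul, hN]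
        exact le_of_eq (by push_cast; ring_nf)
    refine h1.mono ?_
    rw [Finset.card_range]
    refine (mul_le_exp hMe le_rfl (by positivity)).trans (Real.exp_le_exp.mpr ?_)
    nlinarith
  have hliou := hSz.liouville hΓ0 (Real.one_le_exp (by linarith)) (Nat.le_succ_of_le hd) σ
  have h1 : ‖σ Γ‖ ≤ Real.exp (L * h + (M * S : ℕ) * lam) * (2 * Real.exp (-(19 * d * N))) := by
    rw [hΓ, norm_mul, norm_mul, norm_pow, norm_pow]
    refine mul_le_mul (mul_le_exp (pow_le_exp (hβ.2 σ) (norm_nonneg _) (by linarith) le_rfl)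
      (pow_le_exp (ha.2 σ) (norm_nonneg _) (by linarith) le_rfl) (by positivity)) hγsmall
      (norm_nonneg _) (by positivity)
  have h2 : (1 : ℝ) ≤ 2 * Real.exp (-(8 * d * N)) := by
    refine hliou.trans ((mul_le_mul_of_nonneg_right h1 (by positivity)).trans ?_)
    rw [← Real.exp_nat_mul]
    have h3 : ((M * S : ℕ) : ℝ) * lam = N := by rw [hN]; push_cast; ring
    calc _ = 2 * Real.exp (L * h + (M * S : ℕ) * lam + -(19 * d * N) + d * (9 * N)) := by
          simp only [Real.exp_add]; ring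
      _ ≤ _ := by
          rw [h3]
          gcongr
          nlinarith
  have h3 : Real.exp (-(8 * d * N)) ≤ Real.exp (-2) := Real.exp_le_exp.mpr (by nlinarith)
  have h4 : Real.exp (-2) * Real.exp 2 = 1 := by rw [← Real.exp_add]; simp
  have h5 := Real.add_one_le_exp 2
  have h6 := Real.exp_pos (-2)
  nlinarith

theorem hl_measure {K : Type*} [Field K] [NumberField K] (σ : K →+* ℂ) {d h lam : ℕ}
    (hd : Module.finrank ℚ K ≤ d) (hlam : 1 ≤ lam) (hlh : lam ≤ h)
    (hpar : (2 : ℝ) ^ 32 * d ^ 6 * h * lam ^ 5 ≤ Real.exp lam)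
    {η β τ a : K} (hη : Sz η (Real.exp h)) (hβ : Sz β (Real.exp h))
    (hτ : Sz τ (Real.exp lam)) (ha : Sz a (Real.exp lam)) (hβ0 : β ≠ 0) (ha0 : a ≠ 0)
    (hη0 : η ≠ 0) (hu : ‖σ (η / β)‖ ≤ lam) :
    Real.exp (-(2 ^ 28 * d ^ 5 * h * lam ^ 4)) < ‖σ (τ / a) - Complex.exp (σ (η / β))‖ := by
  by_contra hcon
  rw [not_lt] at hcon
  have hd1 : 1 ≤ d := Module.finrank_pos.trans_le hd
  have hh1 : 1 ≤ h := hlam.trans hlh
  have hlam' : (1 : ℝ) ≤ lam := by exact_mod_cast hlam
  have hd1' : (1 : ℝ) ≤ d := by exact_mod_cast hd1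
  obtain ⟨A, hA⟩ : ∃ A, A = 1024 * d ^ 2 * lam ^ 2 := ⟨_, rfl⟩
  obtain ⟨M, hM⟩ : ∃ M, M = 2048 * d ^ 2 * h * lam := ⟨_, rfl⟩
  obtain ⟨k, hk⟩ : ∃ k, k + 1 = 32 * d * lam := ⟨32 * d * lam - 1, by
    have : 1 ≤ 32 * d * lam := Nat.succ_le_of_lt (by positivity)
    omega⟩
  have hdl : 1 ≤ d * lam := Nat.succ_le_of_lt (by positivity)
  have hA2 : 1024 ≤ A := by
    have : 1 ≤ d ^ 2 * lam ^ 2 := Nat.succ_le_of_lt (by positivity)
    rw [hA, mul_assoc]; omega
  have hM2 : 2 ≤ M := by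
    have : 1 ≤ d ^ 2 * h * lam := Nat.succ_le_of_lt (by positivity)
    rw [hM, mul_assoc, mul_assoc, ← mul_assoc (d ^ 2)]; omega
  have hk16 : 16 * d * lam ≤ k := by
    rw [mul_assoc] at hk ⊢; omega
  have hLM : A * (A + 1) * M = (k + 1) * (32 * d * lam * M * (A + 1)) := by
    rw [hk]; nth_rewrite 1 [hA]; ring
  have hE : ((A * (A + 1) : ℕ) : ℝ) * M ≤ Real.exp lam := by
    refine le_trans ?_ hpar
    have h1 : A * (A + 1) * M ≤ A * (2 * A) * M := by gcongr; omega
    have h2 : A * (2 * A) * M = 2 ^ 32 * d ^ 6 * h * lam ^ 5 := by rw [hA, hM]; ring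
    exact_mod_cast h1.trans_eq h2
  have hE' : ((A * (A + 1) : ℕ) : ℝ) + M ≤ Real.exp lam := by
    refine le_trans ?_ hE
    have h1 : 2 ≤ A * (A + 1) := by nlinarith
    have h2 : A * (A + 1) + M ≤ A * (A + 1) * M := by nlinarith
    exact_mod_cast h2
  have hE'' : (M : ℝ) * (A + 1 : ℕ) ≤ Real.exp lam := by
    refine le_trans ?_ hE
    have h2 : M * (A + 1) ≤ A * (A + 1) * M := by
      rw [mul_assoc, mul_comm M]; exact Nat.le_mul_of_pos_left _ (by omega)
    exact_mod_cast h2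
  have hk0 : 0 < k := by rw [mul_assoc] at hk16; omega
  obtain ⟨p, hp0, hpL, hpH, hp⟩ := exists_aux_poly (A * (A + 1)) M (32 * d * lam * M * (A + 1)) k
    lam (by positivity) hk0 hLM hE hE' (by positivity)
  set N : ℝ := lam * M * (A + 1 : ℕ) with hN
  have hN0 : 0 ≤ N := by positivity
  have hH : ∀ b i, |((p b).coeff i : ℝ)| ≤ Real.exp (4 * N) := by
    intro b i
    refine (hpH b i).trans (Real.exp_le_exp.mpr ?_)
    have h1 : (16 * d * lam : ℝ) ≤ k := by exact_mod_cast hk16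
    rw [div_le_iff₀ (by exact_mod_cast hk0)]
    calc _ = 4 * N * (16 * d * lam) := by rw [hN]; push_cast; ring
      _ ≤ _ := by gcongr
  have hε : ‖σ (τ / a) - Complex.exp (σ (η / β))‖ ≤ Real.exp (-(64 * d * N)) := by
    refine hcon.trans (Real.exp_le_exp.mpr (neg_le_neg ?_))
    have h1 : 64 * d * (lam * M * (A + 1)) ≤ 64 * d * (lam * M * (2 * A)) := by gcongr; omega
    have h2 : 64 * d * (lam * M * (2 * A)) = 2 ^ 28 * d ^ 5 * h * lam ^ 4 := by rw [hA, hM]; ring
    rw [hN]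
    exact_mod_cast h1.trans_eq h2
  have hvan := hl_vanish σ (L := A * (A + 1)) (M := M) (S := A + 1)
    (T := 32 * d * lam * M * (A + 1)) (h := h) (lam := lam) (N := N) hd hlam'
    (by exact_mod_cast hlh) rfl (by rw [hN, hM]; nth_rewrite 2 [hA]; push_cast; ring)
    (by rw [hN]; push_cast; ring) (by omega) (by omega) hE'' hE' hη hβ hτ ha hβ0 ha0 hu hε p hpL hH hp
  have hu0 : σ (η / β) ≠ 0 := (map_ne_zero σ).mpr (div_ne_zero hη0 hβ0)
  have ht0 : σ (τ / a) ≠ 0 := by
    intro h0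
    rw [h0, zero_sub, norm_neg, Complex.norm_exp, Real.exp_le_exp] at hε
    have h1 := (abs_le.mp (Complex.abs_re_le_norm (σ (η / β)))).1
    have h2 : (lam : ℝ) ≤ N := by
      have h3 : lam ≤ lam * M * (A + 1) := by
        rw [mul_assoc]; exact Nat.le_mul_of_pos_right _ (by positivity)
      rw [hN]; exact_mod_cast h3
    nlinarith
  have hz := zero_estimate (K := ℂ) (M := M) (L := A * (A + 1)) (S := A + 1) (T := M * (A + 1))
    (fun b => (p b).map (Int.castRingHom ℂ)) (by
      obtain ⟨b, hb, hb0⟩ := hp0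
      exact ⟨b, hb, (Polynomial.map_ne_zero_iff (Int.castRingHom ℂ).injective_int).mpr hb0⟩)
    (fun b => natDegree_map_le.trans (hpL b)) (fun s => (s : ℕ) * σ (η / β))
    (fun s s' hss => Fin.ext (by exact_mod_cast mul_right_cancel₀ hu0 hss))
    (fun s b => σ (τ / a) ^ ((s : ℕ) * b)) (fun s b => pow_ne_zero _ ht0) (fun s i hi => by
      refine Eq.trans ?_ (hvan s s.2.le i hi)
      refine Finset.sum_congr rfl fun b _ => ?_
      rw [← iterate_dop_map, eval_map, aeval_def]
      rfl)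
  have h1 : M * (A + 1) + 1 - M = M * A + 1 := by rw [mul_add]; omega
  rw [h1] at hz
  nlinarith

end Pool.Agent.Lib.MP_12eca1_ag
end

-- part Pool.Agent.Lib.MP_12eca1_ag.Step2
section

/-!
Consequences of the measure: the Hermite and Lindemann theorem, and the vanishing step.
-/

namespace Pool.Agent.Lib.MP_12eca1_ag

open Polynomial Filter IntermediateField

lemma eventually_poly_le_exp (C : ℝ) (k : ℕ) :
    ∀ᶠ m : ℕ in atTop, C * (m : ℝ) ^ k ≤ Real.exp m := by
  have h1 := (Real.isLittleO_pow_exp_atTop (n := k)).const_mul_left C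
  have h2 := tendsto_natCast_atTop_atTop.eventually (h1.bound one_pos)
  filter_upwards [h2] with m hm
  rw [one_mul, Real.norm_eq_abs, Real.norm_eq_abs, abs_of_pos (Real.exp_pos _)] at hm
  exact (le_abs_self _).trans hm

lemma finrank_adjoin_le {F : Type*} [Field F] [Algebra F ℂ] {x : ℂ} {P : F[X]} (hP : P ≠ 0)
    (hx : aeval x P = 0) : FiniteDimensional F F⟮x⟯ ∧ Module.finrank F F⟮x⟯ ≤ P.natDegree := by
  have hi : IsIntegral F x := (show IsAlgebraic F x from ⟨P, hP, hx⟩).isIntegral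
  refine ⟨adjoin.finiteDimensional hi, ?_⟩
  rw [adjoin.finrank hi]
  exact natDegree_le_natDegree (minpoly.degree_le_of_ne_zero F x hP hx)

lemma numberField_of (K : IntermediateField ℚ ℂ) (h : FiniteDimensional ℚ K) : NumberField K :=
  { to_charZero := inferInstance, to_finiteDimensional := h }

theorem hermite_lindemann (u : ℂ) (hu : u ≠ 0) :
    Transcendental ℚ u ∨ Transcendental ℚ (Complex.exp u) := by
  by_contra hcon
  rw [not_or, Transcendental, Transcendental, not_not, not_not] at hcon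
  let K := IntermediateField.adjoin ℚ {u, Complex.exp u}
  have hfin : FiniteDimensional ℚ K := finiteDimensional_adjoin (by
    rintro x (rfl | rfl)
    · exact hcon.1.isIntegral
    · exact hcon.2.isIntegral)
  have := numberField_of K hfin
  have key : ∀ x : K, ∃ η β : K, β ≠ 0 ∧ x = η / β ∧ ∀ᶠ m : ℕ in atTop,
      Sz η (Real.exp m) ∧ Sz β (Real.exp m) := by
    intro x
    have h1 : IsAlgebraic ℤ x :=
      (IsFractionRing.isAlgebraic_iff ℤ ℚ K).mpr (Algebra.IsAlgebraic.isAlgebraic x)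
    obtain ⟨y, hy0, hy⟩ := h1.exists_integral_multiple
    have hy0' : (y : K) ≠ 0 := by exact_mod_cast hy0
    refine ⟨y • x, y, hy0', by rw [zsmul_eq_mul]; field_simp, ?_⟩
    filter_upwards [eventually_poly_le_exp (NumberField.house (y • x)) 0,
      eventually_poly_le_exp |(y : ℝ)| 0] with m h2 h3
    rw [pow_zero, mul_one] at h2 h3
    exact ⟨⟨hy, fun σ => (NumberField.norm_embedding_le_house _ σ).trans h2⟩, Sz.intCast _ h3⟩
  obtain ⟨η, β, hβ, h1, h2⟩ := key ⟨u, subset_adjoin _ _ (by simp)⟩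
  obtain ⟨τ, a, ha, h3, h4⟩ := key ⟨Complex.exp u, subset_adjoin _ _ (by simp)⟩
  obtain ⟨m, ⟨⟨h5, h6⟩, h7, h8⟩, h9, h10, h11⟩ := ((h2.and h4).and
    ((eventually_poly_le_exp (2 ^ 32 * (Module.finrank ℚ K) ^ 6) 6).and
      ((eventually_ge_atTop 1).and (tendsto_natCast_atTop_atTop.eventually_ge_atTop ‖u‖)))).exists
  have hu' : K.val.toRingHom (η / β) = u := by rw [← h1]; rfl
  have ht' : K.val.toRingHom (τ / a) = Complex.exp u := by rw [← h3]; rfl
  have := hl_measure K.val.toRingHom (d := Module.finrank ℚ K) (h := m) (lam := m) le_rfl h10 le_rfl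
    (by refine le_trans (le_of_eq ?_) h9; ring) h5 h6 h7 h8 hβ ha (by
      rintro rfl
      apply hu
      rw [← hu']; simp) (by rwa [hu'])
  rw [hu', ht', sub_self, norm_zero] at this
  exact absurd this (not_lt.mpr (Real.exp_nonneg _))

section

variable {K : Type*} [Field K] [NumberField K]

omit [NumberField K] in
lemma sz_of_root {G : ℤ[X]} {N : ℕ} (hN : G.natDegree ≤ N) {Hc lam : ℝ}
    (hG : ∀ i, |(G.coeff i : ℝ)| ≤ Hc) (hH : (N + 1) * Hc ≤ Real.exp lam) [CharZero K] {t : K}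
    (ht : aeval t G = 0) :
    Sz (G.leadingCoeff : K) (Real.exp lam) ∧ Sz (G.leadingCoeff * t) (Real.exp lam) := by
  have hH0 : 0 ≤ Hc := (abs_nonneg _).trans (hG 0)
  have hN0 : (0 : ℝ) ≤ N := Nat.cast_nonneg _
  refine ⟨Sz.intCast _ ((hG _).trans (by nlinarith)), ?_⟩
  have h1 := Sz.root (G.map (Int.castRingHom K)) (x := t) (by rw [eval_map]; exact ht) (B := Hc)
    fun i => by rw [coeff_map]; exact Sz.intCast _ (hG i)
  rw [leadingCoeff_map_of_injective (Int.castRingHom K).injective_int,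
    natDegree_map_eq_of_injective (Int.castRingHom K).injective_int] at h1
  refine h1.mono (le_trans ?_ hH)
  gcongr

omit [NumberField K] in
lemma sz_of_root' {G b : ℤ[X]} (hG0 : G ≠ 0) {N : ℕ} (hN : G.natDegree ≤ N)
    (hbN : b.natDegree ≤ N) {Hc lam : ℝ}
    (hG : ∀ i, |(G.coeff i : ℝ)| ≤ Hc) (hb : ∀ i, |(b.coeff i : ℝ)| ≤ Hc)
    (hH : (N + 1) * Hc ≤ Real.exp lam) [CharZero K] {t : K} (ht : aeval t G = 0) :
    Sz ((G.leadingCoeff : K) ^ N * aeval t b) (Real.exp ((N + 1) * lam)) := by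
  obtain ⟨h1, h2⟩ := sz_of_root hN hG hH ht
  have ha : (G.leadingCoeff : K) ≠ 0 := by exact_mod_cast leadingCoeff_ne_zero.mpr hG0
  have h3 := Sz.homog b hbN hb h2 h1 ha
  rw [mul_div_cancel_left₀ _ ha] at h3
  refine h3.mono ?_
  rw [← mul_assoc, ← Real.exp_nat_mul, add_mul _ _ lam, one_mul, add_comm _ lam, Real.exp_add]
  gcongr

end

lemma aeval_coe (K : IntermediateField ℚ ℂ) (t : K) (b : ℤ[X]) :
    ((aeval t b : K) : ℂ) = aeval (t : ℂ) b :=
  (aeval_algHom_apply K.val.toRingHom.toIntAlgHom t b).symm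

lemma lower_bound {G b : ℤ[X]} (hG0 : G ≠ 0) {N : ℕ} (hN : G.natDegree ≤ N)
    (hbN : b.natDegree ≤ N) {Hc lam : ℝ} (hlam : 0 ≤ lam)
    (hG : ∀ i, |(G.coeff i : ℝ)| ≤ Hc) (hb : ∀ i, |(b.coeff i : ℝ)| ≤ Hc)
    (hH : (N + 1) * Hc ≤ Real.exp lam) {t : ℂ} (ht : aeval t G = 0) (hb0 : aeval t b ≠ 0) :
    Real.exp (-(N * ((N + 2) * lam))) ≤ ‖aeval t b‖ := by
  obtain ⟨hfin, hrank⟩ := finrank_adjoin_le (F := ℚ) (x := t) (P := G.map (Int.castRingHom ℚ))
    ((Polynomial.map_ne_zero_iff (Int.castRingHom ℚ).injective_int).mpr hG0)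
    (by rw [← ht]; exact aeval_map_algebraMap ℚ t G)
  have := numberField_of _ hfin
  let t' : ℚ⟮t⟯ := ⟨t, mem_adjoin_simple_self ℚ t⟩
  have ht' : aeval t' G = 0 := Subtype.ext (by rw [aeval_coe]; exact ht)
  have h1 := sz_of_root' hG0 hN hbN hG hb hH ht'
  have ha : (G.leadingCoeff : ℚ⟮t⟯) ≠ 0 := by exact_mod_cast leadingCoeff_ne_zero.mpr hG0
  have h2 := h1.liouville (mul_ne_zero (pow_ne_zero _ ha) fun h0 => hb0 (by
      rw [← aeval_coe _ t', h0]; rfl)) (Real.one_le_exp (by positivity)) (d := N)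
    (hrank.trans (natDegree_map_le.trans (by omega))) ℚ⟮t⟯.val.toRingHom
  have h3 : ‖ℚ⟮t⟯.val.toRingHom ((G.leadingCoeff : ℚ⟮t⟯) ^ N * aeval t' b)‖ ≤
      Real.exp (N * lam) * ‖aeval t b‖ := by
    rw [map_mul, norm_mul, map_pow, norm_pow]
    refine mul_le_mul (pow_le_exp ((sz_of_root hN hG hH ht').1.2 _) (norm_nonneg _) hlam le_rfl)
      (le_of_eq ?_) (norm_nonneg _) (by positivity)
    rw [← aeval_coe _ t']; rfl
  have h4 := h2.trans (mul_le_mul_of_nonneg_right h3 (by positivity))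
  rw [Real.exp_neg, inv_le_iff_one_le_mul₀ (Real.exp_pos _)]
  refine h4.trans (le_of_eq ?_)
  rw [← Real.exp_nat_mul, mul_right_comm, ← Real.exp_add, mul_comm]
  congr 2
  ring

theorem step2 {G : ℤ[X]} (hG0 : G ≠ 0) (b : ℕ → ℤ[X]) {N D lam : ℕ} (hN : G.natDegree ≤ N)
    (hbN : ∀ j, (b j).natDegree ≤ N) {Hc δ : ℝ} (hlam : 1 ≤ lam)
    (hG : ∀ i, |(G.coeff i : ℝ)| ≤ Hc) (hb : ∀ j i, |((b j).coeff i : ℝ)| ≤ Hc)
    (hH : (N + 1) * Hc ≤ Real.exp lam) (hD : (D : ℝ) + 1 ≤ Real.exp lam)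
    {t u : ℂ} (ht : aeval t G = 0) (hu : ‖u‖ + 1 ≤ lam) (hδ0 : 0 ≤ δ) (hδ1 : δ ≤ 1)
    (hδu : δ ≤ ‖u‖) (hclose : ‖t - Complex.exp u‖ ≤ δ)
    (hsmall : ‖∑ j ∈ Finset.range (D + 1), aeval t (b j) * u ^ j‖ <
      Real.exp (-(N * ((N + 2) * lam))) * δ ^ D)
    (hpar : (2 : ℝ) ^ 32 * (N * D : ℕ) ^ 6 * ((N + 2) * lam : ℕ) * lam ^ 5 ≤ Real.exp lam)
    (htiny : δ * (1 + 2 * Real.exp lam) ≤
      Real.exp (-(2 ^ 28 * (N * D : ℕ) ^ 5 * ((N + 2) * lam : ℕ) * lam ^ 4))) :
    ∀ j ≤ D, aeval t (b j) = 0 := by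
  have hpoly : ∀ {R : Type} [CommRing R] (c : ℕ → R) (i : ℕ),
      (∑ j ∈ Finset.range (D + 1), monomial j (c j)).coeff i = if i ≤ D then c i else 0 := by
    intro R _ c i
    simp only [finsetSum_coeff, coeff_monomial, Finset.sum_ite_eq', Finset.mem_range,
      Nat.lt_succ_iff]
  have hdeg : ∀ {R : Type} [CommRing R] (c : ℕ → R),
      (∑ j ∈ Finset.range (D + 1), monomial j (c j)).natDegree ≤ D := by
    intro R _ c
    rw [natDegree_le_iff_coeff_eq_zero]
    intro i hi
    rw [hpoly, if_neg (by omega)]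
  by_contra hcon
  push Not at hcon
  obtain ⟨j0, hj0, hj0'⟩ := hcon
  set g : ℂ[X] := ∑ j ∈ Finset.range (D + 1), monomial j (aeval t (b j)) with hg
  have hg0 : g ≠ 0 := fun h0 => hj0' (by
    have := hpoly (fun j => aeval t (b j)) j0
    rw [← hg, h0, if_pos hj0] at this
    exact this.symm)
  have hlead : g.leadingCoeff = aeval t (b g.natDegree) := by
    rw [leadingCoeff]; nth_rewrite 1 [hg]; rw [hpoly, if_pos (hdeg _)]
  have hlow := lower_bound hG0 hN (hbN g.natDegree) (Nat.cast_nonneg lam) hG (hb _) hH ht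
    (by rw [← hlead]; exact leadingCoeff_ne_zero.mpr hg0)
  have hgeval : ∀ x, g.eval x = ∑ j ∈ Finset.range (D + 1), aeval t (b j) * x ^ j := by
    intro x; simp [hg, eval_finsetSum]
  obtain ⟨u0, hu0, hu0'⟩ := exists_root_near g (hdeg _) hδ0 hδ1 (t := u) (by
    rw [hgeval, hlead]
    exact hsmall.trans_le (mul_le_mul_of_nonneg_right hlow (by positivity)))
  obtain ⟨hfin, hrank⟩ := finrank_adjoin_le (F := ℚ) (x := t) (P := G.map (Int.castRingHom ℚ))
    ((Polynomial.map_ne_zero_iff (Int.castRingHom ℚ).injective_int).mpr hG0)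
    (by rw [← ht]; exact aeval_map_algebraMap ℚ t G)
  let t' : ℚ⟮t⟯ := ⟨t, mem_adjoin_simple_self ℚ t⟩
  let g0 : ℚ⟮t⟯[X] := ∑ j ∈ Finset.range (D + 1), monomial j (aeval t' (b j))
  have hg0map : g0.map (algebraMap ℚ⟮t⟯ ℂ) = g := by
    simp only [g0, hg, Polynomial.map_sum, map_monomial]
    exact Finset.sum_congr rfl fun j _ => by rw [← aeval_coe _ t']; rfl
  obtain ⟨hfin2, hrank2⟩ := finrank_adjoin_le (F := ℚ⟮t⟯) (x := u0) (P := g0)
    (by rintro h0; rw [h0] at hg0map; exact hg0 (by simpa using hg0map.symm))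
    (by rw [aeval_def, ← eval_map, hg0map, hu0])
  let K : IntermediateField ℚ ℂ := (ℚ⟮t⟯⟮u0⟯).restrictScalars ℚ
  have hfinK : FiniteDimensional ℚ K := Module.Finite.trans (R := ℚ) ℚ⟮t⟯ ℚ⟮t⟯⟮u0⟯
  have hrankK : Module.finrank ℚ K ≤ N * D := by
    have h1 : Module.finrank ℚ K = Module.finrank ℚ ℚ⟮t⟯ * Module.finrank ℚ⟮t⟯ ℚ⟮t⟯⟮u0⟯ :=
      (Module.finrank_mul_finrank ℚ ℚ⟮t⟯ ℚ⟮t⟯⟮u0⟯).symm
    rw [h1]
    exact Nat.mul_le_mul (hrank.trans (natDegree_map_le.trans hN)) (hrank2.trans (hdeg _))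
  have := numberField_of K hfinK
  let tK : K := ⟨t, (ℚ⟮t⟯⟮u0⟯).algebraMap_mem t'⟩
  let uK : K := ⟨u0, mem_adjoin_simple_self ℚ⟮t⟯ u0⟩
  have htK : aeval tK G = 0 := Subtype.ext (by rw [aeval_coe]; exact ht)
  have ha : (G.leadingCoeff : K) ≠ 0 := by exact_mod_cast leadingCoeff_ne_zero.mpr hG0
  let P : K[X] := ∑ j ∈ Finset.range (D + 1),
    monomial j ((G.leadingCoeff : K) ^ N * aeval tK (b j))
  have hPc : ∀ i, Sz (P.coeff i) (Real.exp ((N + 1) * lam)) := by
    intro i
    rw [hpoly]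
    split_ifs
    · exact sz_of_root' hG0 hN (hbN i) hG (hb i) hH htK
    · simpa using Sz.intCast (K := K) 0 (B := Real.exp ((N + 1) * lam)) (by simp [Real.exp_nonneg])
  have hP0 : P ≠ 0 := fun h0 => hj0' (by
    have := hpoly (fun j => (G.leadingCoeff : K) ^ N * aeval tK (b j)) j0
    rw [if_pos hj0] at this
    change P.coeff j0 = _ at this
    rw [h0, coeff_zero] at this
    have h2 := (mul_eq_zero.mp this.symm).resolve_left (pow_ne_zero _ ha)
    rw [← aeval_coe _ tK, h2]; rfl)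
  have hPu : P.eval uK = 0 := by
    have h1 : P.eval uK = (G.leadingCoeff : K) ^ N *
        ∑ j ∈ Finset.range (D + 1), aeval tK (b j) * uK ^ j := by
      simp [P, eval_finsetSum, Finset.mul_sum, mul_assoc]
    have h2 : ∑ j ∈ Finset.range (D + 1), aeval tK (b j) * uK ^ j = 0 := by
      apply Subtype.ext
      rw [hgeval] at hu0
      refine Eq.trans ?_ hu0
      push_cast
      exact Finset.sum_congr rfl fun j _ => by rw [aeval_coe]
    rw [h1, h2, mul_zero]
  have hh : ((N : ℝ) + 1) * lam + lam = ((N + 2) * lam : ℕ) := by push_cast; ring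
  have hη : Sz (P.leadingCoeff * uK) (Real.exp ((N + 2) * lam : ℕ)) := by
    refine (Sz.root P hPu hPc).mono ?_
    rw [← hh, mul_comm]
    refine mul_le_exp le_rfl (le_trans ?_ hD) (by positivity)
    have : P.natDegree ≤ D := hdeg _
    gcongr
  have hβ : Sz P.leadingCoeff (Real.exp ((N + 2) * lam : ℕ)) := by
    refine (hPc _).mono (Real.exp_le_exp.mpr ?_)
    rw [← hh]; linarith [Nat.cast_nonneg (α := ℝ) lam]
  have hβ0 : P.leadingCoeff ≠ 0 := leadingCoeff_ne_zero.mpr hP0
  have hu00 : u0 ≠ 0 := by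
    rintro rfl
    rw [sub_zero] at hu0'
    linarith
  obtain ⟨h1, h2⟩ := sz_of_root hN hG hH htK
  have hq1 : K.val.toRingHom (P.leadingCoeff * uK / P.leadingCoeff) = u0 := by
    rw [mul_div_cancel_left₀ _ hβ0]; rfl
  have hq2 : K.val.toRingHom (G.leadingCoeff * tK / G.leadingCoeff) = t := by
    rw [mul_div_cancel_left₀ _ ha]; rfl
  have hu0n : ‖u0‖ ≤ lam := by
    have := norm_sub_norm_le u0 u
    rw [norm_sub_rev] at this
    linarith
  have hm := hl_measure K.val.toRingHom hrankK hlam (by nlinarith) hpar hη hβ h2 h1 hβ0 ha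
    (mul_ne_zero hβ0 fun h0 => hu00 (congrArg Subtype.val h0)) (by rwa [hq1])
  rw [hq1, hq2] at hm
  have h3 : ‖Complex.exp u - Complex.exp u0‖ ≤ Real.exp lam * (2 * δ) := by
    have h4 : Complex.exp u - Complex.exp u0 = Complex.exp u0 * (Complex.exp (u - u0) - 1) := by
      rw [mul_sub, ← Complex.exp_add]; simp
    rw [h4, norm_mul]
    refine mul_le_mul ((Complex.norm_exp_le_exp_norm _).trans (Real.exp_le_exp.mpr hu0n))
      ((Complex.norm_exp_sub_one_le (by linarith)).trans (by linarith)) (norm_nonneg _)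
      (by positivity)
  have h5 := norm_add_le (t - Complex.exp u) (Complex.exp u - Complex.exp u0)
  rw [sub_add_sub_cancel] at h5
  linarith

end Pool.Agent.Lib.MP_12eca1_ag
end
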